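import Pool.Agent.Y677.RSZ.FinInst
import Pool.Agent.TH977.PW.Inst

set_option autoImplicit false

/-!
# Arbitrary sets of prime tuples: narrow progressions and regular points (common definitions)
-/

namespace Pool.Agent.Q25.Arb

open Finset Filter

/-- `n` is a term of an `l`-term arithmetic progression contained in `A ∩ (u, v]`, with difference at most `D` -/
def OnProgression (A : Set ℕ) (l : ℕ) (D : ℝ) (u v n : ℕ) : Prop :=
  ∃ m d : ℕ, 1 ≤ d ∧ (d : ℝ) ≤ D ∧ (∀ i < l, m + i * d ∈ A ∧ u < m + i * d ∧ m + i * d ≤ v) ∧ ∃ i < l, n = m + i * d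

/-- all elements of `A` in `(u, v]` with at most `t` exceptions are terms of such progressions -/
def NearlyAll (A : Set ℕ) (l : ℕ) (D : ℝ) (u v : ℕ) (t : ℝ) : Prop :=
  ({n : ℕ | u < n ∧ n ≤ v ∧ n ∈ A ∧ ¬ OnProgression A l D u v n}.ncard : ℝ) ≤ t

open Classical in
/-- the number of the elements of `A` in `(u, v]` -/
noncomputable def N (A : Set ℕ) (u v : ℕ) : ℕ := ((Ioc u v).filter (fun m => m ∈ A)).card

/-- All intervals `(n - s, n + t]` with `s, t ≤ Y` of length at least `(log X) ^ k / c` contain the right order of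
elements of `A`. -/
def RightOrder (A : Set ℕ) (k : ℕ) (c : ℝ) (X Y n : ℕ) : Prop :=
  ∀ s t : ℕ, s ≤ Y → t ≤ Y → Real.log X ^ k ≤ c * (s + t) →
    c * (s + t) / Real.log X ^ k ≤ N A (n - s) (n + t) ∧
      (N A (n - s) (n + t) : ℝ) ≤ (s + t) / (c * Real.log X ^ k)

/-- Up to `δ`, `A` has a constant density on both sides of `n` up to the distance `2 ^ j`. -/
def ConstantDensity (A : Set ℕ) (k : ℕ) (c δ : ℝ) (X n j : ℕ) : Prop :=
  ∃ lam : ℝ, c ≤ lam ∧ lam ≤ 1 / c ∧ ∀ s t : ℕ, s ≤ 2 ^ j → t ≤ 2 ^ j →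
    |(N A (n - s) (n + t) : ℝ) - lam * (s + t) / Real.log X ^ k| ≤ δ * 2 ^ j / Real.log X ^ k

open Classical in
/-- the number of the scales `(log X) ^ k ≤ 2 ^ j ≤ Y` without this property -/
noncomputable def badScales (A : Set ℕ) (k : ℕ) (c δ : ℝ) (X Y n : ℕ) : ℕ :=
  ((range (Nat.log 2 Y + 1)).filter (fun j => Real.log X ^ k ≤ (2 : ℝ) ^ j ∧ ¬ ConstantDensity A k c δ X n j)).card

/-- The elements of `A` that are not regular points of `A`. -/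
def Irregular (A : Set ℕ) (k : ℕ) (c δ : ℝ) (B X Y : ℕ) : Set ℕ :=
  {n | n ∈ A ∧ ¬ (RightOrder A k c X Y n ∧ badScales A k c δ X Y n ≤ B)}

lemma N_eq : N = Pool.Agent.TH977.PW.N := by
  funext A u v
  unfold N Pool.Agent.TH977.PW.N
  rfl

lemma RightOrder_iff (A : Set ℕ) (k : ℕ) (c : ℝ) (X Y m : ℕ) :
    RightOrder A k c X Y m ↔ Pool.Agent.TH977.PW.RightOrder A k c X Y m := by
  unfold RightOrder Pool.Agent.TH977.PW.RightOrder
  simp only [N_eq]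

lemma ConstantDensity_iff (A : Set ℕ) (k : ℕ) (c δ : ℝ) (X m j : ℕ) :
    ConstantDensity A k c δ X m j ↔ Pool.Agent.TH977.PW.ConstantDensity A k c δ X m j := by
  unfold ConstantDensity Pool.Agent.TH977.PW.ConstantDensity
  simp only [N_eq]

open Classical in
lemma badScales_eq (A : Set ℕ) (k : ℕ) (c δ : ℝ) (X Y m : ℕ) :
    badScales A k c δ X Y m = Pool.Agent.TH977.PW.badScales A k c δ X Y m := by
  unfold badScales Pool.Agent.TH977.PW.badScales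
  refine congrArg card (Finset.ext fun j => ?_)
  simp only [mem_filter, ConstantDensity_iff]

lemma Irregular_eq (A : Set ℕ) (k : ℕ) (c δ : ℝ) (B X Y : ℕ) :
    Irregular A k c δ B X Y = Pool.Agent.TH977.PW.Irregular A k c δ B X Y := by
  unfold Irregular Pool.Agent.TH977.PW.Irregular
  simp only [RightOrder_iff, badScales_eq]

open Classical in
lemma out_eq (A : Set ℕ) (l : ℕ) (D : ℝ) (u v : ℕ) :
    ({n : ℕ | u < n ∧ n ≤ v ∧ n ∈ A ∧ ¬ OnProgression A l D u v n}.ncard : ℝ) =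
      (Pool.Agent.TH977.PW.N (Pool.Agent.Y677.RSZ.Outside A l D u v) u v : ℝ) := by
  unfold Pool.Agent.TH977.PW.N
  rw [← Set.ncard_coe_finset]
  congr 2
  ext n
  rw [mem_coe, mem_filter, mem_Ioc]
  constructor
  · rintro ⟨h1, h2, h3, h4⟩
    exact ⟨⟨h1, h2⟩, h3, h4⟩
  · rintro ⟨⟨h1, h2⟩, h3, h4⟩
    exact ⟨h1, h2, h3, h4⟩

/-- weakening -/
lemma NearlyAll.mono {A : Set ℕ} {l u v : ℕ} {D D' t t' : ℝ} (h : NearlyAll A l D u v t) (hD : D ≤ D') (ht : t ≤ t') :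
    NearlyAll A l D' u v t' := by
  unfold NearlyAll at h ⊢
  refine le_trans ?_ (h.trans ht)
  have h1 : {n : ℕ | u < n ∧ n ≤ v ∧ n ∈ A ∧ ¬ OnProgression A l D' u v n} ⊆
      {n : ℕ | u < n ∧ n ≤ v ∧ n ∈ A ∧ ¬ OnProgression A l D u v n} := by
    rintro n ⟨h1, h2, h3, h4⟩
    refine ⟨h1, h2, h3, fun h5 => h4 ?_⟩
    obtain ⟨m, d, g1, g2, g3⟩ := h5
    exact ⟨m, d, g1, g2.trans hD, g3⟩
  exact_mod_cast Set.ncard_le_ncard h1 ((Set.finite_Iic v).subset (fun n hn => hn.2.1))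

lemma adm' {H : Finset ℕ} (hadm : ∀ p : ℕ, p.Prime → ∃ r : ℕ, r < p ∧ ∀ h ∈ H, h % p ≠ r) (p : ℕ) (hp : p.Prime) :
    ∃ m : ℕ, ∀ h ∈ H, ¬ p ∣ m + h := by
  obtain ⟨r, hr, h⟩ := hadm p hp
  refine ⟨p - r, fun x hx hd => h x hx ?_⟩
  have h1 : (p - r + x) % p = 0 := Nat.mod_eq_zero_of_dvd hd
  have h2 := Nat.div_add_mod x p
  have h3 := Nat.mod_lt x hp.pos
  obtain ⟨c, hc⟩ := hd
  -- `x - r` is a multiple of `p`
  have h4 : (p : ℤ) ∣ (x : ℤ) - r := by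
    refine ⟨(c : ℤ) - 1, ?_⟩
    have h5 : (p : ℤ) - r + x = p * c := by
      have h6 : ((p - r + x : ℕ) : ℤ) = ((p * c : ℕ) : ℤ) := by rw [hc]
      push_cast [hr.le] at h6
      exact h6
    linarith
  have h5 : ((x : ℕ) : ℤ) % p = (r : ℤ) % p := Int.emod_eq_emod_iff_emod_sub_eq_zero.2 (Int.emod_eq_zero_of_dvd h4)
  have h6 : x % p = r % p := by exact_mod_cast h5
  rw [h6, Nat.mod_eq_of_lt hr]

/-- prime values are rough -/
lemma rough (H : Finset ℕ) (r m : ℕ) (hr : 2 ≤ r) (hm : ∀ h ∈ H, (m + h).Prime) (h : ℕ) (hh : h ∈ H) (p : ℕ)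
    (hp : p.Prime) (hd : p ∣ m + h) : (m : ℝ) ^ (1 / (r : ℝ)) < (p : ℝ) := by
  have h1 : p = m + h := (Nat.prime_dvd_prime_iff_eq hp (hm h hh)).1 hd
  rcases Nat.lt_or_ge m 2 with h3 | h3
  · rcases Nat.eq_zero_or_pos m with h0 | h0
    · subst h0
      rw [Nat.cast_zero, Real.zero_rpow (by
        have : (0 : ℝ) < r := by exact_mod_cast (by omega : 0 < r)
        positivity)]
      exact_mod_cast hp.pos
    · have h4 : m = 1 := by omega
      subst h4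
      rw [Nat.cast_one, Real.one_rpow]
      exact_mod_cast hp.one_lt
  · exact Pool.Agent.TH977.PW.rpow_lt_of_le r m p hr h3 (by omega)

/-- narrow progressions in arbitrary sets of prime tuples -/
theorem narrow (H : Finset ℕ) (hne : H.Nonempty)
    (hadm : ∀ p : ℕ, p.Prime → ∃ r : ℕ, r < p ∧ ∀ h ∈ H, h % p ≠ r) (k : ℕ) (hk : H.card = k)
    (θ : ℝ) (hθ : 0 < θ) (hθ1 : θ ≤ 1) (l : ℕ) (hl : 2 ≤ l) (ε : ℝ) (hε : 0 < ε) :
    ∃ B : ℕ, ∀ᶠ X : ℕ in atTop, ∀ Y : ℕ, (X : ℝ) ^ θ ≤ Y → Y ≤ X → ∀ A : Set ℕ,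
      (∀ n ∈ A, ∀ h ∈ H, (n + h).Prime) →
        NearlyAll A l (Real.log X ^ B) X (X + Y) (ε * (Y / Real.log X ^ k)) := by
  obtain ⟨r0, hr0, h⟩ := Pool.Agent.Y677.RSZ.narrow_prog H hne 1 0 one_pos (fun _ _ => Nat.coprime_one_right _)
    (adm' hadm) (fun _ => {n | ∀ h ∈ H, (n + h).Prime}) (fun _ => Set.univ) k hk
    (fun r m hr hm h hh p hp hd => rough H r m hr hm h hh p hp hd)
    (fun r _ => Eventually.of_forall fun m _ _ _ => Set.mem_univ m) θ hθ hθ1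
  obtain ⟨B, hB⟩ := (h r0 le_rfl).2 l hl ε hε
  refine ⟨B, ?_⟩
  filter_upwards [hB] with X hX Y hXY hYX A hA
  have h1 := hX Y hXY hYX A (fun n hn => hA n hn)
  unfold NearlyAll
  rw [out_eq]
  calc _ ≤ ε * Y / Real.log X ^ k := h1
    _ = _ := by ring

/-- regular points of arbitrary sets of prime tuples -/
theorem regular (H : Finset ℕ) (hne : H.Nonempty)
    (hadm : ∀ p : ℕ, p.Prime → ∃ r : ℕ, r < p ∧ ∀ h ∈ H, h % p ≠ r) (k : ℕ) (hk : H.card = k)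
    (θ : ℝ) (hθ : 0 < θ) (hθ1 : θ ≤ 1) (ε : ℝ) (hε : 0 < ε) :
    ∃ c : ℝ, 0 < c ∧ ∀ δ : ℝ, 0 < δ → ∃ B : ℕ, ∀ᶠ X : ℕ in atTop, ∀ Y : ℕ,
      (X : ℝ) ^ θ ≤ Y → 2 * Y ≤ X → ∀ A : Set ℕ, (∀ n ∈ A, ∀ h ∈ H, (n + h).Prime) →
        (N (Irregular A k c δ B X Y) X (X + Y) : ℝ) ≤ ε * (Y / Real.log X ^ k) := by
  have : Nonempty {x // x ∈ H} := ⟨⟨hne.choose, hne.choose_spec⟩⟩
  have hcast : ∀ (t h : ℕ), ((1 : ℕ) : ℤ) * (t : ℤ) + ((h : ℕ) : ℤ) = ((t + h : ℕ) : ℤ) := by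
    intro t h
    push_cast
    ring
  obtain ⟨r0, hr0, h1⟩ := Pool.Agent.TH977.PW.final_lin (fun _ : {x // x ∈ H} => 1)
    (fun i : {x // x ∈ H} => ((i.1 : ℕ) : ℤ)) (fun _ => one_pos)
    (fun i => by rw [Nat.cast_one]; exact isCoprime_one_left)
    (fun i j _ hij => Subtype.ext (by exact_mod_cast hij))
    (fun p hp => by
      obtain ⟨m, hm⟩ := adm' hadm p hp
      refine ⟨m, fun i hi => hm i.1 i.2 ?_⟩
      rw [hcast, Int.natCast_dvd_natCast] at hi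
      exact hi)
    (fun _ => {n | ∀ h ∈ H, (n + h).Prime}) (fun _ => Set.univ) k (by rw [Fintype.card_coe, hk])
    (fun r m hr hm i p hp hd => rough H r m hr hm i.1 i.2 p hp (by
      rw [hcast, Int.natCast_dvd_natCast] at hd
      exact hd)) (fun _ _ _ _ _ => Set.mem_univ _) θ hθ hθ1
  obtain ⟨c, hc, h2⟩ := (h1 r0 le_rfl).2 ε hε
  refine ⟨c, hc, fun δ hδ => ?_⟩
  obtain ⟨B, h3⟩ := h2 δ hδ
  refine ⟨B, ?_⟩
  filter_upwards [h3] with X hX Y hXY hYX A hA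
  have h4 := hX Y hXY hYX A (fun n hn => hA n hn)
  rw [N_eq, Irregular_eq]
  calc _ ≤ ε * Y / Real.log X ^ k := h4
    _ = _ := by ring

/-- between consecutive powers -/
theorem narrow_pow (H : Finset ℕ) (hne : H.Nonempty)
    (hadm : ∀ p : ℕ, p.Prime → ∃ r : ℕ, r < p ∧ ∀ h ∈ H, h % p ≠ r) (k : ℕ) (hk : H.card = k) (j : ℕ) (hj : 2 ≤ j)
    (l : ℕ) (hl : 2 ≤ l) (ε : ℝ) (hε : 0 < ε) :
    ∃ B : ℕ, ∀ᶠ n : ℕ in atTop, ∀ A : Set ℕ, (∀ m ∈ A, ∀ h ∈ H, (m + h).Prime) →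
      NearlyAll A l (Real.log n ^ B) (n ^ j) ((n + 1) ^ j) (ε * (n ^ (j - 1) / Real.log n ^ k)) := by
  have hj0 : (0 : ℝ) < j := by exact_mod_cast (by omega : 0 < j)
  obtain ⟨B, hB⟩ := narrow H hne hadm k hk (((j - 1 : ℕ) : ℝ) / j) (by
    have : (0 : ℝ) < ((j - 1 : ℕ) : ℝ) := by exact_mod_cast (by omega : 0 < j - 1)
    positivity) (by
    rw [div_le_one hj0]
    exact_mod_cast Nat.sub_le j 1) l hl (ε / 2 ^ j) (by positivity)
  refine ⟨B + 1, ?_⟩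
  have htend : Tendsto (fun n : ℕ => n ^ j) atTop atTop := tendsto_pow_atTop (by omega)
  have hlog : Tendsto (fun n : ℕ => Real.log n) atTop atTop := Real.tendsto_log_atTop.comp tendsto_natCast_atTop_atTop
  filter_upwards [htend.eventually hB, hlog.eventually_ge_atTop ((j : ℝ) ^ B + 1), eventually_ge_atTop (2 ^ j + 1)] with
    n hn hl1 hn2 A hA
  have h2j : 1 ≤ 2 ^ j := Nat.one_le_two_pow
  have hn0 : 0 < n := by omega
  have hpow : n ^ j = n * n ^ (j - 1) := by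
    rw [← pow_succ', Nat.sub_add_cancel (by omega)]
  -- upper bound for the length
  have hup : (n + 1) ^ j ≤ n ^ j + 2 ^ j * n ^ (j - 1) := by
    have key : ∀ i : ℕ, (n + 1) ^ (i + 1) ≤ n ^ (i + 1) + (2 ^ (i + 1) - 1) * n ^ i := by
      intro i
      induction i with
      | zero => simp
      | succ i ih =>
        have e : 2 ^ (i + 1 + 1) - 1 = 2 * (2 ^ (i + 1) - 1) + 1 := by
          have : 1 ≤ 2 ^ (i + 1) := Nat.one_le_two_pow
          rw [pow_succ 2 (i + 1)]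
          omega
        rw [e]
        generalize 2 ^ (i + 1) - 1 = c at ih ⊢
        calc (n + 1) ^ (i + 1 + 1) = (n + 1) ^ (i + 1) * (n + 1) := pow_succ _ _
          _ ≤ (n ^ (i + 1) + c * n ^ i) * (n + 1) := Nat.mul_le_mul_right _ ih
          _ = n ^ (i + 1 + 1) + n ^ (i + 1) + c * n ^ (i + 1) + c * n ^ i := by ring
          _ ≤ n ^ (i + 1 + 1) + n ^ (i + 1) + c * n ^ (i + 1) + c * n ^ (i + 1) := by
            have h7 : n ^ i ≤ n ^ (i + 1) := Nat.pow_le_pow_right hn0 (Nat.le_succ i)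
            have h8 := Nat.mul_le_mul_left c h7
            omega
          _ = _ := by ring
    have h9 := key (j - 1)
    rw [Nat.sub_add_cancel (by omega)] at h9
    have h10 : (2 ^ j - 1) * n ^ (j - 1) ≤ 2 ^ j * n ^ (j - 1) := Nat.mul_le_mul_right _ (Nat.sub_le _ _)
    omega
  have hlow : n ^ j + n ^ (j - 1) ≤ (n + 1) ^ j := by
    have e : (n + 1) ^ j = (n + 1) * (n + 1) ^ (j - 1) := by
      rw [← pow_succ', Nat.sub_add_cancel (by omega)]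
    rw [e, hpow]
    have h7 : n ^ (j - 1) ≤ (n + 1) ^ (j - 1) := Nat.pow_le_pow_left (Nat.le_succ n) _
    have h8 := Nat.mul_le_mul_left (n + 1) h7
    calc n * n ^ (j - 1) + n ^ (j - 1) = (n + 1) * n ^ (j - 1) := by ring
      _ ≤ _ := h8
  obtain ⟨Y, hY⟩ : ∃ Y, Y = (n + 1) ^ j - n ^ j := ⟨_, rfl⟩
  have hY1 : n ^ j + Y = (n + 1) ^ j := by omega
  have hYlow : n ^ (j - 1) ≤ Y := by omega
  have hYup : Y ≤ 2 ^ j * n ^ (j - 1) := by omega
  have hYX : Y ≤ n ^ j := by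
    rw [hpow]
    exact hYup.trans (Nat.mul_le_mul_right _ (by omega))
  have hθY : (((n ^ j : ℕ)) : ℝ) ^ (((j - 1 : ℕ) : ℝ) / j) ≤ Y := by
    have e : (((n ^ j : ℕ)) : ℝ) ^ (((j - 1 : ℕ) : ℝ) / j) = (n : ℝ) ^ (j - 1) := by
      rw [Nat.cast_pow, ← Real.rpow_natCast, ← Real.rpow_mul (Nat.cast_nonneg _), mul_div_cancel₀ _ hj0.ne',
        Real.rpow_natCast]
    rw [e]
    exact_mod_cast hYlow
  have h1 := hn Y hθY hYX A hA
  rw [hY1] at h1
  have hlogn : 1 ≤ Real.log n := by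
    have : (0 : ℝ) ≤ (j : ℝ) ^ B := by positivity
    linarith
  have hlogX : Real.log ((n ^ j : ℕ) : ℝ) = j * Real.log n := by
    rw [Nat.cast_pow, Real.log_pow]
  refine h1.mono ?_ ?_
  · rw [hlogX, mul_pow, pow_succ']
    apply mul_le_mul_of_nonneg_right (by linarith) (by positivity)
  · rw [hlogX]
    have hj1 : (1 : ℝ) ≤ j := by exact_mod_cast (by omega : 1 ≤ j)
    have h2 : Real.log n ^ k ≤ (j * Real.log n) ^ k := by
      apply pow_le_pow_left₀ (by linarith)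
      nlinarith
    have h3 : (Y : ℝ) ≤ 2 ^ j * (n : ℝ) ^ (j - 1) := by exact_mod_cast hYup
    have hp : 0 < Real.log n ^ k := by positivity
    calc ε / 2 ^ j * (Y / (j * Real.log n) ^ k) ≤ ε / 2 ^ j * ((2 ^ j * (n : ℝ) ^ (j - 1)) / Real.log n ^ k) := by
          apply mul_le_mul_of_nonneg_left _ (by positivity)
          exact div_le_div₀ (by positivity) h3 hp h2
      _ = ε * (n ^ (j - 1) / Real.log n ^ k) := by
          field_simp

end Pool.Agent.Q25.Arb
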