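import Pool.Agent.Q25.Arb

set_option autoImplicit false

/-!
# Arbitrary sets of rough tuples, and the existence of many consecutive rough tuples with a given pattern
-/

namespace Pool.Agent.Q25.Arb

open Finset Filter

/-- The numbers `n + h`, `h ∈ H`, have no prime factor `≤ n ^ (1 / r)`. -/
def RoughPattern (H : Finset ℕ) (r n : ℕ) : Prop :=
  ∀ h ∈ H, ∀ p : ℕ, p.Prime → p ∣ n + h → (n : ℝ) ^ (1 / (r : ℝ)) < p

/-- The numbers `n + h`, `h ∈ H`, have no prime factor `≤ n ^ (1 / r)`, and they are consecutive with this property: the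
other numbers `n + m` with `m` up to the maximum of `H` do have such a prime factor. -/
def ConsecutiveRough (H : Finset ℕ) (r n : ℕ) : Prop :=
  RoughPattern H r n ∧ ∀ m : ℕ, (∃ h ∈ H, m ≤ h) → m ∉ H → ∃ p : ℕ, p.Prime ∧ p ∣ n + m ∧ (p : ℝ) ≤ (n : ℝ) ^ (1 / (r : ℝ))

/-- all `n` in a suitable residue class have small prime factors of the other numbers -/
lemma exists_class (H : Finset ℕ) : ∃ M n0 : ℕ, 0 < M ∧ (∀ h ∈ H, Nat.Coprime (n0 + h) M) ∧
    ∀ n : ℕ, n % M = n0 % M → ∀ m : ℕ, (∃ h ∈ H, m ≤ h) → m ∉ H → ∃ p : ℕ, p.Prime ∧ p ∣ n + m ∧ p ≤ M := by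
  classical
  obtain ⟨S, hS⟩ : ∃ S, S = H.sup id + 1 := ⟨_, rfl⟩
  have hle : ∀ h ∈ H, h < S := by
    intro h hh
    have := Finset.le_sup (f := id) hh
    simp only [id] at this
    omega
  set q : ℕ → ℕ := fun m => Nat.nth Nat.Prime (S + m) with hq
  have hqp : ∀ m, (q m).Prime := fun m => Nat.prime_nth_prime _
  have hqS : ∀ m, S + m < q m := fun m => by
    have := Nat.add_two_le_nth_prime (S + m)
    simp only [hq]
    omega
  have hinj : ∀ a b, q a = q b → a = b := by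
    intro a b h
    have := (Nat.nth_injective Nat.infinite_setOf_prime) h
    omega
  set T : Finset ℕ := (range S).filter (fun m => m ∉ H) with hT
  have hcopq : Set.Pairwise (T : Set ℕ) (Function.onFun Nat.Coprime q) := by
    intro a _ b _ hab
    exact (Nat.coprime_primes (hqp a) (hqp b)).2 (fun h => hab (hinj a b h))
  obtain ⟨k, hk⟩ := Nat.chineseRemainderOfFinset (fun m => q m - m) q T (fun m _ => (hqp m).ne_zero) hcopq
  have hdk : ∀ m ∈ T, q m ∣ k + m := by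
    intro m hm
    have h1 : k + m ≡ (q m - m) + m [MOD q m] := Nat.ModEq.add_right m (hk m hm)
    have h2 : (q m - m) + m = q m := Nat.sub_add_cancel (by have := hqS m; omega)
    rw [h2] at h1
    exact (Nat.modEq_zero_iff_dvd).1 (h1.trans (Nat.modEq_zero_iff_dvd.2 dvd_rfl))
  refine ⟨∏ m ∈ T, q m, k, prod_pos fun m _ => (hqp m).pos, ?_, ?_⟩
  · intro h hh
    apply Nat.Coprime.prod_right
    intro m hm
    apply Nat.Coprime.symm
    rw [(hqp m).coprime_iff_not_dvd]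
    intro hd
    have h1 := hdk m hm
    have hmS : m < S := mem_range.1 (mem_filter.1 hm).1
    have hmH : m ∉ H := (mem_filter.1 hm).2
    have hhS := hle h hh
    have hqm := hqS m
    rcases lt_trichotomy m h with h2 | h2 | h2
    · have h3 : q m ∣ h - m := by
        have := Nat.dvd_sub hd h1
        have e : k + h - (k + m) = h - m := by omega
        rwa [e] at this
      have := Nat.le_of_dvd (by omega) h3
      omega
    · exact hmH (h2 ▸ hh)
    · have h3 : q m ∣ m - h := by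
        have := Nat.dvd_sub h1 hd
        have e : k + m - (k + h) = m - h := by omega
        rwa [e] at this
      have := Nat.le_of_dvd (by omega) h3
      omega
  · intro n hn m hm hmH
    obtain ⟨h, hh, hmh⟩ := hm
    have hhS := hle h hh
    have hmT : m ∈ T := mem_filter.2 ⟨mem_range.2 (by omega), hmH⟩
    have hdM : q m ∣ ∏ m ∈ T, q m := dvd_prod_of_mem q hmT
    refine ⟨q m, hqp m, ?_, Nat.le_of_dvd (prod_pos fun m _ => (hqp m).pos) hdM⟩
    have h1 : n ≡ k [MOD q m] := Nat.ModEq.of_dvd hdM hn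
    have h2 : n + m ≡ k + m [MOD q m] := Nat.ModEq.add_right m h1
    exact (Nat.modEq_zero_iff_dvd).1 (h2.trans (Nat.modEq_zero_iff_dvd.2 (hdk m hmT)))

/-- arbitrary sets of rough tuples: narrow progressions, regular points; and the number of consecutive ones -/
theorem rough_part (H : Finset ℕ) (hne : H.Nonempty)
    (hadm : ∀ p : ℕ, p.Prime → ∃ r : ℕ, r < p ∧ ∀ h ∈ H, h % p ≠ r) (k : ℕ) (hk : H.card = k)
    (θ : ℝ) (hθ : 0 < θ) (hθ1 : θ ≤ 1) :
    ∃ r₀ : ℕ, ∀ r : ℕ, r₀ ≤ r →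
      (∀ l : ℕ, 2 ≤ l → ∀ ε : ℝ, 0 < ε → ∃ B : ℕ, ∀ᶠ X : ℕ in atTop, ∀ Y : ℕ, (X : ℝ) ^ θ ≤ Y → Y ≤ X →
        ∀ A : Set ℕ, (∀ n ∈ A, RoughPattern H r n) →
          NearlyAll A l (Real.log X ^ B) X (X + Y) (ε * (Y / Real.log X ^ k))) ∧
      (∀ ε : ℝ, 0 < ε → ∃ c : ℝ, 0 < c ∧ ∀ δ : ℝ, 0 < δ → ∃ B : ℕ, ∀ᶠ X : ℕ in atTop, ∀ Y : ℕ,
        (X : ℝ) ^ θ ≤ Y → 2 * Y ≤ X → ∀ A : Set ℕ, (∀ n ∈ A, RoughPattern H r n) →
          (N (Irregular A k c δ B X Y) X (X + Y) : ℝ) ≤ ε * (Y / Real.log X ^ k)) ∧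
      ∃ κ : ℝ, 0 < κ ∧ ∀ᶠ X : ℕ in atTop, ∀ Y : ℕ, (X : ℝ) ^ θ ≤ Y → Y ≤ X → κ * (Y / Real.log X ^ k) ≤
        (N {n | ConsecutiveRough H r n ∧ ∀ h ∈ H, (n + h).primeFactorsList.length ≤ r} X (X + Y) : ℝ) := by
  obtain ⟨M, n0, hM, hcop, hcl⟩ := exists_class H
  have : Nonempty {x // x ∈ H} := ⟨⟨hne.choose, hne.choose_spec⟩⟩
  have hcast : ∀ (t h : ℕ), ((1 : ℕ) : ℤ) * (t : ℤ) + ((h : ℕ) : ℤ) = ((t + h : ℕ) : ℤ) := by
    intro t h
    push_cast
    ring
  obtain ⟨ra, hra, ha⟩ := Pool.Agent.Y677.RSZ.narrow_prog H hne M n0 hM hcop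
    (adm' hadm) (fun r => {n | RoughPattern H r n})
    (fun r => {n | ConsecutiveRough H r n ∧ ∀ h ∈ H, (n + h).primeFactorsList.length ≤ r}) k hk
    (fun r m hr hm h hh p hp hd => hm h hh p hp hd)
    (fun r hr => by
      have hr0 : (0 : ℝ) < r := by exact_mod_cast (by omega : 0 < r)
      filter_upwards [eventually_ge_atTop (M ^ r)] with m hm hmM h1 h2
      refine ⟨⟨fun h hh p hp hd => h1 h hh p hp hd, fun i hi hiH => ?_⟩, h2⟩
      obtain ⟨p, hp, hpd, hpM⟩ := hcl m hmM i hi hiH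
      refine ⟨p, hp, hpd, ?_⟩
      calc (p : ℝ) ≤ M := by exact_mod_cast hpM
        _ = ((M : ℝ) ^ r) ^ (1 / (r : ℝ)) := by
            rw [← Real.rpow_natCast, ← Real.rpow_mul (Nat.cast_nonneg _), mul_one_div_cancel hr0.ne', Real.rpow_one]
        _ ≤ (m : ℝ) ^ (1 / (r : ℝ)) := by
            apply Real.rpow_le_rpow (by positivity) _ (by positivity)
            exact_mod_cast hm) θ hθ hθ1
  obtain ⟨rb, hrb, hb⟩ := Pool.Agent.TH977.PW.final_lin (fun _ : {x // x ∈ H} => 1)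
    (fun i : {x // x ∈ H} => ((i.1 : ℕ) : ℤ)) (fun _ => one_pos)
    (fun i => by rw [Nat.cast_one]; exact isCoprime_one_left)
    (fun i j _ hij => Subtype.ext (by exact_mod_cast hij))
    (fun p hp => by
      obtain ⟨m, hm⟩ := adm' hadm p hp
      refine ⟨m, fun i hi => hm i.1 i.2 ?_⟩
      rw [hcast, Int.natCast_dvd_natCast] at hi
      exact hi)
    (fun r => {n | RoughPattern H r n}) (fun _ => Set.univ) k (by rw [Fintype.card_coe, hk])
    (fun r m hr hm i p hp hd => hm i.1 i.2 p hp (by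
      rw [hcast, Int.natCast_dvd_natCast] at hd
      exact hd)) (fun _ _ _ _ _ => Set.mem_univ _) θ hθ hθ1
  refine ⟨max ra rb, fun r hr => ⟨?_, ?_, ?_⟩⟩
  · intro l hl ε hε
    obtain ⟨B, hB⟩ := (ha r ((le_max_left _ _).trans hr)).2 l hl ε hε
    refine ⟨B, ?_⟩
    filter_upwards [hB] with X hX Y hXY hYX A hA
    have h1 := hX Y hXY hYX A (fun n hn => hA n hn)
    unfold NearlyAll
    rw [out_eq]
    calc _ ≤ ε * Y / Real.log X ^ k := h1
      _ = _ := by ring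
  · intro ε hε
    obtain ⟨c, hc, h2⟩ := (hb r ((le_max_right _ _).trans hr)).2 ε hε
    refine ⟨c, hc, fun δ hδ => ?_⟩
    obtain ⟨B, h3⟩ := h2 δ hδ
    refine ⟨B, ?_⟩
    filter_upwards [h3] with X hX Y hXY hYX A hA
    have h4 := hX Y hXY hYX A (fun n hn => hA n hn)
    rw [N_eq, Irregular_eq]
    calc _ ≤ ε * Y / Real.log X ^ k := h4
      _ = _ := by ring
  · obtain ⟨κ, hκ, h⟩ := (ha r ((le_max_left _ _).trans hr)).1
    refine ⟨κ, hκ, ?_⟩
    filter_upwards [h] with X hX Y hXY hYX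
    rw [N_eq]
    calc κ * (Y / Real.log X ^ k) = κ * Y / Real.log X ^ k := by ring
      _ ≤ _ := hX Y hXY hYX

end Pool.Agent.Q25.Arb
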