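import Pool.Agent.Q25.Arb2

set_option autoImplicit false

/-!
# Arbitrary sets of prime tuples between consecutive powers
-/

namespace Pool.Agent.Q25.Arb

open Finset Filter

/-- the interval between consecutive powers as `(X, X + Y]` -/
lemma pow_facts (j : ℕ) (hj : 2 ≤ j) : ∀ᶠ n : ℕ in atTop, ∃ Y : ℕ, Y = (n + 1) ^ j - n ^ j ∧ n ^ j + Y = (n + 1) ^ j ∧
    (((n ^ j : ℕ)) : ℝ) ^ (((j - 1 : ℕ) : ℝ) / j) ≤ Y ∧ 2 * Y ≤ n ^ j ∧ (n : ℝ) ^ (j - 1) ≤ Y ∧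
      (Y : ℝ) ≤ 2 ^ j * (n : ℝ) ^ (j - 1) := by
  have hj0 : (0 : ℝ) < j := by exact_mod_cast (by omega : 0 < j)
  filter_upwards [eventually_ge_atTop (2 * 2 ^ j + 1)] with n hn2
  have h2j : 1 ≤ 2 ^ j := Nat.one_le_two_pow
  have hn0 : 0 < n := by omega
  have hpow : n ^ j = n * n ^ (j - 1) := by
    rw [← pow_succ', Nat.sub_add_cancel (by omega)]
  have hup : (n + 1) ^ j ≤ n ^ j + 2 ^ j * n ^ (j - 1) := by
    have key : ∀ i : ℕ, (n + 1) ^ (i + 1) ≤ n ^ (i + 1) + (2 ^ (i + 1) - 1) * n ^ i := by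
      intro i
      induction i with
      | zero => simp
      | succ i ih =>
        have e : 2 ^ (i + 1 + 1) - 1 = 2 * (2 ^ (i + 1) - 1) + 1 := by
          have : 1 ≤ 2 ^ (i + 1) := Nat.one_le_two_pow
          rw [pow_succ 2 (i + 1)]
          omega
        rw [e]
        generalize 2 ^ (i + 1) - 1 = c at ih ⊢
        calc (n + 1) ^ (i + 1 + 1) = (n + 1) ^ (i + 1) * (n + 1) := pow_succ _ _
          _ ≤ (n ^ (i + 1) + c * n ^ i) * (n + 1) := Nat.mul_le_mul_right _ ih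
          _ = n ^ (i + 1 + 1) + n ^ (i + 1) + c * n ^ (i + 1) + c * n ^ i := by ring
          _ ≤ n ^ (i + 1 + 1) + n ^ (i + 1) + c * n ^ (i + 1) + c * n ^ (i + 1) := by
            have h7 : n ^ i ≤ n ^ (i + 1) := Nat.pow_le_pow_right hn0 (Nat.le_succ i)
            have h8 := Nat.mul_le_mul_left c h7
            omega
          _ = _ := by ring
    have h9 := key (j - 1)
    rw [Nat.sub_add_cancel (by omega)] at h9
    have h10 : (2 ^ j - 1) * n ^ (j - 1) ≤ 2 ^ j * n ^ (j - 1) := Nat.mul_le_mul_right _ (Nat.sub_le _ _)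
    omega
  have hlow : n ^ j + n ^ (j - 1) ≤ (n + 1) ^ j := by
    have e : (n + 1) ^ j = (n + 1) * (n + 1) ^ (j - 1) := by
      rw [← pow_succ', Nat.sub_add_cancel (by omega)]
    rw [e, hpow]
    have h7 : n ^ (j - 1) ≤ (n + 1) ^ (j - 1) := Nat.pow_le_pow_left (Nat.le_succ n) _
    have h8 := Nat.mul_le_mul_left (n + 1) h7
    calc n * n ^ (j - 1) + n ^ (j - 1) = (n + 1) * n ^ (j - 1) := by ring
      _ ≤ _ := h8
  have hYlow : n ^ (j - 1) ≤ (n + 1) ^ j - n ^ j := by omega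
  have hYup : (n + 1) ^ j - n ^ j ≤ 2 ^ j * n ^ (j - 1) := by omega
  refine ⟨(n + 1) ^ j - n ^ j, rfl, by omega, ?_, ?_, by exact_mod_cast hYlow, by exact_mod_cast hYup⟩
  · have e : (((n ^ j : ℕ)) : ℝ) ^ (((j - 1 : ℕ) : ℝ) / j) = (n : ℝ) ^ (j - 1) := by
      rw [Nat.cast_pow, ← Real.rpow_natCast, ← Real.rpow_mul (Nat.cast_nonneg _), mul_div_cancel₀ _ hj0.ne',
        Real.rpow_natCast]
    rw [e]
    exact_mod_cast hYlow
  · rw [hpow]
    calc 2 * ((n + 1) ^ j - n * n ^ (j - 1)) ≤ 2 * (2 ^ j * n ^ (j - 1)) := by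
          rw [← hpow]
          exact Nat.mul_le_mul_left 2 hYup
      _ = (2 * 2 ^ j) * n ^ (j - 1) := by ring
      _ ≤ n * n ^ (j - 1) := Nat.mul_le_mul_right _ (by omega)

lemma theta_pos (j : ℕ) (hj : 2 ≤ j) : (0 : ℝ) < ((j - 1 : ℕ) : ℝ) / j := by
  have hj0 : (0 : ℝ) < j := by exact_mod_cast (by omega : 0 < j)
  have : (0 : ℝ) < ((j - 1 : ℕ) : ℝ) := by exact_mod_cast (by omega : 0 < j - 1)
  positivity

lemma theta_le (j : ℕ) (hj : 2 ≤ j) : ((j - 1 : ℕ) : ℝ) / j ≤ 1 := by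
  have hj0 : (0 : ℝ) < j := by exact_mod_cast (by omega : 0 < j)
  rw [div_le_one hj0]
  exact_mod_cast Nat.sub_le j 1

lemma log_ev (b : ℝ) : ∀ᶠ n : ℕ in atTop, b ≤ Real.log n :=
  (Real.tendsto_log_atTop.comp tendsto_natCast_atTop_atTop).eventually_ge_atTop b

/-- comparison of the bounds -/
lemma bound_le (j k n Y : ℕ) (hj : 2 ≤ j) (hlogn : 1 ≤ Real.log n) (hY : (Y : ℝ) ≤ 2 ^ j * (n : ℝ) ^ (j - 1)) (ε : ℝ)
    (hε : 0 < ε) : ε / 2 ^ j * (Y / Real.log ((n ^ j : ℕ) : ℝ) ^ k) ≤ ε * (n ^ (j - 1) / Real.log n ^ k) := by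
  have hlogX : Real.log ((n ^ j : ℕ) : ℝ) = j * Real.log n := by
    rw [Nat.cast_pow, Real.log_pow]
  rw [hlogX]
  have hj1 : (1 : ℝ) ≤ j := by exact_mod_cast (by omega : 1 ≤ j)
  have h2 : Real.log n ^ k ≤ (j * Real.log n) ^ k := by
    apply pow_le_pow_left₀ (by linarith)
    nlinarith
  have hp : 0 < Real.log n ^ k := by positivity
  calc ε / 2 ^ j * (Y / (j * Real.log n) ^ k) ≤ ε / 2 ^ j * ((2 ^ j * (n : ℝ) ^ (j - 1)) / Real.log n ^ k) := by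
        apply mul_le_mul_of_nonneg_left _ (by positivity)
        exact div_le_div₀ (by positivity) hY hp h2
    _ = ε * (n ^ (j - 1) / Real.log n ^ k) := by
        field_simp

/-- regular points between consecutive powers -/
theorem regular_pow (H : Finset ℕ) (hne : H.Nonempty)
    (hadm : ∀ p : ℕ, p.Prime → ∃ r : ℕ, r < p ∧ ∀ h ∈ H, h % p ≠ r) (k : ℕ) (hk : H.card = k) (j : ℕ) (hj : 2 ≤ j)
    (ε : ℝ) (hε : 0 < ε) :
    ∃ c : ℝ, 0 < c ∧ ∀ δ : ℝ, 0 < δ → ∃ B : ℕ, ∀ᶠ n : ℕ in atTop, ∀ A : Set ℕ,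
      (∀ m ∈ A, ∀ h ∈ H, (m + h).Prime) →
        (N (Irregular A k c δ B (n ^ j) ((n + 1) ^ j - n ^ j)) (n ^ j) ((n + 1) ^ j) : ℝ) ≤
          ε * (n ^ (j - 1) / Real.log n ^ k) := by
  obtain ⟨c, hc, h⟩ := regular H hne hadm k hk _ (theta_pos j hj) (theta_le j hj) (ε / 2 ^ j) (by positivity)
  refine ⟨c, hc, fun δ hδ => ?_⟩
  obtain ⟨B, hB⟩ := h δ hδ
  refine ⟨B, ?_⟩
  have htend : Tendsto (fun n : ℕ => n ^ j) atTop atTop := tendsto_pow_atTop (by omega)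
  filter_upwards [htend.eventually hB, pow_facts j hj, log_ev 1] with n hn hf hl A hA
  obtain ⟨Y, hY, h1, h2, h3, h4, h5⟩ := hf
  have h6 := hn Y h2 h3 A hA
  rw [h1, hY] at h6
  rw [← hY] at h6 ⊢
  exact h6.trans (bound_le j k n Y hj hl h5 ε hε)

/-- rough tuples between consecutive powers -/
theorem rough_pow (H : Finset ℕ) (hne : H.Nonempty)
    (hadm : ∀ p : ℕ, p.Prime → ∃ r : ℕ, r < p ∧ ∀ h ∈ H, h % p ≠ r) (k : ℕ) (hk : H.card = k) (j : ℕ) (hj : 2 ≤ j) :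
    ∃ r₀ : ℕ, ∀ r : ℕ, r₀ ≤ r →
      (∀ l : ℕ, 2 ≤ l → ∀ ε : ℝ, 0 < ε → ∃ B : ℕ, ∀ᶠ n : ℕ in atTop, ∀ A : Set ℕ, (∀ m ∈ A, RoughPattern H r m) →
        NearlyAll A l (Real.log n ^ B) (n ^ j) ((n + 1) ^ j) (ε * (n ^ (j - 1) / Real.log n ^ k))) ∧
      (∀ ε : ℝ, 0 < ε → ∃ c : ℝ, 0 < c ∧ ∀ δ : ℝ, 0 < δ → ∃ B : ℕ, ∀ᶠ n : ℕ in atTop, ∀ A : Set ℕ,
        (∀ m ∈ A, RoughPattern H r m) →
          (N (Irregular A k c δ B (n ^ j) ((n + 1) ^ j - n ^ j)) (n ^ j) ((n + 1) ^ j) : ℝ) ≤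
            ε * (n ^ (j - 1) / Real.log n ^ k)) ∧
      ∃ κ : ℝ, 0 < κ ∧ ∀ᶠ n : ℕ in atTop, κ * (n ^ (j - 1) / Real.log n ^ k) ≤
        (N {m | ConsecutiveRough H r m ∧ ∀ h ∈ H, (m + h).primeFactorsList.length ≤ r} (n ^ j) ((n + 1) ^ j) : ℝ) := by
  obtain ⟨r0, hr⟩ := rough_part H hne hadm k hk _ (theta_pos j hj) (theta_le j hj)
  have htend : Tendsto (fun n : ℕ => n ^ j) atTop atTop := tendsto_pow_atTop (by omega)
  have hj0 : (0 : ℝ) < j := by exact_mod_cast (by omega : 0 < j)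
  refine ⟨r0, fun r h => ⟨?_, ?_, ?_⟩⟩
  · intro l hl ε hε
    obtain ⟨B, hB⟩ := (hr r h).1 l hl (ε / 2 ^ j) (by positivity)
    refine ⟨B + 1, ?_⟩
    filter_upwards [htend.eventually hB, pow_facts j hj, log_ev ((j : ℝ) ^ B + 1)] with n hn hf hl A hA
    obtain ⟨Y, hY, h1, h2, h3, h4, h5⟩ := hf
    have h6 := hn Y h2 (by omega) A hA
    rw [h1] at h6
    have hlogn : 1 ≤ Real.log n := by
      have : (0 : ℝ) ≤ (j : ℝ) ^ B := by positivity
      linarith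
    refine h6.mono ?_ (bound_le j k n Y hj hlogn h5 ε hε)
    rw [Nat.cast_pow, Real.log_pow, mul_pow, pow_succ']
    exact mul_le_mul_of_nonneg_right (by linarith) (by positivity)
  · intro ε hε
    obtain ⟨c, hc, h'⟩ := (hr r h).2.1 (ε / 2 ^ j) (by positivity)
    refine ⟨c, hc, fun δ hδ => ?_⟩
    obtain ⟨B, hB⟩ := h' δ hδ
    refine ⟨B, ?_⟩
    filter_upwards [htend.eventually hB, pow_facts j hj, log_ev 1] with n hn hf hl A hA
    obtain ⟨Y, hY, h1, h2, h3, h4, h5⟩ := hf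
    have h6 := hn Y h2 h3 A hA
    rw [h1] at h6
    rw [← hY]
    exact h6.trans (bound_le j k n Y hj hl h5 ε hε)
  · obtain ⟨κ, hκ, h'⟩ := (hr r h).2.2
    refine ⟨κ / (j : ℝ) ^ k, by positivity, ?_⟩
    filter_upwards [htend.eventually h', pow_facts j hj, log_ev 1] with n hn hf hl
    obtain ⟨Y, hY, h1, h2, h3, h4, h5⟩ := hf
    have h6 := hn Y h2 (by omega)
    rw [h1] at h6
    refine le_trans ?_ h6
    have hlogX : Real.log ((n ^ j : ℕ) : ℝ) = j * Real.log n := by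
      rw [Nat.cast_pow, Real.log_pow]
    rw [hlogX, mul_pow]
    have hp : 0 < Real.log n ^ k := by positivity
    calc κ / (j : ℝ) ^ k * (n ^ (j - 1) / Real.log n ^ k) = κ * ((n : ℝ) ^ (j - 1) / ((j : ℝ) ^ k * Real.log n ^ k)) := by
          field_simp
      _ ≤ κ * (Y / ((j : ℝ) ^ k * Real.log n ^ k)) := by
          apply mul_le_mul_of_nonneg_left _ hκ.le
          exact div_le_div_of_nonneg_right h4 (by positivity)

/-- a pair `{0, d}`, `d` even, is admissible -/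
lemma adm_pair (d : ℕ) (hd : Even d) (p : ℕ) (hp : p.Prime) :
    ∃ r : ℕ, r < p ∧ ∀ h ∈ ({0, d} : Finset ℕ), h % p ≠ r := by
  rcases Nat.lt_or_ge p 3 with h3 | h3
  · have h2 : p = 2 := by
      have := hp.two_le
      omega
    subst h2
    refine ⟨1, by norm_num, fun h hh => ?_⟩
    rw [mem_insert, mem_singleton] at hh
    obtain ⟨e, he⟩ := hd
    rcases hh with rfl | rfl <;> omega
  · by_cases h1 : d % p = 1
    · refine ⟨2, by omega, fun h hh => ?_⟩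
      rw [mem_insert, mem_singleton] at hh
      rcases hh with rfl | rfl
      · rw [Nat.zero_mod]; norm_num
      · omega
    · refine ⟨1, by omega, fun h hh => ?_⟩
      rw [mem_insert, mem_singleton] at hh
      rcases hh with rfl | rfl
      · rw [Nat.zero_mod]; norm_num
      · exact h1

end Pool.Agent.Q25.Arb
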