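import Pool.Agent.Q42.SH.BesLin

/-!
# Chowla's conjecture up to `δ` for almost all subfamilies of ANY family of linear forms

Let `F` be any set of `k` pairwise non-proportional linear forms. For every order `m ≤ k` the mean square, over all `m`-element
subsets `S` of `F`, of the Chowla sum `∑_{n ≤ N} ∏_{L ∈ S} λ(L(n))` is at most `(1 + ε) N² / (k - m + 1)`: for all large `N`
outside one set of logarithmic density zero, and for the logarithmic averages up to every large `N`.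
-/

set_option autoImplicit false

open Finset Filter

namespace Pool.Agent.Q25.CH

/-- the Liouville function on the integers, `λ(-m) = λ(m)`, `λ(0) = 0` -/
noncomputable def lam (m : ℤ) : ℂ := if m = 0 then 0 else (-1) ^ ArithmeticFunction.cardFactors m.natAbs

open Classical in
/-- logarithmic density zero -/
def LogDensityZero (E : Set ℕ) : Prop :=
  Tendsto (fun X : ℕ => (∑ N ∈ Icc 1 X, if N ∈ E then (1 : ℝ) / N else 0) / Real.log X) atTop (nhds 0)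

/-- a finite set of linear forms `a n + b`, given by their coefficients `(a, b)`, `a ≠ 0`, no two of which are
proportional -/
def NonProportional (F : Finset (ℤ × ℤ)) : Prop :=
  (∀ L ∈ F, L.1 ≠ 0) ∧ ∀ L ∈ F, ∀ M ∈ F, L ≠ M → L.1 * M.2 ≠ M.1 * L.2

/-- the Chowla sum of the forms in `S` up to `N`, with the weights `ξ` -/
noncomputable def chowla (ξ : ℕ → ℂ) (S : Finset (ℤ × ℤ)) (N : ℕ) : ℂ :=
  ∑ n ∈ Icc 1 N, ξ n * ∏ L ∈ S, lam (L.1 * n + L.2)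

/-- the logarithmic Chowla sum -/
noncomputable def logChowla (ξ : ℕ → ℂ) (S : Finset (ℤ × ℤ)) (N : ℕ) : ℂ :=
  ∑ n ∈ Icc 1 N, (ξ n * ∏ L ∈ S, lam (L.1 * n + L.2)) / n

lemma lam_norm (x : ℤ) : ‖lam x‖ ≤ 1 := by
  unfold lam
  split_ifs <;> simp

lemma lam_eq (L : ℤ × ℤ) (n : ℕ) : lam (L.1 * n + L.2) = Pool.Agent.Q42.SH.V0 (-1) L.1 L.2 n := rfl

/-- double counting of the pairs of a set and one of its elements -/
lemma double {ι : Type} [DecidableEq ι] (F : Finset ι) (j : ℕ) (f : Finset ι → ℝ) :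
    ((j : ℝ) + 1) * ∑ S ∈ F.powersetCard (j + 1), f S = ∑ T ∈ F.powersetCard j, ∑ L ∈ F \ T, f (insert L T) := by
  have e1 : ((j : ℝ) + 1) * ∑ S ∈ F.powersetCard (j + 1), f S = ∑ S ∈ F.powersetCard (j + 1), ∑ _L ∈ S, f S := by
    rw [mul_sum]
    apply sum_congr rfl
    intro S hS
    rw [sum_const, (mem_powersetCard.1 hS).2, nsmul_eq_mul]
    push_cast
    ring
  rw [e1, sum_sigma', sum_sigma']
  refine sum_bij' (fun x _ => ⟨x.1.erase x.2, x.2⟩) (fun y _ => ⟨insert y.2 y.1, y.2⟩) ?_ ?_ ?_ ?_ ?_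
  · rintro ⟨S, L⟩ h
    rw [mem_sigma, mem_powersetCard] at h ⊢
    obtain ⟨⟨h1, h2⟩, h3⟩ := h
    refine ⟨⟨(erase_subset _ _).trans h1, ?_⟩, ?_⟩
    · rw [card_erase_of_mem h3, h2]
      rfl
    · exact Finset.mem_sdiff.2 ⟨h1 h3, by simp⟩
  · rintro ⟨T, L⟩ h
    rw [mem_sigma, mem_powersetCard] at h ⊢
    obtain ⟨⟨h1, h2⟩, h3⟩ := h
    rw [Finset.mem_sdiff] at h3
    refine ⟨⟨insert_subset h3.1 h1, ?_⟩, mem_insert_self _ _⟩
    rw [card_insert_of_notMem h3.2, h2]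
  · rintro ⟨S, L⟩ h
    rw [mem_sigma] at h
    simp only [insert_erase h.2]
  · rintro ⟨T, L⟩ h
    rw [mem_sigma, Finset.mem_sdiff] at h
    simp only [erase_insert h.2.2]
  · rintro ⟨S, L⟩ h
    rw [mem_sigma] at h
    simp only [insert_erase h.2]

lemma bound {ι : Type} [DecidableEq ι] (F : Finset ι) (m : ℕ) (hm : 1 ≤ m) (hmF : m ≤ F.card) (f : Finset ι → ℝ)
    (B : ℝ) (hB : ∀ T ⊆ F, ∑ L ∈ F \ T, f (insert L T) ≤ B) :
    ∑ S ∈ F.powersetCard m, f S ≤ B * ((F.card.choose m : ℝ) / ((F.card : ℝ) - m + 1)) := by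
  obtain ⟨j, rfl⟩ : ∃ j, m = j + 1 := ⟨m - 1, by omega⟩
  have h1 := double F j f
  have h2 : ∑ T ∈ F.powersetCard j, ∑ L ∈ F \ T, f (insert L T) ≤ (F.card.choose j : ℝ) * B := by
    refine (sum_le_sum fun T hT => hB T (mem_powersetCard.1 hT).1).trans (le_of_eq ?_)
    rw [sum_const, card_powersetCard, nsmul_eq_mul]
  have h3 : ((F.card.choose (j + 1) : ℕ) : ℝ) * (j + 1) = (F.card.choose j : ℝ) * ((F.card : ℝ) - j) := by
    have h4 := Nat.choose_succ_right_eq F.card j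
    have h5 : ((F.card - j : ℕ) : ℝ) = (F.card : ℝ) - j := by
      rw [Nat.cast_sub (by omega)]
    rw [← h5]
    exact_mod_cast h4
  have h6 : (0 : ℝ) < (F.card : ℝ) - j := by
    rw [sub_pos]
    exact_mod_cast (by omega : j < F.card)
  have h7 : (0 : ℝ) < (j : ℝ) + 1 := by positivity
  have e8 : (F.card : ℝ) - ((j + 1 : ℕ) : ℝ) + 1 = (F.card : ℝ) - j := by push_cast; ring
  rw [e8, mul_div_assoc', le_div_iff₀ h6]
  have h9 : ((j : ℝ) + 1) * ∑ S ∈ F.powersetCard (j + 1), f S ≤ (F.card.choose j : ℝ) * B := h1.le.trans h2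
  have h10 := mul_le_mul_of_nonneg_right h9 h6.le
  have e11 : (F.card.choose j : ℝ) * B * ((F.card : ℝ) - j) = B * ((F.card.choose (j + 1) : ℕ) : ℝ) * (j + 1) := by
    rw [mul_assoc B, h3]
    ring
  rw [e11] at h10
  have h12 : ((j : ℝ) + 1) * ((∑ S ∈ F.powersetCard (j + 1), f S) * ((F.card : ℝ) - j)) ≤
      ((j : ℝ) + 1) * (B * ((F.card.choose (j + 1) : ℕ) : ℝ)) := by
    linarith
  exact le_of_mul_le_mul_left h12 h7

lemma prod_norm (S : Finset (ℤ × ℤ)) (n : ℕ) : ‖∏ L ∈ S, lam (L.1 * n + L.2)‖ ≤ 1 := by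
  rw [norm_prod]
  exact prod_le_one (fun _ _ => norm_nonneg _) (fun L _ => lam_norm _)

open Classical in
/-- **Theorem.** There is one set `𝓔` of logarithmic density zero such that for every finite set `F` of pairwise
non-proportional linear forms, every `ε > 0` and all large `N`, for all weights `|ξ| ≤ 1` and all `1 ≤ m ≤ k = |F|`:
1. if `N ∉ 𝓔`, the sum over the `m`-element subsets `S` of `F` of `|∑_{n ≤ N} ξ(n) ∏_{L ∈ S} λ(L(n))|²` is at most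
   `(1 + ε) N² C(k, m) / (k - m + 1)`; so for `δ > 0` at most `(1 + ε) C(k, m) / ((k - m + 1) δ²)` of them have a sum of
   absolute value `≥ δ N`;
2. for all large `N` without exceptions the same holds for the logarithmic sums, with `log N` in place of `N`. -/
theorem subfam : ∃ 𝓔 : Set ℕ, LogDensityZero 𝓔 ∧ ∀ F : Finset (ℤ × ℤ), NonProportional F →
    ∀ ε : ℝ, 0 < ε → ∃ N₀ : ℕ, ∀ N : ℕ, N₀ ≤ N → ∀ ξ : ℕ → ℂ, (∀ n, ‖ξ n‖ ≤ 1) →
      ∀ m : ℕ, 1 ≤ m → m ≤ F.card →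
        (N ∉ 𝓔 →
          ∑ S ∈ F.powersetCard m, ‖chowla ξ S N‖ ^ 2 ≤
            (1 + ε) * (N : ℝ) ^ 2 * ((F.card.choose m : ℝ) / ((F.card : ℝ) - m + 1)) ∧
          ∀ δ : ℝ, 0 < δ → (((F.powersetCard m).filter (fun S => δ * N ≤ ‖chowla ξ S N‖)).card : ℝ) ≤
            (1 + ε) * ((F.card.choose m : ℝ) / ((F.card : ℝ) - m + 1)) / δ ^ 2) ∧
        ∑ S ∈ F.powersetCard m, ‖logChowla ξ S N‖ ^ 2 ≤
          (1 + ε) * Real.log N ^ 2 * ((F.card.choose m : ℝ) / ((F.card : ℝ) - m + 1)) ∧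
        ∀ δ : ℝ, 0 < δ → (((F.powersetCard m).filter (fun S => δ * Real.log N ≤ ‖logChowla ξ S N‖)).card : ℝ) ≤
          (1 + ε) * ((F.card.choose m : ℝ) / ((F.card : ℝ) - m + 1)) / δ ^ 2 := by
  obtain ⟨E, hE, h1⟩ := Pool.Agent.Q42.SH.bes_lin0 (-1) (by simp) (by norm_num)
  refine ⟨E, hE, fun F hF ε' hε' => ?_⟩
  set ε : ℝ := min (ε' / 3) 1 with hεd
  have hε : 0 < ε := lt_min (by positivity) one_pos
  have hε1 : ε ≤ 1 := min_le_right _ _
  have hε3 : 3 * ε ≤ ε' := by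
    have := min_le_left (ε' / 3) 1
    linarith
  have hsq : (1 + ε) ^ 2 ≤ 1 + ε' := by nlinarith
  obtain ⟨N₁, h2⟩ := h1 F hF.1 hF.2 ε hε
  have hlog : Tendsto (fun X : ℕ => Real.log X) atTop atTop :=
    Real.tendsto_log_atTop.comp tendsto_natCast_atTop_atTop
  obtain ⟨N₂, hN₂⟩ := eventually_atTop.1 (hlog.eventually_ge_atTop (1 / ε + 1))
  refine ⟨N₁ + N₂ + 1, fun N hN ξ hξ m hm hmF => ?_⟩
  obtain ⟨h3, h4⟩ := h2 N (by omega)
  have hl := hN₂ N (by omega)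
  have hl0 : 0 < Real.log N := lt_of_lt_of_le (by positivity) hl
  have hN0 : (0 : ℝ) < N := by exact_mod_cast (by omega : 0 < N)
  have hw : ∀ (T : Finset (ℤ × ℤ)) (n : ℕ), ‖ξ n * ∏ L ∈ T, lam (L.1 * n + L.2)‖ ≤ 1 := by
    intro T n
    rw [norm_mul]
    exact mul_le_one₀ (hξ n) (norm_nonneg _) (prod_norm T n)
  have key : N ∉ E → ∀ T ⊆ F, ∑ L ∈ F \ T, ‖chowla ξ (insert L T) N‖ ^ 2 ≤ (1 + ε') * (N : ℝ) ^ 2 := by
    intro hNE T hT
    have h5 := h3 hNE (fun n => ξ n * ∏ L ∈ T, lam (L.1 * n + L.2)) (fun _ => 0)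
    have h6 : ∑ n ∈ Icc 1 N, ‖ξ n * ∏ L ∈ T, lam (L.1 * n + L.2)‖ ^ 2 ≤ (N : ℝ) := by
      refine (sum_le_sum fun n _ => pow_le_one₀ (norm_nonneg _) (hw T n)).trans ?_
      simp
    calc ∑ L ∈ F \ T, ‖chowla ξ (insert L T) N‖ ^ 2
        = ∑ L ∈ F \ T, ‖∑ n ∈ Icc 1 N, Pool.Agent.Q42.SH.V0 (-1) L.1 L.2 n *
            (ξ n * ∏ L ∈ T, lam (L.1 * n + L.2)) * Pool.Agent.Helper602.MK.ee (0 * n)‖ ^ 2 := by
          apply sum_congr rfl
          intro L hL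
          rw [Finset.mem_sdiff] at hL
          congr 2
          unfold chowla
          apply sum_congr rfl
          intro n _
          rw [prod_insert hL.2, ← lam_eq]
          have e0 : Pool.Agent.Helper602.MK.ee (0 * n) = 1 := by
            simp [Pool.Agent.Helper602.MK.ee]
          rw [e0]
          ring
      _ ≤ ∑ L ∈ F, ‖∑ n ∈ Icc 1 N, Pool.Agent.Q42.SH.V0 (-1) L.1 L.2 n *
            (ξ n * ∏ L ∈ T, lam (L.1 * n + L.2)) * Pool.Agent.Helper602.MK.ee (0 * n)‖ ^ 2 :=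
          sum_le_sum_of_subset_of_nonneg sdiff_subset (fun _ _ _ => by positivity)
      _ ≤ (1 + ε) * N * ∑ n ∈ Icc 1 N, ‖ξ n * ∏ L ∈ T, lam (L.1 * n + L.2)‖ ^ 2 := h5
      _ ≤ (1 + ε) * N * N := mul_le_mul_of_nonneg_left h6 (by positivity)
      _ ≤ (1 + ε') * (N : ℝ) ^ 2 := by nlinarith [mul_pos hN0 hN0]
  have keyL : ∀ T ⊆ F, ∑ L ∈ F \ T, ‖logChowla ξ (insert L T) N‖ ^ 2 ≤ (1 + ε') * Real.log N ^ 2 := by
    intro T hT
    have h5 := h4 (fun n => ξ n * ∏ L ∈ T, lam (L.1 * n + L.2)) (fun _ => 0)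
    have h6 : ∑ n ∈ Icc 1 N, ‖ξ n * ∏ L ∈ T, lam (L.1 * n + L.2)‖ ^ 2 / n ≤ (1 + ε) * Real.log N := by
      have h9 : ∑ n ∈ Icc 1 N, ‖ξ n * ∏ L ∈ T, lam (L.1 * n + L.2)‖ ^ 2 / n ≤ 1 + Real.log N := by
        refine le_trans (sum_le_sum fun n _ => ?_) (Pool.Agent.Q42.SH.harmonic_c N)
        exact div_le_div_of_nonneg_right (pow_le_one₀ (norm_nonneg _) (hw T n)) (Nat.cast_nonneg n)
      have h11 : 1 / ε ≤ Real.log N := by linarith
      rw [div_le_iff₀ hε] at h11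
      linarith
    calc ∑ L ∈ F \ T, ‖logChowla ξ (insert L T) N‖ ^ 2
        = ∑ L ∈ F \ T, ‖∑ n ∈ Icc 1 N, Pool.Agent.Q42.SH.V0 (-1) L.1 L.2 n *
            (ξ n * ∏ L ∈ T, lam (L.1 * n + L.2)) * Pool.Agent.Helper602.MK.ee (0 * n) / n‖ ^ 2 := by
          apply sum_congr rfl
          intro L hL
          rw [Finset.mem_sdiff] at hL
          congr 2
          unfold logChowla
          apply sum_congr rfl
          intro n _
          rw [prod_insert hL.2, ← lam_eq]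
          have e0 : Pool.Agent.Helper602.MK.ee (0 * n) = 1 := by
            simp [Pool.Agent.Helper602.MK.ee]
          rw [e0]
          ring
      _ ≤ ∑ L ∈ F, ‖∑ n ∈ Icc 1 N, Pool.Agent.Q42.SH.V0 (-1) L.1 L.2 n *
            (ξ n * ∏ L ∈ T, lam (L.1 * n + L.2)) * Pool.Agent.Helper602.MK.ee (0 * n) / n‖ ^ 2 :=
          sum_le_sum_of_subset_of_nonneg sdiff_subset (fun _ _ _ => by positivity)
      _ ≤ (1 + ε) * Real.log N * ∑ n ∈ Icc 1 N, ‖ξ n * ∏ L ∈ T, lam (L.1 * n + L.2)‖ ^ 2 / n := h5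
      _ ≤ (1 + ε) * Real.log N * ((1 + ε) * Real.log N) := mul_le_mul_of_nonneg_left h6 (by positivity)
      _ = (1 + ε) ^ 2 * Real.log N ^ 2 := by ring
      _ ≤ (1 + ε') * Real.log N ^ 2 := mul_le_mul_of_nonneg_right hsq (by positivity)
  refine ⟨fun hNE => ?_, ?_⟩
  · have h7 := bound F m hm hmF (fun S => ‖chowla ξ S N‖ ^ 2) _ (key hNE)
    refine ⟨h7, fun δ hδ => ?_⟩
    have h8 := Pool.Agent.Q42.SH.few (F.powersetCard m) (fun S => ‖chowla ξ S N‖) _ (δ * N) (by positivity) h7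
    refine h8.trans (le_of_eq ?_)
    field_simp
  · have h7 := bound F m hm hmF (fun S => ‖logChowla ξ S N‖ ^ 2) _ keyL
    refine ⟨h7, fun δ hδ => ?_⟩
    have h8 := Pool.Agent.Q42.SH.few (F.powersetCard m) (fun S => ‖logChowla ξ S N‖) _ (δ * Real.log N)
      (by positivity) h7
    refine h8.trans (le_of_eq ?_)
    field_simp

/-- the Bessel inequality behind `subfam`, logarithmic version -/
theorem keyLog (F : Finset (ℤ × ℤ)) (hF : NonProportional F) : ∃ N₀ : ℕ, ∀ N : ℕ, N₀ ≤ N → ∀ T ⊆ F,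
    ∑ L ∈ F \ T, ‖logChowla (fun _ => 1) (insert L T) N‖ ^ 2 ≤ 2 * Real.log N ^ 2 := by
  obtain ⟨E, hE, h1⟩ := Pool.Agent.Q42.SH.bes_lin0 (-1) (by simp) (by norm_num)
  set ε : ℝ := 1 / 3 with hεd
  have hε : 0 < ε := by norm_num
  have hsq : (1 + ε) ^ 2 ≤ 2 := by norm_num
  obtain ⟨N₁, h2⟩ := h1 F hF.1 hF.2 ε hε
  have hlog : Tendsto (fun X : ℕ => Real.log X) atTop atTop :=
    Real.tendsto_log_atTop.comp tendsto_natCast_atTop_atTop
  obtain ⟨N₂, hN₂⟩ := eventually_atTop.1 (hlog.eventually_ge_atTop (1 / ε + 1))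
  refine ⟨N₁ + N₂ + 1, fun N hN T hT => ?_⟩
  obtain ⟨h3, h4⟩ := h2 N (by omega)
  have hl := hN₂ N (by omega)
  have hl0 : 0 < Real.log N := lt_of_lt_of_le (by positivity) hl
  have h5 := h4 (fun n => (1 : ℂ) * ∏ L ∈ T, lam (L.1 * n + L.2)) (fun _ => 0)
  have hw : ∀ (T : Finset (ℤ × ℤ)) (n : ℕ), ‖(1 : ℂ) * ∏ L ∈ T, lam (L.1 * n + L.2)‖ ≤ 1 := by
    intro T n
    rw [one_mul]
    exact prod_norm T n
  have h6 : ∑ n ∈ Icc 1 N, ‖(1 : ℂ) * ∏ L ∈ T, lam (L.1 * n + L.2)‖ ^ 2 / n ≤ (1 + ε) * Real.log N := by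
    have h9 : ∑ n ∈ Icc 1 N, ‖(1 : ℂ) * ∏ L ∈ T, lam (L.1 * n + L.2)‖ ^ 2 / n ≤ 1 + Real.log N := by
      refine le_trans (sum_le_sum fun n _ => ?_) (Pool.Agent.Q42.SH.harmonic_c N)
      exact div_le_div_of_nonneg_right (pow_le_one₀ (norm_nonneg _) (hw T n)) (Nat.cast_nonneg n)
    have h11 : 1 / ε ≤ Real.log N := by linarith
    rw [div_le_iff₀ hε] at h11
    linarith
  calc ∑ L ∈ F \ T, ‖logChowla (fun _ => 1) (insert L T) N‖ ^ 2
      = ∑ L ∈ F \ T, ‖∑ n ∈ Icc 1 N, Pool.Agent.Q42.SH.V0 (-1) L.1 L.2 n *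
          ((1 : ℂ) * ∏ L ∈ T, lam (L.1 * n + L.2)) * Pool.Agent.Helper602.MK.ee (0 * n) / n‖ ^ 2 := by
        apply sum_congr rfl
        intro L hL
        rw [Finset.mem_sdiff] at hL
        congr 2
        unfold logChowla
        apply sum_congr rfl
        intro n _
        rw [prod_insert hL.2, ← lam_eq]
        have e0 : Pool.Agent.Helper602.MK.ee (0 * n) = 1 := by
          simp [Pool.Agent.Helper602.MK.ee]
        rw [e0]
        ring
    _ ≤ ∑ L ∈ F, ‖∑ n ∈ Icc 1 N, Pool.Agent.Q42.SH.V0 (-1) L.1 L.2 n *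
          ((1 : ℂ) * ∏ L ∈ T, lam (L.1 * n + L.2)) * Pool.Agent.Helper602.MK.ee (0 * n) / n‖ ^ 2 :=
        sum_le_sum_of_subset_of_nonneg sdiff_subset (fun _ _ _ => by positivity)
    _ ≤ (1 + ε) * Real.log N * ∑ n ∈ Icc 1 N, ‖(1 : ℂ) * ∏ L ∈ T, lam (L.1 * n + L.2)‖ ^ 2 / n := h5
    _ ≤ (1 + ε) * Real.log N * ((1 + ε) * Real.log N) := mul_le_mul_of_nonneg_left h6 (by positivity)
    _ = (1 + ε) ^ 2 * Real.log N ^ 2 := by ring
    _ ≤ 2 * Real.log N ^ 2 := mul_le_mul_of_nonneg_right hsq (by positivity)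

end Pool.Agent.Q25.CH
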