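import Pool.Agent.Q25.PolyList
import Mathlib.RingTheory.Polynomial.Cyclotomic.Expand

/-!
# The cyclotomic polynomials of index `885 = 3 * 5 * 59` and `1239 = 3 * 7 * 59` and the real zeros of their derivatives
-/

namespace Pool.Agent.Q25.Crit885

open Polynomial Pool.Agent.Q25.PolyList

def L3 : List ℤ := [1, 1, 1]
def L15 : List ℤ := [1, -1, 0, 1, -1, 1, 0, -1, 1]
def L21 : List ℤ := [1, -1, 0, 1, -1, 0, 1, 0, -1, 1, 0, -1, 1]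

def L885 : List ℤ :=
  [1, 1, 1, 0, 0, -1, -1, -1, 0, 0, 0, 0, 0, 0, 0, 1, 1, 1, 0, 0, -1, -1, -1, 0, 0, 0, 0, 0, 0, 0, 1, 1, 1,
   0, 0, -1, -1, -1, 0, 0, 0, 0, 0, 0, 0, 1, 1, 1, 0, 0, -1, -1, -1, 0, 0, 0, 0, 0, 0, -1, 0, 0, 1, 0, 1, 0,
   0, -1, 0, 0, 0, 0, 0, 0, -1, 0, 0, 1, 0, 1, 0, 0, -1, 0, 0, 0, 0, 0, 0, -1, 0, 0, 1, 0, 1, 0, 0, -1, 0, 0,
   0, 0, 0, 0, -1, 0, 0, 1, 0, 1, 0, 0, -1, 0, 0, 0, 0, 0, 0, -1, 0, 0, 1, 0, 1, 0, 0, -1, 0, 0, 0, 0, 0, 0,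
   -1, 0, 0, 1, 0, 1, 0, 0, -1, 0, 0, 0, 0, 0, 0, -1, 0, 0, 1, 0, 1, 0, 0, -1, 0, 0, 0, 0, 0, 0, -1, 0, 0, 1,
   0, 1, 0, 0, -1, 0, 0, 0, 0, 1, 1, 0, 0, 0, 0, -1, 0, 0, 0, -1, 0, 0, 0, 0, 1, 1, 0, 0, 0, 0, -1, 0, 0, 0,
   -1, 0, 0, 0, 0, 1, 1, 0, 0, 0, 0, -1, 0, 0, 0, -1, 0, 0, 0, 0, 1, 1, 0, 0, 0, 0, -1, 0, 0, 0, -1, 0, 0, 0,
   -1, 0, 0, 0, 0, 1, 1, 0, 0, 0, 0, -1, 0, 0, 0, -1, 0, 0, 0, 0, 1, 1, 0, 0, 0, 0, -1, 0, 0, 0, -1, 0, 0, 0,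
   0, 1, 1, 0, 0, 0, 0, -1, 0, 0, 0, -1, 0, 0, 0, 0, 1, 1, 0, 0, 0, 0, -1, 0, 0, 1, 0, 1, 0, 0, -1, 0, 0, 0,
   0, 0, 0, -1, 0, 0, 1, 0, 1, 0, 0, -1, 0, 0, 0, 0, 0, 0, -1, 0, 0, 1, 0, 1, 0, 0, -1, 0, 0, 0, 0, 0, 0, -1,
   0, 0, 1, 0, 1, 0, 0, -1, 0, 0, 0, 0, 0, 0, -1, 0, 0, 1, 0, 1, 0, 0, -1, 0, 0, 0, 0, 0, 0, -1, 0, 0, 1, 0,
   1, 0, 0, -1, 0, 0, 0, 0, 0, 0, -1, 0, 0, 1, 0, 1, 0, 0, -1, 0, 0, 0, 0, 0, 0, -1, 0, 0, 1, 0, 1, 0, 0, -1,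
   0, 0, 0, 0, 0, 0, -1, -1, -1, 0, 0, 1, 1, 1, 0, 0, 0, 0, 0, 0, 0, -1, -1, -1, 0, 0, 1, 1, 1, 0, 0, 0, 0,
   0, 0, 0, -1, -1, -1, 0, 0, 1, 1, 1, 0, 0, 0, 0, 0, 0, 0, -1, -1, -1, 0, 0, 1, 1, 1]

def L1239 : List ℤ :=
  [1, 1, 1, 0, 0, 0, 0, -1, -1, -1, 0, 0, 0, 0, 0, 0, 0, 0, 0, 0, 0, 1, 1, 1, 0, 0, 0, 0, -1, -1, -1, 0, 0,
   0, 0, 0, 0, 0, 0, 0, 0, 0, 1, 1, 1, 0, 0, 0, 0, -1, -1, -1, 0, 0, 0, 0, 0, 0, 0, -1, -1, -1, 0, 1, 1, 1,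
   1, 1, 1, 0, -1, -1, -1, 0, 0, 0, 0, 0, 0, 0, -1, -1, -1, 0, 1, 1, 1, 1, 1, 1, 0, -1, -1, -1, 0, 0, 0, 0,
   0, 0, 0, -1, -1, -1, 0, 1, 1, 1, 1, 1, 1, 0, -1, -1, -1, 0, 0, 0, 0, 0, 0, 0, -1, -1, -1, 0, 1, 1, 1, 1,
   1, 1, 0, -1, -1, -1, 0, 0, 0, 0, 0, 0, 0, -1, -1, -1, 0, 1, 1, 1, 1, 1, 1, 0, -1, -1, -1, 0, 0, 0, 0, 0,
   0, 0, -1, -1, -1, 0, 1, 1, 1, 1, 1, 1, 0, -1, -1, 0, 1, 1, 0, 0, 0, 0, -1, -2, -2, -1, 0, 1, 1, 1, 1, 1,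
   1, 0, -1, -1, 0, 1, 1, 0, 0, 0, 0, -1, -2, -2, -1, 0, 1, 1, 1, 1, 1, 1, 0, -1, -1, 0, 1, 1, 0, 0, 0, 0,
   -1, -2, -2, -1, 0, 1, 1, 1, 1, 1, 0, -1, -2, -1, 0, 1, 1, 1, 1, 1, 0, -1, -2, -2, -1, 0, 1, 1, 1, 1, 1, 0,
   -1, -2, -1, 0, 1, 1, 1, 1, 1, 0, -1, -2, -2, -1, 0, 1, 1, 1, 1, 1, 0, -1, -2, -1, 0, 1, 1, 1, 1, 1, 0, -1,
   -2, -2, -1, 0, 1, 1, 1, 1, 1, 0, -1, -2, -1, 0, 1, 1, 1, 1, 1, 0, -1, -2, -2, -1, 0, 1, 1, 1, 1, 1, 0, -1,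
   -2, -1, 0, 1, 1, 1, 1, 1, 0, -1, -2, -2, -1, 0, 1, 1, 1, 1, 1, 0, -1, -2, -1, 0, 1, 1, 1, 1, 1, 0, -1, -2,
   -1, 0, 1, 1, 1, 1, 1, 0, -1, -2, -2, -1, 0, 1, 1, 1, 1, 1, 0, -1, -2, -1, 0, 1, 1, 1, 1, 1, 0, -1, -2, -2,
   -1, 0, 1, 1, 1, 1, 1, 0, -1, -2, -1, 0, 1, 1, 1, 1, 1, 0, -1, -2, -2, -1, 0, 1, 1, 1, 1, 1, 0, -1, -2, -1,
   0, 1, 1, 1, 1, 1, 0, -1, -2, -2, -1, 0, 1, 1, 1, 1, 1, 0, -1, -2, -1, 0, 1, 1, 1, 1, 1, 0, -1, -2, -2, -1,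
   0, 1, 1, 1, 1, 1, 0, -1, -2, -1, 0, 1, 1, 1, 1, 1, 0, -1, -2, -2, -1, 0, 0, 0, 0, 1, 1, 0, -1, -1, 0, 1,
   1, 1, 1, 1, 1, 0, -1, -2, -2, -1, 0, 0, 0, 0, 1, 1, 0, -1, -1, 0, 1, 1, 1, 1, 1, 1, 0, -1, -2, -2, -1, 0,
   0, 0, 0, 1, 1, 0, -1, -1, 0, 1, 1, 1, 1, 1, 1, 0, -1, -1, -1, 0, 0, 0, 0, 0, 0, 0, -1, -1, -1, 0, 1, 1, 1,
   1, 1, 1, 0, -1, -1, -1, 0, 0, 0, 0, 0, 0, 0, -1, -1, -1, 0, 1, 1, 1, 1, 1, 1, 0, -1, -1, -1, 0, 0, 0, 0,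
   0, 0, 0, -1, -1, -1, 0, 1, 1, 1, 1, 1, 1, 0, -1, -1, -1, 0, 0, 0, 0, 0, 0, 0, -1, -1, -1, 0, 1, 1, 1, 1,
   1, 1, 0, -1, -1, -1, 0, 0, 0, 0, 0, 0, 0, -1, -1, -1, 0, 1, 1, 1, 1, 1, 1, 0, -1, -1, -1, 0, 0, 0, 0, 0,
   0, 0, -1, -1, -1, 0, 0, 0, 0, 1, 1, 1, 0, 0, 0, 0, 0, 0, 0, 0, 0, 0, 0, -1, -1, -1, 0, 0, 0, 0, 1, 1, 1,
   0, 0, 0, 0, 0, 0, 0, 0, 0, 0, 0, -1, -1, -1, 0, 0, 0, 0, 1, 1, 1]

lemma cyc3 : cyclotomic 3 ℤ = toPoly L3 := by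
  rw [cyclotomic_three]
  simp [L3]; ring

/-- one step: the next cyclotomic polynomial from an identity between lists -/
lemma step (n p : ℕ) (hp : p.Prime) (hn : ¬ p ∣ n) (l m : List ℤ) (hl : cyclotomic n ℤ = toPoly l)
    (h : allZero (subL (expandL p l) (mulL m l)) = true) : cyclotomic (n * p) ℤ = toPoly m := by
  have h1 := cyclotomic_expand_eq_cyclotomic_mul hp hn ℤ
  rw [hl, ← toPoly_expandL p hp.one_le, toPoly_eq_of_sub _ _ h, toPoly_mulL, ← hl] at h1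
  exact (mul_right_cancel₀ (cyclotomic_ne_zero n ℤ) h1).symm

lemma cyc15 : cyclotomic 15 ℤ = toPoly L15 :=
  step 3 5 (by norm_num) (by norm_num) L3 L15 cyc3 (by decide +kernel)

lemma cyc21 : cyclotomic 21 ℤ = toPoly L21 :=
  step 3 7 (by norm_num) (by norm_num) L3 L21 cyc3 (by decide +kernel)

set_option maxRecDepth 100000 in
lemma cyc885 : cyclotomic 885 ℤ = toPoly L885 :=
  step 15 59 (by norm_num) (by norm_num) L15 L885 cyc15 (by decide +kernel)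

set_option maxRecDepth 100000 in
lemma cyc1239 : cyclotomic 1239 ℤ = toPoly L1239 :=
  step 21 59 (by norm_num) (by norm_num) L21 L1239 cyc21 (by decide +kernel)

lemma der_real (n : ℕ) (l : List ℤ) (h : cyclotomic n ℤ = toPoly l) :
    derivative (cyclotomic n ℝ) = toR (derL l) := by
  unfold toR
  rw [toPoly_derL, ← h, ← map_cyclotomic_int n ℝ, derivative_map]

/-- derivative and its variants -/
def D885 : List ℤ := derL L885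
def D885n : List ℤ := negF false D885

set_option maxRecDepth 100000 in
lemma ok885 : (kok (2 ^ 500) D885 && kok (2 ^ 500) D885.reverse && kok (2 ^ 500) D885n && kok (2 ^ 500) D885n.reverse) = true := by
  decide +kernel

set_option maxRecDepth 100000 in
lemma facts885 : D885.getLastD 0 ≠ 0 ∧ D885.headD 0 ≠ 0 ∧ nval 1 1 D885 ≠ 0 ∧ D885n.getLastD 0 ≠ 0 ∧ nval 1 1 D885n ≠ 0 := by
  decide +kernel

set_option maxRecDepth 100000 in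
lemma v885a : (kshift (2 ^ 500) D885).getLastD 0 ≠ 0 ∧ var true (kshift (2 ^ 500) D885).reverse = 0 := by
  decide +kernel

set_option maxRecDepth 100000 in
lemma v885b : (kshift (2 ^ 500) D885.reverse).getLastD 0 ≠ 0 ∧ var true (kshift (2 ^ 500) D885.reverse).reverse = 2 := by
  decide +kernel

set_option maxRecDepth 100000 in
lemma v885c : (kshift (2 ^ 500) D885n).getLastD 0 ≠ 0 ∧ var false (kshift (2 ^ 500) D885n).reverse = 0 := by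
  decide +kernel

set_option maxRecDepth 100000 in
lemma v885d : (kshift (2 ^ 500) D885n.reverse).getLastD 0 ≠ 0 ∧ var true (kshift (2 ^ 500) D885n.reverse).reverse = 5 := by
  decide +kernel

lemma le885 : Multiset.card (toR (derL L885)).roots ≤ 7 := by
  have hok := ok885
  simp only [Bool.and_eq_true] at hok
  obtain ⟨⟨⟨k1, k2⟩, k3⟩, k4⟩ := hok
  obtain ⟨fa, fb, fc, fd, fe⟩ := facts885
  have h := card_roots_le D885 _ _ _ _ fa fb (isShift_kshift _ _ k1) (isShift_kshift _ _ k2)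
    (isShift_kshift _ _ k3) (isShift_kshift _ _ k4) v885a.1 v885b.1 fc fd v885c.1 v885d.1 fe true true true false
  have hc : var false (kshift (2 ^ 500) (negF false D885)).reverse = 0 := v885c.2
  have hd : var true (kshift (2 ^ 500) (negF false D885).reverse).reverse = 5 := v885d.2
  rw [v885a.2, v885b.2, hc, hd] at h
  exact h

/-- derivative and its variants -/
def D1239 : List ℤ := derL L1239
def D1239n : List ℤ := negF false D1239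

set_option maxRecDepth 100000 in
lemma ok1239 : (kok (2 ^ 730) D1239 && kok (2 ^ 730) D1239.reverse && kok (2 ^ 730) D1239n && kok (2 ^ 730) D1239n.reverse) = true := by
  decide +kernel

set_option maxRecDepth 100000 in
lemma facts1239 : D1239.getLastD 0 ≠ 0 ∧ D1239.headD 0 ≠ 0 ∧ nval 1 1 D1239 ≠ 0 ∧ D1239n.getLastD 0 ≠ 0 ∧ nval 1 1 D1239n ≠ 0 := by
  decide +kernel

set_option maxRecDepth 100000 in
lemma v1239a : (kshift (2 ^ 730) D1239).getLastD 0 ≠ 0 ∧ var true (kshift (2 ^ 730) D1239).reverse = 0 := by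
  decide +kernel

set_option maxRecDepth 100000 in
lemma v1239b : (kshift (2 ^ 730) D1239.reverse).getLastD 0 ≠ 0 ∧ var true (kshift (2 ^ 730) D1239.reverse).reverse = 2 := by
  decide +kernel

set_option maxRecDepth 100000 in
lemma v1239c : (kshift (2 ^ 730) D1239n).getLastD 0 ≠ 0 ∧ var false (kshift (2 ^ 730) D1239n).reverse = 0 := by
  decide +kernel

set_option maxRecDepth 100000 in
lemma v1239d : (kshift (2 ^ 730) D1239n.reverse).getLastD 0 ≠ 0 ∧ var true (kshift (2 ^ 730) D1239n.reverse).reverse = 3 := by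
  decide +kernel

lemma le1239 : Multiset.card (toR (derL L1239)).roots ≤ 5 := by
  have hok := ok1239
  simp only [Bool.and_eq_true] at hok
  obtain ⟨⟨⟨k1, k2⟩, k3⟩, k4⟩ := hok
  obtain ⟨fa, fb, fc, fd, fe⟩ := facts1239
  have h := card_roots_le D1239 _ _ _ _ fa fb (isShift_kshift _ _ k1) (isShift_kshift _ _ k2)
    (isShift_kshift _ _ k3) (isShift_kshift _ _ k4) v1239a.1 v1239b.1 fc fd v1239c.1 v1239d.1 fe true true true false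
  have hc : var false (kshift (2 ^ 730) (negF false D1239)).reverse = 0 := v1239c.2
  have hd : var true (kshift (2 ^ 730) (negF false D1239).reverse).reverse = 3 := v1239d.2
  rw [v1239a.2, v1239b.2, hc, hd] at h
  exact h

/-- sign changes at the points `a i / b` -/
lemma lower (l : List ℤ) (hl : l.getLastD 0 ≠ 0) (a : ℕ → ℤ) (b : ℤ) (hb : 0 < b) (n : ℕ)
    (h : ∀ i < n, a i < a (i + 1) ∧ nval (a i) b l * nval (a (i + 1)) b l < 0) :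
    n ≤ Multiset.card (toR l).roots := by
  have hb' : (0 : ℝ) < b := by exact_mod_cast hb
  refine le_card_roots _ (toR_ne_zero l hl) n (fun i => (a i : ℝ) / b) ?_ ?_
  · intro i hi
    have : (a i : ℝ) < a (i + 1) := by exact_mod_cast (h i hi).1
    exact div_lt_div_of_pos_right this hb'
  · intro i hi
    have h1 := nval_spec (a i) b hb.ne' l
    have h2 := nval_spec (a (i + 1)) b hb.ne' l
    have h3 : ((nval (a i) b l : ℤ) : ℝ) * ((nval (a (i + 1)) b l : ℤ) : ℝ) < 0 := by exact_mod_cast (h i hi).2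
    rw [← h1, ← h2] at h3
    have h4 : (0 : ℝ) < (b : ℝ) ^ l.length := pow_pos hb' _
    by_contra hcon
    push Not at hcon
    have : 0 ≤ (eval ((a i : ℝ) / b) (toR l) * (b : ℝ) ^ l.length) * (eval ((a (i + 1) : ℝ) / b) (toR l) * (b : ℝ) ^ l.length) := by
      have : (eval ((a i : ℝ) / b) (toR l) * (b : ℝ) ^ l.length) * (eval ((a (i + 1) : ℝ) / b) (toR l) * (b : ℝ) ^ l.length)
        = (eval ((a i : ℝ) / b) (toR l) * eval ((a (i + 1) : ℝ) / b) (toR l)) * ((b : ℝ) ^ l.length * (b : ℝ) ^ l.length) := by ring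
      rw [this]; positivity
    linarith

def pts885 (i : ℕ) : ℤ := [-100, -99, -95, -92, -70, 0, 90, 100].getD i 0
def pts1239 (i : ℕ) : ℤ := [-100, -99, -70, 0, 90, 100].getD i 0

set_option maxRecDepth 100000 in
lemma ge885 : 7 ≤ Multiset.card (toR (derL L885)).roots :=
  lower _ (by decide +kernel) pts885 100 (by norm_num) 7 (by decide +kernel)

set_option maxRecDepth 100000 in
lemma ge1239 : 5 ≤ Multiset.card (toR (derL L1239)).roots :=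
  lower _ (by decide +kernel) pts1239 100 (by norm_num) 5 (by decide +kernel)

/-- `Φ_885'` has exactly `7` real zeros. -/
theorem card885 : Multiset.card (derivative (cyclotomic 885 ℝ)).roots = 7 := by
  rw [der_real 885 L885 cyc885]; exact le_antisymm le885 ge885

/-- `Φ_1239'` has exactly `5` real zeros. -/
theorem card1239 : Multiset.card (derivative (cyclotomic 1239 ℝ)).roots = 5 := by
  rw [der_real 1239 L1239 cyc1239]; exact le_antisymm le1239 ge1239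

end Pool.Agent.Q25.Crit885
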