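import Mathlib

set_option autoImplicit false

/-!
# The polynomial `x³ + k` is irreducible unless `k` is a cube
-/

namespace Pool.Agent.Q25.Cube

open Polynomial

lemma rat_cube (k : ℤ) (hk : ∀ a : ℤ, k ≠ a ^ 3) (b : ℚ) : b ^ 3 ≠ ((-k : ℤ) : ℚ) := by
  intro h
  have h1 : IsIntegral ℤ b := by
    refine ⟨X ^ 3 + C k, by monicity!, ?_⟩
    rw [eval₂_add, eval₂_pow, eval₂_X, eval₂_C, h]
    push_cast
    simp
  obtain ⟨c, hc⟩ := IsIntegrallyClosed.isIntegral_iff.1 h1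
  apply hk (-c)
  have h2 : ((c ^ 3 : ℤ) : ℚ) = ((-k : ℤ) : ℚ) := by
    rw [← h, ← hc]
    push_cast
    simp
  have h3 : c ^ 3 = -k := by exact_mod_cast h2
  linarith [show (-c) ^ 3 = -(c ^ 3) by ring]

lemma monic (k : ℤ) : (X ^ 3 + C k : ℤ[X]).Monic := by monicity!

lemma deg (k : ℤ) : (X ^ 3 + C k : ℤ[X]).natDegree = 3 := by compute_degree!

lemma irr (k : ℤ) (hk : ∀ a : ℤ, k ≠ a ^ 3) : Irreducible (X ^ 3 + C k : ℤ[X]) := by
  rw [(monic k).irreducible_iff_irreducible_map_fraction_map (K := ℚ)]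
  have e : (X ^ 3 + C k : ℤ[X]).map (algebraMap ℤ ℚ) = X ^ 3 - C ((-k : ℤ) : ℚ) := by
    rw [Polynomial.map_add, Polynomial.map_pow, map_X, map_C]
    simp
  rw [e]
  exact (X_pow_sub_C_irreducible_iff_of_prime Nat.prime_three).2 (rat_cube k hk)

lemma ev (k : ℤ) (m : ℤ) : (X ^ 3 + C k : ℤ[X]).eval m = m ^ 3 + k := by simp

end Pool.Agent.Q25.Cube
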