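import Mathlib.RingTheory.Polynomial.Cyclotomic.Expand
import Mathlib.RingTheory.Polynomial.Cyclotomic.Roots
import Mathlib.RingTheory.Polynomial.UniqueFactorization
import Mathlib.Tactic

/-!
# Divisors of `x^n - 1` in `ℤ[x]` and their heights
-/

namespace Pool.Agent.Q25.Divisors

open Polynomial

/-- the height of an integer polynomial: the largest absolute value of a coefficient -/
noncomputable def height (f : ℤ[X]) : ℕ := f.support.sup (fun i => (f.coeff i).natAbs)

lemma le_height (f : ℤ[X]) (i : ℕ) : (f.coeff i).natAbs ≤ height f := by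
  by_cases hi : i ∈ f.support
  · exact Finset.le_sup (f := fun i => (f.coeff i).natAbs) hi
  · rw [notMem_support_iff.mp hi]; exact Nat.zero_le _

lemma height_le (f : ℤ[X]) (M : ℕ) (h : ∀ i, (f.coeff i).natAbs ≤ M) : height f ≤ M :=
  Finset.sup_le (fun i _ => h i)

/-- a divisor of a product of primes is associated to a subproduct -/
lemma exists_subset {ι : Type*} [DecidableEq ι] (I : Finset ι) (c : ι → ℤ[X]) (hc : ∀ i ∈ I, Prime (c i))
    (f : ℤ[X]) (h : f ∣ ∏ i ∈ I, c i) : ∃ T ⊆ I, Associated f (∏ i ∈ T, c i) := by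
  induction I using Finset.induction_on generalizing f with
  | empty =>
    refine ⟨∅, Finset.Subset.refl _, ?_⟩
    rw [Finset.prod_empty] at h ⊢
    exact associated_one_iff_isUnit.mpr (isUnit_of_dvd_one h)
  | insert a I ha ih =>
    have hca : Prime (c a) := hc a (Finset.mem_insert_self a I)
    have hI : ∀ i ∈ I, Prime (c i) := fun i hi => hc i (Finset.mem_insert_of_mem hi)
    rw [Finset.prod_insert ha] at h
    by_cases hd : c a ∣ f
    · obtain ⟨f', rfl⟩ := hd
      have h2 : f' ∣ ∏ i ∈ I, c i := (mul_dvd_mul_iff_left hca.ne_zero).mp h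
      obtain ⟨T, hT, hA⟩ := ih hI f' h2
      refine ⟨insert a T, Finset.insert_subset_insert a hT, ?_⟩
      rw [Finset.prod_insert (fun h => ha (hT h))]
      exact hA.mul_left (c a)
    · obtain ⟨g, hg⟩ := h
      have h3 : c a ∣ g := (hca.dvd_or_dvd (by rw [← hg]; exact dvd_mul_right _ _)).resolve_left hd
      obtain ⟨g', rfl⟩ := h3
      have h4 : f ∣ ∏ i ∈ I, c i := ⟨g', by
        have : c a * (∏ i ∈ I, c i) = c a * (f * g') := by rw [hg]; ring
        exact mul_left_cancel₀ hca.ne_zero this⟩
      obtain ⟨T, hT, hA⟩ := ih hI f h4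
      exact ⟨T, hT.trans (Finset.subset_insert a I), hA⟩

lemma natAbs_coeff_of_associated {f g : ℤ[X]} (h : Associated f g) (i : ℕ) :
    (f.coeff i).natAbs = (g.coeff i).natAbs := by
  obtain ⟨u, rfl⟩ := h
  obtain ⟨r, hr, hru⟩ := Polynomial.isUnit_iff.mp u.isUnit
  rw [← hru, coeff_mul_C, Int.natAbs_mul, Int.isUnit_iff_natAbs_eq.mp hr, mul_one]

lemma height_of_associated {f g : ℤ[X]} (h : Associated f g) : height f = height g :=
  le_antisymm (height_le _ _ fun i => (natAbs_coeff_of_associated h i).le.trans (le_height g i))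
    (height_le _ _ fun i => (natAbs_coeff_of_associated h i).ge.trans (le_height f i))

/-- every divisor of `x^n - 1` is up to sign a product of distinct cyclotomic polynomials -/
lemma exists_divisors (n : ℕ) (hn : 0 < n) (f : ℤ[X]) (h : f ∣ X ^ n - 1) :
    ∃ T ⊆ n.divisors, Associated f (∏ d ∈ T, cyclotomic d ℤ) := by
  rw [← prod_cyclotomic_eq_X_pow_sub_one hn ℤ] at h
  exact exists_subset _ _ (fun d hd => (cyclotomic.irreducible (Nat.pos_of_mem_divisors hd)).prime) f h

end Pool.Agent.Q25.Divisors
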