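import Pool.Agent.Q25.Kron
import Mathlib.RingTheory.Polynomial.Cyclotomic.Basic
import Mathlib.Data.Finset.NatDivisors

/-!
# Extremal divisors of `x^10374 - 1`
-/

namespace Pool.Agent.Q25.Ext10374

open Polynomial Pool.Agent.Q25.PolyList Pool.Agent.Q25.Kron
open scoped Pointwise

def LA : List ℕ := List.replicate 16 1 ++ List.replicate 4 6 ++ List.replicate 4 14 ++ List.replicate 4 26 ++ List.replicate 4 38 ++ List.replicate 4 21 ++ List.replicate 4 39 ++ List.replicate 4 57 ++ List.replicate 4 91 ++ List.replicate 4 133 ++ List.replicate 4 247 ++ List.replicate 1 546 ++ List.replicate 1 798 ++ List.replicate 1 1482 ++ List.replicate 1 3458 ++ List.replicate 1 5187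
def LC : List ℕ := List.replicate 8 2 ++ List.replicate 8 3 ++ List.replicate 8 7 ++ List.replicate 8 13 ++ List.replicate 8 19 ++ List.replicate 2 42 ++ List.replicate 2 78 ++ List.replicate 2 114 ++ List.replicate 2 182 ++ List.replicate 2 266 ++ List.replicate 2 494 ++ List.replicate 2 273 ++ List.replicate 2 399 ++ List.replicate 2 741 ++ List.replicate 2 1729
def LB : List ℕ := LC ++ [10374]

lemma bin_replicate (k e : ℕ) : bin (List.replicate k e) = (X ^ e - 1) ^ k := by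
  induction k with
  | zero => simp
  | succ k ih => rw [List.replicate_succ, bin_cons, ih, pow_succ]; ring

lemma xn (n : ℕ) (hn : 0 < n) : (X ^ n - 1 : ℤ[X]) = ∏ i ∈ n.divisors, cyclotomic i ℤ :=
  (prod_cyclotomic_eq_X_pow_sub_one hn ℤ).symm

/-- abbreviation for the cyclotomic polynomials -/
noncomputable def c (d : ℕ) : ℤ[X] := cyclotomic d ℤ

lemma dv1 : Nat.divisors 1 = {1} := by decide +kernel
lemma x1 : (X ^ 1 - 1 : ℤ[X]) = c 1 := by
  rw [xn 1 (by norm_num), dv1]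
  rw [Finset.prod_singleton]; rfl

lemma dv2 : Nat.divisors 2 = {1, 2} := by decide +kernel
lemma x2 : (X ^ 2 - 1 : ℤ[X]) = c 1 * c 2 := by
  rw [xn 2 (by norm_num), dv2]
  repeat rw [Finset.prod_insert (by decide)]
  rw [Finset.prod_singleton]; unfold c; ring

lemma dv3 : Nat.divisors 3 = {1, 3} := by decide +kernel
lemma x3 : (X ^ 3 - 1 : ℤ[X]) = c 1 * c 3 := by
  rw [xn 3 (by norm_num), dv3]
  repeat rw [Finset.prod_insert (by decide)]
  rw [Finset.prod_singleton]; unfold c; ring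

lemma dv6 : Nat.divisors 6 = {1, 2, 3, 6} := by decide +kernel
lemma x6 : (X ^ 6 - 1 : ℤ[X]) = c 1 * c 2 * c 3 * c 6 := by
  rw [xn 6 (by norm_num), dv6]
  repeat rw [Finset.prod_insert (by decide)]
  rw [Finset.prod_singleton]; unfold c; ring

lemma dv7 : Nat.divisors 7 = {1, 7} := by decide +kernel
lemma x7 : (X ^ 7 - 1 : ℤ[X]) = c 1 * c 7 := by
  rw [xn 7 (by norm_num), dv7]
  repeat rw [Finset.prod_insert (by decide)]
  rw [Finset.prod_singleton]; unfold c; ring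

lemma dv13 : Nat.divisors 13 = {1, 13} := by decide +kernel
lemma x13 : (X ^ 13 - 1 : ℤ[X]) = c 1 * c 13 := by
  rw [xn 13 (by norm_num), dv13]
  repeat rw [Finset.prod_insert (by decide)]
  rw [Finset.prod_singleton]; unfold c; ring

lemma dv14 : Nat.divisors 14 = {1, 2, 7, 14} := by decide +kernel
lemma x14 : (X ^ 14 - 1 : ℤ[X]) = c 1 * c 2 * c 7 * c 14 := by
  rw [xn 14 (by norm_num), dv14]
  repeat rw [Finset.prod_insert (by decide)]
  rw [Finset.prod_singleton]; unfold c; ring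

lemma dv19 : Nat.divisors 19 = {1, 19} := by decide +kernel
lemma x19 : (X ^ 19 - 1 : ℤ[X]) = c 1 * c 19 := by
  rw [xn 19 (by norm_num), dv19]
  repeat rw [Finset.prod_insert (by decide)]
  rw [Finset.prod_singleton]; unfold c; ring

lemma dv21 : Nat.divisors 21 = {1, 3, 7, 21} := by decide +kernel
lemma x21 : (X ^ 21 - 1 : ℤ[X]) = c 1 * c 3 * c 7 * c 21 := by
  rw [xn 21 (by norm_num), dv21]
  repeat rw [Finset.prod_insert (by decide)]
  rw [Finset.prod_singleton]; unfold c; ring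

lemma dv26 : Nat.divisors 26 = {1, 2, 13, 26} := by decide +kernel
lemma x26 : (X ^ 26 - 1 : ℤ[X]) = c 1 * c 2 * c 13 * c 26 := by
  rw [xn 26 (by norm_num), dv26]
  repeat rw [Finset.prod_insert (by decide)]
  rw [Finset.prod_singleton]; unfold c; ring

lemma dv38 : Nat.divisors 38 = {1, 2, 19, 38} := by decide +kernel
lemma x38 : (X ^ 38 - 1 : ℤ[X]) = c 1 * c 2 * c 19 * c 38 := by
  rw [xn 38 (by norm_num), dv38]
  repeat rw [Finset.prod_insert (by decide)]
  rw [Finset.prod_singleton]; unfold c; ring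

lemma dv39 : Nat.divisors 39 = {1, 3, 13, 39} := by decide +kernel
lemma x39 : (X ^ 39 - 1 : ℤ[X]) = c 1 * c 3 * c 13 * c 39 := by
  rw [xn 39 (by norm_num), dv39]
  repeat rw [Finset.prod_insert (by decide)]
  rw [Finset.prod_singleton]; unfold c; ring

lemma dv42 : Nat.divisors 42 = {1, 2, 3, 6, 7, 14, 21, 42} := by decide +kernel
lemma x42 : (X ^ 42 - 1 : ℤ[X]) = c 1 * c 2 * c 3 * c 6 * c 7 * c 14 * c 21 * c 42 := by
  rw [xn 42 (by norm_num), dv42]
  repeat rw [Finset.prod_insert (by decide)]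
  rw [Finset.prod_singleton]; unfold c; ring

lemma dv57 : Nat.divisors 57 = {1, 3, 19, 57} := by decide +kernel
lemma x57 : (X ^ 57 - 1 : ℤ[X]) = c 1 * c 3 * c 19 * c 57 := by
  rw [xn 57 (by norm_num), dv57]
  repeat rw [Finset.prod_insert (by decide)]
  rw [Finset.prod_singleton]; unfold c; ring

lemma dv78 : Nat.divisors 78 = {1, 2, 3, 6, 13, 26, 39, 78} := by decide +kernel
lemma x78 : (X ^ 78 - 1 : ℤ[X]) = c 1 * c 2 * c 3 * c 6 * c 13 * c 26 * c 39 * c 78 := by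
  rw [xn 78 (by norm_num), dv78]
  repeat rw [Finset.prod_insert (by decide)]
  rw [Finset.prod_singleton]; unfold c; ring

lemma dv91 : Nat.divisors 91 = {1, 7, 13, 91} := by decide +kernel
lemma x91 : (X ^ 91 - 1 : ℤ[X]) = c 1 * c 7 * c 13 * c 91 := by
  rw [xn 91 (by norm_num), dv91]
  repeat rw [Finset.prod_insert (by decide)]
  rw [Finset.prod_singleton]; unfold c; ring

lemma dv114 : Nat.divisors 114 = {1, 2, 3, 6, 19, 38, 57, 114} := by decide +kernel
lemma x114 : (X ^ 114 - 1 : ℤ[X]) = c 1 * c 2 * c 3 * c 6 * c 19 * c 38 * c 57 * c 114 := by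
  rw [xn 114 (by norm_num), dv114]
  repeat rw [Finset.prod_insert (by decide)]
  rw [Finset.prod_singleton]; unfold c; ring

lemma dv133 : Nat.divisors 133 = {1, 7, 19, 133} := by decide +kernel
lemma x133 : (X ^ 133 - 1 : ℤ[X]) = c 1 * c 7 * c 19 * c 133 := by
  rw [xn 133 (by norm_num), dv133]
  repeat rw [Finset.prod_insert (by decide)]
  rw [Finset.prod_singleton]; unfold c; ring

lemma dv182 : Nat.divisors 182 = {1, 2, 7, 13, 14, 26, 91, 182} := by decide +kernel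
lemma x182 : (X ^ 182 - 1 : ℤ[X]) = c 1 * c 2 * c 7 * c 13 * c 14 * c 26 * c 91 * c 182 := by
  rw [xn 182 (by norm_num), dv182]
  repeat rw [Finset.prod_insert (by decide)]
  rw [Finset.prod_singleton]; unfold c; ring

lemma dv247 : Nat.divisors 247 = {1, 13, 19, 247} := by decide +kernel
lemma x247 : (X ^ 247 - 1 : ℤ[X]) = c 1 * c 13 * c 19 * c 247 := by
  rw [xn 247 (by norm_num), dv247]
  repeat rw [Finset.prod_insert (by decide)]
  rw [Finset.prod_singleton]; unfold c; ring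

lemma dv266 : Nat.divisors 266 = {1, 2, 7, 14, 19, 38, 133, 266} := by decide +kernel
lemma x266 : (X ^ 266 - 1 : ℤ[X]) = c 1 * c 2 * c 7 * c 14 * c 19 * c 38 * c 133 * c 266 := by
  rw [xn 266 (by norm_num), dv266]
  repeat rw [Finset.prod_insert (by decide)]
  rw [Finset.prod_singleton]; unfold c; ring

lemma dv273 : Nat.divisors 273 = {1, 3, 7, 13, 21, 39, 91, 273} := by decide +kernel
lemma x273 : (X ^ 273 - 1 : ℤ[X]) = c 1 * c 3 * c 7 * c 13 * c 21 * c 39 * c 91 * c 273 := by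
  rw [xn 273 (by norm_num), dv273]
  repeat rw [Finset.prod_insert (by decide)]
  rw [Finset.prod_singleton]; unfold c; ring

lemma dv399 : Nat.divisors 399 = {1, 3, 7, 19, 21, 57, 133, 399} := by decide +kernel
lemma x399 : (X ^ 399 - 1 : ℤ[X]) = c 1 * c 3 * c 7 * c 19 * c 21 * c 57 * c 133 * c 399 := by
  rw [xn 399 (by norm_num), dv399]
  repeat rw [Finset.prod_insert (by decide)]
  rw [Finset.prod_singleton]; unfold c; ring

lemma dv494 : Nat.divisors 494 = {1, 2, 13, 19, 26, 38, 247, 494} := by decide +kernel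
lemma x494 : (X ^ 494 - 1 : ℤ[X]) = c 1 * c 2 * c 13 * c 19 * c 26 * c 38 * c 247 * c 494 := by
  rw [xn 494 (by norm_num), dv494]
  repeat rw [Finset.prod_insert (by decide)]
  rw [Finset.prod_singleton]; unfold c; ring

lemma dv546 : Nat.divisors 546 = {1, 2, 3, 6, 7, 13, 14, 21, 26, 39, 42, 78, 91, 182, 273, 546} := by decide +kernel
lemma x546 : (X ^ 546 - 1 : ℤ[X]) = c 1 * c 2 * c 3 * c 6 * c 7 * c 13 * c 14 * c 21 * c 26 * c 39 * c 42 * c 78 * c 91 * c 182 * c 273 * c 546 := by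
  rw [xn 546 (by norm_num), dv546]
  repeat rw [Finset.prod_insert (by decide)]
  rw [Finset.prod_singleton]; unfold c; ring

lemma dv741 : Nat.divisors 741 = {1, 3, 13, 19, 39, 57, 247, 741} := by decide +kernel
lemma x741 : (X ^ 741 - 1 : ℤ[X]) = c 1 * c 3 * c 13 * c 19 * c 39 * c 57 * c 247 * c 741 := by
  rw [xn 741 (by norm_num), dv741]
  repeat rw [Finset.prod_insert (by decide)]
  rw [Finset.prod_singleton]; unfold c; ring

lemma dv798 : Nat.divisors 798 = {1, 2, 3, 6, 7, 14, 19, 21, 38, 42, 57, 114, 133, 266, 399, 798} := by decide +kernel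
lemma x798 : (X ^ 798 - 1 : ℤ[X]) = c 1 * c 2 * c 3 * c 6 * c 7 * c 14 * c 19 * c 21 * c 38 * c 42 * c 57 * c 114 * c 133 * c 266 * c 399 * c 798 := by
  rw [xn 798 (by norm_num), dv798]
  repeat rw [Finset.prod_insert (by decide)]
  rw [Finset.prod_singleton]; unfold c; ring

lemma dv1482 : Nat.divisors 1482 = {1, 2, 3, 6, 13, 19, 26, 38, 39, 57, 78, 114, 247, 494, 741, 1482} := by decide +kernel
lemma x1482 : (X ^ 1482 - 1 : ℤ[X]) = c 1 * c 2 * c 3 * c 6 * c 13 * c 19 * c 26 * c 38 * c 39 * c 57 * c 78 * c 114 * c 247 * c 494 * c 741 * c 1482 := by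
  rw [xn 1482 (by norm_num), dv1482]
  repeat rw [Finset.prod_insert (by decide)]
  rw [Finset.prod_singleton]; unfold c; ring

lemma dv1729 : Nat.divisors 1729 = {1, 7, 13, 19, 91, 133, 247, 1729} := by decide +kernel
lemma x1729 : (X ^ 1729 - 1 : ℤ[X]) = c 1 * c 7 * c 13 * c 19 * c 91 * c 133 * c 247 * c 1729 := by
  rw [xn 1729 (by norm_num), dv1729]
  repeat rw [Finset.prod_insert (by decide)]
  rw [Finset.prod_singleton]; unfold c; ring

lemma dv3458 : Nat.divisors 3458 = {1, 2, 7, 13, 14, 19, 26, 38, 91, 133, 182, 247, 266, 494, 1729, 3458} := by decide +kernel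
lemma x3458 : (X ^ 3458 - 1 : ℤ[X]) = c 1 * c 2 * c 7 * c 13 * c 14 * c 19 * c 26 * c 38 * c 91 * c 133 * c 182 * c 247 * c 266 * c 494 * c 1729 * c 3458 := by
  rw [xn 3458 (by norm_num), dv3458]
  repeat rw [Finset.prod_insert (by decide)]
  rw [Finset.prod_singleton]; unfold c; ring

lemma dv5187 : Nat.divisors 5187 = {1, 3, 7, 13, 19, 21, 39, 57, 91, 133, 247, 273, 399, 741, 1729, 5187} := by
  have e : Nat.divisors 5187 = Nat.divisors (3 * 1729) := congrArg Nat.divisors (by norm_num)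
  rw [e, Nat.divisors_mul, dv3, dv1729]
  decide +kernel
lemma x5187 : (X ^ 5187 - 1 : ℤ[X]) = c 1 * c 3 * c 7 * c 13 * c 19 * c 21 * c 39 * c 57 * c 91 * c 133 * c 247 * c 273 * c 399 * c 741 * c 1729 * c 5187 := by
  rw [xn 5187 (by norm_num), dv5187]
  repeat rw [Finset.prod_insert (by decide)]
  rw [Finset.prod_singleton]; unfold c; ring

lemma dv10374 : Nat.divisors 10374 = {1, 2, 3, 6, 7, 13, 14, 19, 21, 26, 38, 39, 42, 57, 78, 91, 114, 133, 182, 247, 266, 273, 399, 494, 546, 741, 798, 1482, 1729, 3458, 5187, 10374} := by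
  have e : Nat.divisors 10374 = Nat.divisors (3 * 3458) := congrArg Nat.divisors (by norm_num)
  rw [e, Nat.divisors_mul, dv3, dv3458]
  decide +kernel
lemma x10374 : (X ^ 10374 - 1 : ℤ[X]) = c 1 * c 2 * c 3 * c 6 * c 7 * c 13 * c 14 * c 19 * c 21 * c 26 * c 38 * c 39 * c 42 * c 57 * c 78 * c 91 * c 114 * c 133 * c 182 * c 247 * c 266 * c 273 * c 399 * c 494 * c 546 * c 741 * c 798 * c 1482 * c 1729 * c 3458 * c 5187 * c 10374 := by
  rw [xn 10374 (by norm_num), dv10374]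
  repeat rw [Finset.prod_insert (by decide)]
  rw [Finset.prod_singleton]; unfold c; ring

/-- product over the divisors with an odd number of prime factors -/
noncomputable def Qo : ℤ[X] := c 2 * c 3 * c 7 * c 13 * c 19 * c 42 * c 78 * c 114 * c 182 * c 266 * c 273 * c 399 * c 494 * c 741 * c 1729 * c 10374
/-- product over the divisors with an even number of prime factors -/
noncomputable def Qe : ℤ[X] := c 1 * c 6 * c 14 * c 21 * c 26 * c 38 * c 39 * c 57 * c 91 * c 133 * c 247 * c 546 * c 798 * c 1482 * c 3458 * c 5187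

lemma binA : bin LA = (X ^ 1 - 1 : ℤ[X]) ^ 16 * (X ^ 6 - 1 : ℤ[X]) ^ 4 * (X ^ 14 - 1 : ℤ[X]) ^ 4 * (X ^ 26 - 1 : ℤ[X]) ^ 4 * (X ^ 38 - 1 : ℤ[X]) ^ 4 * (X ^ 21 - 1 : ℤ[X]) ^ 4 * (X ^ 39 - 1 : ℤ[X]) ^ 4 * (X ^ 57 - 1 : ℤ[X]) ^ 4 * (X ^ 91 - 1 : ℤ[X]) ^ 4 * (X ^ 133 - 1 : ℤ[X]) ^ 4 * (X ^ 247 - 1 : ℤ[X]) ^ 4 * (X ^ 546 - 1 : ℤ[X]) ^ 1 * (X ^ 798 - 1 : ℤ[X]) ^ 1 * (X ^ 1482 - 1 : ℤ[X]) ^ 1 * (X ^ 3458 - 1 : ℤ[X]) ^ 1 * (X ^ 5187 - 1 : ℤ[X]) ^ 1 := by
  unfold LA
  simp only [bin_append, bin_replicate]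

lemma binC : bin LC = (X ^ 2 - 1 : ℤ[X]) ^ 8 * (X ^ 3 - 1 : ℤ[X]) ^ 8 * (X ^ 7 - 1 : ℤ[X]) ^ 8 * (X ^ 13 - 1 : ℤ[X]) ^ 8 * (X ^ 19 - 1 : ℤ[X]) ^ 8 * (X ^ 42 - 1 : ℤ[X]) ^ 2 * (X ^ 78 - 1 : ℤ[X]) ^ 2 * (X ^ 114 - 1 : ℤ[X]) ^ 2 * (X ^ 182 - 1 : ℤ[X]) ^ 2 * (X ^ 266 - 1 : ℤ[X]) ^ 2 * (X ^ 494 - 1 : ℤ[X]) ^ 2 * (X ^ 273 - 1 : ℤ[X]) ^ 2 * (X ^ 399 - 1 : ℤ[X]) ^ 2 * (X ^ 741 - 1 : ℤ[X]) ^ 2 * (X ^ 1729 - 1 : ℤ[X]) ^ 2 := by
  unfold LC
  simp only [bin_append, bin_replicate]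

lemma bsing (n : ℕ) : bin [n] = (X ^ n - 1 : ℤ[X]) := by simp [bin]
lemma binB : bin LB = bin LC * (X ^ 10374 - 1 : ℤ[X]) := by rw [LB, bin_append, bsing]
lemma idO : Qo * bin LA = bin LB := by
  rw [binB, binA, binC]
  rw [x1, x2, x3, x6, x7, x13, x14, x19, x21, x26, x38, x39, x42, x57, x78, x91, x114, x133, x182, x247, x266, x273, x399, x494, x546, x741, x798, x1482, x1729, x3458, x5187, x10374]
  unfold Qo; ring

lemma idE : Qe * bin LC = bin LA := by
  rw [binA, binC]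
  rw [x1, x2, x3, x6, x7, x13, x14, x19, x21, x26, x38, x39, x42, x57, x78, x91, x114, x133, x182, x247, x266, x273, x399, x494, x546, x741, x798, x1482, x1729, x3458, x5187]
  unfold Qe; ring

/-- half of the base -/
def h : ℕ := 2 ^ 110
def Dof : ℕ := h * ((2 * h) ^ 5188 - 1) / (2 * h - 1)
def No : ℕ := pw (2 * h) LB / pw (2 * h) LA
def Ne : ℕ := pw (2 * h) LA / pw (2 * h) LC

/-- the list of coefficients of the odd product -/
def lo : List ℤ := dec (2 * h) h 5188 (No + Dof)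
/-- the list of coefficients of the even product -/
def le : List ℤ := dec (2 * h) h 5188 (Ne + Dof)

def M : ℕ := 8415683487216

set_option maxRecDepth 100000 in
lemma t1 : (2 * h - 1) * Dof = h * ((2 * h) ^ 5188 - 1) := by decide +kernel

set_option maxRecDepth 100000 in
lemma t2 : No + Dof < (2 * h) ^ 5188 ∧ No * pw (2 * h) LA = pw (2 * h) LB := by decide +kernel

set_option maxRecDepth 100000 in
lemma t3 : Ne + Dof < (2 * h) ^ 5188 ∧ Ne * pw (2 * h) LC = pw (2 * h) LA := by decide +kernel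

set_option maxRecDepth 100000 in
lemma t4 : allLe M lo = true ∧ lo.getD 2589 0 - lo.getD 2590 0 = 9401697462912 := by decide +kernel

set_option maxRecDepth 100000 in
lemma t5 : allLe M le = true := by decide +kernel


lemma pos_mem (L : List ℕ) (h : L.all (fun e => decide (0 < e)) = true) : ∀ e ∈ L, 0 < e := by
  intro e he
  have := List.all_eq_true.mp h e he
  simpa using this

theorem Qo_eq : Qo = toPoly lo := by
  have h1 := quotient h 5188 No M LA LB Dof t1 (by decide) t2.1 t4.1 (by decide +kernel) t2.2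
  rw [← idO] at h1
  exact (mul_right_cancel₀ (bin_ne_zero LA (pos_mem _ (by decide +kernel))) h1).symm

theorem Qe_eq : Qe = toPoly le := by
  have h1 := quotient h 5188 Ne M LC LA Dof t1 (by decide) t3.1 t5 (by decide +kernel) t3.2
  rw [← idE] at h1
  exact (mul_right_cancel₀ (bin_ne_zero LC (pos_mem _ (by decide +kernel))) h1).symm

lemma pf (s : Finset ℕ) (hs : ∀ p ∈ s, p.Prime) (d : ℕ) (hd : ∏ p ∈ s, p = d) : d.primeFactors.card = s.card := by
  rw [← hd, Nat.primeFactors_prod hs]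

lemma w1 : Nat.card ((1 : ℕ).primeFactors : Set ℕ) = 0 ∧ (1 : ℕ).primeFactors.card = 0 := by
  have h := pf (∅ : Finset ℕ) (by simp; try norm_num) 1 (by decide)
  exact ⟨by rw [Nat.card_coe_set_eq, Set.ncard_coe_finset, h]; rfl, h⟩

lemma w2 : Nat.card ((2 : ℕ).primeFactors : Set ℕ) = 1 ∧ (2 : ℕ).primeFactors.card = 1 := by
  have h := pf ({2} : Finset ℕ) (by simp; try norm_num) 2 (by decide)
  exact ⟨by rw [Nat.card_coe_set_eq, Set.ncard_coe_finset, h]; rfl, h⟩

lemma w3 : Nat.card ((3 : ℕ).primeFactors : Set ℕ) = 1 ∧ (3 : ℕ).primeFactors.card = 1 := by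
  have h := pf ({3} : Finset ℕ) (by simp; try norm_num) 3 (by decide)
  exact ⟨by rw [Nat.card_coe_set_eq, Set.ncard_coe_finset, h]; rfl, h⟩

lemma w6 : Nat.card ((6 : ℕ).primeFactors : Set ℕ) = 2 ∧ (6 : ℕ).primeFactors.card = 2 := by
  have h := pf ({2, 3} : Finset ℕ) (by simp; try norm_num) 6 (by decide)
  exact ⟨by rw [Nat.card_coe_set_eq, Set.ncard_coe_finset, h]; rfl, h⟩

lemma w7 : Nat.card ((7 : ℕ).primeFactors : Set ℕ) = 1 ∧ (7 : ℕ).primeFactors.card = 1 := by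
  have h := pf ({7} : Finset ℕ) (by simp; try norm_num) 7 (by decide)
  exact ⟨by rw [Nat.card_coe_set_eq, Set.ncard_coe_finset, h]; rfl, h⟩

lemma w13 : Nat.card ((13 : ℕ).primeFactors : Set ℕ) = 1 ∧ (13 : ℕ).primeFactors.card = 1 := by
  have h := pf ({13} : Finset ℕ) (by simp; try norm_num) 13 (by decide)
  exact ⟨by rw [Nat.card_coe_set_eq, Set.ncard_coe_finset, h]; rfl, h⟩

lemma w14 : Nat.card ((14 : ℕ).primeFactors : Set ℕ) = 2 ∧ (14 : ℕ).primeFactors.card = 2 := by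
  have h := pf ({2, 7} : Finset ℕ) (by simp; try norm_num) 14 (by decide)
  exact ⟨by rw [Nat.card_coe_set_eq, Set.ncard_coe_finset, h]; rfl, h⟩

lemma w19 : Nat.card ((19 : ℕ).primeFactors : Set ℕ) = 1 ∧ (19 : ℕ).primeFactors.card = 1 := by
  have h := pf ({19} : Finset ℕ) (by simp; try norm_num) 19 (by decide)
  exact ⟨by rw [Nat.card_coe_set_eq, Set.ncard_coe_finset, h]; rfl, h⟩

lemma w21 : Nat.card ((21 : ℕ).primeFactors : Set ℕ) = 2 ∧ (21 : ℕ).primeFactors.card = 2 := by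
  have h := pf ({3, 7} : Finset ℕ) (by simp; try norm_num) 21 (by decide)
  exact ⟨by rw [Nat.card_coe_set_eq, Set.ncard_coe_finset, h]; rfl, h⟩

lemma w26 : Nat.card ((26 : ℕ).primeFactors : Set ℕ) = 2 ∧ (26 : ℕ).primeFactors.card = 2 := by
  have h := pf ({2, 13} : Finset ℕ) (by simp; try norm_num) 26 (by decide)
  exact ⟨by rw [Nat.card_coe_set_eq, Set.ncard_coe_finset, h]; rfl, h⟩

lemma w38 : Nat.card ((38 : ℕ).primeFactors : Set ℕ) = 2 ∧ (38 : ℕ).primeFactors.card = 2 := by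
  have h := pf ({2, 19} : Finset ℕ) (by simp; try norm_num) 38 (by decide)
  exact ⟨by rw [Nat.card_coe_set_eq, Set.ncard_coe_finset, h]; rfl, h⟩

lemma w39 : Nat.card ((39 : ℕ).primeFactors : Set ℕ) = 2 ∧ (39 : ℕ).primeFactors.card = 2 := by
  have h := pf ({3, 13} : Finset ℕ) (by simp; try norm_num) 39 (by decide)
  exact ⟨by rw [Nat.card_coe_set_eq, Set.ncard_coe_finset, h]; rfl, h⟩

lemma w42 : Nat.card ((42 : ℕ).primeFactors : Set ℕ) = 3 ∧ (42 : ℕ).primeFactors.card = 3 := by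
  have h := pf ({2, 3, 7} : Finset ℕ) (by simp; try norm_num) 42 (by decide)
  exact ⟨by rw [Nat.card_coe_set_eq, Set.ncard_coe_finset, h]; rfl, h⟩

lemma w57 : Nat.card ((57 : ℕ).primeFactors : Set ℕ) = 2 ∧ (57 : ℕ).primeFactors.card = 2 := by
  have h := pf ({3, 19} : Finset ℕ) (by simp; try norm_num) 57 (by decide)
  exact ⟨by rw [Nat.card_coe_set_eq, Set.ncard_coe_finset, h]; rfl, h⟩

lemma w78 : Nat.card ((78 : ℕ).primeFactors : Set ℕ) = 3 ∧ (78 : ℕ).primeFactors.card = 3 := by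
  have h := pf ({2, 3, 13} : Finset ℕ) (by simp; try norm_num) 78 (by decide)
  exact ⟨by rw [Nat.card_coe_set_eq, Set.ncard_coe_finset, h]; rfl, h⟩

lemma w91 : Nat.card ((91 : ℕ).primeFactors : Set ℕ) = 2 ∧ (91 : ℕ).primeFactors.card = 2 := by
  have h := pf ({7, 13} : Finset ℕ) (by simp; try norm_num) 91 (by decide)
  exact ⟨by rw [Nat.card_coe_set_eq, Set.ncard_coe_finset, h]; rfl, h⟩

lemma w114 : Nat.card ((114 : ℕ).primeFactors : Set ℕ) = 3 ∧ (114 : ℕ).primeFactors.card = 3 := by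
  have h := pf ({2, 3, 19} : Finset ℕ) (by simp; try norm_num) 114 (by decide)
  exact ⟨by rw [Nat.card_coe_set_eq, Set.ncard_coe_finset, h]; rfl, h⟩

lemma w133 : Nat.card ((133 : ℕ).primeFactors : Set ℕ) = 2 ∧ (133 : ℕ).primeFactors.card = 2 := by
  have h := pf ({7, 19} : Finset ℕ) (by simp; try norm_num) 133 (by decide)
  exact ⟨by rw [Nat.card_coe_set_eq, Set.ncard_coe_finset, h]; rfl, h⟩

lemma w182 : Nat.card ((182 : ℕ).primeFactors : Set ℕ) = 3 ∧ (182 : ℕ).primeFactors.card = 3 := by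
  have h := pf ({2, 7, 13} : Finset ℕ) (by simp; try norm_num) 182 (by decide)
  exact ⟨by rw [Nat.card_coe_set_eq, Set.ncard_coe_finset, h]; rfl, h⟩

lemma w247 : Nat.card ((247 : ℕ).primeFactors : Set ℕ) = 2 ∧ (247 : ℕ).primeFactors.card = 2 := by
  have h := pf ({13, 19} : Finset ℕ) (by simp; try norm_num) 247 (by decide)
  exact ⟨by rw [Nat.card_coe_set_eq, Set.ncard_coe_finset, h]; rfl, h⟩

lemma w266 : Nat.card ((266 : ℕ).primeFactors : Set ℕ) = 3 ∧ (266 : ℕ).primeFactors.card = 3 := by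
  have h := pf ({2, 7, 19} : Finset ℕ) (by simp; try norm_num) 266 (by decide)
  exact ⟨by rw [Nat.card_coe_set_eq, Set.ncard_coe_finset, h]; rfl, h⟩

lemma w273 : Nat.card ((273 : ℕ).primeFactors : Set ℕ) = 3 ∧ (273 : ℕ).primeFactors.card = 3 := by
  have h := pf ({3, 7, 13} : Finset ℕ) (by simp; try norm_num) 273 (by decide)
  exact ⟨by rw [Nat.card_coe_set_eq, Set.ncard_coe_finset, h]; rfl, h⟩

lemma w399 : Nat.card ((399 : ℕ).primeFactors : Set ℕ) = 3 ∧ (399 : ℕ).primeFactors.card = 3 := by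
  have h := pf ({3, 7, 19} : Finset ℕ) (by simp; try norm_num) 399 (by decide)
  exact ⟨by rw [Nat.card_coe_set_eq, Set.ncard_coe_finset, h]; rfl, h⟩

lemma w494 : Nat.card ((494 : ℕ).primeFactors : Set ℕ) = 3 ∧ (494 : ℕ).primeFactors.card = 3 := by
  have h := pf ({2, 13, 19} : Finset ℕ) (by simp; try norm_num) 494 (by decide)
  exact ⟨by rw [Nat.card_coe_set_eq, Set.ncard_coe_finset, h]; rfl, h⟩

lemma w546 : Nat.card ((546 : ℕ).primeFactors : Set ℕ) = 4 ∧ (546 : ℕ).primeFactors.card = 4 := by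
  have h := pf ({2, 3, 7, 13} : Finset ℕ) (by simp; try norm_num) 546 (by decide)
  exact ⟨by rw [Nat.card_coe_set_eq, Set.ncard_coe_finset, h]; rfl, h⟩

lemma w741 : Nat.card ((741 : ℕ).primeFactors : Set ℕ) = 3 ∧ (741 : ℕ).primeFactors.card = 3 := by
  have h := pf ({3, 13, 19} : Finset ℕ) (by simp; try norm_num) 741 (by decide)
  exact ⟨by rw [Nat.card_coe_set_eq, Set.ncard_coe_finset, h]; rfl, h⟩

lemma w798 : Nat.card ((798 : ℕ).primeFactors : Set ℕ) = 4 ∧ (798 : ℕ).primeFactors.card = 4 := by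
  have h := pf ({2, 3, 7, 19} : Finset ℕ) (by simp; try norm_num) 798 (by decide)
  exact ⟨by rw [Nat.card_coe_set_eq, Set.ncard_coe_finset, h]; rfl, h⟩

lemma w1482 : Nat.card ((1482 : ℕ).primeFactors : Set ℕ) = 4 ∧ (1482 : ℕ).primeFactors.card = 4 := by
  have h := pf ({2, 3, 13, 19} : Finset ℕ) (by simp; try norm_num) 1482 (by decide)
  exact ⟨by rw [Nat.card_coe_set_eq, Set.ncard_coe_finset, h]; rfl, h⟩

lemma w1729 : Nat.card ((1729 : ℕ).primeFactors : Set ℕ) = 3 ∧ (1729 : ℕ).primeFactors.card = 3 := by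
  have h := pf ({7, 13, 19} : Finset ℕ) (by simp; try norm_num) 1729 (by decide)
  exact ⟨by rw [Nat.card_coe_set_eq, Set.ncard_coe_finset, h]; rfl, h⟩

lemma w3458 : Nat.card ((3458 : ℕ).primeFactors : Set ℕ) = 4 ∧ (3458 : ℕ).primeFactors.card = 4 := by
  have h := pf ({2, 7, 13, 19} : Finset ℕ) (by simp; try norm_num) 3458 (by decide)
  exact ⟨by rw [Nat.card_coe_set_eq, Set.ncard_coe_finset, h]; rfl, h⟩

lemma w5187 : Nat.card ((5187 : ℕ).primeFactors : Set ℕ) = 4 ∧ (5187 : ℕ).primeFactors.card = 4 := by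
  have h := pf ({3, 7, 13, 19} : Finset ℕ) (by simp; try norm_num) 5187 (by decide)
  exact ⟨by rw [Nat.card_coe_set_eq, Set.ncard_coe_finset, h]; rfl, h⟩

lemma w10374 : Nat.card ((10374 : ℕ).primeFactors : Set ℕ) = 5 ∧ (10374 : ℕ).primeFactors.card = 5 := by
  have h := pf ({2, 3, 7, 13, 19} : Finset ℕ) (by simp; try norm_num) 10374 (by decide)
  exact ⟨by rw [Nat.card_coe_set_eq, Set.ncard_coe_finset, h]; rfl, h⟩

lemma divs : Nat.divisors 10374 = {1, 2, 3, 6, 7, 13, 14, 19, 21, 26, 38, 39, 42, 57, 78, 91, 114, 133, 182, 247, 266, 273, 399, 494, 546, 741, 798, 1482, 1729, 3458, 5187, 10374} := dv10374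

lemma filt_odd : (Nat.divisors 10374).filter (fun d => Odd d.primeFactors.card) = {2, 3, 7, 13, 19, 42, 78, 114, 182, 266, 273, 399, 494, 741, 1729, 10374} := by
  rw [divs]
  simp only [Finset.filter_insert, Finset.filter_singleton, w1.2, w2.2, w3.2, w6.2, w7.2, w13.2, w14.2, w19.2, w21.2, w26.2, w38.2, w39.2, w42.2, w57.2, w78.2, w91.2, w114.2, w133.2, w182.2, w247.2, w266.2, w273.2, w399.2, w494.2, w546.2, w741.2, w798.2, w1482.2, w1729.2, w3458.2, w5187.2, w10374.2]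
  decide

lemma filt_even : (Nat.divisors 10374).filter (fun d => Even d.primeFactors.card) = {1, 6, 14, 21, 26, 38, 39, 57, 91, 133, 247, 546, 798, 1482, 3458, 5187} := by
  rw [divs]
  simp only [Finset.filter_insert, Finset.filter_singleton, w1.2, w2.2, w3.2, w6.2, w7.2, w13.2, w14.2, w19.2, w21.2, w26.2, w38.2, w39.2, w42.2, w57.2, w78.2, w91.2, w114.2, w133.2, w182.2, w247.2, w266.2, w273.2, w399.2, w494.2, w546.2, w741.2, w798.2, w1482.2, w1729.2, w3458.2, w5187.2, w10374.2]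
  decide

lemma prod_odd : ∏ d ∈ (Nat.divisors 10374).filter (fun d => Odd d.primeFactors.card), cyclotomic d ℤ = Qo := by
  rw [filt_odd]
  repeat rw [Finset.prod_insert (by decide)]
  rw [Finset.prod_singleton]; unfold Qo c; ring

lemma prod_even : ∏ d ∈ (Nat.divisors 10374).filter (fun d => Even d.primeFactors.card), cyclotomic d ℤ = Qe := by
  rw [filt_even]
  repeat rw [Finset.prod_insert (by decide)]
  rw [Finset.prod_singleton]; unfold Qe c; ring

end Pool.Agent.Q25.Ext10374
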