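import Pool.Agent.Q25.GWin
import Pool.Agent.Y843.HG.VLow
import Pool.Agent.Y843.HG.Gold
import Pool.Agent.Y879.GL.Prog2

set_option autoImplicit false

/-! Narrow progressions and regular points of the primes `p` with `n - p` prime, relative to their number. -/

namespace Pool.Agent.Q25.GReg

open Finset Filter
open Pool.Agent.H560R3.GB (sing C₂)
open Pool.Agent.W93.PG (WinP cnt)
open Pool.Agent.Y843.HG (ZG card_ZG V_up V_dn Iso gold_primes)
open Pool.Agent.Y843.HS (Pr VV Pr_mem)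
open Pool.Agent.Y879.GL (RO CD bS Irr)

lemma half_le_C₂ : (1 / 2 : ℝ) ≤ C₂ := by
  unfold C₂
  apply le_ciInf
  intro z
  apply Pool.Agent.Y843.HG.twin_prod
  intro p hp
  rw [mem_filter, mem_Icc] at hp
  exact hp.1.1

/-- the two forms of the sieve product -/
lemma V_eq (r n : ℕ) :
    Pool.Agent.W123.RP.Vq (Pool.Agent.Y879.AP.Qn (Pool.Agent.Y879.AP.Q2 (-1) n) 1)
      ⌊(n : ℝ) ^ (1 / (r : ℝ))⌋₊ = VV (ZG n) 0 ⌊(n : ℝ) ^ (1 / (r : ℝ))⌋₊ := by
  classical
  unfold VV Pool.Agent.W123.RP.Vq Pool.Agent.H373R2.T7.pz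
  have e : Pr 0 ⌊(n : ℝ) ^ (1 / (r : ℝ))⌋₊ = (Icc 1 ⌊(n : ℝ) ^ (1 / (r : ℝ))⌋₊).filter Nat.Prime := by
    ext p
    rw [Pr_mem, mem_filter, mem_Icc]
    constructor
    · rintro ⟨⟨a, b⟩, c⟩
      exact ⟨⟨c.pos, b⟩, c⟩
    · rintro ⟨⟨a, b⟩, c⟩
      exact ⟨⟨c.pos, b⟩, c⟩
  rw [e]
  refine prod_congr rfl (fun p hp => ?_)
  have hpp := (mem_filter.1 hp).2
  have h : ¬ p ∣ 1 := by
    intro h1
    have := Nat.le_of_dvd one_pos h1
    have := hpp.two_le
    omega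
  rw [Pool.Agent.Y879.AP.nuB_Qn_not _ _ _ h, Pool.Agent.Y879.AP.nuB_Q2 (-1) n (by norm_num) p hpp, card_ZG]
  unfold Pool.Agent.Y879.AP.nu2
  by_cases h2 : p ∣ n
  · rw [if_pos h2, if_pos (Int.natCast_dvd_natCast.2 h2)]
  · rw [if_neg h2, if_neg (fun h3 => h2 (Int.natCast_dvd_natCast.1 h3))]

/-- the sieve product and the singular series -/
lemma V_comp (r : ℕ) (hr : 1 ≤ r) : ∃ a b : ℝ, 0 < a ∧ 0 < b ∧ ∃ n₀ : ℕ, ∀ n : ℕ, n₀ ≤ n → Even n →
    a * (sing n / Real.log n ^ 2) ≤ VV (ZG n) 0 ⌊(n : ℝ) ^ (1 / (r : ℝ))⌋₊ ∧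
    VV (ZG n) 0 ⌊(n : ℝ) ^ (1 / (r : ℝ))⌋₊ ≤ b * (sing n / Real.log n ^ 2) := by
  obtain ⟨c, hc, n1, h1⟩ := V_dn r hr
  obtain ⟨C, hC, n2, h2⟩ := V_up r hr
  refine ⟨c, 2 * C, hc, by positivity, max (max n1 n2) 2, fun n hn he => ?_⟩
  have hn1 : n1 ≤ n := (le_max_left _ _).trans ((le_max_left _ _).trans hn)
  have hn2 : n2 ≤ n := (le_max_right _ _).trans ((le_max_left _ _).trans hn)
  have hn3 : 2 ≤ n := (le_max_right _ _).trans hn
  obtain ⟨s1, s2⟩ := Pool.Agent.TH894.SM.sing_tot n (by omega) he.two_dvd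
  have hl : 0 < Real.log n := Real.log_pos (by exact_mod_cast (by omega : 1 < n))
  have hφ : (0 : ℝ) < n.totient := by exact_mod_cast Nat.totient_pos.2 (by omega : 0 < n)
  have hnr : (0 : ℝ) < n := by exact_mod_cast (by omega : 0 < n)
  have e : (n : ℝ) / (n.totient * Real.log n ^ 2) = (n / n.totient) / Real.log n ^ 2 := by
    rw [div_div]
  have hq : 0 < (n : ℝ) / n.totient := by positivity
  constructor
  · refine le_trans ?_ (h1 n hn1 he)
    rw [e]
    gcongr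
  · refine (h2 n hn2).trans ?_
    rw [e]
    have h3 : (n : ℝ) / n.totient ≤ 2 * sing n := by
      have := half_le_C₂
      nlinarith
    calc C * ((n : ℝ) / n.totient / Real.log n ^ 2) ≤ C * (2 * sing n / Real.log n ^ 2) := by gcongr
      _ = _ := by ring

lemma sing_pos (n : ℕ) (hn : 2 ≤ n) (he : Even n) : 0 < sing n := by
  obtain ⟨s1, _⟩ := Pool.Agent.TH894.SM.sing_tot n (by omega) he.two_dvd
  have hφ : (0 : ℝ) < n.totient := by exact_mod_cast Nat.totient_pos.2 (by omega : 0 < n)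
  have hnr : (0 : ℝ) < n := by exact_mod_cast (by omega : 0 < n)
  have h := half_le_C₂
  have : 0 < C₂ * ((n : ℝ) / n.totient) := by
    have : (0 : ℝ) < C₂ := by linarith
    positivity
  linarith

/-- windows of length `n / log ^ V n` are longer than `n ^ (1/2)` -/
lemma win_long (V : ℕ) : ∃ n₀ : ℕ, ∀ n : ℕ, n₀ ≤ n → 3 ≤ n ∧ (n : ℝ) ^ (1 / 2 : ℝ) ≤ (n : ℝ) / Real.log n ^ V := by
  have h1 := (isLittleO_log_rpow_atTop (show (0 : ℝ) < 1 / (2 * (V + 1)) by positivity)).bound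
    (show (0 : ℝ) < 1 by norm_num)
  have h2 := (tendsto_natCast_atTop_atTop (R := ℝ)).eventually h1
  obtain ⟨n₀, h3⟩ := eventually_atTop.1 h2
  refine ⟨max n₀ 3, fun n hn => ?_⟩
  have hn1 := h3 n ((le_max_left _ _).trans hn)
  have hn3 : 3 ≤ n := (le_max_right _ _).trans hn
  refine ⟨hn3, ?_⟩
  have hnr : (0 : ℝ) < n := by exact_mod_cast (by omega : 0 < n)
  have hnr1 : (1 : ℝ) ≤ n := by exact_mod_cast (by omega : 1 ≤ n)
  have hl : 0 < Real.log n := Real.log_pos (by exact_mod_cast (by omega : 1 < n))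
  rw [one_mul, Real.norm_of_nonneg hl.le, Real.norm_of_nonneg (by positivity)] at hn1
  rw [le_div_iff₀ (by positivity)]
  have h4 : Real.log n ^ V ≤ (n : ℝ) ^ (1 / 2 : ℝ) := by
    calc Real.log n ^ V ≤ ((n : ℝ) ^ (1 / (2 * ((V : ℝ) + 1)))) ^ V := pow_le_pow_left₀ hl.le hn1 V
      _ = (n : ℝ) ^ (1 / (2 * ((V : ℝ) + 1)) * V) := by
          rw [← Real.rpow_natCast, ← Real.rpow_mul hnr.le]
      _ ≤ (n : ℝ) ^ (1 / 2 : ℝ) := by
          apply Real.rpow_le_rpow_of_exponent_le hnr1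
          rw [div_mul_eq_mul_div, div_le_div_iff₀ (by positivity) (by norm_num)]
          nlinarith [(Nat.cast_nonneg V : (0 : ℝ) ≤ V)]
  calc (n : ℝ) ^ (1 / 2 : ℝ) * Real.log n ^ V ≤ (n : ℝ) ^ (1 / 2 : ℝ) * (n : ℝ) ^ (1 / 2 : ℝ) := by gcongr
    _ = n := by
        rw [← Real.rpow_add hnr]
        norm_num

/-- the number of the representations in a window from below -/
lemma cnt_low {ε : ℝ} (hε : ε ≤ 1 / 2) {V n : ℕ} (hn : 2 ≤ n) (he : Even n) (h : WinP ε V n) {u Y : ℕ} (hY : 0 < Y)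
    (hYl : (n : ℝ) / Real.log n ^ V ≤ Y) (huY : u + Y ≤ n) :
    Y * (sing n / Real.log n ^ 2) ≤ 2 * cnt n u (u + Y) := by
  have h1 := h u (u + Y) (by omega) huY (by
    push_cast
    linarith)
  rw [abs_le] at h1
  have e : sing n * (((u + Y : ℕ) : ℝ) - u) / Real.log n ^ 2 = Y * (sing n / Real.log n ^ 2) := by
    push_cast
    ring
  rw [e] at h1
  have hs := sing_pos n hn he
  have h2 : 0 ≤ Y * (sing n / Real.log n ^ 2) := by positivity
  nlinarith [h1.1]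

/-- **narrow progressions** -/
theorem narrow {k : ℕ} (hk : 1 ≤ k) {δ : ℝ} (hδ : 0 < δ) : ∃ D : ℕ, ∀ V : ℕ, ∃ n₀ : ℕ, ∀ n : ℕ, n₀ ≤ n → Even n →
    ∀ ε : ℝ, ε ≤ 1 / 2 → WinP ε V n → ∀ u Y : ℕ, (n : ℝ) / Real.log n ^ V ≤ Y → u + Y ≤ n →
    ∀ S : Finset ℕ, S ⊆ Ioc u (u + Y) → (∀ p ∈ S, p.Prime ∧ (n - p).Prime) →
      ((Iso k (Real.log n ^ D) S).card : ℝ) ≤ δ * cnt n u (u + Y) := by
  obtain ⟨D, n1, h1⟩ := gold_primes hk (show (0 : ℝ) < 1 / 2 by norm_num) (show 0 < δ / 4 by positivity)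
  refine ⟨D, fun V => ?_⟩
  obtain ⟨n2, h2⟩ := win_long V
  refine ⟨max n1 n2, fun n hn he ε hε hw u Y hYl huY S hS hSp => ?_⟩
  obtain ⟨hn3, h3⟩ := h2 n ((le_max_right _ _).trans hn)
  have h4 := h1 n ((le_max_left _ _).trans hn) he u Y (h3.trans hYl) huY S hS hSp
  have hnr : (0 : ℝ) < n := by exact_mod_cast (by omega : 0 < n)
  have hl : 0 < Real.log n := Real.log_pos (by exact_mod_cast (by omega : 1 < n))
  have hY0 : 0 < Y := by
    have : (0 : ℝ) < Y := lt_of_lt_of_le (by positivity) hYl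
    exact_mod_cast this
  have h5 := cnt_low hε (by omega) he hw hY0 hYl huY
  obtain ⟨s1, _⟩ := Pool.Agent.TH894.SM.sing_tot n (by omega) he.two_dvd
  have hφ : (0 : ℝ) < n.totient := by exact_mod_cast Nat.totient_pos.2 (by omega : 0 < n)
  have hq : 0 < (n : ℝ) / n.totient := by positivity
  have h6 : (n : ℝ) / n.totient ≤ 2 * sing n := by
    have := half_le_C₂
    nlinarith
  have e : (n : ℝ) / (n.totient * Real.log n ^ 2) = (n / n.totient) / Real.log n ^ 2 := by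
    rw [div_div]
  rw [e] at h4
  calc ((Iso k (Real.log n ^ D) S).card : ℝ) ≤ δ / 4 * (Y * ((n : ℝ) / n.totient / Real.log n ^ 2)) := h4
    _ ≤ δ / 4 * (Y * (2 * sing n / Real.log n ^ 2)) := by gcongr
    _ = δ / 2 * (Y * (sing n / Real.log n ^ 2)) := by ring
    _ ≤ δ / 2 * (2 * cnt n u (u + Y)) := by gcongr
    _ = _ := by ring

/-- change of the scale `L` by a bounded factor -/
lemma irr_scale {A : Set ℕ} {L L' a b c c' η η' : ℝ} {B B' Y : ℕ} (hL : 0 < L) (ha : 0 < a)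
    (h1 : a * L ≤ L') (h2 : L' ≤ b * L) (hc : 0 < c) (hc'0 : 0 < c') (hc1 : c' ≤ c * a) (hc2 : c' * b ≤ c)
    (hη : η * b ≤ η') (hη0 : 0 ≤ η) (hB : B + ⌈Real.logb 2 (1 / a)⌉₊ + 1 ≤ B') :
    Irr A L' c' η' B' Y ⊆ Irr A L c η B Y := by
  classical
  have hL' : 0 < L' := lt_of_lt_of_le (by positivity) h1
  have hN0 : ∀ u v : ℕ, (0 : ℝ) ≤ Pool.Agent.TH977.PW.N A u v := fun u v => Nat.cast_nonneg _
  -- right order
  have hRO : ∀ m, RO A L c Y m → RO A L' c' Y m := by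
    intro m h s t hs ht hst
    have hst0 : (0 : ℝ) ≤ (s : ℝ) + t := by positivity
    have h3 : L ≤ c * (s + t) := by
      have h4 : a * L ≤ (c * a) * (s + t) := h1.trans (hst.trans (mul_le_mul_of_nonneg_right hc1 hst0))
      have h5 : a * L ≤ a * (c * (s + t)) := by linarith
      exact le_of_mul_le_mul_left h5 ha
    obtain ⟨h6, h7⟩ := h s t hs ht h3
    constructor
    · refine le_trans ?_ h6
      rw [div_le_div_iff₀ hL' hL]
      calc c' * (s + t) * L ≤ (c * a) * (s + t) * L := by gcongr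
        _ = c * (s + t) * (a * L) := by ring
        _ ≤ c * (s + t) * L' := by gcongr
    · refine h7.trans ?_
      rw [div_le_div_iff₀ (by positivity) (by positivity)]
      have h8 : c' * L' ≤ c * L := by
        calc c' * L' ≤ c' * (b * L) := by gcongr
          _ = (c' * b) * L := by ring
          _ ≤ c * L := by gcongr
      exact mul_le_mul_of_nonneg_left h8 hst0
  -- constant density
  have hCD : ∀ m j, CD A L c η m j → CD A L' c' η' m j := by
    rintro m j ⟨lam, h3, h4, h5⟩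
    have hlam : 0 < lam := lt_of_lt_of_le hc h3
    refine ⟨lam * (L' / L), ?_, ?_, ?_⟩
    · have h6 : a ≤ L' / L := by rw [le_div_iff₀ hL]; exact h1
      calc c' ≤ c * a := hc1
        _ ≤ lam * (L' / L) := mul_le_mul h3 h6 ha.le hlam.le
    · have h6 : L' / L ≤ b := by rw [div_le_iff₀ hL]; exact h2
      calc lam * (L' / L) ≤ 1 / c * b := mul_le_mul h4 h6 (by positivity) (by positivity)
        _ ≤ 1 / c' := by
            rw [div_mul_eq_mul_div, one_mul, div_le_div_iff₀ hc hc'0]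
            linarith
    · intro s t hs ht
      have h6 := h5 s t hs ht
      have e : lam * (L' / L) * ((s : ℝ) + t) / L' = lam * (s + t) / L := by
        field_simp
      rw [e]
      refine h6.trans ?_
      rw [div_le_div_iff₀ hL hL']
      have hp : (0 : ℝ) < 2 ^ j := by positivity
      calc η * 2 ^ j * L' ≤ η * 2 ^ j * (b * L) := by gcongr
        _ = (η * b) * (2 ^ j * L) := by ring
        _ ≤ η' * (2 ^ j * L) := by gcongr
        _ = η' * 2 ^ j * L := by ring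
  -- the scales
  have hbS : ∀ m, bS A L c η Y m ≤ B → bS A L' c' η' Y m ≤ B' := by
    intro m hm
    have hsub : ((range (Nat.log 2 Y + 1)).filter (fun j => L' ≤ (2 : ℝ) ^ j ∧ ¬ CD A L' c' η' m j)) ⊆
        ((range (Nat.log 2 Y + 1)).filter (fun j => L ≤ (2 : ℝ) ^ j ∧ ¬ CD A L c η m j)) ∪
        ((range (Nat.log 2 Y + 1)).filter (fun j => L' ≤ (2 : ℝ) ^ j ∧ (2 : ℝ) ^ j < L)) := by
      intro j hj
      rw [mem_filter] at hj
      rw [mem_union, mem_filter, mem_filter]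
      rcases le_or_gt L ((2 : ℝ) ^ j) with h6 | h6
      · left
        exact ⟨hj.1, h6, fun h7 => hj.2.2 (hCD m j h7)⟩
      · right
        exact ⟨hj.1, hj.2.1, h6⟩
    have hcard : (((range (Nat.log 2 Y + 1)).filter (fun j => L' ≤ (2 : ℝ) ^ j ∧ (2 : ℝ) ^ j < L))).card ≤
        ⌈Real.logb 2 (1 / a)⌉₊ + 1 := by
      set T := (range (Nat.log 2 Y + 1)).filter (fun j => L' ≤ (2 : ℝ) ^ j ∧ (2 : ℝ) ^ j < L) with hT
      rcases T.eq_empty_or_nonempty with h6 | h6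
      · rw [h6]
        simp
      · set j0 := T.min' h6 with hj0
        have h7 : T ⊆ Icc j0 (j0 + ⌈Real.logb 2 (1 / a)⌉₊) := by
          intro j hj
          rw [mem_Icc]
          refine ⟨T.min'_le j hj, ?_⟩
          have h8 := T.min'_mem h6
          rw [← hj0, hT, mem_filter] at h8
          rw [hT, mem_filter] at hj
          by_contra hcon
          push Not at hcon
          have h9 : (2 : ℝ) ^ (j0 + ⌈Real.logb 2 (1 / a)⌉₊) ≤ 2 ^ j := pow_le_pow_right₀ (by norm_num) hcon.le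
          have h10 : 1 / a ≤ (2 : ℝ) ^ ⌈Real.logb 2 (1 / a)⌉₊ := by
            calc 1 / a = (2 : ℝ) ^ Real.logb 2 (1 / a) :=
                  (Real.rpow_logb (by norm_num) (by norm_num) (by positivity)).symm
              _ ≤ (2 : ℝ) ^ ((⌈Real.logb 2 (1 / a)⌉₊ : ℕ) : ℝ) :=
                  Real.rpow_le_rpow_of_exponent_le (by norm_num) (Nat.le_ceil _)
              _ = _ := Real.rpow_natCast _ _
          have h11 : L ≤ L' * (1 / a) := by
            rw [mul_one_div, le_div_iff₀ ha]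
            linarith
          have h12 : L' * (1 / a) ≤ 2 ^ j0 * 2 ^ ⌈Real.logb 2 (1 / a)⌉₊ :=
            mul_le_mul h8.2.1 h10 (by positivity) (by positivity)
          rw [pow_add] at h9
          linarith [hj.2.2]
        calc T.card ≤ (Icc j0 (j0 + ⌈Real.logb 2 (1 / a)⌉₊)).card := card_le_card h7
          _ = ⌈Real.logb 2 (1 / a)⌉₊ + 1 := by
              rw [Nat.card_Icc]
              omega
    unfold bS at hm ⊢
    calc _ ≤ _ := card_le_card hsub
      _ ≤ _ := card_union_le _ _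
      _ ≤ B + (⌈Real.logb 2 (1 / a)⌉₊ + 1) := add_le_add hm hcard
      _ ≤ B' := by omega
  intro m hm
  exact ⟨hm.1, fun h => hm.2 ⟨hRO m h.1, hbS m h.2⟩⟩

/-- **regular points** -/
theorem regular {δ : ℝ} (hδ : 0 < δ) : ∃ c : ℝ, 0 < c ∧ ∀ η : ℝ, 0 < η → ∃ B : ℕ, ∀ V : ℕ, ∃ n₀ : ℕ, ∀ n : ℕ,
    n₀ ≤ n → Even n → ∀ ε : ℝ, ε ≤ 1 / 2 → WinP ε V n →
    ∀ A : Set ℕ, (∀ p ∈ A, p < n ∧ p.Prime ∧ (n - p).Prime ∧ n < p ^ 2 ∧ n < (n - p) ^ 2) →
    ∀ u Y : ℕ, (n : ℝ) / Real.log n ^ V ≤ Y → Y ≤ u → u + Y ≤ n →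
      (Pool.Agent.TH977.PW.N (Irr A (Real.log n ^ 2 / sing n) c η B Y) u (u + Y) : ℝ) ≤ δ * cnt n u (u + Y) := by
  classical
  obtain ⟨r, hr2, h⟩ := Pool.Agent.Y879.GL.prog2_her 1 (1 / 2) one_pos (by norm_num)
  obtain ⟨a, b, ha, hb, n1, hV⟩ := V_comp r (by omega)
  obtain ⟨cc, hcc, h1⟩ := h r le_rfl (δ / (2 * b)) (by positivity)
  refine ⟨min (cc * a) (cc / b), by positivity, fun η hη => ?_⟩
  obtain ⟨B, h2⟩ := h1 (η / b) (by positivity)
  refine ⟨B + ⌈Real.logb 2 (1 / a)⌉₊ + 1, fun V => ?_⟩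
  obtain ⟨n2, h3⟩ := eventually_atTop.1 h2
  obtain ⟨n3, h4⟩ := win_long V
  refine ⟨max (max n1 n2) n3, fun n hn he ε hε hw A hA u Y hYl hYu huY => ?_⟩
  have hn1 : n1 ≤ n := (le_max_left _ _).trans ((le_max_left _ _).trans hn)
  have hn2 : n2 ≤ n := (le_max_right _ _).trans ((le_max_left _ _).trans hn)
  obtain ⟨hn3, hlong⟩ := h4 n ((le_max_right _ _).trans hn)
  have hnr : (0 : ℝ) < n := by exact_mod_cast (by omega : 0 < n)
  have hnr1 : (1 : ℝ) ≤ n := by exact_mod_cast (by omega : 1 ≤ n)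
  have hl : 0 < Real.log n := Real.log_pos (by exact_mod_cast (by omega : 1 < n))
  have hY0 : 0 < Y := by
    have : (0 : ℝ) < Y := lt_of_lt_of_le (by positivity) hYl
    exact_mod_cast this
  have hs := sing_pos n (by omega) he
  have hcnt := cnt_low hε (by omega) he hw hY0 hYl huY
  obtain ⟨hV1, hV2⟩ := hV n hn1 he
  have hrr : (2 : ℝ) ≤ r := by exact_mod_cast hr2
  have hroot : (n : ℝ) ^ (1 / (r : ℝ)) ≤ (n : ℝ) ^ (1 / 2 : ℝ) := by
    apply Real.rpow_le_rpow_of_exponent_le hnr1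
    exact one_div_le_one_div_of_le (by norm_num) hrr
  have hsq : ∀ q : ℕ, n < q ^ 2 → (n : ℝ) ^ (1 / (r : ℝ)) < q := by
    intro q hq
    refine lt_of_le_of_lt hroot ?_
    have h5 : (n : ℝ) < (q : ℝ) ^ 2 := by exact_mod_cast hq
    calc (n : ℝ) ^ (1 / 2 : ℝ) < ((q : ℝ) ^ 2) ^ (1 / 2 : ℝ) :=
          Real.rpow_lt_rpow hnr.le h5 (by norm_num)
      _ = q := by
          rw [← Real.rpow_natCast, ← Real.rpow_mul (Nat.cast_nonneg q)]
          norm_num
  have hS : ∀ m ∈ A, Pool.Agent.TH464.PO.Sf (Pool.Agent.W123.RU.Poly.Q (Pool.Agent.Y879.GL.pf (-1) n 1 0))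
      ⌊(n : ℝ) ^ (1 / (r : ℝ))⌋₊ m := by
    intro m hm p hp
    obtain ⟨hm0, hm1, hm2, hm3, hm4⟩ := hA m hm
    unfold Pool.Agent.H373R2.T7.pz at hp
    rw [mem_filter, mem_Icc] at hp
    have hple : (p : ℝ) ≤ (n : ℝ) ^ (1 / (r : ℝ)) := (Nat.le_floor_iff (by positivity)).1 hp.1.2
    rw [Pool.Agent.Y879.GL.pf_Q _ _ _ _ _ _ hp.2]
    unfold Pool.Agent.Y879.AP.Q2
    have hpi : Prime (p : ℤ) := Nat.prime_iff_prime_int.1 hp.2
    rw [hpi.dvd_mul]
    push Not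
    have e1 : (-1 : ℤ) * ((1 * m + 0 : ℕ) : ℤ) + n = ((n - m : ℕ) : ℤ) := by
      rw [Nat.cast_sub hm0.le]
      push_cast
      ring
    rw [e1, Int.natCast_dvd_natCast, Int.natCast_dvd_natCast]
    constructor
    · intro hd
      rw [one_mul, add_zero] at hd
      have h5 := (Nat.prime_dvd_prime_iff_eq hp.2 hm1).1 hd
      have h6 := hsq m hm3
      rw [h5] at hple
      linarith
    · intro hd
      have h5 := (Nat.prime_dvd_prime_iff_eq hp.2 hm2).1 hd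
      have h6 := hsq (n - m) hm4
      rw [h5] at hple
      linarith
  have h5 := h3 n hn2 (-1) n 1 0 (by norm_num) (by exact_mod_cast he) (by exact_mod_cast (by omega : n ≠ 0))
    (by rw [Real.rpow_one]; simp) le_rfl (by rw [Real.rpow_one]; exact_mod_cast (by omega : 1 ≤ n))
    (by rw [Real.rpow_one]; simp) (by simp)
    (by simp [isCoprime_one_left]) u Y (hlong.trans hYl) (by omega) hYu A hS
  rw [V_eq] at h5
  set W := VV (ZG n) 0 ⌊(n : ℝ) ^ (1 / (r : ℝ))⌋₊ with hW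
  have hW0 : 0 < W := lt_of_lt_of_le (by positivity) hV1
  have hsub : Irr A (Real.log n ^ 2 / sing n) (min (cc * a) (cc / b)) η (B + ⌈Real.logb 2 (1 / a)⌉₊ + 1) Y ⊆
      Irr A (1 / W) cc (η / b) B Y := by
    apply irr_scale (a := a) (b := b) (by positivity) ha _ _ hcc (by positivity) (min_le_left _ _) _ _
      (by positivity) le_rfl
    · rw [mul_one_div, div_le_div_iff₀ hW0 hs]
      have := hV1
      rw [mul_div_assoc', div_le_iff₀ (by positivity)] at this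
      linarith
    · rw [mul_one_div, div_le_div_iff₀ hs hW0]
      have := hV2
      rw [mul_div_assoc', le_div_iff₀ (by positivity)] at this
      linarith
    · have : min (cc * a) (cc / b) ≤ cc / b := min_le_right _ _
      calc min (cc * a) (cc / b) * b ≤ cc / b * b := by gcongr
        _ = cc := by field_simp
    · rw [div_mul_cancel₀ _ hb.ne']
  have h6 : (Pool.Agent.TH977.PW.N (Irr A (Real.log n ^ 2 / sing n) (min (cc * a) (cc / b)) η
      (B + ⌈Real.logb 2 (1 / a)⌉₊ + 1) Y) u (u + Y) : ℝ) ≤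
      Pool.Agent.TH977.PW.N (Irr A (1 / W) cc (η / b) B Y) u (u + Y) := by
    exact_mod_cast Pool.Agent.TH977.PW.N_mono _ _ _ _ (fun m _ _ hm => hsub hm)
  calc _ ≤ _ := h6
    _ ≤ δ / (2 * b) * (Y * W) := h5
    _ ≤ δ / (2 * b) * (Y * (b * (sing n / Real.log n ^ 2))) := by gcongr
    _ = δ / 2 * (Y * (sing n / Real.log n ^ 2)) := by field_simp
    _ ≤ δ / 2 * (2 * cnt n u (u + Y)) := by gcongr
    _ = _ := by ring

end Pool.Agent.Q25.GReg
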