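import Pool.Agent.Q25.GReg
import Pool.Agent.Y840.CT.Low

set_option autoImplicit false

/-! Narrow progressions and regular points of arbitrary sets of rough representations of an even number, and Chen's
theorem in the same normalisation. -/

namespace Pool.Agent.Q25.GReg

open Finset Filter
open Pool.Agent.H560R3.GB (sing C₂)
open Pool.Agent.Y843.HG (ZG card_ZG V_up V_dn Iso gold RoughRep)
open Pool.Agent.Y843.HS (Pr VV Pr_mem)
open Pool.Agent.Y879.GL (RO CD bS Irr)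

/-- narrow progressions in sets of rough representations -/
theorem narrowR {k : ℕ} (hk : 1 ≤ k) (r : ℕ) (hr : 1 ≤ r) {δ : ℝ} (hδ : 0 < δ) : ∃ D n₀ : ℕ, ∀ n : ℕ, n₀ ≤ n →
    Even n → ∀ u Y : ℕ, (n : ℝ) ^ (1 / 2 : ℝ) ≤ Y → Y ≤ n → ∀ S : Finset ℕ, S ⊆ Ioc u (u + Y) →
    (∀ m ∈ S, RoughRep r n m) →
      ((Iso k (Real.log n ^ D) S).card : ℝ) ≤ δ * (Y * (sing n / Real.log n ^ 2)) := by
  obtain ⟨D, n1, h1⟩ := gold hk r hr (show (0 : ℝ) < 1 / 2 by norm_num) (show 0 < δ / 2 by positivity)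
  refine ⟨D, max n1 2, fun n hn he u Y hY hYn S hS hSp => ?_⟩
  have hn2 : 2 ≤ n := (le_max_right _ _).trans hn
  have h4 := h1 n ((le_max_left _ _).trans hn) he u Y hY hYn S hS hSp
  have hnr : (0 : ℝ) < n := by exact_mod_cast (by omega : 0 < n)
  have hl : 0 < Real.log n := Real.log_pos (by exact_mod_cast (by omega : 1 < n))
  obtain ⟨s1, _⟩ := Pool.Agent.TH894.SM.sing_tot n (by omega) he.two_dvd
  have hφ : (0 : ℝ) < n.totient := by exact_mod_cast Nat.totient_pos.2 (by omega : 0 < n)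
  have hq : 0 < (n : ℝ) / n.totient := by positivity
  have h6 : (n : ℝ) / n.totient ≤ 2 * sing n := by
    have := half_le_C₂
    nlinarith
  have e : (n : ℝ) / (n.totient * Real.log n ^ 2) = (n / n.totient) / Real.log n ^ 2 := by
    rw [div_div]
  rw [e] at h4
  calc ((Iso k (Real.log n ^ D) S).card : ℝ) ≤ δ / 2 * (Y * ((n : ℝ) / n.totient / Real.log n ^ 2)) := h4
    _ ≤ δ / 2 * (Y * (2 * sing n / Real.log n ^ 2)) := by gcongr
    _ = δ * (Y * (sing n / Real.log n ^ 2)) := by ring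

/-- regular points of arbitrary sets of rough representations -/
theorem regularR : ∃ r₀ : ℕ, 2 ≤ r₀ ∧ ∀ r : ℕ, r₀ ≤ r → ∀ δ : ℝ, 0 < δ → ∃ c : ℝ, 0 < c ∧ ∀ η : ℝ, 0 < η →
    ∃ B n₀ : ℕ, ∀ n : ℕ, n₀ ≤ n → Even n →
    ∀ A : Set ℕ, (∀ m ∈ A, m < n ∧ ∀ p : ℕ, p.Prime → (p : ℝ) ≤ (n : ℝ) ^ (1 / (r : ℝ)) → ¬ p ∣ m ∧ ¬ p ∣ n - m) →
    ∀ u Y : ℕ, (n : ℝ) ^ (1 / 2 : ℝ) ≤ Y → Y ≤ u → u + Y ≤ n →
      (Pool.Agent.TH977.PW.N (Irr A (Real.log n ^ 2 / sing n) c η B Y) u (u + Y) : ℝ) ≤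
        δ * (Y * (sing n / Real.log n ^ 2)) := by
  classical
  obtain ⟨r0, hr02, h⟩ := Pool.Agent.Y879.GL.prog2_her 1 (1 / 2) one_pos (by norm_num)
  refine ⟨r0, hr02, fun r hr δ hδ => ?_⟩
  have hr2 : 2 ≤ r := hr02.trans hr
  obtain ⟨a, b, ha, hb, n1, hV⟩ := V_comp r (by omega)
  obtain ⟨cc, hcc, h1⟩ := h r hr (δ / b) (by positivity)
  refine ⟨min (cc * a) (cc / b), by positivity, fun η hη => ?_⟩
  obtain ⟨B, h2⟩ := h1 (η / b) (by positivity)
  obtain ⟨n2, h3⟩ := eventually_atTop.1 h2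
  refine ⟨B + ⌈Real.logb 2 (1 / a)⌉₊ + 1, max (max n1 n2) 2, fun n hn he A hA u Y hYl hYu huY => ?_⟩
  have hn1 : n1 ≤ n := (le_max_left _ _).trans ((le_max_left _ _).trans hn)
  have hn2 : n2 ≤ n := (le_max_right _ _).trans ((le_max_left _ _).trans hn)
  have hn3 : 2 ≤ n := (le_max_right _ _).trans hn
  have hnr : (0 : ℝ) < n := by exact_mod_cast (by omega : 0 < n)
  have hnr1 : (1 : ℝ) ≤ n := by exact_mod_cast (by omega : 1 ≤ n)
  have hl : 0 < Real.log n := Real.log_pos (by exact_mod_cast (by omega : 1 < n))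
  have hs := sing_pos n (by omega) he
  obtain ⟨hV1, hV2⟩ := hV n hn1 he
  have hS : ∀ m ∈ A, Pool.Agent.TH464.PO.Sf (Pool.Agent.W123.RU.Poly.Q (Pool.Agent.Y879.GL.pf (-1) n 1 0))
      ⌊(n : ℝ) ^ (1 / (r : ℝ))⌋₊ m := by
    intro m hm p hp
    obtain ⟨hm0, hm1⟩ := hA m hm
    unfold Pool.Agent.H373R2.T7.pz at hp
    rw [mem_filter, mem_Icc] at hp
    have hple : (p : ℝ) ≤ (n : ℝ) ^ (1 / (r : ℝ)) := (Nat.le_floor_iff (by positivity)).1 hp.1.2
    rw [Pool.Agent.Y879.GL.pf_Q _ _ _ _ _ _ hp.2]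
    unfold Pool.Agent.Y879.AP.Q2
    have hpi : Prime (p : ℤ) := Nat.prime_iff_prime_int.1 hp.2
    rw [hpi.dvd_mul]
    push Not
    have e1 : (-1 : ℤ) * ((1 * m + 0 : ℕ) : ℤ) + n = ((n - m : ℕ) : ℤ) := by
      rw [Nat.cast_sub hm0.le]
      push_cast
      ring
    rw [e1, Int.natCast_dvd_natCast, Int.natCast_dvd_natCast, one_mul, add_zero]
    exact hm1 p hp.2 hple
  have h5 := h3 n hn2 (-1) n 1 0 (by norm_num) (by exact_mod_cast he) (by exact_mod_cast (by omega : n ≠ 0))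
    (by rw [Real.rpow_one]; simp) le_rfl (by rw [Real.rpow_one]; exact_mod_cast (by omega : 1 ≤ n))
    (by rw [Real.rpow_one]; simp) (by simp)
    (by simp [isCoprime_one_left]) u Y hYl (by omega) hYu A hS
  rw [V_eq] at h5
  set W := VV (ZG n) 0 ⌊(n : ℝ) ^ (1 / (r : ℝ))⌋₊ with hW
  have hW0 : 0 < W := lt_of_lt_of_le (by positivity) hV1
  have hsub : Irr A (Real.log n ^ 2 / sing n) (min (cc * a) (cc / b)) η (B + ⌈Real.logb 2 (1 / a)⌉₊ + 1) Y ⊆
      Irr A (1 / W) cc (η / b) B Y := by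
    apply irr_scale (a := a) (b := b) (by positivity) ha _ _ hcc (by positivity) (min_le_left _ _) _ _
      (by positivity) le_rfl
    · rw [mul_one_div, div_le_div_iff₀ hW0 hs]
      have := hV1
      rw [mul_div_assoc', div_le_iff₀ (by positivity)] at this
      linarith
    · rw [mul_one_div, div_le_div_iff₀ hs hW0]
      have := hV2
      rw [mul_div_assoc', le_div_iff₀ (by positivity)] at this
      linarith
    · have : min (cc * a) (cc / b) ≤ cc / b := min_le_right _ _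
      calc min (cc * a) (cc / b) * b ≤ cc / b * b := by gcongr
        _ = cc := by field_simp
    · rw [div_mul_cancel₀ _ hb.ne']
  have h6 : (Pool.Agent.TH977.PW.N (Irr A (Real.log n ^ 2 / sing n) (min (cc * a) (cc / b)) η
      (B + ⌈Real.logb 2 (1 / a)⌉₊ + 1) Y) u (u + Y) : ℝ) ≤
      Pool.Agent.TH977.PW.N (Irr A (1 / W) cc (η / b) B Y) u (u + Y) := by
    exact_mod_cast Pool.Agent.TH977.PW.N_mono _ _ _ _ (fun m _ _ hm => hsub hm)
  calc _ ≤ _ := h6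
    _ ≤ δ / b * (Y * W) := h5
    _ ≤ δ / b * (Y * (b * (sing n / Real.log n ^ 2))) := by gcongr
    _ = δ * (Y * (sing n / Real.log n ^ 2)) := by field_simp

lemma rho_eq (n q : ℕ) : Pool.Agent.Y840.CT.rho {(n : ℤ)} q = (ZG n q).card := by
  unfold Pool.Agent.Y840.CT.rho ZG
  have e : ((insert (0 : ℤ) {(n : ℤ)} : Finset ℤ)).image (fun h : ℤ => h % q) =
      (({0, n % q} : Finset ℕ)).image (fun c : ℕ => (c : ℤ)) := by
    rw [image_insert, image_singleton, image_insert, image_singleton, Int.zero_emod]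
    push_cast
    rfl
  rw [e, card_image_of_injective _ Nat.cast_injective]

open Classical in
/-- **Chen's theorem** for every large even number, in windows -/
theorem chen : ∃ c : ℝ, 0 < c ∧ ∀ θ : ℝ, 0 < θ → ∃ n₀ : ℕ, ∀ n : ℕ, n₀ ≤ n → Even n → ∀ u Y : ℕ, θ * n ≤ Y →
    u + Y ≤ n → c * (Y * (sing n / Real.log n ^ 2)) ≤ ((Ioc u (u + Y)).filter (fun p => p < n ∧ p.Prime ∧
      (n - p).primeFactorsList.length ≤ 2 ∧ ∀ q : ℕ, q.Prime → q ∣ n - p → (n : ℝ) ^ (1 / 9 : ℝ) < q)).card := by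
  obtain ⟨t, ht, c, hc, h1, _⟩ := Pool.Agent.Y840.CT.genI 1
  obtain ⟨c', hc', n1, h2⟩ := V_dn 1 le_rfl
  refine ⟨c * c', by positivity, fun θ hθ => ?_⟩
  obtain ⟨n2, h3⟩ := h1 θ hθ
  refine ⟨max (max n1 n2) 2, fun n hn he u Y hY huY => ?_⟩
  have hn1 : n1 ≤ n := (le_max_left _ _).trans ((le_max_left _ _).trans hn)
  have hn2 : n2 ≤ n := (le_max_right _ _).trans ((le_max_left _ _).trans hn)
  have hn3 : 2 ≤ n := (le_max_right _ _).trans hn
  have hnr : (0 : ℝ) < n := by exact_mod_cast (by omega : 0 < n)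
  have hl : 0 < Real.log n := Real.log_pos (by exact_mod_cast (by omega : 1 < n))
  have hφ : (0 : ℝ) < n.totient := by exact_mod_cast Nat.totient_pos.2 (by omega : 0 < n)
  have hloc : ∀ q : ℕ, q.Prime → Pool.Agent.Y840.CT.rho {(n : ℤ)} q < q := by
    intro q hq
    rw [rho_eq]
    exact (Pool.Agent.Y843.HG.ZG_ok he hq).2.1
  have hsys : Pool.Agent.Y840.CT.Sys 1 n {(n : ℤ)} := by
    refine ⟨by simp, ?_, hloc⟩
    intro h hh
    rw [mem_singleton] at hh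
    subst hh
    exact ⟨by exact_mod_cast (by omega : n ≠ 0), by simp⟩
  have h4 := h3 n hn2 {(n : ℤ)} hsys (n : ℤ) (mem_singleton_self _) u (u + Y) huY (by
    push_cast
    linarith)
  have hV : c' * (sing n / Real.log n ^ 2) ≤ Pool.Agent.Y840.CT.Vp {(n : ℤ)} n := by
    have h5 := h2 n hn1 he
    have e0 : ⌊(n : ℝ) ^ (1 / ((1 : ℕ) : ℝ))⌋₊ = n := by
      rw [Nat.cast_one, div_one, Real.rpow_one, Nat.floor_natCast]
    rw [e0] at h5
    have e1 : VV (ZG n) 0 n = Pool.Agent.Y840.CT.Vp {(n : ℤ)} n := by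
      unfold VV Pool.Agent.Y840.CT.Vp
      have e2 : Pr 0 n = (Icc 1 n).filter Nat.Prime := by
        ext q
        rw [Pr_mem, mem_filter, mem_Icc]
        constructor
        · rintro ⟨⟨a, b⟩, c⟩
          exact ⟨⟨c.pos, b⟩, c⟩
        · rintro ⟨⟨a, b⟩, c⟩
          exact ⟨⟨c.pos, b⟩, c⟩
      rw [e2]
      exact prod_congr rfl (fun q _ => by rw [rho_eq])
    rw [e1] at h5
    refine le_trans ?_ h5
    obtain ⟨_, s2⟩ := Pool.Agent.TH894.SM.sing_tot n (by omega) he.two_dvd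
    have e : (n : ℝ) / (n.totient * Real.log n ^ 2) = (n / n.totient) / Real.log n ^ 2 := by
      rw [div_div]
    rw [e]
    gcongr
  have h6 : ((Pool.Agent.Y840.CT.Good t n u (u + Y) {(n : ℤ)} (n : ℤ)).card : ℝ) ≤
      ((Ioc u (u + Y)).filter (fun p => p < n ∧ p.Prime ∧
      (n - p).primeFactorsList.length ≤ 2 ∧ ∀ q : ℕ, q.Prime → q ∣ n - p → (n : ℝ) ^ (1 / 9 : ℝ) < q)).card := by
    apply Nat.cast_le.2
    apply card_le_card
    intro p hp
    unfold Pool.Agent.Y840.CT.Good at hp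
    rw [mem_filter, mem_Ioc] at hp
    obtain ⟨⟨hp1, hp2⟩, hpp, _, ⟨hr1, hr2, hr3⟩, _⟩ := hp
    have hpn : p ≤ n := by omega
    have e : (n : ℤ) - p = ((n - p : ℕ) : ℤ) := by
      rw [Nat.cast_sub hpn]
    rw [e] at hr1 hr2 hr3
    rw [Int.natAbs_natCast] at hr2
    have hne : n - p ≠ 0 := by exact_mod_cast hr1
    rw [mem_filter, mem_Ioc]
    refine ⟨⟨hp1, hp2⟩, by omega, hpp, hr2, fun q hq hd => hr3 q hq (by exact_mod_cast hd)⟩
  refine le_trans ?_ (h4.trans h6)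
  push_cast
  have hY0 : (0 : ℝ) ≤ Y := Nat.cast_nonneg Y
  have e3 : (u : ℝ) + Y - u = Y := by ring
  rw [e3]
  calc c * c' * (Y * (sing n / Real.log n ^ 2)) = c * Y * (c' * (sing n / Real.log n ^ 2)) := by ring
    _ ≤ c * Y * Pool.Agent.Y840.CT.Vp {(n : ℤ)} n := by gcongr

end Pool.Agent.Q25.GReg
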