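import Pool.Agent.Q25.UReg4

set_option autoImplicit false

/-!
# Linear forms with coefficients of both signs
-/

namespace Pool.Agent.Q25.UReg

open Polynomial Finset Filter
open Pool.Agent.Y879.GL

lemma Good_eq {k : ℕ} (a b : Fin k → ℤ) : Good a b = GoodP (fun i => lf (a i) (b i)) := by
  funext r X m
  unfold Good GoodP
  simp only [lf_eval]

lemma V_eqP {k : ℕ} (a b : Fin k → ℤ) (r X : ℕ) : V a b r X = VP (fun i => lf (a i) (b i)) r X := by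
  rw [V_eq, VP_eq]

lemma count_eqP {k : ℕ} (a b : Fin k → ℤ) (r X T n : ℕ) : count a b r X T n = countP (fun i => lf (a i) (b i)) r X T n := by
  unfold count countP
  rw [Good_eq]

lemma PoissonLaw_iff {k : ℕ} (a b : Fin k → ℤ) (r X Z Y : ℕ) (x₀ ε : ℝ) :
    PoissonLaw a b r X Z Y x₀ ε ↔ PoissonLawP (fun i => lf (a i) (b i)) r X Z Y x₀ ε := by
  unfold PoissonLaw PoissonLawP
  simp only [V_eqP, count_eqP]

lemma GapLaw_iff {k : ℕ} (a b : Fin k → ℤ) (r X Z Y l₀ : ℕ) (x₀ ε : ℝ) :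
    GapLaw a b r X Z Y l₀ x₀ ε ↔ GapLawP (fun i => lf (a i) (b i)) r X Z Y l₀ x₀ ε := by
  unfold GapLaw GapLawP
  simp only [V_eqP]
  rw [Good_eq]

/-- No form is up to sign a translate of a form by `t`, `1 ≤ t ≤ U`. -/
def NoTranslates2 {k : ℕ} (a b : Fin k → ℤ) (U : ℝ) : Prop :=
  ∀ i j, ∀ t : ℕ, 1 ≤ t → (t : ℝ) ≤ U →
    ¬ (a i = a j ∧ b i = b j + a j * t) ∧ ¬ (a i = -a j ∧ b i = -(b j + a j * t))

/-- Two forms are different up to sign. -/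
def TwoForms {k : ℕ} (a b : Fin k → ℤ) : Prop :=
  ∃ i j, ¬ (a i = a j ∧ b i = b j) ∧ ¬ (a i = -a j ∧ b i = -b j)

lemma sys_lf {k : ℕ} (a b : Fin k → ℤ) (H : ℝ) (ha : ∀ i, a i ≠ 0) (haH : ∀ i, |(a i : ℝ)| ≤ H)
    (hbH : ∀ i, |(b i : ℝ)| ≤ H) (hadm : ∀ p : ℕ, p.Prime → ∃ m : ℤ, ∀ i, ¬ (p : ℤ) ∣ a i * m + b i) :
    Sys 1 H (fun i => lf (a i) (b i)) where
  irr i := by
    apply lf_irr _ _ (ha i)
    rw [Int.isCoprime_iff_gcd_eq_one]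
    by_contra hne
    obtain ⟨p, hp, hpd⟩ := Nat.exists_prime_and_dvd hne
    have h1 : (p : ℤ) ∣ a i := (Int.natCast_dvd_natCast.2 hpd).trans (Int.gcd_dvd_left _ _)
    have h2 : (p : ℤ) ∣ b i := (Int.natCast_dvd_natCast.2 hpd).trans (Int.gcd_dvd_right _ _)
    obtain ⟨n, hn⟩ := hadm p hp
    exact hn i (dvd_add (h1.mul_right _) h2)
  deg i := by rw [lf_deg _ _ (ha i)]
  degD i := by rw [lf_deg _ _ (ha i)]
  hgt i n := by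
    rw [lf_coeff]
    split_ifs
    · exact hbH i
    · exact haH i
    · push_cast
      rw [abs_zero]
      exact (abs_nonneg _).trans (haH i)
  adm p hp := by
    obtain ⟨m, hm⟩ := hadm p hp
    exact ⟨m, fun i => by rw [lf_eval]; exact hm i⟩

lemma noTr_lf {k : ℕ} (a b : Fin k → ℤ) (U : ℝ) (h : NoTranslates2 a b U) : NoTr (fun i => lf (a i) (b i)) U := by
  intro i j t ht htU
  obtain ⟨h1, h2⟩ := h i j t ht htU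
  constructor
  · intro h3
    rw [lf_shift] at h3
    exact h1 (lf_inj _ _ _ _ h3)
  · intro h3
    rw [lf_shift, lf_neg] at h3
    exact h2 (lf_inj _ _ _ _ h3)

lemma two_lf {k : ℕ} (a b : Fin k → ℤ) (ha : ∀ i, a i ≠ 0) (h : TwoForms a b) (r X : ℕ) (C : ℝ) :
    SmallDensity (fun i => lf (a i) (b i)) r X C := by
  obtain ⟨i, j, h1, h2⟩ := h
  refine Or.inr ⟨i, j, lf_deg _ _ (ha i), lf_deg _ _ (ha j), fun h3 => h1 (lf_inj _ _ _ _ h3), fun h3 => h2 ?_⟩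
  rw [lf_neg] at h3
  exact lf_inj _ _ _ _ h3

/-- **The laws for linear forms.** -/
theorem lin_laws2 (k : ℕ) (E η θ : ℝ) (hE : 0 < E) (hη : 0 < η) (hθ : 0 < θ) (l₀ : ℕ) (x₀ ε : ℝ) (hε : 0 < ε) :
    ∃ r0 : ℕ, 2 ≤ r0 ∧ ∀ r : ℕ, r0 ≤ r →
      ∀ᶠ X : ℕ in atTop, ∀ a b : Fin k → ℤ, (∀ i, a i ≠ 0) → (∀ i, |(a i : ℝ)| ≤ (X : ℝ) ^ E) →
        (∀ i, |(b i : ℝ)| ≤ (X : ℝ) ^ E) → (∀ p : ℕ, p.Prime → ∃ m : ℤ, ∀ i, ¬ (p : ℤ) ∣ a i * m + b i) →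
        TwoForms a b → NoTranslates2 a b ((X : ℝ) ^ η) →
        ∀ Z Y : ℕ, (X : ℝ) ^ θ ≤ Y → PoissonLaw a b r X Z Y x₀ ε ∧ GapLaw a b r X Z Y l₀ x₀ ε := by
  obtain ⟨r0, hr0, h⟩ := poly_laws k 1 E η θ hE hη hθ l₀ x₀ ε hε
  refine ⟨r0, hr0, fun r hr => ?_⟩
  filter_upwards [h r hr 1] with X hX a b ha haH hbH hadm hex htr Z Y hY
  rw [PoissonLaw_iff, GapLaw_iff]
  exact hX _ (sys_lf a b _ ha haH hbH hadm) (two_lf a b ha hex r X 1) (noTr_lf a b _ htr) Z Y hY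

/-- **Regular points for linear forms.** -/
theorem lin_reg2 (k : ℕ) (E θ : ℝ) (hE : 0 < E) (hθ : 0 < θ) :
    ∃ r0 : ℕ, 2 ≤ r0 ∧ ∀ r : ℕ, r0 ≤ r → ∀ ε : ℝ, 0 < ε → ∃ c : ℝ, 0 < c ∧ ∀ δ : ℝ, 0 < δ → ∃ B : ℕ,
      ∀ᶠ X : ℕ in atTop, ∀ a b : Fin k → ℤ, (∀ i, a i ≠ 0) → (∀ i, |(a i : ℝ)| ≤ (X : ℝ) ^ E) →
        (∀ i, |(b i : ℝ)| ≤ (X : ℝ) ^ E) → (∀ p : ℕ, p.Prime → ∃ m : ℤ, ∀ i, ¬ (p : ℤ) ∣ a i * m + b i) →
        TwoForms a b →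
        ∀ u Y : ℕ, (X : ℝ) ^ θ ≤ Y → Y ≤ X → Y ≤ u → ∀ A : Set ℕ, (∀ m ∈ A, Good a b r X m) →
          (N (Irregular A (V a b r X) c δ B Y) u (u + Y) : ℝ) ≤ ε * (Y * V a b r X) := by
  obtain ⟨r0, hr0, h⟩ := poly_reg k 1 E θ hE hθ
  refine ⟨r0, hr0, fun r hr ε hε => ?_⟩
  obtain ⟨c, hc, h1⟩ := h r hr 1 ε hε
  refine ⟨c, hc, fun δ hδ => ?_⟩
  obtain ⟨B, hB⟩ := h1 δ hδ
  refine ⟨B, ?_⟩
  filter_upwards [hB] with X hX a b ha haH hbH hadm hex u Y hXY hYX hYu A hA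
  rw [V_eqP]
  rw [Good_eq] at hA
  exact hX _ (sys_lf a b _ ha haH hbH hadm) (two_lf a b ha hex r X 1) u Y hXY hYX hYu A hA

end Pool.Agent.Q25.UReg
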