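import Pool.Agent.Q25.GReg
import Pool.Agent.Q25.UReg5
import Pool.Agent.Y840.CT.Low

set_option autoImplicit false

/-! Regular points of arbitrary sets of tuples of numbers without small prime factors, relative to the full sieve
product, uniformly in the shifts; Chen's theorem for tuples. -/

namespace Pool.Agent.Q25.GReg

open Finset Filter
open Pool.Agent.Y843.HS (Pr VV Pr_mem Pr_prime VV_split VV_ge EE one_le_EE)
open Pool.Agent.Y843.HG (Z0 V1 V1_bounds V1_pos log_floor)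
open Pool.Agent.Y840.CT (rho Vp OmH OmH_le OmH_card Z0_OmH card_Z0 Vp_eq)
open Pool.Agent.Y879.GL (RO CD bS Irr)

/-- the number of the classes -/
lemma nu_int (G : Finset ℤ) (p : ℕ) (hp : 0 < p) :
    ((range p).filter (fun m : ℕ => ∃ h ∈ G, (p : ℤ) ∣ (m : ℤ) + h)).card = (G.image (fun h : ℤ => h % p)).card := by
  have hp' : (0 : ℤ) < p := by exact_mod_cast hp
  apply card_nbij' (fun m : ℕ => (-(m : ℤ)) % p) (fun c : ℤ => ((-c) % p).toNat)
  · intro m hm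
    rw [mem_coe, mem_filter, mem_range] at hm
    obtain ⟨hm1, h, hh, hd⟩ := hm
    rw [mem_coe, mem_image]
    refine ⟨h, hh, ?_⟩
    apply (Int.modEq_iff_dvd.2 ?_ : h ≡ -(m : ℤ) [ZMOD p])
    have e : -(m : ℤ) - h = -((m : ℤ) + h) := by ring
    rw [e]
    exact hd.neg_right
  · intro c hc
    rw [mem_coe, mem_image] at hc
    obtain ⟨h, hh, rfl⟩ := hc
    rw [mem_coe, mem_filter, mem_range]
    have h0 : 0 ≤ (-(h % (p : ℤ))) % p := Int.emod_nonneg _ hp'.ne'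
    have h1 : (-(h % (p : ℤ))) % p < p := Int.emod_lt_of_pos _ hp'
    refine ⟨by simp only; omega, h, hh, ?_⟩
    rw [Int.toNat_of_nonneg h0]
    have e1 : (-(h % (p : ℤ))) % p ≡ -h [ZMOD p] := (Int.mod_modEq _ _).trans (Int.mod_modEq _ _).neg
    have e2 := e1.add_right h
    rw [neg_add_cancel] at e2
    exact (Int.modEq_zero_iff_dvd).1 e2
  · intro m hm
    rw [mem_coe, mem_filter, mem_range] at hm
    have hm1 := hm.1
    have e1 : (-((-(m : ℤ)) % p)) % p = (m : ℤ) % p := by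
      have := (Int.mod_modEq (-(m : ℤ)) p).neg
      rw [neg_neg] at this
      exact this
    simp only
    rw [e1, Int.emod_eq_of_lt (by omega) (by exact_mod_cast hm1)]
    simp
  · intro c hc
    rw [mem_coe, mem_image] at hc
    obtain ⟨h, _, rfl⟩ := hc
    have h0 : 0 ≤ (-(h % (p : ℤ))) % p := Int.emod_nonneg _ hp'.ne'
    simp only
    rw [Int.toNat_of_nonneg h0]
    have e1 : (-((-(h % (p : ℤ))) % p)) % p = (h % p) % p := by
      have := (Int.mod_modEq (-(h % (p : ℤ))) p).neg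
      rw [neg_neg] at this
      exact this
    rw [e1, Int.emod_emod]

/-- the sieve products at the levels `X ^ (1/r')` and `X` -/
lemma V_ratio (r r' : ℕ) (hr' : 1 ≤ r') : ∃ b : ℝ, 0 < b ∧ ∃ X₀ : ℕ, ∀ X : ℕ, X₀ ≤ X → ∀ H : Finset ℤ, H.card ≤ r →
    (∀ q : ℕ, q.Prime → rho H q < q) →
      Vp H X ≤ VV (Z0 (OmH H)) 0 ⌊(X : ℝ) ^ (1 / (r' : ℝ))⌋₊ ∧
      VV (Z0 (OmH H)) 0 ⌊(X : ℝ) ^ (1 / (r' : ℝ))⌋₊ ≤ b * Vp H X := by
  obtain ⟨c, C, hc, hC, hV⟩ := V1_bounds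
  obtain ⟨n0, h0⟩ := log_floor r' hr'
  have hr0 : (0 : ℝ) < r' := by exact_mod_cast hr'
  set K : ℝ := C / c * (2 * r') with hK
  have hK0 : 0 < K := by positivity
  have ev : ∀ᶠ X : ℕ in atTop, ((2 * (r + 1) : ℕ) : ℝ) + 1 ≤ (X : ℝ) ^ (1 / (r' : ℝ)) :=
    ((tendsto_rpow_atTop (show (0 : ℝ) < 1 / r' by positivity)).comp tendsto_natCast_atTop_atTop).eventually
      (eventually_ge_atTop _)
  obtain ⟨n1, h1⟩ := eventually_atTop.1 ev
  refine ⟨K ^ (2 * (r + 1)), by positivity, max (max n0 n1) 2, fun X hX H hH hloc => ?_⟩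
  have hX0 : n0 ≤ X := (le_max_left _ _).trans ((le_max_left _ _).trans hX)
  have hX1 : n1 ≤ X := (le_max_right _ _).trans ((le_max_left _ _).trans hX)
  have hX2 : 2 ≤ X := (le_max_right _ _).trans hX
  have hXr : (1 : ℝ) ≤ X := by exact_mod_cast (by omega : 1 ≤ X)
  refine ⟨Pool.Agent.Y840.CT.Vp_le r' hr' H hloc (by omega), ?_⟩
  obtain ⟨hz2, hzl⟩ := h0 X hX0
  set z := ⌊(X : ℝ) ^ (1 / (r' : ℝ))⌋₊ with hz
  have hzX : z ≤ X := by
    have h2 : (X : ℝ) ^ (1 / (r' : ℝ)) ≤ X := by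
      have := Real.rpow_le_rpow_of_exponent_le hXr (show 1 / (r' : ℝ) ≤ 1 by
        rw [div_le_one hr0]
        exact_mod_cast hr')
      rwa [Real.rpow_one] at this
    have := Nat.floor_le_floor h2
    rwa [Nat.floor_natCast] at this
  have hz3 : 2 * (r + 1) ≤ z := by
    have h2 := h1 X hX1
    apply Nat.le_floor
    linarith
  have hlX : 0 < Real.log X := Real.log_pos (by exact_mod_cast (by omega : 1 < X))
  have hlz : 0 < Real.log z := Real.log_pos (by exact_mod_cast (by omega : 1 < z))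
  have hρ : ∀ q : ℕ, q.Prime → (Z0 (OmH H) q).card ≤ r + 1 := by
    intro q hq
    rw [card_Z0 H hq.pos]
    have h1 := OmH_card H hq.pos
    have h2 := OmH_le H q
    omega
  have hlt : ∀ q : ℕ, q.Prime → ∀ x ∈ Z0 (OmH H) q, x < q := by
    intro q hq x hx
    rw [Z0_OmH, mem_insert, mem_image] at hx
    rcases hx with rfl | ⟨y, _, rfl⟩
    · exact hq.pos
    · exact Pool.Agent.Y843.CH.hr_lt y hq.pos
  -- the product over the primes `(z, X]`
  have hE : EE z X ≤ K := by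
    obtain ⟨v1, v2⟩ := hV z hz2
    obtain ⟨w1, w2⟩ := hV X hX2
    have e1 : V1 z * ∏ p ∈ Pr z X, (1 - 1 / (p : ℝ)) = V1 X := by
      have := VV_split (fun _ => ({0} : Finset ℕ)) (Nat.zero_le z) hzX
      unfold VV at this
      simp only [card_singleton, Nat.cast_one] at this
      exact this
    have e2 : EE z X * ∏ p ∈ Pr z X, (1 - 1 / (p : ℝ)) ≤ 1 := by
      unfold EE
      rw [Real.exp_sum, ← prod_mul_distrib]
      apply prod_le_one
      · intro p hp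
        have := Pool.Agent.Y843.HG.fac1 (Pr_prime hp)
        have h3 : 0 ≤ 1 - 1 / (p : ℝ) := by linarith [this.1]
        positivity
      · intro p hp
        have := Pool.Agent.Y843.HG.fac1 (Pr_prime hp)
        have h3 : 0 ≤ 1 - 1 / (p : ℝ) := by linarith [this.1]
        have h4 : 1 - 1 / (p : ℝ) ≤ Real.exp (-(1 / (p : ℝ))) := by
          have := Real.add_one_le_exp (-(1 / (p : ℝ)))
          linarith
        calc Real.exp (1 / (p : ℝ)) * (1 - 1 / (p : ℝ)) ≤ Real.exp (1 / (p : ℝ)) * Real.exp (-(1 / (p : ℝ))) := by gcongr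
          _ = 1 := by rw [← Real.exp_add]; simp
    have hz0 := V1_pos z
    have hX0' := V1_pos X
    have e3 : EE z X * V1 X ≤ V1 z := by
      rw [← e1]
      calc EE z X * (V1 z * ∏ p ∈ Pr z X, (1 - 1 / (p : ℝ))) = V1 z * (EE z X * ∏ p ∈ Pr z X, (1 - 1 / (p : ℝ))) := by ring
        _ ≤ V1 z * 1 := by gcongr
        _ = V1 z := mul_one _
    have e4 : EE z X * (c / Real.log X) ≤ C / Real.log z :=
      (mul_le_mul_of_nonneg_left w1 (by linarith [one_le_EE z X])).trans (e3.trans v2)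
    have e5 : C / Real.log z ≤ C / (Real.log X / (2 * r')) := by gcongr
    have e6 : C / (Real.log X / (2 * r')) = K * (c / Real.log X) := by
      rw [hK]
      field_simp
    have e7 : 0 < c / Real.log X := by positivity
    exact le_of_mul_le_mul_right (e4.trans (e5.trans e6.le)) e7
  have hVz : 1 / EE z X ^ (2 * (r + 1)) ≤ VV (Z0 (OmH H)) z X :=
    VV_ge hz3 (fun p hp => ⟨hρ p (Pr_prime hp), hlt p (Pr_prime hp)⟩)
  have hEE := one_le_EE z X
  have h2 : VV (Z0 (OmH H)) 0 z * VV (Z0 (OmH H)) z X = Vp H X := by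
    rw [Vp_eq]
    exact VV_split _ (Nat.zero_le z) hzX
  have hV0 : 0 ≤ VV (Z0 (OmH H)) 0 z := by
    unfold VV
    apply prod_nonneg
    intro q hq
    have hqp := Pr_prime hq
    rw [sub_nonneg, div_le_one (by exact_mod_cast hqp.pos), card_Z0 H hqp.pos]
    exact_mod_cast (hloc q hqp).le
  have h3 : 1 / K ^ (2 * (r + 1)) ≤ VV (Z0 (OmH H)) z X := by
    refine le_trans ?_ hVz
    apply one_div_le_one_div_of_le (by positivity)
    exact pow_le_pow_left₀ (by linarith) hE _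
  rw [← h2]
  have h4 : 1 ≤ K ^ (2 * (r + 1)) * VV (Z0 (OmH H)) z X := by
    rw [div_le_iff₀ (by positivity)] at h3
    linarith
  calc VV (Z0 (OmH H)) 0 z = VV (Z0 (OmH H)) 0 z * 1 := (mul_one _).symm
    _ ≤ VV (Z0 (OmH H)) 0 z * (K ^ (2 * (r + 1)) * VV (Z0 (OmH H)) z X) := mul_le_mul_of_nonneg_left h4 hV0
    _ = _ := by ring

lemma Vp_pos (H : Finset ℤ) (hloc : ∀ q : ℕ, q.Prime → rho H q < q) (X : ℕ) : 0 < Vp H X := by
  unfold Vp
  apply prod_pos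
  intro q hq
  rw [mem_filter] at hq
  rw [sub_pos, div_lt_one (by exact_mod_cast hq.2.pos)]
  exact_mod_cast hloc q hq.2

/-- **Regular points of arbitrary sets of tuples**, uniformly in the shifts -/
theorem regT (r : ℕ) (hr : 1 ≤ r) : ∃ r₀ : ℕ, 2 ≤ r₀ ∧ ∀ r' : ℕ, r₀ ≤ r' → ∀ δ : ℝ, 0 < δ → ∃ c : ℝ, 0 < c ∧
    ∀ η : ℝ, 0 < η → ∃ R X₀ : ℕ, ∀ X : ℕ, X₀ ≤ X → ∀ H : Finset ℤ, H.card = r → (∀ h ∈ H, h ≠ 0 ∧ |h| ≤ X) →
    (∀ q : ℕ, q.Prime → rho H q < q) → ∀ u Y : ℕ, (X : ℝ) ^ (1 / 2 : ℝ) ≤ Y → Y ≤ u → u + Y ≤ X →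
    ∀ A : Set ℕ, (∀ m ∈ A, ∀ p : ℕ, p.Prime → (p : ℝ) ≤ (X : ℝ) ^ (1 / (r' : ℝ)) →
      ∀ h ∈ insert 0 H, ¬ (p : ℤ) ∣ (m : ℤ) + h) →
      (Pool.Agent.TH977.PW.N (Irr A (1 / Vp H X) c η R Y) u (u + Y) : ℝ) ≤ δ * (Y * Vp H X) := by
  classical
  obtain ⟨r0, hr02, h⟩ := Pool.Agent.Q25.UReg.lin_reg2 (r + 1) 1 (1 / 2) one_pos (by norm_num)
  refine ⟨r0, hr02, fun r' hr' δ hδ => ?_⟩
  obtain ⟨b, hb, n1, hV⟩ := V_ratio r r' (by omega)
  obtain ⟨cc, hcc, h1⟩ := h r' hr' (δ / b) (by positivity)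
  refine ⟨min (cc * 1) (cc / b), by positivity, fun η hη => ?_⟩
  obtain ⟨B, h2⟩ := h1 (η / b) (by positivity)
  obtain ⟨n2, h3⟩ := eventually_atTop.1 h2
  refine ⟨B + ⌈Real.logb 2 (1 / 1)⌉₊ + 1, max (max n1 n2) 1, fun X hX H hHc hHX hloc u Y hYl hYu huY A hA => ?_⟩
  have hn1 : n1 ≤ X := (le_max_left _ _).trans ((le_max_left _ _).trans hX)
  have hn2 : n2 ≤ X := (le_max_right _ _).trans ((le_max_left _ _).trans hX)
  have hX1 : 1 ≤ X := (le_max_right _ _).trans hX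
  obtain ⟨hV1, hV2⟩ := hV X hn1 H hHc.le hloc
  have hVp := Vp_pos H hloc X
  have h0H : (0 : ℤ) ∉ H := fun h0 => (hHX 0 h0).1 rfl
  have hG : (insert (0 : ℤ) H).card = r + 1 := by rw [card_insert_of_notMem h0H, hHc]
  obtain ⟨f, hf⟩ : ∃ f : Fin (r + 1) → ℤ, ∀ i, f i = (((insert (0 : ℤ) H).orderIsoOfFin hG i : ℤ)) :=
    ⟨_, fun _ => rfl⟩
  have hmem : ∀ i, f i ∈ insert (0 : ℤ) H := fun i => by
    rw [hf]
    exact ((insert (0 : ℤ) H).orderIsoOfFin hG i).2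
  have hsurj : ∀ x ∈ insert (0 : ℤ) H, ∃ i, f i = x := by
    intro x hx
    refine ⟨((insert (0 : ℤ) H).orderIsoOfFin hG).symm ⟨x, hx⟩, ?_⟩
    rw [hf, OrderIso.apply_symm_apply]
  have hiff : ∀ (p : ℕ) (m : ℤ), (∃ i, (p : ℤ) ∣ (1 : ℤ) * m + f i) ↔ ∃ x ∈ insert (0 : ℤ) H, (p : ℤ) ∣ m + x := by
    intro p m
    constructor
    · rintro ⟨i, hi⟩
      rw [one_mul] at hi
      exact ⟨_, hmem i, hi⟩
    · rintro ⟨x, hx, hd⟩
      obtain ⟨i, rfl⟩ := hsurj x hx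
      exact ⟨i, by rwa [one_mul]⟩
  have hVeq : Pool.Agent.Q25.UReg.V (fun _ : Fin (r + 1) => (1 : ℤ)) f r' X =
      VV (Z0 (OmH H)) 0 ⌊(X : ℝ) ^ (1 / (r' : ℝ))⌋₊ := by
    unfold Pool.Agent.Q25.UReg.V VV
    apply prod_congr
    · ext q
      rw [Pr_mem, mem_filter, mem_Icc]
      constructor
      · rintro ⟨⟨a, b⟩, c⟩
        exact ⟨⟨c.pos, b⟩, c⟩
      · rintro ⟨⟨a, b⟩, c⟩
        exact ⟨⟨c.pos, b⟩, c⟩
    · intro q hq
      have hqp : q.Prime := Pr_prime hq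
      rw [card_Z0 H hqp.pos]
      unfold rho
      rw [← nu_int _ q hqp.pos]
      congr 3
      refine congrArg card (Finset.ext fun m => ?_)
      simp only [mem_filter, hiff]
  have hadm : ∀ p : ℕ, p.Prime → ∃ m : ℤ, ∀ i, ¬ (p : ℤ) ∣ (1 : ℤ) * m + f i := by
    intro p hp
    by_contra hcon
    push Not at hcon
    have h1 : ((range p).filter (fun m : ℕ => ∃ x ∈ insert (0 : ℤ) H, (p : ℤ) ∣ (m : ℤ) + x)).card = p := by
      have h2 : ∀ m ∈ range p, ∃ x ∈ insert (0 : ℤ) H, (p : ℤ) ∣ ((m : ℕ) : ℤ) + x :=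
        fun m _ => (hiff p (m : ℤ)).1 (hcon m)
      rw [filter_true_of_mem h2, card_range]
    rw [nu_int _ p hp.pos] at h1
    have := hloc p hp
    unfold rho at this
    omega
  have htwo : Pool.Agent.Q25.UReg.TwoForms (fun _ : Fin (r + 1) => (1 : ℤ)) f := by
    refine ⟨⟨0, by omega⟩, ⟨1, by omega⟩, fun h => ?_, fun h => by norm_num at h⟩
    have h3 := h.2
    rw [hf, hf] at h3
    have h5 := ((insert (0 : ℤ) H).orderIsoOfFin hG).injective (Subtype.ext h3)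
    exact absurd (congrArg Fin.val h5) (by norm_num)
  have hXr : (1 : ℝ) ≤ X := by exact_mod_cast hX1
  have hfX : ∀ i, |(f i : ℝ)| ≤ (X : ℝ) ^ (1 : ℝ) := by
    intro i
    rw [Real.rpow_one]
    have hi := hmem i
    rw [mem_insert] at hi
    rcases hi with h0 | hi
    · rw [h0]
      simp
    · have := (hHX _ hi).2
      have h4 : ((|f i| : ℤ) : ℝ) ≤ X := by exact_mod_cast this
      rwa [Int.cast_abs] at h4
  have h5 := h3 X hn2 (fun _ => 1) f (fun _ => one_ne_zero) (fun _ => by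
      rw [Real.rpow_one]
      simpa using hXr) hfX hadm htwo u Y hYl (by omega) hYu A (fun m hm p hp hpX i hd => by
      obtain ⟨x, hx, hd2⟩ := (hiff p m).1 ⟨i, hd⟩
      exact hA m hm p hp hpX x hx hd2)
  rw [Pool.Agent.Q25.UReg.Irregular_eq, Pool.Agent.Q25.UReg.N_eq, hVeq] at h5
  set W := VV (Z0 (OmH H)) 0 ⌊(X : ℝ) ^ (1 / (r' : ℝ))⌋₊ with hW
  have hW0 : 0 < W := lt_of_lt_of_le hVp hV1
  have hsub : Irr A (1 / Vp H X) (min (cc * 1) (cc / b)) η (B + ⌈Real.logb 2 (1 / 1)⌉₊ + 1) Y ⊆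
      Irr A (1 / W) cc (η / b) B Y := by
    apply irr_scale (a := 1) (b := b) (by positivity) one_pos _ _ hcc (by positivity) (min_le_left _ _) _ _
      (by positivity) le_rfl
    · rw [one_mul]
      exact one_div_le_one_div_of_le hVp hV1
    · rw [mul_one_div, div_le_div_iff₀ hVp hW0]
      linarith
    · have : min (cc * 1) (cc / b) ≤ cc / b := min_le_right _ _
      calc min (cc * 1) (cc / b) * b ≤ cc / b * b := by gcongr
        _ = cc := by field_simp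
    · rw [div_mul_cancel₀ _ hb.ne']
  have h6 : (Pool.Agent.TH977.PW.N (Irr A (1 / Vp H X) (min (cc * 1) (cc / b)) η
      (B + ⌈Real.logb 2 (1 / 1)⌉₊ + 1) Y) u (u + Y) : ℝ) ≤
      Pool.Agent.TH977.PW.N (Irr A (1 / W) cc (η / b) B Y) u (u + Y) := by
    exact_mod_cast Pool.Agent.TH977.PW.N_mono _ _ _ _ (fun m _ _ hm => hsub hm)
  calc _ ≤ _ := h6
    _ ≤ δ / b * (Y * W) := h5
    _ ≤ δ / b * (Y * (b * Vp H X)) := by gcongr
    _ = δ * (Y * Vp H X) := by field_simp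

/-- the shifts in the form of the library -/
def neg (H : Finset ℤ) : Finset ℤ := H.image (fun h => -h)

lemma rho_neg (H : Finset ℤ) {q : ℕ} (hq : 0 < q) : rho (neg H) q = rho H q := by
  unfold rho neg
  have hq' : (0 : ℤ) < q := by exact_mod_cast hq
  have h1 : (insert 0 (H.image (fun h : ℤ => -h))).image (fun h : ℤ => h % q) =
      ((insert 0 H).image (fun h : ℤ => h % q)).image (fun x : ℤ => (-x) % q) := by
    rw [image_image, image_insert, image_insert, image_image]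
    simp only [Function.comp_def]
    congr 1
    apply image_congr
    intro h _
    exact ((Int.mod_modEq h q).neg).symm
  rw [h1]
  apply card_image_of_injOn
  intro x hx y hy hxy
  rw [coe_image, Set.mem_image] at hx hy
  obtain ⟨u, _, rfl⟩ := hx
  obtain ⟨v, _, rfl⟩ := hy
  simp only at hxy ⊢
  have h2 : (-(u % q)) ≡ (-(v % q)) [ZMOD q] := hxy
  have h3 := h2.neg
  rw [neg_neg, neg_neg] at h3
  have h4 : u % q % q = v % q % q := h3
  rwa [Int.emod_emod, Int.emod_emod] at h4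

lemma Vp_neg (H : Finset ℤ) (X : ℕ) : Vp (neg H) X = Vp H X := by
  unfold Vp
  apply prod_congr rfl
  intro q hq
  rw [mem_filter] at hq
  rw [rho_neg H hq.2.pos]

lemma sys_neg {r X : ℕ} {H : Finset ℤ} (hc : H.card ≤ r) (hs : ∀ h ∈ H, h ≠ 0 ∧ |h| ≤ X)
    (hl : ∀ q : ℕ, q.Prime → rho H q < q) : Pool.Agent.Y840.CT.Sys r X (neg H) := by
  refine ⟨?_, ?_, ?_⟩
  · exact card_image_le.trans hc
  · intro x hx
    unfold neg at hx
    rw [mem_image] at hx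
    obtain ⟨y, hy, rfl⟩ := hx
    obtain ⟨h1, h2⟩ := hs y hy
    exact ⟨neg_ne_zero.2 h1, by rwa [abs_neg]⟩
  · intro q hq
    rw [rho_neg H hq.pos]
    exact hl q hq

/-- `m ≠ 0` is up to the sign a product of at most `t` primes, all of them larger than `y` -/
def RoughT (t : ℕ) (y : ℝ) (m : ℤ) : Prop :=
  m ≠ 0 ∧ m.natAbs.primeFactorsList.length ≤ t ∧ ∀ q : ℕ, q.Prime → (q : ℤ) ∣ m → y < q

lemma rough_neg (t : ℕ) (y : ℝ) (m : ℤ) : Pool.Agent.Y840.CT.Rough t y (-m) ↔ RoughT t y m := by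
  unfold Pool.Agent.Y840.CT.Rough RoughT
  rw [neg_ne_zero, Int.natAbs_neg]
  simp only [dvd_neg]

/-- the condition on the primes -/
def CP (t X : ℕ) (H : Finset ℤ) (h0 : ℤ) (p : ℕ) : Prop :=
  p.Prime ∧ (X : ℝ) ^ (1 / (t : ℝ)) < p ∧ RoughT 2 ((X : ℝ) ^ (1 / 9 : ℝ)) (p + h0) ∧
    ∀ h ∈ H, RoughT t ((X : ℝ) ^ (1 / (t : ℝ))) (p + h)

open Classical in
lemma good_eq (t X A B : ℕ) (H : Finset ℤ) (h0 : ℤ) :
    (Ioc A B).filter (fun p => CP t X H h0 p) = Pool.Agent.Y840.CT.Good t X A B (neg H) (-h0) := by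
  ext p
  unfold Pool.Agent.Y840.CT.Good
  simp only [mem_filter]
  unfold CP
  apply and_congr_right
  intro _
  have e3 : ∀ h : ℤ, -h - (p : ℤ) = -((p : ℤ) + h) := fun h => by ring
  rw [e3, rough_neg]
  unfold neg
  simp only [mem_image, forall_exists_index, and_imp, forall_apply_eq_imp_iff₂]
  simp only [e3, rough_neg]

open Classical in
/-- **Chen's theorem for tuples**, with the narrow progressions -/
theorem chenT (r : ℕ) : ∃ t : ℕ, 1 ≤ t ∧ ∃ c : ℝ, 0 < c ∧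
    (∀ θ : ℝ, 0 < θ → ∃ X₀ : ℕ, ∀ X : ℕ, X₀ ≤ X → ∀ H : Finset ℤ, H.card ≤ r → (∀ h ∈ H, h ≠ 0 ∧ |h| ≤ X) →
      (∀ q : ℕ, q.Prime → rho H q < q) → c / Real.log X ^ (r + 1) ≤ Vp H X ∧ ∀ h0 ∈ H, ∀ u Y : ℕ, u + Y ≤ X →
      θ * X ≤ Y → c * (Y * Vp H X) ≤ ((Ioc u (u + Y)).filter (fun p => CP t X H h0 p)).card) ∧
    (∀ k : ℕ, 1 ≤ k → ∀ θ δ : ℝ, 0 < θ → 0 < δ → ∃ D X₀ : ℕ, ∀ X : ℕ, X₀ ≤ X → ∀ H : Finset ℤ, H.card ≤ r →
      (∀ h ∈ H, h ≠ 0 ∧ |h| ≤ X) → (∀ q : ℕ, q.Prime → rho H q < q) → ∀ h0 ∈ H, ∀ u Y : ℕ, u + Y ≤ X →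
      θ * X ≤ Y → ∀ S : Finset ℕ, S ⊆ (Ioc u (u + Y)).filter (fun p => CP t X H h0 p) →
        ((Pool.Agent.Y843.HG.Iso k (Real.log X ^ D) S).card : ℝ) ≤
          δ * ((Ioc u (u + Y)).filter (fun p => CP t X H h0 p)).card) := by
  obtain ⟨t, ht, c, hc, h1, h2⟩ := Pool.Agent.Y840.CT.genI r
  obtain ⟨c2, hc2, hV⟩ := Pool.Agent.Y840.CT.Vp_low r
  refine ⟨t, ht, min c c2, lt_min hc hc2, fun θ hθ => ?_, fun k hk θ δ hθ hδ => ?_⟩
  · obtain ⟨X0, h3⟩ := h1 θ hθ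
    refine ⟨max X0 2, fun X hX H hH hs hl => ⟨?_, fun h0 hh0 u Y huY hY => ?_⟩⟩
    · have hX2 : 2 ≤ X := (le_max_right _ _).trans hX
      have hlX : 0 < Real.log X := Real.log_pos (by exact_mod_cast (by omega : 1 < X))
      refine le_trans ?_ (hV X hX2 H hH hl)
      gcongr
      exact min_le_right _ _
    · have h4 := h3 X ((le_max_left _ _).trans hX) (neg H) (sys_neg hH hs hl) (-h0)
        (mem_image_of_mem _ hh0) u (u + Y) huY (by
          push_cast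
          linarith)
      rw [← good_eq, Vp_neg] at h4
      refine le_trans ?_ h4
      push_cast
      have e3 : (u : ℝ) + Y - u = Y := by ring
      rw [e3]
      have hVp := Vp_pos H hl X
      have hY0 : (0 : ℝ) ≤ Y := Nat.cast_nonneg Y
      calc min c c2 * (Y * Vp H X) ≤ c * (Y * Vp H X) := by
            apply mul_le_mul_of_nonneg_right (min_le_left _ _) (by positivity)
        _ = c * Y * Vp H X := by ring
  · obtain ⟨D, X0, h3⟩ := h2 k θ δ hθ hδ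
    refine ⟨D, X0, fun X hX H hH hs hl h0 hh0 u Y huY hY S hS => ?_⟩
    by_contra hcon
    push Not at hcon
    rw [good_eq] at hS hcon
    apply Pool.Agent.Y843.HG.not_ap_Iso (k := k) hk (D := Real.log X ^ D) (S := S)
    exact h3 X hX (neg H) (sys_neg hH hs hl) (-h0) (mem_image_of_mem _ hh0) u (u + Y) huY (by
      push_cast
      linarith) _ ((Pool.Agent.Y843.HG.Iso_sub _ _ _).trans hS) hcon.le

end Pool.Agent.Q25.GReg
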