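import Pool.Agent.Q25.UReg3

set_option autoImplicit false

/-!
# The laws of systems of polynomials, uniformly in the polynomials
-/

namespace Pool.Agent.Q25.UReg

open Polynomial Finset Filter
open Pool.Agent.Y879.GL

/-! ### Definitions -/

/-- Systems of irreducible polynomials of degree between `1` and `D`, with coefficients `≤ H` in absolute value, such
that no prime divides the product of the values at all integers. -/
structure Sys {k : ℕ} (D : ℕ) (H : ℝ) (f : Fin k → ℤ[X]) : Prop where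
  irr : ∀ i, Irreducible (f i)
  deg : ∀ i, 1 ≤ (f i).natDegree
  degD : ∀ i, (f i).natDegree ≤ D
  hgt : ∀ i n, |(((f i).coeff n : ℤ) : ℝ)| ≤ H
  adm : ∀ p : ℕ, p.Prime → ∃ m : ℤ, ∀ i, ¬ (p : ℤ) ∣ (f i).eval m

/-- No `f i (m)` has a prime factor `≤ X ^ (1 / r)`. -/
def GoodP {k : ℕ} (f : Fin k → ℤ[X]) (r X m : ℕ) : Prop :=
  ∀ p : ℕ, p.Prime → (p : ℝ) ≤ (X : ℝ) ^ (1 / (r : ℝ)) → ∀ i, ¬ (p : ℤ) ∣ (f i).eval (m : ℤ)

open Classical in
/-- The density of these `m`: the product over the primes `p ≤ X ^ (1 / r)` of `1 - ν(p) / p`, where `ν(p)` is the number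
of the residue classes `m` modulo `p` with `p ∣ f i (m)` for some `i`. -/
noncomputable def VP {k : ℕ} (f : Fin k → ℤ[X]) (r X : ℕ) : ℝ :=
  ∏ p ∈ (Icc 1 ⌊(X : ℝ) ^ (1 / (r : ℝ))⌋₊).filter Nat.Prime,
    (1 - (((range p).filter (fun m : ℕ => ∃ i, (p : ℤ) ∣ (f i).eval (m : ℤ))).card : ℝ) / p)

/-- `V ≤ C / log X`, or two of the polynomials are linear and essentially different (in this case `V` has an upper bound
of this kind). -/
def SmallDensity {k : ℕ} (f : Fin k → ℤ[X]) (r X : ℕ) (C : ℝ) : Prop :=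
  VP f r X ≤ C / Real.log X ∨ ∃ i j, (f i).natDegree = 1 ∧ (f j).natDegree = 1 ∧ f i ≠ f j ∧ f i ≠ - f j

open Classical in
/-- the number of the good integers in `(n, n + T]` -/
noncomputable def countP {k : ℕ} (f : Fin k → ℤ[X]) (r X T n : ℕ) : ℕ :=
  ((Ioc n (n + T)).filter (fun m => GoodP f r X m)).card

open Classical in
/-- The Poisson law: in `(Z, Z + Y]` the proportion of the `n` for which the number of the good integers in `(n, n + T]`
belongs to `S` is, up to `ε`, the Poisson probability with expected value `T V`; for all `T V ≤ x₀` and all `S`. -/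
def PoissonLawP {k : ℕ} (f : Fin k → ℤ[X]) (r X Z Y : ℕ) (x₀ ε : ℝ) : Prop :=
  ∀ T : ℕ, T * VP f r X ≤ x₀ → ∀ S : Finset ℕ,
    |(((Ioc Z (Z + Y)).filter (fun n => countP f r X T n ∈ S)).card : ℝ) -
      Y * ∑ j ∈ S, pois (T * VP f r X) j| ≤ ε * Y

open Classical in
/-- The gap laws: among the good `n ∈ (Z, Z + Y]` the proportion of those with fewer than `l` good integers in
`[n - T, n)` is, up to `ε`, the Poisson probability of a number `< l`; for all `T` and `l ≤ l₀`, and for all `l` and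
`T V ≤ x₀`. -/
def GapLawP {k : ℕ} (f : Fin k → ℤ[X]) (r X Z Y : ℕ) (l₀ : ℕ) (x₀ ε : ℝ) : Prop :=
  ∀ l T : ℕ, (l ≤ l₀ ∨ T * VP f r X ≤ x₀) →
    |(((Ioc Z (Z + Y)).filter (fun n => GoodP f r X n ∧
        ((Ico (n - T) n).filter (fun m => GoodP f r X m)).card < l)).card : ℝ) -
      Y * VP f r X * ∑ j ∈ range l, pois (T * VP f r X) j| ≤ ε * (Y * VP f r X)

/-- No polynomial of the system is up to sign a translate of a polynomial of the system by `t` with `1 ≤ t ≤ U`. -/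
def NoTr {k : ℕ} (f : Fin k → ℤ[X]) (U : ℝ) : Prop :=
  ∀ i j, ∀ t : ℕ, 1 ≤ t → (t : ℝ) ≤ U → f i ≠ (f j).comp (X + C (t : ℤ)) ∧ f i ≠ - (f j).comp (X + C (t : ℤ))

/-! ### Comparison -/

lemma VP_eq {k : ℕ} (f : Fin k → ℤ[X]) (r X : ℕ) :
    VP f r X = Pool.Agent.W123.RP.Vq (Pool.Agent.W123.RU.Poly.Q f) ⌊(X : ℝ) ^ (1 / (r : ℝ))⌋₊ := by
  classical
  unfold VP Pool.Agent.W123.RP.Vq Pool.Agent.H373R2.T7.nuB Pool.Agent.H373R2.T7.pz
  apply prod_congr rfl
  intro p _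
  congr 3
  refine congrArg card (Finset.ext fun m => ?_)
  simp only [mem_filter]
  exact Iff.rfl

lemma GoodP_iff {k : ℕ} (f : Fin k → ℤ[X]) (r X m : ℕ) : GoodP f r X m ↔
    Pool.Agent.TH464.PO.Sf (Pool.Agent.W123.RU.Poly.Q f) ⌊(X : ℝ) ^ (1 / (r : ℝ))⌋₊ m := by
  constructor
  · intro h p hp hQ
    unfold Pool.Agent.H373R2.T7.pz at hp
    rw [mem_filter, mem_Icc] at hp
    obtain ⟨i, hi⟩ := hQ
    refine h p hp.2 ?_ i hi
    exact (Nat.le_floor_iff (by positivity)).1 hp.1.2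
  · intro h p hp hpX i hi
    refine h p ?_ ⟨i, hi⟩
    unfold Pool.Agent.H373R2.T7.pz
    rw [mem_filter, mem_Icc]
    exact ⟨⟨hp.one_lt.le, Nat.le_floor hpX⟩, hp⟩

lemma Sys.us {k D : ℕ} {H U : ℝ} {f : Fin k → ℤ[X]} (h : Sys D H f) (hno : NoTr f U) : US k D H U f where
  irr := h.irr
  deg i := by have := h.deg i; omega
  degD := h.degD
  hgt := h.hgt
  adm p hp := by
    obtain ⟨m, hm⟩ := h.adm p hp
    have hp0 : (p : ℤ) ≠ 0 := by exact_mod_cast hp.ne_zero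
    refine ⟨(m % p).toNat, fun i hi => hm i ?_⟩
    rw [Int.toNat_of_nonneg (Int.emod_nonneg _ hp0)] at hi
    have h1 : (p : ℤ) ∣ m - m % p := by
      have := Int.emod_add_mul_ediv m p
      exact ⟨m / p, by linarith⟩
    have h2 := h1.trans ((f i).sub_dvd_eval_sub m (m % p))
    have h3 := dvd_add h2 hi
    rwa [sub_add_cancel] at h3
  tr i j t ht htU h1 := by
    rcases assoc_cases h1 with h2 | h2
    · exact (hno i j t ht htU).1 h2
    · exact (hno i j t ht htU).2 h2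

lemma noTr_zero {k : ℕ} (f : Fin k → ℤ[X]) : NoTr f 0 := by
  intro i j t ht ht0
  have : (1 : ℝ) ≤ t := by exact_mod_cast ht
  linarith

/-! ### Two linear polynomials -/

/-- the density when there are two different linear polynomials -/
lemma two_lin (E : ℝ) (hE : 0 < E) (r : ℕ) (hr : 2 ≤ r) : ∃ M : ℝ, 0 < M ∧ ∀ᶠ X : ℕ in atTop, ∀ (k D : ℕ)
    (f : Fin k → ℤ[X]), Sys D ((X : ℝ) ^ E) f →
    (∃ i j, (f i).natDegree = 1 ∧ (f j).natDegree = 1 ∧ f i ≠ f j ∧ f i ≠ - f j) → VP f r X ≤ M / Real.log X := by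
  obtain ⟨M, hM, h⟩ := V2_up (4 * E + 1) (by positivity) r hr
  refine ⟨M, hM, ?_⟩
  filter_upwards [h, eventually_ge_atTop 2] with X hX hX2 k D f hf hex
  rw [VP_eq]
  obtain ⟨i, j, hi, hj, hne, hne'⟩ := hex
  have hXr : (2 : ℝ) ≤ X := by exact_mod_cast hX2
  have hH1 : (1 : ℝ) ≤ (X : ℝ) ^ E := Real.one_le_rpow (by linarith) hE.le
  have hUS : US k D ((X : ℝ) ^ E) 0 f := hf.us (noTr_zero f)
  -- the coefficients
  have hform : ∀ l, (f l).natDegree = 1 → f l = C ((f l).coeff 1) * Polynomial.X + C ((f l).coeff 0) :=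
    fun l hl => eq_X_add_C_of_natDegree_le_one hl.le
  have hlead : ∀ l, (f l).natDegree = 1 → (f l).coeff 1 ≠ 0 := fun l hl => by
    have h1 : (f l).coeff (f l).natDegree ≠ 0 := by
      rw [coeff_natDegree]
      exact leadingCoeff_ne_zero.2 (hf.irr l).ne_zero
    rwa [hl] at h1
  have hcop : ∀ l, (f l).natDegree = 1 → IsCoprime ((f l).coeff 1) ((f l).coeff 0) := by
    intro l hl
    rw [Int.isCoprime_iff_gcd_eq_one]
    by_contra hne
    obtain ⟨p, hp, hpd⟩ := Nat.exists_prime_and_dvd hne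
    have h1 : (p : ℤ) ∣ (f l).coeff 1 := (Int.natCast_dvd_natCast.2 hpd).trans (Int.gcd_dvd_left _ _)
    have h2 : (p : ℤ) ∣ (f l).coeff 0 := (Int.natCast_dvd_natCast.2 hpd).trans (Int.gcd_dvd_right _ _)
    obtain ⟨n, hn⟩ := hf.adm p hp
    apply hn l
    rw [hform l hl, eval_add, eval_mul, eval_C, eval_X, eval_C]
    exact dvd_add (h1.mul_right _) h2
  obtain ⟨a, ha⟩ : ∃ a : ℤ, a = (f i).coeff 1 := ⟨_, rfl⟩
  obtain ⟨b, hb⟩ : ∃ b : ℤ, b = (f i).coeff 0 := ⟨_, rfl⟩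
  obtain ⟨a', ha'⟩ : ∃ a : ℤ, a = (f j).coeff 1 := ⟨_, rfl⟩
  obtain ⟨b', hb'⟩ : ∃ b : ℤ, b = (f j).coeff 0 := ⟨_, rfl⟩
  have fi : f i = C a * Polynomial.X + C b := by rw [ha, hb]; exact hform i hi
  have fj : f j = C a' * Polynomial.X + C b' := by rw [ha', hb']; exact hform j hj
  have ha0 : a ≠ 0 := by rw [ha]; exact hlead i hi
  have ha'0 : a' ≠ 0 := by rw [ha']; exact hlead j hj
  have hab : IsCoprime a b := by rw [ha, hb]; exact hcop i hi
  have hab' : IsCoprime a' b' := by rw [ha', hb']; exact hcop j hj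
  -- the determinant
  have hdet : a * b' - a' * b ≠ 0 := by
    intro h0
    have h1 : a * b' = a' * b := by linarith
    have h2 : a ∣ a' := hab.dvd_of_dvd_mul_right ⟨b', by rw [← h1]⟩
    have h3 : a' ∣ a := hab'.dvd_of_dvd_mul_right ⟨b, by rw [h1]⟩
    rcases Int.natAbs_eq_natAbs_iff.1 (Nat.dvd_antisymm (Int.natAbs_dvd_natAbs.2 h2) (Int.natAbs_dvd_natAbs.2 h3)) with h4 | h4
    · apply hne
      rw [fi, fj, h4]
      rw [h4] at h1
      rw [mul_left_cancel₀ ha'0 h1]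
    · apply hne'
      rw [fi, fj, h4]
      rw [h4] at h1
      have h5 : b = - b' := by
        have h6 : a' * (-b') = a' * b := by linarith
        exact (mul_left_cancel₀ ha'0 h6).symm
      rw [h5]
      simp only [map_neg]
      ring
  refine hX (Pool.Agent.W123.RU.Poly.Q f) (a * a' * (a * b' - a' * b)).natAbs (us_adm hUS) ?_ ?_ ?_
  · exact Nat.one_le_iff_ne_zero.2 (Int.natAbs_ne_zero.2 (mul_ne_zero (mul_ne_zero ha0 ha'0) hdet))
  · have e : (((a * a' * (a * b' - a' * b)).natAbs : ℕ) : ℝ) = |(a : ℝ)| * |(a' : ℝ)| * |(a : ℝ) * b' - a' * b| := by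
      rw [Nat.cast_natAbs]
      push_cast
      rw [abs_mul, abs_mul]
    rw [e]
    have h1 : |(a : ℝ)| ≤ (X : ℝ) ^ E := by rw [ha]; exact hf.hgt i 1
    have h2 : |(a' : ℝ)| ≤ (X : ℝ) ^ E := by rw [ha']; exact hf.hgt j 1
    have h1' : |(b : ℝ)| ≤ (X : ℝ) ^ E := by rw [hb]; exact hf.hgt i 0
    have h2' : |(b' : ℝ)| ≤ (X : ℝ) ^ E := by rw [hb']; exact hf.hgt j 0
    have h3 : |(a : ℝ) * b' - a' * b| ≤ 2 * ((X : ℝ) ^ E * (X : ℝ) ^ E) := by
      calc |(a : ℝ) * b' - a' * b| ≤ |(a : ℝ) * b'| + |(a' : ℝ) * b| := abs_sub _ _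
        _ = |(a : ℝ)| * |(b' : ℝ)| + |(a' : ℝ)| * |(b : ℝ)| := by rw [abs_mul, abs_mul]
        _ ≤ (X : ℝ) ^ E * (X : ℝ) ^ E + (X : ℝ) ^ E * (X : ℝ) ^ E := by
            apply add_le_add
            · exact mul_le_mul h1 h2' (abs_nonneg _) (by positivity)
            · exact mul_le_mul h2 h1' (abs_nonneg _) (by positivity)
        _ = _ := by ring
    calc |(a : ℝ)| * |(a' : ℝ)| * |(a : ℝ) * b' - a' * b| ≤
          (X : ℝ) ^ E * (X : ℝ) ^ E * (2 * ((X : ℝ) ^ E * (X : ℝ) ^ E)) := by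
            apply mul_le_mul (mul_le_mul h1 h2 (abs_nonneg _) (by positivity)) h3 (abs_nonneg _) (by positivity)
      _ = 2 * (X : ℝ) ^ (4 * E) := by
            have : (X : ℝ) ^ (4 * E) = (X : ℝ) ^ E * (X : ℝ) ^ E * ((X : ℝ) ^ E * (X : ℝ) ^ E) := by
              rw [← Real.rpow_add (by linarith), ← Real.rpow_add (by linarith)]
              congr 1
              ring
            rw [this]
            ring
      _ ≤ (X : ℝ) ^ (4 * E + 1) := by
            rw [Real.rpow_add (by linarith), Real.rpow_one]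
            have : (0 : ℝ) < (X : ℝ) ^ (4 * E) := by positivity
            nlinarith
  · -- two different classes
    intro p hp hpD
    classical
    have hpD' : ¬ (p : ℤ) ∣ a * a' * (a * b' - a' * b) := by
      rwa [Int.natCast_dvd]
    have hpi : ¬ (p : ℤ) ∣ a := fun h => hpD' ((h.mul_right _).mul_right _)
    have hpj : ¬ (p : ℤ) ∣ a' := fun h => hpD' ((h.mul_left _).mul_right _)
    have hpd : ¬ (p : ℤ) ∣ a * b' - a' * b := fun h => hpD' (h.mul_left _)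
    have root : ∀ a b : ℤ, ¬ (p : ℤ) ∣ a → ∃ m ∈ range p, (p : ℤ) ∣ a * (m : ℤ) + b := by
      intro a b hi
      have : Fact p.Prime := ⟨hp⟩
      have hai : ((a : ℤ) : ZMod p) ≠ 0 := by
        rwa [Ne, ZMod.intCast_zmod_eq_zero_iff_dvd]
      refine ⟨(-((b : ℤ) : ZMod p) / ((a : ℤ) : ZMod p)).val, mem_range.2 (ZMod.val_lt _), ?_⟩
      rw [← ZMod.intCast_zmod_eq_zero_iff_dvd]
      push_cast
      rw [ZMod.natCast_zmod_val, mul_div_cancel₀ _ hai]
      ring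
    obtain ⟨m, hm, hm2⟩ := root a b hpi
    obtain ⟨n, hn, hn2⟩ := root a' b' hpj
    have hmn : m ≠ n := by
      rintro rfl
      apply hpd
      have e : a * b' - a' * b = a * (a' * (m : ℤ) + b') - a' * (a * (m : ℤ) + b) := by ring
      rw [e]
      exact dvd_sub (hn2.mul_left _) (hm2.mul_left _)
    unfold Pool.Agent.H373R2.T7.nuB
    have hsub : ({m, n} : Finset ℕ) ⊆ (range p).filter
        (fun r => Pool.Agent.W123.RU.Poly.Q f p r) := by
      intro x hx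
      rw [mem_insert, mem_singleton] at hx
      rw [mem_filter]
      rcases hx with rfl | rfl
      · refine ⟨hm, i, ?_⟩
        rw [fi, eval_add, eval_mul, eval_C, eval_X, eval_C]
        exact hm2
      · refine ⟨hn, j, ?_⟩
        rw [fj, eval_add, eval_mul, eval_C, eval_X, eval_C]
        exact hn2
    calc 2 = ({m, n} : Finset ℕ).card := (card_pair hmn).symm
      _ ≤ _ := card_le_card hsub

/-! ### The laws -/

/-- **The laws for systems of polynomials.** -/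
theorem poly_laws (k D : ℕ) (E η θ : ℝ) (hE : 0 < E) (hη : 0 < η) (hθ : 0 < θ) (l₀ : ℕ) (x₀ ε : ℝ) (hε : 0 < ε) :
    ∃ r0 : ℕ, 2 ≤ r0 ∧ ∀ r : ℕ, r0 ≤ r → ∀ Cv : ℝ,
      ∀ᶠ X : ℕ in atTop, ∀ f : Fin k → ℤ[X], Sys D ((X : ℝ) ^ E) f → SmallDensity f r X Cv → NoTr f ((X : ℝ) ^ η) →
        ∀ Z Y : ℕ, (X : ℝ) ^ θ ≤ Y → PoissonLawP f r X Z Y x₀ ε ∧ GapLawP f r X Z Y l₀ x₀ ε := by
  classical
  obtain ⟨r1, h1⟩ := Pool.Agent.Q26.BH.poisson_polys k D E η θ hE hη hθ x₀ ε hε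
  obtain ⟨r2, h2⟩ := Pool.Agent.Y879.GL.gap_polys k D E η θ hE hη hθ l₀ x₀ ε hε
  refine ⟨max (max r1 r2) 2, le_max_right _ _, fun r hr Cv => ?_⟩
  have hra : r1 ≤ r := ((le_max_left _ _).trans (le_max_left _ _)).trans hr
  have hrb : r2 ≤ r := ((le_max_right _ _).trans (le_max_left _ _)).trans hr
  have hrd : 2 ≤ r := (le_max_right _ _).trans hr
  obtain ⟨M, hM, hV⟩ := two_lin E hE r hrd
  filter_upwards [h1 r hra (max Cv M), h2 r hrb (max Cv M), hV, eventually_ge_atTop 2] with X g1 g2 hVX hX2 f hf hsd htr Z Y hY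
  have hlog : 0 < Real.log X := Real.log_pos (by exact_mod_cast (by omega : 1 < X))
  have hUS : US k D ((X : ℝ) ^ E) ((X : ℝ) ^ η) f := hf.us htr
  have hVV : Pool.Agent.W123.RP.Vq (Pool.Agent.W123.RU.Poly.Q f) ⌊(X : ℝ) ^ (1 / (r : ℝ))⌋₊ ≤ max Cv M / Real.log X := by
    rw [← VP_eq]
    rcases hsd with h | h
    · exact h.trans (div_le_div_of_nonneg_right (le_max_left _ _) hlog.le)
    · exact (hVX k D f hf h).trans (div_le_div_of_nonneg_right (le_max_right _ _) hlog.le)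
  constructor
  · intro T hT S
    rw [VP_eq] at hT ⊢
    have g5 := g1 _ hUS hVV Z Y hY T hT S
    have e1 : ((Ioc Z (Z + Y)).filter (fun n => countP f r X T n ∈ S)) =
        ((Ioc Z (Z + Y)).filter (fun n => Pool.Agent.TH464.PO.Wc (Pool.Agent.TH464.PO.Sf
          (Pool.Agent.W123.RU.Poly.Q f) ⌊(X : ℝ) ^ (1 / (r : ℝ))⌋₊) n T ∈ S)) := by
      apply filter_congr
      intro n _
      unfold countP Pool.Agent.TH464.PO.Wc
      rw [filter_congr (fun m _ => GoodP_iff f r X m)]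
    rw [e1]
    exact g5
  · intro l T hT
    rw [VP_eq] at hT ⊢
    have g5 := g2 _ hUS hVV Z Y hY l T hT
    have e1 : ((Ioc Z (Z + Y)).filter (fun n => GoodP f r X n ∧
            ((Ico (n - T) n).filter (fun m => GoodP f r X m)).card < l)) =
        ((Ioc Z (Z + Y)).filter (fun n => Pool.Agent.TH464.PO.Sf
            (Pool.Agent.W123.RU.Poly.Q f) ⌊(X : ℝ) ^ (1 / (r : ℝ))⌋₊ n ∧
            ((Ico (n - T) n).filter (Pool.Agent.TH464.PO.Sf
              (Pool.Agent.W123.RU.Poly.Q f) ⌊(X : ℝ) ^ (1 / (r : ℝ))⌋₊)).card < l)) := by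
      apply filter_congr
      intro n _
      rw [GoodP_iff f r X n, filter_congr (fun m _ => GoodP_iff f r X m)]
    rw [e1]
    exact g5

/-- **Regular points for systems of polynomials.** -/
theorem poly_reg (k D : ℕ) (E θ : ℝ) (hE : 0 < E) (hθ : 0 < θ) :
    ∃ r0 : ℕ, 2 ≤ r0 ∧ ∀ r : ℕ, r0 ≤ r → ∀ Cv : ℝ, ∀ ε : ℝ, 0 < ε → ∃ c : ℝ, 0 < c ∧ ∀ δ : ℝ, 0 < δ → ∃ B : ℕ,
      ∀ᶠ X : ℕ in atTop, ∀ f : Fin k → ℤ[X], Sys D ((X : ℝ) ^ E) f → SmallDensity f r X Cv →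
        ∀ u Y : ℕ, (X : ℝ) ^ θ ≤ Y → Y ≤ X → Y ≤ u → ∀ A : Set ℕ, (∀ m ∈ A, GoodP f r X m) →
          (N (Irregular A (VP f r X) c δ B Y) u (u + Y) : ℝ) ≤ ε * (Y * VP f r X) := by
  obtain ⟨r0, hr0, h⟩ := reg k D E θ hE hθ
  refine ⟨r0, hr0, fun r hr Cv ε hε => ?_⟩
  obtain ⟨M, hM, hV⟩ := two_lin E hE r (hr0.trans hr)
  obtain ⟨c, hc, h1⟩ := h r hr (max Cv M) (lt_max_of_lt_right hM) ε hε
  refine ⟨c, hc, fun δ hδ => ?_⟩
  obtain ⟨B, hB⟩ := h1 δ hδ
  refine ⟨B, ?_⟩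
  filter_upwards [hB, hV, eventually_ge_atTop 2] with X hX hVX hX2 f hf hsd u Y hXY hYX hYu A hA
  have hlog : 0 < Real.log X := Real.log_pos (by exact_mod_cast (by omega : 1 < X))
  have hVV : Pool.Agent.W123.RP.Vq (Pool.Agent.W123.RU.Poly.Q f) ⌊(X : ℝ) ^ (1 / (r : ℝ))⌋₊ ≤ max Cv M / Real.log X := by
    rw [← VP_eq]
    rcases hsd with h | h
    · exact h.trans (div_le_div_of_nonneg_right (le_max_left _ _) hlog.le)
    · exact (hVX k D f hf h).trans (div_le_div_of_nonneg_right (le_max_right _ _) hlog.le)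
  rw [VP_eq]
  exact hX f (hf.us (noTr_zero f)) hVV u Y hXY hYX hYu A (fun m hm => (GoodP_iff f r X m).1 (hA m hm))

end Pool.Agent.Q25.UReg
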