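import Pool.Agent.Q25.GReg3
import Pool.Agent.Q25.UReg4

set_option autoImplicit false

/-! Narrow progressions in arbitrary sifted sets, uniformly in the systems of residue classes; the polynomials
`n ^ 2 + a`, uniformly in `a`. -/

namespace Pool.Agent.Q25.GReg

open Finset Filter
open Pool.Agent.Y843.HS (Pr VV Pr_mem Pr_prime VV_split VV_ge EE one_le_EE)
open Pool.Agent.Y843.HG (V1 V1_bounds V1_pos log_floor Iso fin_iso)

/-- Mertens -/
lemma EE_V1 {z x : ℕ} (hzx : z ≤ x) : EE z x * V1 x ≤ V1 z := by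
  have e1 : V1 z * ∏ p ∈ Pr z x, (1 - 1 / (p : ℝ)) = V1 x := by
    have := VV_split (fun _ => ({0} : Finset ℕ)) (Nat.zero_le z) hzx
    unfold VV at this
    simp only [card_singleton, Nat.cast_one] at this
    exact this
  have e2 : EE z x * ∏ p ∈ Pr z x, (1 - 1 / (p : ℝ)) ≤ 1 := by
    unfold EE
    rw [Real.exp_sum, ← prod_mul_distrib]
    apply prod_le_one
    · intro p hp
      have := Pool.Agent.Y843.HG.fac1 (Pr_prime hp)
      have h3 : 0 ≤ 1 - 1 / (p : ℝ) := by linarith [this.1]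
      positivity
    · intro p hp
      have := Pool.Agent.Y843.HG.fac1 (Pr_prime hp)
      have h3 : 0 ≤ 1 - 1 / (p : ℝ) := by linarith [this.1]
      have h4 : 1 - 1 / (p : ℝ) ≤ Real.exp (-(1 / (p : ℝ))) := by
        have := Real.add_one_le_exp (-(1 / (p : ℝ)))
        linarith
      calc Real.exp (1 / (p : ℝ)) * (1 - 1 / (p : ℝ)) ≤ Real.exp (1 / (p : ℝ)) * Real.exp (-(1 / (p : ℝ))) := by gcongr
        _ = 1 := by rw [← Real.exp_add]; simp
  have hz0 := V1_pos z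
  rw [← e1]
  calc EE z x * (V1 z * ∏ p ∈ Pr z x, (1 - 1 / (p : ℝ))) = V1 z * (EE z x * ∏ p ∈ Pr z x, (1 - 1 / (p : ℝ))) := by ring
    _ ≤ V1 z * 1 := by gcongr
    _ = V1 z := mul_one _

/-- systems of residue classes -/
def Cls (κ : ℕ) (Z : ℕ → Finset ℕ) : Prop :=
  ∀ p : ℕ, p.Prime → (Z p).card ≤ κ ∧ (Z p).card < p ∧ ∀ c ∈ Z p, c < p

lemma VV_pos' {κ : ℕ} {Z : ℕ → Finset ℕ} (hZ : Cls κ Z) (a b : ℕ) : 0 < VV Z a b := by
  unfold VV
  apply prod_pos
  intro q hq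
  have hqp := Pr_prime hq
  rw [sub_pos, div_lt_one (by exact_mod_cast hqp.pos)]
  exact_mod_cast (hZ q hqp).2.1

/-- the sieve products at the levels `Y ^ (1/r)` and `X ^ (1/r)` -/
lemma VV_ratio (κ r : ℕ) (hr : 1 ≤ r) {θ : ℝ} (hθ : 0 < θ) : ∃ b : ℝ, 0 < b ∧ ∃ X₀ : ℕ, ∀ X : ℕ, X₀ ≤ X →
    ∀ Z : ℕ → Finset ℕ, Cls κ Z → ∀ Y : ℕ, (X : ℝ) ^ θ ≤ Y → Y ≤ X →
      VV Z 0 ⌊(Y : ℝ) ^ (1 / (r : ℝ))⌋₊ ≤ b * VV Z 0 ⌊(X : ℝ) ^ (1 / (r : ℝ))⌋₊ := by
  obtain ⟨c, C, hc, hC, hV⟩ := V1_bounds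
  obtain ⟨n0, h0⟩ := log_floor r hr
  have hr0 : (0 : ℝ) < r := by exact_mod_cast hr
  set K : ℝ := C / c * (2 / θ) with hK
  have hK0 : 0 < K := by positivity
  have ev : ∀ᶠ X : ℕ in atTop, ((2 * κ : ℕ) : ℝ) + 1 ≤ (X : ℝ) ^ (1 / (r : ℝ)) :=
    ((tendsto_rpow_atTop (show (0 : ℝ) < 1 / r by positivity)).comp tendsto_natCast_atTop_atTop).eventually
      (eventually_ge_atTop _)
  obtain ⟨n1, h1⟩ := eventually_atTop.1 ev
  have ev2 : ∀ᶠ X : ℕ in atTop, ((max (max n0 n1) 2 : ℕ) : ℝ) ≤ (X : ℝ) ^ θ :=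
    ((tendsto_rpow_atTop hθ).comp tendsto_natCast_atTop_atTop).eventually (eventually_ge_atTop _)
  obtain ⟨n2, h2⟩ := eventually_atTop.1 ev2
  refine ⟨K ^ (2 * κ), by positivity, max n2 2, fun X hX Z hZ Y hXY hYX => ?_⟩
  have hX2 : 2 ≤ X := (le_max_right _ _).trans hX
  have hYb : max (max n0 n1) 2 ≤ Y := by exact_mod_cast (h2 X ((le_max_left _ _).trans hX)).trans hXY
  have hY0 : n0 ≤ Y := ((le_max_left _ _).trans (le_max_left _ _)).trans hYb
  have hY1 : n1 ≤ Y := ((le_max_right _ _).trans (le_max_left _ _)).trans hYb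
  have hY2 : 2 ≤ Y := (le_max_right _ _).trans hYb
  have hXr : (1 : ℝ) ≤ X := by exact_mod_cast (by omega : 1 ≤ X)
  have hX0 : (0 : ℝ) < X := by linarith
  obtain ⟨hz2, hzl⟩ := h0 Y hY0
  set z := ⌊(Y : ℝ) ^ (1 / (r : ℝ))⌋₊ with hz
  set x := ⌊(X : ℝ) ^ (1 / (r : ℝ))⌋₊ with hx
  have hYXr : (Y : ℝ) ≤ X := by exact_mod_cast hYX
  have hzx : z ≤ x := by
    apply Nat.floor_le_floor
    exact Real.rpow_le_rpow (Nat.cast_nonneg _) hYXr (by positivity)
  have hz3 : 2 * κ ≤ z := by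
    have h2 := h1 Y hY1
    apply Nat.le_floor
    linarith
  have hlX : 0 < Real.log X := Real.log_pos (by exact_mod_cast (by omega : 1 < X))
  have hlz : 0 < Real.log z := Real.log_pos (by exact_mod_cast (by omega : 1 < z))
  have hlx : 0 < Real.log x := Real.log_pos (by exact_mod_cast (by omega : 1 < x))
  have hlY : θ * Real.log X ≤ Real.log Y := by
    have := Real.log_le_log (by positivity) hXY
    rwa [Real.log_rpow hX0] at this
  have hlx2 : Real.log x ≤ Real.log X / r := by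
    have h3 : (x : ℝ) ≤ (X : ℝ) ^ (1 / (r : ℝ)) := Nat.floor_le (by positivity)
    have h4 := Real.log_le_log (by exact_mod_cast (by omega : 0 < x)) h3
    rw [Real.log_rpow hX0] at h4
    calc Real.log x ≤ 1 / r * Real.log X := h4
      _ = _ := by ring
  have hE : EE z x ≤ K := by
    obtain ⟨v1, v2⟩ := hV z hz2
    obtain ⟨w1, w2⟩ := hV x (hz2.trans hzx)
    have e3 := EE_V1 hzx
    have e4 : EE z x * (c / Real.log x) ≤ C / Real.log z :=
      (mul_le_mul_of_nonneg_left w1 (by linarith [one_le_EE z x])).trans (e3.trans v2)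
    have e5 : EE z x ≤ C / Real.log z * (Real.log x / c) := by
      rw [mul_div_assoc', div_le_div_iff₀ hlx hlz] at e4
      rw [div_mul_div_comm, le_div_iff₀ (by positivity)]
      linarith
    refine e5.trans ?_
    have e6 : θ * Real.log X / (2 * r) ≤ Real.log z := by
      refine le_trans ?_ hzl
      gcongr
    calc C / Real.log z * (Real.log x / c) ≤ C / (θ * Real.log X / (2 * r)) * (Real.log X / r / c) := by gcongr
      _ = K := by rw [hK]; field_simp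
  have hVz : 1 / EE z x ^ (2 * κ) ≤ VV Z z x :=
    VV_ge hz3 (fun p hp => ⟨(hZ p (Pr_prime hp)).1, (hZ p (Pr_prime hp)).2.2⟩)
  have hEE := one_le_EE z x
  have h3 : 1 / K ^ (2 * κ) ≤ VV Z z x := by
    refine le_trans ?_ hVz
    apply one_div_le_one_div_of_le (by positivity)
    exact pow_le_pow_left₀ (by linarith) hE _
  have h4 : VV Z 0 z * VV Z z x = VV Z 0 x := VV_split _ (Nat.zero_le z) hzx
  have hV0 := (VV_pos' hZ 0 z).le
  rw [← h4]
  have h5 : 1 ≤ K ^ (2 * κ) * VV Z z x := by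
    rw [div_le_iff₀ (by positivity)] at h3
    linarith
  calc VV Z 0 z = VV Z 0 z * 1 := (mul_one _).symm
    _ ≤ VV Z 0 z * (K ^ (2 * κ) * VV Z z x) := mul_le_mul_of_nonneg_left h5 hV0
    _ = _ := by ring

/-- **Narrow progressions in arbitrary sifted sets**, uniformly in the classes -/
theorem narrowZ {k : ℕ} (hk : 1 ≤ k) (κ r : ℕ) (hr : 1 ≤ r) {θ ε : ℝ} (hθ : 0 < θ) (hε : 0 < ε) : ∃ B X₀ : ℕ,
    ∀ X : ℕ, X₀ ≤ X → ∀ Z : ℕ → Finset ℕ, Cls κ Z → ∀ u Y : ℕ, (X : ℝ) ^ θ ≤ Y → Y ≤ X →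
    ∀ S : Finset ℕ, S ⊆ Ioc u (u + Y) →
      (∀ n ∈ S, ∀ p : ℕ, p.Prime → (p : ℝ) ≤ (X : ℝ) ^ (1 / (r : ℝ)) → n % p ∉ Z p) →
      ((Iso k (Real.log X ^ B) S).card : ℝ) ≤ ε * (Y * VV Z 0 ⌊(X : ℝ) ^ (1 / (r : ℝ))⌋₊) := by
  have hr0 : (0 : ℝ) < r := by exact_mod_cast hr
  obtain ⟨b, hb, n1, h1⟩ := VV_ratio κ r hr hθ
  obtain ⟨B, n2, h2⟩ := fin_iso hk κ (κ := 1 / (r : ℝ)) (ε := ε / b) (by positivity) (by positivity)
  have ev2 : ∀ᶠ X : ℕ in atTop, ((max n2 2 : ℕ) : ℝ) ≤ (X : ℝ) ^ θ :=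
    ((tendsto_rpow_atTop hθ).comp tendsto_natCast_atTop_atTop).eventually (eventually_ge_atTop _)
  obtain ⟨n3, h3⟩ := eventually_atTop.1 ev2
  refine ⟨B, max n1 n3, fun X hX Z hZ u Y hXY hYX S hS hSZ => ?_⟩
  have hYb : max n2 2 ≤ Y := by exact_mod_cast (h3 X ((le_max_right _ _).trans hX)).trans hXY
  have hYXr : (Y : ℝ) ≤ X := by exact_mod_cast hYX
  have hlev : (Y : ℝ) ^ (1 / (r : ℝ)) ≤ (X : ℝ) ^ (1 / (r : ℝ)) :=
    Real.rpow_le_rpow (Nat.cast_nonneg _) hYXr (by positivity)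
  have h4 := h2 Y u ((le_max_left _ _).trans hYb) Z (fun p hp _ => hZ p hp) S hS
    (fun n hn p hp hpY => hSZ n hn p hp (hpY.trans hlev))
  have hY2 : 2 ≤ Y := (le_max_right _ _).trans hYb
  have hlY : 0 ≤ Real.log Y := Real.log_nonneg (by exact_mod_cast (by omega : 1 ≤ Y))
  have hlYX : Real.log Y ^ B ≤ Real.log X ^ B :=
    pow_le_pow_left₀ hlY (Real.log_le_log (by exact_mod_cast (by omega : 0 < Y)) hYXr) B
  have h5 : ((Iso k (Real.log X ^ B) S).card : ℝ) ≤ (Iso k (Real.log Y ^ B) S).card := by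
    exact_mod_cast card_le_card (Pool.Agent.Y843.HG.Iso_anti hlYX S)
  have h6 := h1 X ((le_max_left _ _).trans hX) Z hZ Y hXY hYX
  calc ((Iso k (Real.log X ^ B) S).card : ℝ) ≤ ε / b * Y * VV Z 0 ⌊(Y : ℝ) ^ (1 / (r : ℝ))⌋₊ := h5.trans h4.le
    _ ≤ ε / b * Y * (b * VV Z 0 ⌊(X : ℝ) ^ (1 / (r : ℝ))⌋₊) := by gcongr
    _ = _ := by field_simp

/-- the roots of `n ^ 2 + a` modulo `p` -/
def ZQ (a : ℤ) (p : ℕ) : Finset ℕ := (range p).filter (fun n : ℕ => (p : ℤ) ∣ (n : ℤ) ^ 2 + a)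

lemma ZQ_cls (a : ℤ) : Cls 2 (ZQ a) := by
  intro p hp
  have h2 : (ZQ a p).card ≤ 2 := by
    rcases (ZQ a p).eq_empty_or_nonempty with h0 | ⟨m, hm⟩
    · rw [h0]
      simp
    · have hsub : ZQ a p ⊆ {m, (p - m) % p} := by
        intro n hn
        unfold ZQ at hm hn
        rw [mem_filter, mem_range] at hm hn
        have h3 : (p : ℤ) ∣ ((n : ℤ) - m) * (n + m) := by
          have e : ((n : ℤ) - m) * (n + m) = (n ^ 2 + a) - (m ^ 2 + a) := by ring
          rw [e]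
          exact dvd_sub hn.2 hm.2
        rw [mem_insert, mem_singleton]
        rcases (Nat.prime_iff_prime_int.1 hp).dvd_or_dvd h3 with h4 | h4
        · left
          have h5 : (m : ℤ) ≡ n [ZMOD p] := Int.modEq_iff_dvd.2 h4
          have h6 : m ≡ n [MOD p] := (Int.natCast_modEq_iff).1 h5
          unfold Nat.ModEq at h6
          rw [Nat.mod_eq_of_lt hm.1, Nat.mod_eq_of_lt hn.1] at h6
          exact h6.symm
        · right
          have h5 : p ∣ n + m := by exact_mod_cast h4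
          have h6 : n ≡ p - m [MOD p] := by
            apply Nat.ModEq.add_right_cancel' m
            rw [Nat.sub_add_cancel hm.1.le]
            exact ((Nat.modEq_zero_iff_dvd).2 h5).trans ((Nat.modEq_zero_iff_dvd).2 dvd_rfl).symm
          unfold Nat.ModEq at h6
          rw [Nat.mod_eq_of_lt hn.1] at h6
          exact h6
      exact (card_le_card hsub).trans card_le_two
  refine ⟨h2, ?_, fun c hc => ?_⟩
  · rcases Nat.lt_or_ge 2 p with h3 | h3
    · omega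
    · have hp2 : p = 2 := le_antisymm h3 hp.two_le
      subst hp2
      -- not both classes
      by_contra hcon
      have h9 : 2 ≤ (ZQ a 2).card := not_lt.1 hcon
      have h4 : (ZQ a 2) = range 2 := by
        have hs : ZQ a 2 ⊆ range 2 := by
          unfold ZQ
          exact filter_subset _ _
        exact eq_of_subset_of_card_le hs (by rw [card_range]; exact h9)
      have h5 : 0 ∈ ZQ a 2 := by rw [h4]; simp
      have h6 : 1 ∈ ZQ a 2 := by rw [h4]; simp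
      unfold ZQ at h5 h6
      rw [mem_filter] at h5 h6
      have h7 := h5.2
      have h8 := h6.2
      push_cast at h7 h8
      omega
  · unfold ZQ at hc
    rw [mem_filter, mem_range] at hc
    exact hc.1

end Pool.Agent.Q25.GReg
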