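import Pool.Agent.Q25.GReg4

set_option autoImplicit false

/-! Narrow progressions in arbitrary sets of almost primes of a residue class, in short intervals, uniformly in the
modulus. -/

namespace Pool.Agent.Q25.GReg

open Finset Filter
open Pool.Agent.Y843.HS (Pr VV Pr_mem Pr_prime)
open Pool.Agent.Y843.HG (V1 V1_bounds V1_pos log_floor Iso InAP fac1)

/-- the `m` modulo `p` with `p ∣ q m + a` -/
def ZL (q : ℕ) (a : ℤ) (p : ℕ) : Finset ℕ := (range p).filter (fun m : ℕ => (p : ℤ) ∣ (q : ℤ) * m + a)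

/-- no prime divides `q` and `a` -/
def Cop (q : ℕ) (a : ℤ) : Prop := ∀ p : ℕ, p.Prime → p ∣ q → ¬ (p : ℤ) ∣ a

lemma ZL_div {q : ℕ} {a : ℤ} {p : ℕ} (hp : p.Prime) (hc : Cop q a) (h : p ∣ q) : ZL q a p = ∅ := by
  unfold ZL
  rw [filter_eq_empty_iff]
  intro m _ hm
  have h0 : (p : ℤ) ∣ q := by exact_mod_cast h
  exact hc p hp h ((dvd_add_right (h0.mul_right m)).1 hm)

lemma ZL_ndiv {q : ℕ} {a : ℤ} {p : ℕ} (hp : p.Prime) (h : ¬ p ∣ q) : (ZL q a p).card = 1 := by
  rw [card_eq_one]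
  have hne : NeZero p := ⟨hp.ne_zero⟩
  have : Fact p.Prime := ⟨hp⟩
  have hq0 : (q : ZMod p) ≠ 0 := by
    rw [Ne, ZMod.natCast_eq_zero_iff]
    exact h
  refine ⟨(-(a : ZMod p) / q).val, ?_⟩
  ext m
  unfold ZL
  rw [mem_filter, mem_range, mem_singleton]
  constructor
  · rintro ⟨h1, h2⟩
    have h3 : (q : ZMod p) * m + a = 0 := by
      have := (ZMod.intCast_zmod_eq_zero_iff_dvd ((q : ℤ) * m + a) p).2 h2
      push_cast at this
      exact this
    have h4 : (m : ZMod p) = -(a : ZMod p) / q := by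
      field_simp
      linear_combination h3
    rw [← h4, ZMod.val_natCast, Nat.mod_eq_of_lt h1]
  · rintro rfl
    refine ⟨ZMod.val_lt _, ?_⟩
    rw [← ZMod.intCast_zmod_eq_zero_iff_dvd]
    push_cast
    rw [ZMod.natCast_zmod_val]
    field_simp
    ring

lemma ZL_cls {q : ℕ} {a : ℤ} (hc : Cop q a) : Cls 1 (ZL q a) := by
  intro p hp
  refine ⟨?_, ?_, fun c hcc => ?_⟩
  · by_cases h : p ∣ q
    · rw [ZL_div hp hc h]; simp
    · rw [ZL_ndiv hp h]
  · by_cases h : p ∣ q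
    · rw [ZL_div hp hc h]; simpa using hp.pos
    · rw [ZL_ndiv hp h]; exact hp.one_lt
  · unfold ZL at hcc
    rw [mem_filter, mem_range] at hcc
    exact hcc.1

/-- the sieve product of a residue class -/
lemma VV_ZL {q : ℕ} {a : ℤ} (hq : 1 ≤ q) (hc : Cop q a) (z : ℕ) :
    VV (ZL q a) 0 z ≤ V1 z * (q / q.totient) := by
  have hφ : (0 : ℝ) < q.totient := by exact_mod_cast Nat.totient_pos.2 hq
  have hq0 : (0 : ℝ) < q := by exact_mod_cast hq
  rw [mul_div_assoc', le_div_iff₀ hφ]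
  have e1 : (q.totient : ℝ) = q * ∏ p ∈ q.primeFactors, (1 - (p : ℝ)⁻¹) := by
    have := Nat.totient_eq_mul_prod_factors q
    have h2 := congrArg (fun x : ℚ => (x : ℝ)) this
    simpa using h2
  rw [e1]
  have e2 : VV (ZL q a) 0 z * ∏ p ∈ (Pr 0 z).filter (fun p => p ∣ q), (1 - (p : ℝ)⁻¹) = V1 z := by
    unfold VV V1
    rw [prod_filter, ← prod_mul_distrib]
    apply prod_congr rfl
    intro p hp
    have hpp := Pr_prime hp
    by_cases h : p ∣ q
    · rw [if_pos h, ZL_div hpp hc h]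
      simp
    · rw [if_neg h, ZL_ndiv hpp h]
      simp
  have e3 : ∏ p ∈ q.primeFactors, (1 - (p : ℝ)⁻¹) ≤ ∏ p ∈ (Pr 0 z).filter (fun p => p ∣ q), (1 - (p : ℝ)⁻¹) := by
    have hsub : (Pr 0 z).filter (fun p => p ∣ q) ⊆ q.primeFactors := by
      intro p hp
      rw [mem_filter] at hp
      exact Nat.mem_primeFactors.2 ⟨Pr_prime hp.1, hp.2, by omega⟩
    have hf : ∀ p ∈ q.primeFactors, 0 ≤ 1 - (p : ℝ)⁻¹ ∧ 1 - (p : ℝ)⁻¹ ≤ 1 := by
      intro p hp
      have h9 := fac1 (Nat.prime_of_mem_primeFactors hp)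
      have e9 : (1 : ℝ) / (p : ℝ) = (p : ℝ)⁻¹ := one_div _
      rw [e9] at h9
      exact ⟨by linarith [h9.1], h9.2⟩
    rw [← prod_sdiff hsub]
    apply mul_le_of_le_one_left
    · exact prod_nonneg (fun p hp => (hf p (hsub hp)).1)
    · exact prod_le_one (fun p hp => (hf p (mem_sdiff.1 hp).1).1) (fun p hp => (hf p (mem_sdiff.1 hp).1).2)
  have hV := (VV_pos' (ZL_cls hc) 0 z).le
  calc VV (ZL q a) 0 z * (q * ∏ p ∈ q.primeFactors, (1 - (p : ℝ)⁻¹))
      = q * (VV (ZL q a) 0 z * ∏ p ∈ q.primeFactors, (1 - (p : ℝ)⁻¹)) := by ring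
    _ ≤ q * (VV (ZL q a) 0 z * ∏ p ∈ (Pr 0 z).filter (fun p => p ∣ q), (1 - (p : ℝ)⁻¹)) := by gcongr
    _ = _ := by rw [e2]; ring

open Classical in
/-- the elements of `A` in `(u, v]` that are on no `l`-term progression in `A ∩ (u, v]` with a difference `q d`, `d ≤ D` -/
noncomputable def Lone (A : Set ℕ) (l q : ℕ) (D : ℝ) (u v : ℕ) : Finset ℕ :=
  (Ioc u v).filter (fun n => n ∈ A ∧ ¬ ∃ m d : ℕ, 1 ≤ d ∧ (d : ℝ) ≤ D ∧
    (∀ i < l, m + i * (q * d) ∈ A ∧ u < m + i * (q * d) ∧ m + i * (q * d) ≤ v) ∧ ∃ i < l, n = m + i * (q * d))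

/-- **Narrow progressions in arbitrary sets of almost primes of a residue class** -/
theorem narrowAP {l : ℕ} (hl : 1 ≤ l) (r : ℕ) (hr : 1 ≤ r) {θ ε : ℝ} (hθ : 0 < θ) (hε : 0 < ε) : ∃ B X₀ : ℕ,
    ∀ x : ℕ, X₀ ≤ x → ∀ q a : ℕ, 1 ≤ q → a.Coprime q → ∀ u H : ℕ, q * (x : ℝ) ^ θ ≤ H → H ≤ x →
    ∀ A : Set ℕ, (∀ n ∈ A, n ≡ a [MOD q] ∧ ∀ p : ℕ, p.Prime → (p : ℝ) ≤ (x : ℝ) ^ (1 / (r : ℝ)) → ¬ p ∣ n) →
      ((Lone A l q (Real.log x ^ B) u (u + H)).card : ℝ) ≤ ε * (H / (q.totient * Real.log x)) := by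
  classical
  have hr0 : (0 : ℝ) < r := by exact_mod_cast hr
  obtain ⟨c, C, hc, hC, hV⟩ := V1_bounds
  obtain ⟨n0, h0⟩ := log_floor r hr
  obtain ⟨B, n1, h1⟩ := narrowZ hl 1 r hr (θ := θ / 2) (ε := ε / (4 * C * r)) (by positivity) (by positivity)
  have ev : ∀ᶠ x : ℕ in atTop, (2 : ℝ) ≤ (x : ℝ) ^ (θ / 2) :=
    ((tendsto_rpow_atTop (show (0 : ℝ) < θ / 2 by positivity)).comp tendsto_natCast_atTop_atTop).eventually
      (eventually_ge_atTop _)
  obtain ⟨n2, h2⟩ := eventually_atTop.1 ev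
  refine ⟨B, max (max n0 n1) (max n2 2), fun x hx q a hq hc' u H hHx hHx' A hA => ?_⟩
  have hx2 : 2 ≤ x := ((le_max_right _ _).trans (le_max_right _ _)).trans hx
  have hxr : (2 : ℝ) ≤ x := by exact_mod_cast hx2
  have hx0 : (0 : ℝ) < x := by linarith
  have hlx : 0 < Real.log x := Real.log_pos (by linarith)
  have hq0 : (0 : ℝ) < q := by exact_mod_cast hq
  have hφ : (0 : ℝ) < q.totient := by exact_mod_cast Nat.totient_pos.2 hq
  have hpow := h2 x (((le_max_left _ _).trans (le_max_right _ _)).trans hx)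
  set a0 := a % q with ha0
  have ha0q : a0 < q := Nat.mod_lt _ hq
  -- the class
  have hcop : Cop q ((a0 : ℤ) - q) := by
    intro p hp hpq hd
    have hpq' : (p : ℤ) ∣ q := by exact_mod_cast hpq
    have h3 : (p : ℤ) ∣ a0 := by
      have := dvd_add hd hpq'
      simpa using this
    have h4 : p ∣ a0 := by exact_mod_cast h3
    have h5 : p ∣ a := by
      rw [← Nat.div_add_mod a q]
      exact dvd_add (hpq.mul_right _) h4
    have h6 := Nat.dvd_gcd h5 hpq
    rw [hc'] at h6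
    exact hp.one_lt.ne' (Nat.dvd_one.1 h6)
  -- the interval
  set u' := (u + q - a0) / q with hu'
  set v' := (u + H + q - a0) / q with hv'
  have huv : u' ≤ v' := Nat.div_le_div_right (by omega)
  have hu1 : q * u' ≤ u + q - a0 := Nat.mul_div_le _ _
  have hu2 : u + q - a0 < q * (u' + 1) := by
    have := Nat.lt_mul_div_succ (u + q - a0) hq
    exact this
  have hv1 : q * v' ≤ u + H + q - a0 := Nat.mul_div_le _ _
  have hv2 : u + H + q - a0 < q * (v' + 1) := by
    have := Nat.lt_mul_div_succ (u + H + q - a0) hq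
    exact this
  obtain ⟨Y, hY⟩ := Nat.exists_eq_add_of_le huv
  have hYa : q * Y < H + q := by
    have e : q * v' = q * u' + q * Y := by rw [hY]; ring
    have e2 : q * (u' + 1) = q * u' + q := by ring
    omega
  have hYb : H < q * Y + q := by
    have e : q * v' = q * u' + q * Y := by rw [hY]; ring
    have e2 : q * (v' + 1) = q * v' + q := by ring
    omega
  have hYa' : (q : ℝ) * Y < H + q := by exact_mod_cast hYa
  have hYb' : (H : ℝ) < q * Y + q := by exact_mod_cast hYb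
  have hYx : Y ≤ x := by
    by_contra hcon
    have h3 : x + 1 ≤ Y := by omega
    have h4 : q * (x + 1) ≤ q * Y := Nat.mul_le_mul_left q h3
    have h5 : x ≤ q * x := Nat.le_mul_of_pos_left x hq
    have h6 : q * (x + 1) = q * x + q := by ring
    omega
  have hxθ : (x : ℝ) ^ θ = (x : ℝ) ^ (θ / 2) * (x : ℝ) ^ (θ / 2) := by
    rw [← Real.rpow_add hx0]
    congr 1
    ring
  have hYθ : (x : ℝ) ^ (θ / 2) ≤ Y := by
    have h3 : (q : ℝ) * ((x : ℝ) ^ θ - 1) < q * Y := by nlinarith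
    have h4 : (x : ℝ) ^ θ - 1 < Y := lt_of_mul_lt_mul_left h3 hq0.le
    nlinarith
  have hHq : (q : ℝ) ≤ H := by
    have h3 : (1 : ℝ) ≤ (x : ℝ) ^ θ := by rw [hxθ]; nlinarith
    nlinarith
  -- the set
  set S : Finset ℕ := ((Ioc u (u + H)).filter (fun n => n ∈ A)).image (fun n => n / q + 1) with hS
  have hmod : ∀ n ∈ A, q * (n / q) + a0 = n := by
    intro n hn
    have h3 : n % q = a0 := (hA n hn).1
    rw [← h3]
    exact Nat.div_add_mod n q
  have hSm : ∀ m ∈ S, ∃ n, n ∈ A ∧ u < n ∧ n ≤ u + H ∧ n + q = q * m + a0 := by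
    intro m hm
    rw [hS, mem_image] at hm
    obtain ⟨n, hn, rfl⟩ := hm
    rw [mem_filter, mem_Ioc] at hn
    refine ⟨n, hn.2, hn.1.1, hn.1.2, ?_⟩
    have := hmod n hn.2
    nlinarith
  have hSsub : S ⊆ Ioc u' (u' + Y) := by
    intro m hm
    obtain ⟨n, hn, hn1, hn2, hn3⟩ := hSm m hm
    rw [mem_Ioc, ← hY]
    constructor
    · rw [hu', Nat.div_lt_iff_lt_mul hq, mul_comm]
      omega
    · rw [hv', Nat.le_div_iff_mul_le hq, mul_comm]
      omega
  have hsieve : ∀ m ∈ S, ∀ p : ℕ, p.Prime → (p : ℝ) ≤ (x : ℝ) ^ (1 / (r : ℝ)) → m % p ∉ ZL q ((a0 : ℤ) - q) p := by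
    intro m hm p hp hpx hcon
    obtain ⟨n, hn, hn1, hn2, hn3⟩ := hSm m hm
    unfold ZL at hcon
    rw [mem_filter] at hcon
    apply (hA n hn).2 p hp hpx
    have h3 : ((m % p : ℕ) : ℤ) ≡ m [ZMOD p] := by
      rw [Int.natCast_mod]
      exact Int.mod_modEq _ _
    have h4 : (q : ℤ) * ((m % p : ℕ) : ℤ) + ((a0 : ℤ) - q) ≡ q * m + ((a0 : ℤ) - q) [ZMOD p] :=
      (h3.mul_left _).add_right _
    have h5 := h4.dvd_iff.1 hcon.2
    have h6 : (q : ℤ) * m + ((a0 : ℤ) - q) = n := by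
      have : ((n : ℤ) + q) = q * m + a0 := by exact_mod_cast hn3
      linarith
    rw [h6] at h5
    exact_mod_cast h5
  have h3 := h1 x (((le_max_right _ _).trans (le_max_left _ _)).trans hx) _ (ZL_cls hcop) u' Y hYθ hYx S hSsub hsieve
  -- the exceptional elements
  have h4 : (Lone A l q (Real.log x ^ B) u (u + H)).card ≤ (Iso l (Real.log x ^ B) S).card := by
    apply card_le_card_of_injOn (fun n => n / q + 1)
    · intro n hn
      rw [mem_coe] at hn
      unfold Lone at hn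
      rw [mem_filter, mem_Ioc] at hn
      obtain ⟨⟨g1, g2⟩, g3, g4⟩ := hn
      rw [mem_coe]
      unfold Iso
      rw [mem_filter]
      refine ⟨?_, fun hcon => g4 ?_⟩
      · rw [hS, mem_image]
        exact ⟨n, mem_filter.2 ⟨mem_Ioc.2 ⟨g1, g2⟩, g3⟩, rfl⟩
      · obtain ⟨m, d, e1, e2, e3, i0, e4, e5⟩ := hcon
        have e6 : ∀ i < l, ∃ n', n' ∈ A ∧ u < n' ∧ n' ≤ u + H ∧ n' + q = q * (m + i * d) + a0 :=
          fun i hi => hSm _ (e3 i hi)
        have hm1 : q ≤ q * m + a0 := by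
          obtain ⟨n', _, _, _, w⟩ := e6 0 (by omega)
          simp only [zero_mul, add_zero] at w
          omega
        have hval : ∀ i, q * m + a0 - q + i * (q * d) + q = q * (m + i * d) + a0 := by
          intro i
          have : q * (m + i * d) = q * m + i * (q * d) := by ring
          omega
        refine ⟨q * m + a0 - q, d, e1, e2, fun i hi => ?_, i0, e4, ?_⟩
        · obtain ⟨n', w1, w2, w3, w4⟩ := e6 i hi
          have : n' = q * m + a0 - q + i * (q * d) := by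
            have := hval i
            omega
          rw [← this]
          exact ⟨w1, w2, w3⟩
        · have w1 := hmod n g3
          have w2 := hval i0
          have w3 : q * (n / q + 1) = q * (n / q) + q := by ring
          rw [← e5, w3] at w2
          omega
    · intro n hn n' hn' hnn
      rw [mem_coe] at hn hn'
      unfold Lone at hn hn'
      rw [mem_filter] at hn hn'
      have w1 := hmod n hn.2.1
      have w2 := hmod n' hn'.2.1
      have w3 : n / q = n' / q := by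
        simpa using hnn
      rw [w3] at w1
      omega
  have h5 : VV (ZL q ((a0 : ℤ) - q)) 0 ⌊(x : ℝ) ^ (1 / (r : ℝ))⌋₊ ≤ 2 * C * r / Real.log x * (q / q.totient) := by
    refine (VV_ZL hq hcop _).trans ?_
    obtain ⟨w1, w2⟩ := h0 x (((le_max_left _ _).trans (le_max_left _ _)).trans hx)
    have w3 := (hV _ w1).2
    have w4 : C / Real.log (⌊(x : ℝ) ^ (1 / (r : ℝ))⌋₊ : ℕ) ≤ C / (Real.log x / (2 * r)) := by
      gcongr
    have w5 : C / (Real.log x / (2 * r)) = 2 * C * r / Real.log x := by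
      field_simp
    have w6 := w3.trans (w4.trans_eq w5)
    gcongr
  have h6 : (Y : ℝ) ≤ 2 * H / q := by
    rw [le_div_iff₀ hq0]
    linarith
  have hVV := (VV_pos' (ZL_cls hcop) 0 ⌊(x : ℝ) ^ (1 / (r : ℝ))⌋₊).le
  calc ((Lone A l q (Real.log x ^ B) u (u + H)).card : ℝ) ≤ (Iso l (Real.log x ^ B) S).card := by exact_mod_cast h4
    _ ≤ ε / (4 * C * r) * (Y * VV (ZL q ((a0 : ℤ) - q)) 0 ⌊(x : ℝ) ^ (1 / (r : ℝ))⌋₊) := h3
    _ ≤ ε / (4 * C * r) * (2 * H / q * (2 * C * r / Real.log x * (q / q.totient))) := by gcongr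
    _ = _ := by field_simp; ring

end Pool.Agent.Q25.GReg
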