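import Pool.Agent.Q25.UReg6
import Pool.Agent.Y879.GL.QuadU

set_option autoImplicit false

/-!
# The density when one of the polynomials has a root modulo every prime
-/

namespace Pool.Agent.Q25.UReg

open Polynomial Finset Filter
open Pool.Agent.Y879.GL

/-- systems with a root modulo every prime -/
lemma root_small (r : ℕ) (hr : 2 ≤ r) : ∃ M : ℝ, 0 < M ∧ ∀ᶠ X : ℕ in atTop, ∀ (k D : ℕ) (H : ℝ) (f : Fin k → ℤ[X]),
    Sys D H f → (∀ p : ℕ, p.Prime → ∃ m : ℕ, m < p ∧ ∃ i, (p : ℤ) ∣ (f i).eval (m : ℤ)) →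
      SmallDensity f r X M := by
  classical
  obtain ⟨M, hM, h⟩ := Vz_up r hr
  refine ⟨M, hM, ?_⟩
  filter_upwards [h] with X hX k D H f hf hroot
  refine Or.inl (le_trans ?_ hX.2)
  have hUS : US k D H 0 f := hf.us (noTr_zero f)
  have hadm := us_adm hUS
  rw [VP_eq]
  unfold Pool.Agent.W123.RP.Vq Pool.Agent.H373R2.T7.Vz
  apply Finset.prod_le_prod
  · intro p hp
    unfold Pool.Agent.H373R2.T7.pz at hp
    have hpp := (mem_filter.1 hp).2
    have h1 := hadm p hpp
    have hp0 : (0 : ℝ) < p := by exact_mod_cast hpp.pos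
    rw [sub_nonneg, div_le_one hp0]
    exact_mod_cast h1.le
  · intro p hp
    unfold Pool.Agent.H373R2.T7.pz at hp
    have hpp := (mem_filter.1 hp).2
    have hp0 : (0 : ℝ) < p := by exact_mod_cast hpp.pos
    have h1 : 1 ≤ Pool.Agent.H373R2.T7.nuB (Pool.Agent.W123.RU.Poly.Q f) p := by
      obtain ⟨m, hm, i, hi⟩ := hroot p hpp
      unfold Pool.Agent.H373R2.T7.nuB
      exact card_pos.2 ⟨m, mem_filter.2 ⟨mem_range.2 hm, i, hi⟩⟩
    have h2 : (1 : ℝ) / p ≤ (Pool.Agent.H373R2.T7.nuB (Pool.Agent.W123.RU.Poly.Q f) p : ℝ) / p :=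
      div_le_div_of_nonneg_right (by exact_mod_cast h1) hp0.le
    linarith

/-- an equality of polynomials up to sign is impossible for different degrees -/
lemma ne_of_deg {f g : ℤ[X]} (t : ℤ) (h : f.natDegree ≠ g.natDegree) :
    f ≠ g.comp (X + C t) ∧ f ≠ -g.comp (X + C t) := by
  have e : (g.comp (X + C t)).natDegree = g.natDegree := by
    rw [natDegree_comp, natDegree_X_add_C, mul_one]
  constructor
  · intro h1
    exact h (by rw [h1, e])
  · intro h1
    exact h (by rw [h1, natDegree_neg, e])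

/-- a nonconstant polynomial is not its own translate -/
lemma ne_self {f : ℤ[X]} (hf : f.natDegree ≠ 0) (t : ℤ) (ht : t ≠ 0) :
    f ≠ f.comp (X + C t) ∧ f ≠ -f.comp (X + C t) := by
  have h1 := no_self f hf t ht
  constructor
  · intro h
    exact h1 (by nth_rewrite 1 [h]; exact Associated.refl _)
  · intro h
    apply h1
    nth_rewrite 1 [h]
    exact (Associated.refl _).neg_left

end Pool.Agent.Q25.UReg
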