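import Pool.Agent.Q25.GReg5
import Pool.Agent.Q25.UReg7

set_option autoImplicit false

/-! The form `q m + a` as a system of one polynomial. -/

namespace Pool.Agent.Q25.GReg

open Finset Filter Polynomial
open Pool.Agent.Y843.HS (Pr VV Pr_mem Pr_prime)
open Pool.Agent.Y843.HG (V1 V1_bounds V1_pos log_floor fac1)
open Pool.Agent.Q25.UReg (Sys GoodP VP SmallDensity NoTr)

/-- the system consisting of `q X + a` -/
noncomputable def fL (q a : ℕ) : Fin 1 → ℤ[X] := fun _ => C (q : ℤ) * X + C (a : ℤ)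

lemma fL_eval (q a : ℕ) (i : Fin 1) (m : ℤ) : (fL q a i).eval m = q * m + a := by
  unfold fL
  simp

lemma fL_deg {q : ℕ} (a : ℕ) (hq : 1 ≤ q) (i : Fin 1) : (fL q a i).natDegree = 1 := by
  unfold fL
  exact natDegree_linear (by exact_mod_cast (by omega : q ≠ 0))

lemma cop_of {q a : ℕ} (hc : a.Coprime q) : Cop q a := by
  intro p hp hpq hd
  have h1 : p ∣ a := by exact_mod_cast hd
  have h6 := Nat.dvd_gcd h1 hpq
  rw [hc] at h6
  exact hp.one_lt.ne' (Nat.dvd_one.1 h6)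

lemma fL_sys {q a : ℕ} (hq : 1 ≤ q) (hc : a.Coprime q) {H : ℝ} (h1 : (q : ℝ) ≤ H) (h2 : (a : ℝ) ≤ H) :
    Sys 1 H (fL q a) where
  irr i := by
    have hprim : (C (q : ℤ) * X + C (a : ℤ)).IsPrimitive := by
      intro r hr
      rw [C_dvd_iff_dvd_coeff] at hr
      have e1 : r ∣ (q : ℤ) := by
        have := hr 1
        simpa using this
      have e0 : r ∣ (a : ℤ) := by
        have := hr 0
        simpa using this
      have hcz : IsCoprime (a : ℤ) (q : ℤ) := Nat.isCoprime_iff_coprime.2 hc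
      exact hcz.isUnit_of_dvd' e0 e1
    unfold fL
    rw [hprim.irreducible_iff_irreducible_map_fraction_map (K := ℚ)]
    apply irreducible_of_degree_eq_one
    have hne : ((q : ℤ) : ℚ) ≠ 0 := by exact_mod_cast (by omega : q ≠ 0)
    have : ((C (q : ℤ) * X + C (a : ℤ)).map (algebraMap ℤ ℚ)) = C ((q : ℤ) : ℚ) * X + C ((a : ℤ) : ℚ) := by simp
    rw [this]
    exact degree_linear hne
  deg i := (fL_deg a hq i).ge
  degD i := (fL_deg a hq i).le
  hgt i n := by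
    have hq0 : (0 : ℝ) ≤ q := Nat.cast_nonneg q
    have ha0 : (0 : ℝ) ≤ a := Nat.cast_nonneg a
    unfold fL
    rw [coeff_add, coeff_C_mul, coeff_X, coeff_C]
    rcases Nat.eq_zero_or_pos n with rfl | hn
    · simpa using h2
    · rcases Nat.eq_or_lt_of_le hn with h | h
      · subst h
        simpa using h1
      · rw [if_neg (by omega), if_neg (by omega)]
        simp
        linarith
  adm p hp := by
    by_cases hpq : p ∣ q
    · refine ⟨0, fun i h => ?_⟩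
      rw [fL_eval] at h
      simp only [mul_zero, zero_add] at h
      exact cop_of hc p hp hpq h
    · by_contra hcon
      push Not at hcon
      obtain ⟨_, h0⟩ := hcon 0
      obtain ⟨_, h1⟩ := hcon 1
      rw [fL_eval] at h0 h1
      apply hpq
      have h2 := dvd_sub h1 h0
      have e : ((q : ℤ) * 1 + a) - (q * 0 + a) = q := by ring
      rw [e] at h2
      exact_mod_cast h2

lemma fL_noTr {q : ℕ} (a : ℕ) (hq : 1 ≤ q) (U : ℝ) : NoTr (fL q a) U := by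
  intro i j t ht _
  have hij : fL q a j = fL q a i := rfl
  rw [hij]
  exact Pool.Agent.Q25.UReg.ne_self (by rw [fL_deg a hq i]; exact one_ne_zero) t (by omega)

/-- the density of the integers `≡ a mod q` without prime factor `≤ X ^ (1/r)` among the integers `≡ a mod q` -/
noncomputable def VL (q r X : ℕ) : ℝ :=
  ∏ p ∈ (Icc 1 ⌊(X : ℝ) ^ (1 / (r : ℝ))⌋₊).filter (fun p => p.Prime ∧ ¬ p ∣ q), (1 - 1 / (p : ℝ))

lemma VP_fL {q a : ℕ} (hc : a.Coprime q) (r X : ℕ) : VP (fL q a) r X = VL q r X := by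
  classical
  unfold VP VL
  have e : (Icc 1 ⌊(X : ℝ) ^ (1 / (r : ℝ))⌋₊).filter (fun p => p.Prime ∧ ¬ p ∣ q) =
      ((Icc 1 ⌊(X : ℝ) ^ (1 / (r : ℝ))⌋₊).filter Nat.Prime).filter (fun p => ¬ p ∣ q) := by
    rw [filter_filter]
  rw [e, prod_filter (fun p => ¬ p ∣ q)]
  apply prod_congr rfl
  intro p hp
  have hpp := (mem_filter.1 hp).2
  have e2 : (range p).filter (fun m : ℕ => ∃ i, (p : ℤ) ∣ (fL q a i).eval (m : ℤ)) = ZL q a p := by
    unfold ZL
    apply filter_congr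
    intro m _
    simp only [fL_eval]
    exact ⟨fun ⟨_, h⟩ => h, fun h => ⟨0, h⟩⟩
  rw [e2]
  by_cases h : p ∣ q
  · rw [if_neg (by simpa using h), ZL_div hpp (cop_of hc) h]
    simp
  · rw [if_pos h, ZL_ndiv hpp h]
    simp

lemma VL_eq_VV {q a : ℕ} (hc : a.Coprime q) (r X : ℕ) :
    VL q r X = VV (ZL q a) 0 ⌊(X : ℝ) ^ (1 / (r : ℝ))⌋₊ := by
  classical
  unfold VL VV
  have e : (Icc 1 ⌊(X : ℝ) ^ (1 / (r : ℝ))⌋₊).filter (fun p => p.Prime ∧ ¬ p ∣ q) =
      (Pr 0 ⌊(X : ℝ) ^ (1 / (r : ℝ))⌋₊).filter (fun p => ¬ p ∣ q) := by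
    ext p
    rw [mem_filter, mem_filter, Pr_mem, mem_Icc]
    constructor
    · rintro ⟨⟨a, b⟩, c, d⟩
      exact ⟨⟨⟨c.pos, b⟩, c⟩, d⟩
    · rintro ⟨⟨⟨a, b⟩, c⟩, d⟩
      exact ⟨⟨c.pos, b⟩, c, d⟩
  rw [e, prod_filter (fun p => ¬ p ∣ q)]
  apply prod_congr rfl
  intro p hp
  have hpp := Pr_prime hp
  by_cases h : p ∣ q
  · rw [if_neg (by simpa using h), ZL_div hpp (cop_of hc) h]
    simp
  · rw [if_pos h, ZL_ndiv hpp h]
    simp

lemma VL_small (r : ℕ) (hr : 1 ≤ r) (K : ℝ) : ∃ M : ℝ, ∃ X₀ : ℕ, ∀ X : ℕ, X₀ ≤ X → ∀ q a : ℕ, 1 ≤ q → a.Coprime q →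
    (q : ℝ) ≤ K * q.totient → SmallDensity (fL q a) r X M := by
  obtain ⟨c, C, hc, hC, hV⟩ := V1_bounds
  obtain ⟨n0, h0⟩ := log_floor r hr
  have hr0 : (0 : ℝ) < r := by exact_mod_cast hr
  refine ⟨2 * C * r * K, max n0 2, fun X hX q a hq hc' hK => Or.inl ?_⟩
  have hX2 : 2 ≤ X := (le_max_right _ _).trans hX
  have hlx : 0 < Real.log X := Real.log_pos (by exact_mod_cast (by omega : 1 < X))
  have hφ : (0 : ℝ) < q.totient := by exact_mod_cast Nat.totient_pos.2 hq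
  rw [VP_fL hc', VL_eq_VV hc']
  refine (VV_ZL hq (cop_of hc') _).trans ?_
  obtain ⟨w1, w2⟩ := h0 X ((le_max_left _ _).trans hX)
  have w3 := (hV _ w1).2
  have w4 : C / Real.log (⌊(X : ℝ) ^ (1 / (r : ℝ))⌋₊ : ℕ) ≤ C / (Real.log X / (2 * r)) := by gcongr
  have w5 : C / (Real.log X / (2 * r)) = 2 * C * r / Real.log X := by field_simp
  have w6 := w3.trans (w4.trans_eq w5)
  have w7 : (q : ℝ) / q.totient ≤ K := by rwa [div_le_iff₀ hφ]
  calc V1 ⌊(X : ℝ) ^ (1 / (r : ℝ))⌋₊ * (q / q.totient) ≤ 2 * C * r / Real.log X * K := by gcongr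
    _ = _ := by ring

end Pool.Agent.Q25.GReg
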