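import Pool.Agent.Q25.GReg6
import Pool.Agent.TH464.PW.Quad
import Pool.Agent.W123.RU.PolyV

set_option autoImplicit false

/-! The polynomials `(q m + b) ^ 2 + 1`. -/

namespace Pool.Agent.Q25.GReg

open Finset Filter Polynomial
open Pool.Agent.Y843.HG (log_floor fac1)
open Pool.Agent.Q25.UReg (Sys GoodP VP SmallDensity NoTr VP_eq)
open Pool.Agent.TH464.PW (quad quad_irr quad_deg quad_eval quad_lead)

/-- the system consisting of `(q X + b) ^ 2 + 1` -/
noncomputable def fS (q b : ℕ) : Fin 1 → ℤ[X] := fun _ => quad ((q : ℤ) ^ 2) (2 * q * b) ((b : ℤ) ^ 2 + 1)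

lemma fS_eval (q b : ℕ) (i : Fin 1) (m : ℤ) : (fS q b i).eval m = (q * m + b) ^ 2 + 1 := by
  unfold fS
  rw [quad_eval]
  ring

lemma fS_deg {q : ℕ} (b : ℕ) (hq : 1 ≤ q) (i : Fin 1) : (fS q b i).natDegree = 2 := by
  unfold fS
  exact quad_deg _ _ _ (by positivity)

lemma fS_irr {q b : ℕ} (hq : 1 ≤ q) (hc : (b ^ 2 + 1).Coprime q) (i : Fin 1) : Irreducible (fS q b i) := by
  unfold fS
  apply quad_irr _ _ _ (by positivity)
  · rintro p hp ⟨h1, _, h3⟩
    have h4 : p ∣ q := by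
      have : (p : ℤ) ∣ q := (Nat.prime_iff_prime_int.1 hp).dvd_of_dvd_pow h1
      exact_mod_cast this
    have h5 : p ∣ b ^ 2 + 1 := by exact_mod_cast h3
    have h6 := Nat.dvd_gcd h5 h4
    rw [hc] at h6
    exact hp.one_lt.ne' (Nat.dvd_one.1 h6)
  · intro h
    have h1 := h.nonneg
    have hq0 : (1 : ℤ) ≤ q := by exact_mod_cast hq
    nlinarith

lemma fS_sys {q b : ℕ} (hq : 1 ≤ q) (hc : (b ^ 2 + 1).Coprime q) {H : ℝ} (hH : ((q : ℝ) + b + 1) ^ 2 ≤ H) :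
    Sys 2 H (fS q b) where
  irr := fS_irr hq hc
  deg i := by rw [fS_deg b hq i]; norm_num
  degD i := (fS_deg b hq i).le
  hgt i n := by
    have hq0 : (0 : ℤ) ≤ q := Int.natCast_nonneg q
    have hb0 : (0 : ℤ) ≤ b := Int.natCast_nonneg b
    have h1 := Pool.Agent.Y879.GL.quad_coeff ((q : ℤ) ^ 2) (2 * q * b) ((b : ℤ) ^ 2 + 1) n (((q : ℤ) + b + 1) ^ 2)
      (by rw [abs_of_nonneg (by positivity)]; nlinarith) (by rw [abs_of_nonneg (by positivity)]; nlinarith)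
      (by rw [abs_of_nonneg (by positivity)]; nlinarith)
    have h2 : |((((fS q b i).coeff n : ℤ)) : ℝ)| ≤ ((((q : ℤ) + b + 1) ^ 2 : ℤ) : ℝ) := by
      unfold fS
      exact_mod_cast h1
    refine h2.trans ?_
    push_cast
    exact hH
  adm p hp := by
    by_cases hpq : p ∣ q
    · refine ⟨0, fun i h => ?_⟩
      rw [fS_eval] at h
      simp only [mul_zero, zero_add] at h
      have h5 : p ∣ b ^ 2 + 1 := by exact_mod_cast h
      have h6 := Nat.dvd_gcd h5 hpq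
      rw [hc] at h6
      exact hp.one_lt.ne' (Nat.dvd_one.1 h6)
    · obtain ⟨m, hm⟩ := card_eq_one.1 (ZL_ndiv (a := (b : ℤ)) hp hpq)
      have hm1 : m ∈ ZL q b p := by rw [hm]; simp
      unfold ZL at hm1
      rw [mem_filter] at hm1
      refine ⟨m, fun i h => ?_⟩
      rw [fS_eval] at h
      have h7 : (p : ℤ) ∣ 1 := (dvd_add_right (dvd_pow hm1.2 two_ne_zero)).1 h
      exact hp.one_lt.ne' (Nat.dvd_one.1 (by exact_mod_cast h7))

lemma fS_noTr {q : ℕ} (b : ℕ) (hq : 1 ≤ q) (U : ℝ) : NoTr (fS q b) U := by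
  intro i j t ht _
  have hij : fS q b j = fS q b i := rfl
  rw [hij]
  exact Pool.Agent.Q25.UReg.ne_self (by rw [fS_deg b hq i]; exact two_ne_zero) t (by omega)

/-- the number of the `n` modulo `p` with `p ∣ n ^ 2 + 1` -/
def nuS (p : ℕ) : ℕ := ((range p).filter (fun n => p ∣ n ^ 2 + 1)).card

/-- the density of the `n ≡ b mod q` for which `n ^ 2 + 1` has no prime factor `≤ X ^ (1/r)` -/
noncomputable def VS (q r X : ℕ) : ℝ :=
  ∏ p ∈ (Icc 1 ⌊(X : ℝ) ^ (1 / (r : ℝ))⌋₊).filter (fun p => p.Prime ∧ ¬ p ∣ q), (1 - (nuS p : ℝ) / p)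

lemma nu_ndiv {q b p : ℕ} (hp : p.Prime) (h : ¬ p ∣ q) :
    ((range p).filter (fun m : ℕ => (p : ℤ) ∣ ((q : ℤ) * m + b) ^ 2 + 1)).card = nuS p := by
  unfold nuS
  have hqp : Nat.Coprime p q := (Nat.Prime.coprime_iff_not_dvd hp).2 h
  have key : ∀ m : ℕ, (p : ℤ) ∣ ((q : ℤ) * m + b) ^ 2 + 1 ↔ p ∣ ((q * m + b) % p) ^ 2 + 1 := by
    intro m
    have h1 : (p : ℤ) ∣ ((q : ℤ) * m + b) ^ 2 + 1 ↔ p ∣ (q * m + b) ^ 2 + 1 := by
      constructor
      · intro h; exact_mod_cast h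
      · intro h; exact_mod_cast h
    rw [h1]
    have h2 : ((q * m + b) % p) ^ 2 + 1 ≡ (q * m + b) ^ 2 + 1 [MOD p] := ((Nat.mod_modEq _ _).pow 2).add_right 1
    exact (h2.dvd_iff dvd_rfl).symm
  apply card_bij (fun m _ => (q * m + b) % p)
  · intro m hm
    rw [mem_filter, mem_range] at hm ⊢
    exact ⟨Nat.mod_lt _ hp.pos, (key m).1 hm.2⟩
  · intro m hm m' hm' he
    rw [mem_filter, mem_range] at hm hm'
    have h1 : q * m + b ≡ q * m' + b [MOD p] := he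
    have h2 : q * m ≡ q * m' [MOD p] := Nat.ModEq.add_right_cancel' b h1
    have h3 : m ≡ m' [MOD p] := Nat.ModEq.cancel_left_of_coprime hqp h2
    unfold Nat.ModEq at h3
    rwa [Nat.mod_eq_of_lt hm.1, Nat.mod_eq_of_lt hm'.1] at h3
  · intro n hn
    rw [mem_filter, mem_range] at hn
    obtain ⟨m, hm⟩ := card_eq_one.1 (ZL_ndiv (q := q) (a := (b : ℤ) - n) hp h)
    have hm1 : m ∈ ZL q ((b : ℤ) - n) p := by rw [hm]; simp
    unfold ZL at hm1
    rw [mem_filter, mem_range] at hm1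
    have h4 : (q * m + b) % p = n := by
      have h5 : (n : ℤ) ≡ ((q * m + b : ℕ) : ℤ) [ZMOD p] := by
        rw [Int.modEq_iff_dvd]
        have e : ((q * m + b : ℕ) : ℤ) - n = q * m + (b - n) := by push_cast; ring
        rw [e]
        exact hm1.2
      have h6 : n ≡ q * m + b [MOD p] := (Int.natCast_modEq_iff).1 h5
      unfold Nat.ModEq at h6
      rw [Nat.mod_eq_of_lt hn.1] at h6
      exact h6.symm
    refine ⟨m, ?_, h4⟩
    rw [mem_filter, mem_range]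
    refine ⟨hm1.1, (key m).2 ?_⟩
    rw [h4]
    exact hn.2

lemma nu_div {q b p : ℕ} (hp : p.Prime) (hc : (b ^ 2 + 1).Coprime q) (h : p ∣ q) :
    (range p).filter (fun m : ℕ => (p : ℤ) ∣ ((q : ℤ) * m + b) ^ 2 + 1) = ∅ := by
  rw [filter_eq_empty_iff]
  intro m _ hm
  have h1 : p ∣ (q * m + b) ^ 2 + 1 := by exact_mod_cast hm
  have h2 : (q * m + b) ^ 2 + 1 ≡ b ^ 2 + 1 [MOD p] := by
    apply Nat.ModEq.add_right
    apply Nat.ModEq.pow
    have : q * m ≡ 0 [MOD p] := (Nat.modEq_zero_iff_dvd).2 (h.mul_right m)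
    simpa using this.add_right b
  have h5 : p ∣ b ^ 2 + 1 := (h2.dvd_iff dvd_rfl).1 h1
  have h6 := Nat.dvd_gcd h5 h
  rw [hc] at h6
  exact hp.one_lt.ne' (Nat.dvd_one.1 h6)

lemma VP_fS {q b : ℕ} (hc : (b ^ 2 + 1).Coprime q) (r X : ℕ) : VP (fS q b) r X = VS q r X := by
  classical
  unfold VP VS
  have e : (Icc 1 ⌊(X : ℝ) ^ (1 / (r : ℝ))⌋₊).filter (fun p => p.Prime ∧ ¬ p ∣ q) =
      ((Icc 1 ⌊(X : ℝ) ^ (1 / (r : ℝ))⌋₊).filter Nat.Prime).filter (fun p => ¬ p ∣ q) := by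
    rw [filter_filter]
  rw [e, prod_filter (fun p => ¬ p ∣ q)]
  apply prod_congr rfl
  intro p hp
  have hpp := (mem_filter.1 hp).2
  have e2 : (range p).filter (fun m : ℕ => ∃ i, (p : ℤ) ∣ (fS q b i).eval (m : ℤ)) =
      (range p).filter (fun m : ℕ => (p : ℤ) ∣ ((q : ℤ) * m + b) ^ 2 + 1) := by
    apply filter_congr
    intro m _
    simp only [fS_eval]
    exact ⟨fun ⟨_, h⟩ => h, fun h => ⟨0, h⟩⟩
  rw [e2]
  by_cases h : p ∣ q
  · rw [if_neg (by simpa using h), nu_div hpp hc h]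
    simp
  · rw [if_pos h, nu_ndiv hpp h]

/-- `1 - ν(p) / p ≥ (1 - 1 / p) ^ 3` -/
lemma nu_low {p : ℕ} (hp : p.Prime) : (1 - (p : ℝ)⁻¹) ^ 3 ≤ 1 - (nuS p : ℝ) / p ∧ 1 - (nuS p : ℝ) / p ≤ 1 := by
  have hp0 : (0 : ℝ) < p := by exact_mod_cast hp.pos
  refine ⟨?_, by have : 0 ≤ (nuS p : ℝ) / p := by positivity
                 linarith⟩
  have h2 : nuS p ≤ 2 ∧ (p = 2 → nuS p ≤ 1) := by
    have h3 := ZQ_cls 1 p hp
    have e : (ZQ 1 p).card = nuS p := by
      unfold ZQ nuS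
      congr 1
      apply filter_congr
      intro n _
      constructor
      · intro h; exact_mod_cast h
      · intro h; exact_mod_cast h
    rw [e] at h3
    refine ⟨h3.1, fun h => ?_⟩
    have := h3.2.1
    omega
  rcases hp.eq_two_or_odd with h | h
  · have h4 : (nuS p : ℝ) ≤ 1 := by exact_mod_cast h2.2 h
    subst h
    have h5 : (nuS 2 : ℝ) / ((2 : ℕ) : ℝ) ≤ 1 / 2 := by
      push_cast
      linarith
    have h6 : (1 - (((2 : ℕ) : ℝ))⁻¹) ^ 3 ≤ 1 / 2 := by norm_num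
    linarith
  · have h3 : (3 : ℝ) ≤ p := by
      have := hp.two_le
      exact_mod_cast (by omega : 3 ≤ p)
    have h4 : (nuS p : ℝ) ≤ 2 := by exact_mod_cast h2.1
    have h5 : (nuS p : ℝ) / p ≤ 2 * (p : ℝ)⁻¹ := by
      rw [div_eq_mul_inv]
      gcongr
    have h6 : (p : ℝ)⁻¹ ≤ 1 / 3 := by
      rw [← one_div]
      exact one_div_le_one_div_of_le (by norm_num) h3
    have h7 : 0 < (p : ℝ)⁻¹ := by positivity
    set y := (p : ℝ)⁻¹
    nlinarith [mul_pos h7 h7, mul_pos (mul_pos h7 h7) h7]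

lemma VS_small (r : ℕ) (hr : 1 ≤ r) (K : ℝ) : ∃ M : ℝ, ∃ X₀ : ℕ, ∀ X : ℕ, X₀ ≤ X → ∀ q b : ℕ, 1 ≤ q →
    (b ^ 2 + 1).Coprime q → (q : ℝ) ≤ K * q.totient → SmallDensity (fS q b) r X M := by
  classical
  have hsys : Pool.Agent.W123.RU.Poly.Sys (fS 1 0) :=
    { irr := fS_irr le_rfl (by norm_num)
      deg := fun i => by rw [fS_deg 0 le_rfl i]; norm_num
      lead := fun i => by
        unfold fS
        rw [quad_lead _ _ _ (by norm_num)]
        norm_num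
      inj := fun i j _ => Subsingleton.elim i j
      adm := fun p hp => ⟨0, fun i h => by
        rw [fS_eval] at h
        norm_num at h
        have h3 : (p : ℤ) ∣ 1 := by simpa using h
        exact hp.one_lt.ne' (Nat.dvd_one.1 (by exact_mod_cast h3))⟩ }
  obtain ⟨v, C, hv, hC, hV⟩ := Pool.Agent.W123.RU.Poly.V_bounds (fS 1 0) hsys
  obtain ⟨n0, h0⟩ := log_floor r hr
  have hr0 : (0 : ℝ) < r := by exact_mod_cast hr
  have ev : ∀ᶠ X : ℕ in atTop, (3 : ℝ) ≤ (X : ℝ) ^ (1 / (r : ℝ)) :=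
    ((tendsto_rpow_atTop (show (0 : ℝ) < 1 / r by positivity)).comp tendsto_natCast_atTop_atTop).eventually
      (eventually_ge_atTop _)
  obtain ⟨n1, h1⟩ := eventually_atTop.1 ev
  refine ⟨2 * C * r * K ^ 3, max (max n0 n1) 2, fun X hX q b hq hc' hK => Or.inl ?_⟩
  have hX2 : 2 ≤ X := (le_max_right _ _).trans hX
  have hlx : 0 < Real.log X := Real.log_pos (by exact_mod_cast (by omega : 1 < X))
  have hφ : (0 : ℝ) < q.totient := by exact_mod_cast Nat.totient_pos.2 hq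
  have hq0 : (0 : ℝ) < q := by exact_mod_cast hq
  obtain ⟨w1, w2⟩ := h0 X (((le_max_left _ _).trans (le_max_left _ _)).trans hX)
  have hz3 : 3 ≤ ⌊(X : ℝ) ^ (1 / (r : ℝ))⌋₊ :=
    Nat.le_floor (by exact_mod_cast h1 X (((le_max_right _ _).trans (le_max_left _ _)).trans hX))
  set z := ⌊(X : ℝ) ^ (1 / (r : ℝ))⌋₊ with hz
  -- the density for `q = 1`
  have e1 : VS 1 r X ≤ 2 * C * r / Real.log X := by
    rw [← VP_fS (q := 1) (b := 0) (by norm_num), VP_eq]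
    have w3 := (hV z hz3).2
    rw [Fintype.card_fin, pow_one] at w3
    have w4 : C / Real.log z ≤ C / (Real.log X / (2 * r)) := by gcongr
    have w5 : C / (Real.log X / (2 * r)) = 2 * C * r / Real.log X := by field_simp
    exact w3.trans (w4.trans_eq w5)
  have hf : ∀ p ∈ (Icc 1 z).filter (fun p => p.Prime ∧ p ∣ q), 0 ≤ (1 - (p : ℝ)⁻¹) ^ 3 := by
    intro p hp
    have h9 := fac1 (mem_filter.1 hp).2.1
    have e9 : (1 : ℝ) / (p : ℝ) = (p : ℝ)⁻¹ := one_div _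
    rw [e9] at h9
    exact pow_nonneg (by linarith [h9.1]) 3
  have e2 : VS q r X * ∏ p ∈ (Icc 1 z).filter (fun p => p.Prime ∧ p ∣ q), (1 - (nuS p : ℝ) / p) = VS 1 r X := by
    unfold VS
    have e3 : (Icc 1 z).filter (fun p => p.Prime ∧ ¬ p ∣ 1) = (Icc 1 z).filter Nat.Prime := by
      apply filter_congr
      intro p _
      constructor
      · exact fun h => h.1
      · intro h
        exact ⟨h, fun h2 => h.one_lt.ne' (Nat.dvd_one.1 h2)⟩
    rw [e3]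
    have e4 : (Icc 1 z).filter (fun p => p.Prime ∧ ¬ p ∣ q) = ((Icc 1 z).filter Nat.Prime).filter (fun p => ¬ p ∣ q) := by
      rw [filter_filter]
    have e5 : (Icc 1 z).filter (fun p => p.Prime ∧ p ∣ q) = ((Icc 1 z).filter Nat.Prime).filter (fun p => p ∣ q) := by
      rw [filter_filter]
    rw [e4, e5, mul_comm]
    exact prod_filter_mul_prod_filter_not _ _ _
  have e3 : (q.totient / q : ℝ) ^ 3 ≤ ∏ p ∈ (Icc 1 z).filter (fun p => p.Prime ∧ p ∣ q), (1 - (nuS p : ℝ) / p) := by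
    have e4 : (q.totient : ℝ) = q * ∏ p ∈ q.primeFactors, (1 - (p : ℝ)⁻¹) := by
      have := Nat.totient_eq_mul_prod_factors q
      have h2 := congrArg (fun x : ℚ => (x : ℝ)) this
      simpa using h2
    have e5 : (q.totient / q : ℝ) = ∏ p ∈ q.primeFactors, (1 - (p : ℝ)⁻¹) := by
      rw [e4]
      field_simp
    have hsub : (Icc 1 z).filter (fun p => p.Prime ∧ p ∣ q) ⊆ q.primeFactors := by
      intro p hp
      rw [mem_filter] at hp
      exact Nat.mem_primeFactors.2 ⟨hp.2.1, hp.2.2, by omega⟩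
    have hf2 : ∀ p ∈ q.primeFactors, 0 ≤ 1 - (p : ℝ)⁻¹ ∧ 1 - (p : ℝ)⁻¹ ≤ 1 := by
      intro p hp
      have h9 := fac1 (Nat.prime_of_mem_primeFactors hp)
      have e9 : (1 : ℝ) / (p : ℝ) = (p : ℝ)⁻¹ := one_div _
      rw [e9] at h9
      exact ⟨by linarith [h9.1], h9.2⟩
    rw [e5]
    calc (∏ p ∈ q.primeFactors, (1 - (p : ℝ)⁻¹)) ^ 3
        ≤ (∏ p ∈ (Icc 1 z).filter (fun p => p.Prime ∧ p ∣ q), (1 - (p : ℝ)⁻¹)) ^ 3 := by
          apply pow_le_pow_left₀ (prod_nonneg (fun p hp => (hf2 p hp).1))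
          rw [← prod_sdiff hsub]
          apply mul_le_of_le_one_left
          · exact prod_nonneg (fun p hp => (hf2 p (hsub hp)).1)
          · exact prod_le_one (fun p hp => (hf2 p (mem_sdiff.1 hp).1).1) (fun p hp => (hf2 p (mem_sdiff.1 hp).1).2)
      _ = ∏ p ∈ (Icc 1 z).filter (fun p => p.Prime ∧ p ∣ q), (1 - (p : ℝ)⁻¹) ^ 3 := by rw [prod_pow]
      _ ≤ _ := prod_le_prod hf (fun p hp => (nu_low (mem_filter.1 hp).2.1).1)
  have hVS0 : 0 ≤ VS q r X := by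
    unfold VS
    apply prod_nonneg
    intro p hp
    have hp' := (mem_filter.1 hp).2.1
    have h9 := fac1 hp'
    have e9 : (1 : ℝ) / (p : ℝ) = (p : ℝ)⁻¹ := one_div _
    rw [e9] at h9
    have h10 := (nu_low hp').1
    have h11 : 0 ≤ (1 - (p : ℝ)⁻¹) ^ 3 := pow_nonneg (by linarith [h9.1]) 3
    linarith
  have hK0 : 1 ≤ K * (q.totient / q) := by
    rw [mul_div_assoc', le_div_iff₀ hq0]
    linarith
  have hK1 : 0 < K := by
    have h12 : (0 : ℝ) < q.totient / q := by positivity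
    by_contra hcon
    have : K * (q.totient / q) ≤ 0 := mul_nonpos_of_nonpos_of_nonneg (not_lt.1 hcon) h12.le
    linarith
  rw [VP_fS hc']
  have h13 : VS q r X * (q.totient / q : ℝ) ^ 3 ≤ 2 * C * r / Real.log X :=
    (mul_le_mul_of_nonneg_left e3 hVS0).trans (e2.le.trans e1)
  calc VS q r X = VS q r X * 1 ^ 3 := by ring
    _ ≤ VS q r X * (K * (q.totient / q)) ^ 3 := by gcongr
    _ = K ^ 3 * (VS q r X * (q.totient / q : ℝ) ^ 3) := by ring
    _ ≤ K ^ 3 * (2 * C * r / Real.log X) := by gcongr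
    _ = _ := by ring

end Pool.Agent.Q25.GReg
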