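import Pool.Agent.Q25.GReg7

set_option autoImplicit false

/-! Narrow progressions in arbitrary sets of `n ≡ b mod q` with `n ^ 2 + 1` almost prime, uniformly in the modulus. -/

namespace Pool.Agent.Q25.GReg

open Finset Filter
open Pool.Agent.Y843.HS (Pr VV Pr_mem Pr_prime)
open Pool.Agent.Y843.HG (Iso InAP fac1)

/-- the `m` modulo `p` with `p ∣ (q m + b) ^ 2 + 1` -/
def ZS (q : ℕ) (b : ℤ) (p : ℕ) : Finset ℕ := (range p).filter (fun m : ℕ => (p : ℤ) ∣ ((q : ℤ) * m + b) ^ 2 + 1)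

/-- no prime divides `q` and `b ^ 2 + 1` -/
def CopS (q : ℕ) (b : ℤ) : Prop := ∀ p : ℕ, p.Prime → p ∣ q → ¬ (p : ℤ) ∣ b ^ 2 + 1

lemma ZS_div {q : ℕ} {b : ℤ} {p : ℕ} (hp : p.Prime) (hc : CopS q b) (h : p ∣ q) : ZS q b p = ∅ := by
  unfold ZS
  rw [filter_eq_empty_iff]
  intro m _ hm
  have h0 : (p : ℤ) ∣ q := by exact_mod_cast h
  apply hc p hp h
  have h1 : (q : ℤ) * m + b ≡ b [ZMOD p] := by
    have : (q : ℤ) * m ≡ 0 [ZMOD p] := (Int.modEq_zero_iff_dvd).2 (h0.mul_right m)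
    simpa using this.add_right b
  exact (((h1.pow 2).add_right 1).dvd_iff).1 hm

lemma ZS_ndiv {q : ℕ} {b : ℤ} {p : ℕ} (hp : p.Prime) (h : ¬ p ∣ q) : (ZS q b p).card = nuS p := by
  have hp0 : (p : ℤ) ≠ 0 := by exact_mod_cast hp.ne_zero
  obtain ⟨b', hb'⟩ := Int.eq_ofNat_of_zero_le (Int.emod_nonneg b hp0)
  rw [← nu_ndiv (q := q) (b := b') hp h]
  unfold ZS
  congr 1
  apply filter_congr
  intro m _
  have h1 : (b' : ℤ) ≡ b [ZMOD p] := by
    rw [← hb']
    exact Int.mod_modEq _ _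
  exact (((h1.add_left ((q : ℤ) * m)).pow 2).add_right 1).dvd_iff.symm

lemma nuS_le (p : ℕ) (hp : p.Prime) : nuS p ≤ 2 ∧ nuS p < p := by
  have h3 := ZQ_cls 1 p hp
  have e : (ZQ 1 p).card = nuS p := by
    unfold ZQ nuS
    congr 1
    apply filter_congr
    intro n _
    constructor
    · intro h; exact_mod_cast h
    · intro h; exact_mod_cast h
  rw [e] at h3
  exact ⟨h3.1, h3.2.1⟩

lemma ZS_cls {q : ℕ} {b : ℤ} (hc : CopS q b) : Cls 2 (ZS q b) := by
  intro p hp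
  refine ⟨?_, ?_, fun c hcc => ?_⟩
  · by_cases h : p ∣ q
    · rw [ZS_div hp hc h]; simp
    · rw [ZS_ndiv hp h]; exact (nuS_le p hp).1
  · by_cases h : p ∣ q
    · rw [ZS_div hp hc h]; simpa using hp.pos
    · rw [ZS_ndiv hp h]; exact (nuS_le p hp).2
  · unfold ZS at hcc
    rw [mem_filter, mem_range] at hcc
    exact hcc.1

lemma VV_ZS {q : ℕ} {b : ℤ} (hc : CopS q b) (r X : ℕ) :
    VV (ZS q b) 0 ⌊(X : ℝ) ^ (1 / (r : ℝ))⌋₊ = VS q r X := by
  classical
  unfold VS VV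
  have e : (Icc 1 ⌊(X : ℝ) ^ (1 / (r : ℝ))⌋₊).filter (fun p => p.Prime ∧ ¬ p ∣ q) =
      (Pr 0 ⌊(X : ℝ) ^ (1 / (r : ℝ))⌋₊).filter (fun p => ¬ p ∣ q) := by
    ext p
    rw [mem_filter, mem_filter, Pr_mem, mem_Icc]
    constructor
    · rintro ⟨⟨a, b⟩, c, d⟩
      exact ⟨⟨⟨c.pos, b⟩, c⟩, d⟩
    · rintro ⟨⟨⟨a, b⟩, c⟩, d⟩
      exact ⟨⟨c.pos, b⟩, c, d⟩
  rw [e, prod_filter (fun p => ¬ p ∣ q)]
  apply prod_congr rfl
  intro p hp
  have hpp := Pr_prime hp
  by_cases h : p ∣ q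
  · rw [if_neg (by simpa using h), ZS_div hpp hc h]
    simp
  · rw [if_pos h, ZS_ndiv hpp h]

/-- **Narrow progressions in arbitrary sets of `n ≡ b mod q` with `n ^ 2 + 1` almost prime** -/
theorem narrowS {l : ℕ} (hl : 1 ≤ l) (r : ℕ) (hr : 1 ≤ r) {θ ε : ℝ} (hθ : 0 < θ) (hε : 0 < ε) : ∃ B X₀ : ℕ,
    ∀ x : ℕ, X₀ ≤ x → ∀ q b : ℕ, 1 ≤ q → (b ^ 2 + 1).Coprime q → ∀ u H : ℕ, q * (x : ℝ) ^ θ ≤ H → H ≤ x →
    ∀ A : Set ℕ, (∀ n ∈ A, n ≡ b [MOD q] ∧ ∀ p : ℕ, p.Prime → (p : ℝ) ≤ (x : ℝ) ^ (1 / (r : ℝ)) → ¬ p ∣ n ^ 2 + 1) →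
      ((Lone A l q (Real.log x ^ B) u (u + H)).card : ℝ) ≤ ε * (H / q * VS q r x) := by
  classical
  obtain ⟨B, n1, h1⟩ := narrowZ hl 2 r hr (θ := θ / 2) (ε := ε / 2) (by positivity) (by positivity)
  have ev : ∀ᶠ x : ℕ in atTop, (2 : ℝ) ≤ (x : ℝ) ^ (θ / 2) :=
    ((tendsto_rpow_atTop (show (0 : ℝ) < θ / 2 by positivity)).comp tendsto_natCast_atTop_atTop).eventually
      (eventually_ge_atTop _)
  obtain ⟨n2, h2⟩ := eventually_atTop.1 ev
  refine ⟨B, max n1 (max n2 2), fun x hx q b hq hc' u H hHx hHx' A hA => ?_⟩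
  have hx2 : 2 ≤ x := ((le_max_right _ _).trans (le_max_right _ _)).trans hx
  have hxr : (2 : ℝ) ≤ x := by exact_mod_cast hx2
  have hx0 : (0 : ℝ) < x := by linarith
  have hq0 : (0 : ℝ) < q := by exact_mod_cast hq
  have hpow := h2 x (((le_max_left _ _).trans (le_max_right _ _)).trans hx)
  set a0 := b % q with ha0
  have ha0q : a0 < q := Nat.mod_lt _ hq
  -- the class
  have hcop : CopS q ((a0 : ℤ) - q) := by
    intro p hp hpq hd
    have hpq' : (p : ℤ) ∣ q := by exact_mod_cast hpq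
    have h3 : ((a0 : ℤ) - q) ≡ b [ZMOD p] := by
      have e1 : ((a0 : ℤ) - q) ≡ a0 [ZMOD p] := by
        rw [Int.modEq_iff_dvd]
        simpa using hpq'
      have e2 : (a0 : ℤ) ≡ b [ZMOD p] := by
        have : a0 ≡ b [MOD q] := Nat.mod_modEq b q
        exact (Int.natCast_modEq_iff).2 (this.of_dvd hpq)
      exact e1.trans e2
    have h4 : (p : ℤ) ∣ (b : ℤ) ^ 2 + 1 := (((h3.pow 2).add_right 1).dvd_iff).1 hd
    have h5 : p ∣ b ^ 2 + 1 := by exact_mod_cast h4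
    have h6 := Nat.dvd_gcd h5 hpq
    rw [hc'] at h6
    exact hp.one_lt.ne' (Nat.dvd_one.1 h6)
  -- the interval
  set u' := (u + q - a0) / q with hu'
  set v' := (u + H + q - a0) / q with hv'
  have huv : u' ≤ v' := Nat.div_le_div_right (by omega)
  have hu1 : q * u' ≤ u + q - a0 := Nat.mul_div_le _ _
  have hu2 : u + q - a0 < q * (u' + 1) := by
    have := Nat.lt_mul_div_succ (u + q - a0) hq
    exact this
  have hv1 : q * v' ≤ u + H + q - a0 := Nat.mul_div_le _ _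
  have hv2 : u + H + q - a0 < q * (v' + 1) := by
    have := Nat.lt_mul_div_succ (u + H + q - a0) hq
    exact this
  obtain ⟨Y, hY⟩ := Nat.exists_eq_add_of_le huv
  have hYa : q * Y < H + q := by
    have e : q * v' = q * u' + q * Y := by rw [hY]; ring
    have e2 : q * (u' + 1) = q * u' + q := by ring
    omega
  have hYb : H < q * Y + q := by
    have e : q * v' = q * u' + q * Y := by rw [hY]; ring
    have e2 : q * (v' + 1) = q * v' + q := by ring
    omega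
  have hYa' : (q : ℝ) * Y < H + q := by exact_mod_cast hYa
  have hYb' : (H : ℝ) < q * Y + q := by exact_mod_cast hYb
  have hYx : Y ≤ x := by
    by_contra hcon
    have h3 : x + 1 ≤ Y := by omega
    have h4 : q * (x + 1) ≤ q * Y := Nat.mul_le_mul_left q h3
    have h5 : x ≤ q * x := Nat.le_mul_of_pos_left x hq
    have h6 : q * (x + 1) = q * x + q := by ring
    omega
  have hxθ : (x : ℝ) ^ θ = (x : ℝ) ^ (θ / 2) * (x : ℝ) ^ (θ / 2) := by
    rw [← Real.rpow_add hx0]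
    congr 1
    ring
  have hYθ : (x : ℝ) ^ (θ / 2) ≤ Y := by
    have h3 : (q : ℝ) * ((x : ℝ) ^ θ - 1) < q * Y := by nlinarith
    have h4 : (x : ℝ) ^ θ - 1 < Y := lt_of_mul_lt_mul_left h3 hq0.le
    nlinarith
  have hHq : (q : ℝ) ≤ H := by
    have h3 : (1 : ℝ) ≤ (x : ℝ) ^ θ := by rw [hxθ]; nlinarith
    nlinarith
  -- the set
  set S : Finset ℕ := ((Ioc u (u + H)).filter (fun n => n ∈ A)).image (fun n => n / q + 1) with hS
  have hmod : ∀ n ∈ A, q * (n / q) + a0 = n := by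
    intro n hn
    have h3 : n % q = a0 := (hA n hn).1
    rw [← h3]
    exact Nat.div_add_mod n q
  have hSm : ∀ m ∈ S, ∃ n, n ∈ A ∧ u < n ∧ n ≤ u + H ∧ n + q = q * m + a0 := by
    intro m hm
    rw [hS, mem_image] at hm
    obtain ⟨n, hn, rfl⟩ := hm
    rw [mem_filter, mem_Ioc] at hn
    refine ⟨n, hn.2, hn.1.1, hn.1.2, ?_⟩
    have := hmod n hn.2
    nlinarith
  have hSsub : S ⊆ Ioc u' (u' + Y) := by
    intro m hm
    obtain ⟨n, hn, hn1, hn2, hn3⟩ := hSm m hm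
    rw [mem_Ioc, ← hY]
    constructor
    · rw [hu', Nat.div_lt_iff_lt_mul hq, mul_comm]
      omega
    · rw [hv', Nat.le_div_iff_mul_le hq, mul_comm]
      omega
  have hsieve : ∀ m ∈ S, ∀ p : ℕ, p.Prime → (p : ℝ) ≤ (x : ℝ) ^ (1 / (r : ℝ)) → m % p ∉ ZS q ((a0 : ℤ) - q) p := by
    intro m hm p hp hpx hcon
    obtain ⟨n, hn, hn1, hn2, hn3⟩ := hSm m hm
    unfold ZS at hcon
    rw [mem_filter] at hcon
    apply (hA n hn).2 p hp hpx
    have h3 : ((m % p : ℕ) : ℤ) ≡ m [ZMOD p] := by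
      rw [Int.natCast_mod]
      exact Int.mod_modEq _ _
    have h4 : ((q : ℤ) * ((m % p : ℕ) : ℤ) + ((a0 : ℤ) - q)) ^ 2 + 1 ≡ (q * m + ((a0 : ℤ) - q)) ^ 2 + 1 [ZMOD p] :=
      (((h3.mul_left _).add_right _).pow 2).add_right 1
    have h5 := h4.dvd_iff.1 hcon.2
    have h6 : (q : ℤ) * m + ((a0 : ℤ) - q) = n := by
      have : ((n : ℤ) + q) = q * m + a0 := by exact_mod_cast hn3
      linarith
    rw [h6] at h5
    exact_mod_cast h5
  have h3 := h1 x ((le_max_left _ _).trans hx) _ (ZS_cls hcop) u' Y hYθ hYx S hSsub hsieve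
  -- the exceptional elements
  have h4 : (Lone A l q (Real.log x ^ B) u (u + H)).card ≤ (Iso l (Real.log x ^ B) S).card := by
    apply card_le_card_of_injOn (fun n => n / q + 1)
    · intro n hn
      rw [mem_coe] at hn
      unfold Lone at hn
      rw [mem_filter, mem_Ioc] at hn
      obtain ⟨⟨g1, g2⟩, g3, g4⟩ := hn
      rw [mem_coe]
      unfold Iso
      rw [mem_filter]
      refine ⟨?_, fun hcon => g4 ?_⟩
      · rw [hS, mem_image]
        exact ⟨n, mem_filter.2 ⟨mem_Ioc.2 ⟨g1, g2⟩, g3⟩, rfl⟩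
      · obtain ⟨m, d, e1, e2, e3, i0, e4, e5⟩ := hcon
        have e6 : ∀ i < l, ∃ n', n' ∈ A ∧ u < n' ∧ n' ≤ u + H ∧ n' + q = q * (m + i * d) + a0 :=
          fun i hi => hSm _ (e3 i hi)
        have hm1 : q ≤ q * m + a0 := by
          obtain ⟨n', _, _, _, w⟩ := e6 0 (by omega)
          simp only [zero_mul, add_zero] at w
          omega
        have hval : ∀ i, q * m + a0 - q + i * (q * d) + q = q * (m + i * d) + a0 := by
          intro i
          have : q * (m + i * d) = q * m + i * (q * d) := by ring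
          omega
        refine ⟨q * m + a0 - q, d, e1, e2, fun i hi => ?_, i0, e4, ?_⟩
        · obtain ⟨n', w1, w2, w3, w4⟩ := e6 i hi
          have : n' = q * m + a0 - q + i * (q * d) := by
            have := hval i
            omega
          rw [← this]
          exact ⟨w1, w2, w3⟩
        · have w1 := hmod n g3
          have w2 := hval i0
          have w3 : q * (n / q + 1) = q * (n / q) + q := by ring
          rw [← e5, w3] at w2
          omega
    · intro n hn n' hn' hnn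
      rw [mem_coe] at hn hn'
      unfold Lone at hn hn'
      rw [mem_filter] at hn hn'
      have w1 := hmod n hn.2.1
      have w2 := hmod n' hn'.2.1
      have w3 : n / q = n' / q := by
        simpa using hnn
      rw [w3] at w1
      omega
  have h6 : (Y : ℝ) ≤ 2 * (H / q) := by
    rw [mul_div_assoc', le_div_iff₀ hq0]
    linarith
  have hVV := (VV_pos' (ZS_cls hcop) 0 ⌊(x : ℝ) ^ (1 / (r : ℝ))⌋₊).le
  rw [VV_ZS hcop] at h3 hVV
  calc ((Lone A l q (Real.log x ^ B) u (u + H)).card : ℝ) ≤ (Iso l (Real.log x ^ B) S).card := by exact_mod_cast h4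
    _ ≤ ε / 2 * (Y * VS q r x) := h3
    _ ≤ ε / 2 * (2 * (H / q) * VS q r x) := by gcongr
    _ = _ := by ring

end Pool.Agent.Q25.GReg
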