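import Pool.Agent.TH935.GF
import Pool.Agent.TH935.GF2
import Pool.Agent.TH823.Fam.Fam2
import Pool.Agent.TH894.SM0

set_option autoImplicit false

/-! Goldbach representations: consequences of the regularity in windows, and polynomial values. -/

namespace Pool.Agent.Q25.GWin
open Finset Polynomial
open Pool.Agent.H373R2.T7 (energy ev_L' ev_log')
open Pool.Agent.H560R3.GB (g HL sing C₂)
open Pool.Agent.W93.PG (WinP cnt)

lemma g_eq (m : ℕ) : g m = cnt m 0 m := by
  unfold g cnt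
  apply card_bij (fun q _ => q.1)
  · intro q hq
    rw [mem_filter, HasAntidiagonal.mem_antidiagonal] at hq
    obtain ⟨h1, h2, h3⟩ := hq
    rw [mem_filter, mem_Ioc]
    have e : m - q.1 = q.2 := by omega
    exact ⟨⟨h2.pos, by omega⟩, h2, by rw [e]; exact h3⟩
  · intro q hq q' hq' h
    rw [mem_filter, HasAntidiagonal.mem_antidiagonal] at hq hq'
    apply Prod.ext h
    omega
  · intro p hp
    rw [mem_filter, mem_Ioc] at hp
    refine ⟨(p, m - p), ?_, rfl⟩
    rw [mem_filter, HasAntidiagonal.mem_antidiagonal]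
    exact ⟨by simp only; omega, hp.2.1, hp.2.2⟩

lemma g_of_win {ε : ℝ} {A m : ℕ} (hm : 3 ≤ m) (h : WinP ε A m) : |(g m : ℝ) - HL m| ≤ ε * HL m := by
  have hm3 : (3 : ℝ) ≤ m := by exact_mod_cast hm
  have hL : 1 ≤ Real.log (m : ℝ) := by
    rw [Real.le_log_iff_exp_le (by linarith)]
    exact Real.exp_one_lt_d9.le.trans (by linarith)
  have h1 := h 0 m (by omega) le_rfl (by
    rw [Nat.cast_zero, sub_zero]
    exact div_le_self (by linarith) (one_le_pow₀ hL))
  rw [← g_eq, Nat.cast_zero, sub_zero] at h1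
  have e : HL m = sing m * m / Real.log m ^ 2 := by
    unfold HL
    ring
  rw [e]
  exact h1

lemma C₂_nonneg : 0 ≤ C₂ := by
  unfold C₂
  apply Real.iInf_nonneg
  intro z
  apply prod_nonneg
  intro p hp
  rw [mem_filter, mem_Icc] at hp
  exact (Pool.Agent.TH894.SM.fac_pos p hp.1.1).le

lemma two_sided (ε : ℝ) (n : ℕ) (hn : 2 ≤ n) (h2 : 2 ∣ n) (h1 : |(g n : ℝ) - HL n| ≤ ε * HL n) :
    (1 - ε) * C₂ * ((n : ℝ) ^ 2 / (n.totient * Real.log n ^ 2)) ≤ g n ∧
    (0 ≤ ε → (g n : ℝ) ≤ (1 + ε) * ((n : ℝ) ^ 2 / (n.totient * Real.log n ^ 2))) := by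
  have hn0 : n ≠ 0 := by omega
  have hnr : (0 : ℝ) < n := by exact_mod_cast Nat.pos_of_ne_zero hn0
  have hl : 0 < Real.log n := Real.log_pos (by exact_mod_cast (by omega : 1 < n))
  have ht : (0 : ℝ) < n.totient := by exact_mod_cast Nat.totient_pos.2 (Nat.pos_of_ne_zero hn0)
  obtain ⟨s1, s2⟩ := Pool.Agent.TH894.SM.sing_tot n hn0 h2
  have hC := C₂_nonneg
  obtain ⟨Q, hQ⟩ : ∃ Q : ℝ, Q = n / Real.log n ^ 2 := ⟨_, rfl⟩
  have hQ0 : 0 < Q := by rw [hQ]; positivity
  have e : (n : ℝ) ^ 2 / (n.totient * Real.log n ^ 2) = n / n.totient * Q := by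
    rw [hQ]
    field_simp
  have hHL : HL n = sing n * Q := by
    unfold HL
    rw [hQ]
  have hR0 : 0 < (n : ℝ) / n.totient := by positivity
  refine ⟨?_, ?_⟩
  · rw [e]
    rw [hHL, abs_le] at h1
    rcases le_or_gt ε 1 with hε1 | hε1
    · have h3 : (1 - ε) * (C₂ * (n / n.totient) * Q) ≤ (1 - ε) * (sing n * Q) := by
        apply mul_le_mul_of_nonneg_left _ (by linarith)
        exact mul_le_mul_of_nonneg_right s1 hQ0.le
      have e2 : (1 - ε) * C₂ * (n / n.totient * Q) = (1 - ε) * (C₂ * (n / n.totient) * Q) := by ring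
      rw [e2]
      linarith [h1.1]
    · have h3 : (1 - ε) * C₂ * (n / n.totient * Q) ≤ 0 := by
        apply mul_nonpos_of_nonpos_of_nonneg _ (by positivity)
        exact mul_nonpos_of_nonpos_of_nonneg (by linarith) hC
      exact h3.trans (Nat.cast_nonneg _)
  · intro hε
    rw [e]
    rw [hHL, abs_le] at h1
    have h3 : (1 + ε) * (sing n * Q) ≤ (1 + ε) * (n / n.totient * Q) := by
      apply mul_le_mul_of_nonneg_left _ (by linarith)
      exact mul_le_mul_of_nonneg_right s2 hQ0.le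
    linarith [h1.2]

/-- the energy of the values of a polynomial -/
lemma En_poly (f : ℤ[X]) (p M : ℕ) (c : ℤ) :
    Pool.Agent.TH935.GF.En p (fun i : Fin M => c + f.eval (((i : ℕ) + 1 : ℕ) : ℤ)) ≤ energy p M (fun m => c + f.eval (m : ℤ)) := by
  classical
  unfold energy Pool.Agent.TH935.GF.En
  rw [Nat.card_eq_fintype_card, Fintype.card_subtype]
  apply card_le_card_of_injOn (fun q => (fun j => (q.1 j : ℕ) + 1, fun j => (q.2 j : ℕ) + 1))
  · intro q hq
    rw [mem_coe, mem_filter] at hq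
    rw [mem_coe, mem_filter, mem_product, Fintype.mem_piFinset, Fintype.mem_piFinset]
    refine ⟨⟨fun j => mem_Icc.2 ⟨Nat.succ_pos _, ?_⟩, fun j => mem_Icc.2 ⟨Nat.succ_pos _, ?_⟩⟩, ?_⟩
    · exact (q.1 j).2
    · exact (q.2 j).2
    · exact hq.2
  · intro q _ q' _ h2
    simp only [Prod.mk.injEq] at h2
    apply Prod.ext
    · funext j
      have := congrFun h2.1 j
      apply Fin.ext
      simpa using this
    · funext j
      have := congrFun h2.2 j
      apply Fin.ext
      simpa using this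

/-- polynomial values -/
theorem poly_win (P : ℤ[X]) (hP : 1 ≤ P.natDegree) (B C A U m₀ : ℕ) (ε : ℝ) (hε : 0 < ε) (Q : ℕ → Prop)
    (hQ : ∀ m : ℕ, m₀ ≤ m → 2 ∣ m → WinP ε A m → Q m) :
    ∃ N₀ : ℕ, ∀ N : ℕ, N₀ ≤ N → ∀ c : ℤ, |c| ≤ B * N → ∀ x : ℕ, (N : ℝ) ≤ Real.log N ^ C * (x : ℝ) ^ P.natDegree →
      x ^ P.natDegree ≤ B * N → ∀ R : ℕ → Prop, [DecidablePred R] →
      (∀ m, R m → 0 < c + P.eval (m : ℤ) ∧ Even (c + P.eval (m : ℤ)) ∧ ¬ Q (c + P.eval (m : ℤ)).toNat) →
      (((Icc 1 x).filter R).card : ℝ) ≤ x / Real.log N ^ U := by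
  classical
  obtain ⟨p0, C1, hC1, hE⟩ := Pool.Agent.TH823.Fam.energy_poly' P hP
  obtain ⟨A', hA⟩ := Pool.Agent.TH823.Fam.poly_size P
  have hp0 : 1 ≤ p0 := by
    by_contra hcon
    have hz : p0 = 0 := by omega
    subst hz
    obtain ⟨x, hx⟩ := exists_nat_gt C1
    have hx1 : 1 ≤ x := by
      by_contra h
      have : x = 0 := by omega
      subst this
      simp at hx
      linarith
    have h2 := hE x hx1 0
    have h3 : energy 0 x (fun m => 0 + P.eval (m : ℤ)) = 1 := by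
      unfold energy
      simp
    rw [h3] at h2
    simp only [Nat.cast_one, one_mul, mul_zero, pow_zero, mul_one] at h2
    have h4 : (x : ℝ) ≤ (x : ℝ) ^ P.natDegree := le_self_pow₀ (by exact_mod_cast hx1) (by omega)
    linarith
  obtain ⟨n1, h1⟩ := Pool.Agent.TH935.GF.transfer p0 (B + A' * B) (C + 1) U Q (by
    intro B C U
    exact Pool.Agent.TH935.GF.fam_win p0 B C A U m₀ hp0 ε hε Q hQ)
  obtain ⟨n0, hn0⟩ := exists_nat_ge C1
  obtain ⟨n2, h2⟩ := ev_L' n0
  refine ⟨n1 + n2 + 3, fun N hN c hc x hx1 hx2 R _ hR => ?_⟩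
  have hN3 : 3 ≤ N := by omega
  have hNr : (3 : ℝ) ≤ N := by exact_mod_cast hN3
  have hL1 : 1 ≤ Real.log (N : ℝ) := by
    rw [Real.le_log_iff_exp_le (by linarith)]
    exact Real.exp_one_lt_d9.le.trans (by linarith)
  have hxpos : 1 ≤ x := by
    by_contra hcon
    have : x = 0 := by omega
    subst this
    rw [Nat.cast_zero, zero_pow (by omega), mul_zero] at hx1
    linarith
  have h5 := h1 N (by omega) (Fin x) (fun i : Fin x => c + P.eval (((i : ℕ) + 1 : ℕ) : ℤ)) (by
    intro i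
    have e1 := hA x hxpos ((i : ℕ) + 1) (mem_Icc.2 ⟨Nat.succ_pos _, i.2⟩)
    have e2 : (x : ℤ) ^ P.natDegree ≤ B * N := by exact_mod_cast hx2
    have e3 : (A' : ℤ) * (x : ℤ) ^ P.natDegree ≤ A' * (B * N) := mul_le_mul_of_nonneg_left e2 (by positivity)
    have e4 := le_abs_self c
    have e5 := le_abs_self (P.eval ((((i : ℕ) + 1 : ℕ)) : ℤ))
    push_cast at e1 e5 ⊢
    calc c + P.eval ((i : ℤ) + 1) ≤ B * N + A' * (B * N) := by linarith
      _ = _ := by ring) (by
    have e1 := hE x hxpos c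
    have e2 := h2 N (by omega)
    have e0 : (0 : ℝ) ≤ (energy p0 x (fun m => c + P.eval (m : ℤ)) : ℝ) := Nat.cast_nonneg _
    rw [Fintype.card_fin]
    calc (Pool.Agent.TH935.GF.En p0 (fun i : Fin x => c + P.eval (((i : ℕ) + 1 : ℕ) : ℤ)) : ℝ) * N
        ≤ (energy p0 x (fun m => c + P.eval (m : ℤ)) : ℝ) * N := by
          apply mul_le_mul_of_nonneg_right _ (by positivity)
          exact_mod_cast En_poly P p0 x c
      _ ≤ (energy p0 x (fun m => c + P.eval (m : ℤ)) : ℝ) * (Real.log N ^ C * (x : ℝ) ^ P.natDegree) :=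
          mul_le_mul_of_nonneg_left hx1 e0
      _ = Real.log N ^ C * ((energy p0 x (fun m => c + P.eval (m : ℤ)) : ℝ) * (x : ℝ) ^ P.natDegree) := by ring
      _ ≤ Real.log N ^ C * (C1 * (x : ℝ) ^ (2 * p0)) := mul_le_mul_of_nonneg_left e1 (by positivity)
      _ ≤ Real.log N ^ C * (Real.log N * (x : ℝ) ^ (2 * p0)) := by
          apply mul_le_mul_of_nonneg_left _ (by positivity)
          apply mul_le_mul_of_nonneg_right _ (by positivity)
          linarith
      _ = _ := by ring)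
    (univ.filter (fun i : Fin x => R ((i : ℕ) + 1))) (by
      intro i hi
      exact hR _ (mem_filter.1 hi).2)
  rw [Fintype.card_fin] at h5
  refine le_trans ?_ h5
  apply Nat.cast_le.2
  apply card_le_card_of_injOn (fun m => if h : m - 1 < x then (⟨m - 1, h⟩ : Fin x) else ⟨0, by omega⟩)
  · intro m hm
    rw [mem_coe, mem_filter, mem_Icc] at hm
    rw [mem_coe, mem_filter]
    refine ⟨mem_univ _, ?_⟩
    simp only
    rw [dif_pos (by omega)]
    simp only
    rw [Nat.sub_add_cancel hm.1.1]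
    exact hm.2
  · intro m hm m' hm' h
    rw [mem_coe, mem_filter, mem_Icc] at hm hm'
    simp only at h
    rw [dif_pos (by omega), dif_pos (by omega)] at h
    have := congrArg Fin.val h
    simp only at this
    omega

end Pool.Agent.Q25.GWin
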