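import Pool.Agent.Q25.PolyList

/-!
# Quotients of products of binomials `x^e - 1` by Kronecker substitution
-/

namespace Pool.Agent.Q25.Kron

open Polynomial Pool.Agent.Q25.PolyList

/-- the product of the `x^e - 1` -/
noncomputable def bin (es : List ℕ) : ℤ[X] := (es.map (fun e => (X ^ e - 1 : ℤ[X]))).prod

@[simp] lemma bin_nil : bin [] = 1 := rfl
@[simp] lemma bin_cons (e : ℕ) (es : List ℕ) : bin (e :: es) = (X ^ e - 1) * bin es := by simp [bin]

lemma bin_append (a b : List ℕ) : bin (a ++ b) = bin a * bin b := by simp [bin]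

lemma bin_ne_zero (es : List ℕ) (h : ∀ e ∈ es, 0 < e) : bin es ≠ 0 := by
  induction es with
  | nil => simp
  | cons e es ih =>
    rw [bin_cons]
    have h1 : (X ^ e - 1 : ℤ[X]) ≠ 0 := X_pow_sub_C_ne_zero (h e (by simp)) 1
    exact mul_ne_zero h1 (ih (fun x hx => h x (by simp [hx])))

/-- the value at a natural number -/
def pw (b : ℕ) : List ℕ → ℕ
  | [] => 1
  | e :: es => (b ^ e - 1) * pw b es

lemma eval_bin (b : ℕ) (hb : 1 ≤ b) (es : List ℕ) : (bin es).eval (b : ℤ) = pw b es := by
  induction es with
  | nil => simp [pw]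
  | cons e es ih =>
    rw [bin_cons, eval_mul, ih, pw]
    have : 1 ≤ b ^ e := Nat.one_le_pow _ _ hb
    push_cast [this]
    simp

lemma coeff_mul_bin (f : ℤ[X]) (B : ℤ) (hf : ∀ i, |f.coeff i| ≤ B) (es : List ℕ) (i : ℕ) :
    |(f * bin es).coeff i| ≤ 2 ^ es.length * B := by
  induction es generalizing i with
  | nil => simpa using hf i
  | cons e es ih =>
    have e1 : f * bin (e :: es) = (f * bin es) * X ^ e - f * bin es := by rw [bin_cons]; ring
    rw [e1, coeff_sub, coeff_mul_X_pow']
    have h1 := ih i
    have h2 : |if e ≤ i then (f * bin es).coeff (i - e) else 0| ≤ 2 ^ es.length * B := by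
      split_ifs
      · exact ih _
      · simp only [abs_zero]
        exact (abs_nonneg _).trans h1
    refine (abs_sub _ _).trans ?_
    rw [List.length_cons, pow_succ]
    linarith

/-- If the polynomial `q` has coefficients at most `B` and `q(b) A(b) = C(b)` for two products `A`, `C` of binomials,
then `q A = C`, as soon as `b` is large. -/
theorem eq_of_eval (q : ℤ[X]) (B : ℤ) (hq : ∀ i, |q.coeff i| ≤ B) (as cs : List ℕ) (b : ℕ)
    (hb : 2 ^ as.length * B + 2 ^ cs.length < b) (h : q.eval (b : ℤ) * pw b as = pw b cs) :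
    q * bin as = bin cs := by
  have hB : 0 ≤ B := (abs_nonneg _).trans (hq 0)
  have hb1 : 1 ≤ b := by
    have : (0 : ℤ) < b := lt_of_le_of_lt (by positivity) hb
    exact_mod_cast this
  rw [← sub_eq_zero]
  refine eq_zero_of_eval b ((q * bin as - bin cs).natDegree + 1) _ (Nat.lt_succ_self _) (fun i => ?_) ?_
  · rw [coeff_sub]
    have h1 := coeff_mul_bin q B hq as i
    have h2 := coeff_mul_bin 1 1 (fun i => by rw [coeff_one]; split_ifs <;> simp) cs i
    rw [one_mul, mul_one] at h2
    refine (abs_sub _ _).trans_lt ?_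
    linarith
  · rw [eval_sub, eval_mul, eval_bin b hb1, eval_bin b hb1, h, sub_self]

/-- the offset as a natural number -/
def offN (b h : ℕ) : ℕ → ℕ
  | 0 => 0
  | n + 1 => h + b * offN b h n

lemma offN_eq (b h n : ℕ) : (offN b h n : ℤ) = off b h n := by
  induction n with
  | zero => rfl
  | succ n ih => simp only [offN, off, ← ih]; push_cast; rfl

/-- a closed form of the offset -/
lemma offN_closed (b h n : ℕ) : (b - 1) * offN b h n = h * (b ^ n - 1) := by
  induction n with
  | zero => simp [offN]
  | succ n ih =>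
    rcases Nat.eq_zero_or_pos b with rfl | hb
    · simp
    · obtain ⟨c, rfl⟩ : ∃ c, b = c + 1 := ⟨b - 1, by omega⟩
      simp only [offN, Nat.add_sub_cancel] at ih ⊢
      have h1 : 1 ≤ (c + 1) ^ n := Nat.one_le_pow _ _ (by omega)
      have h2 : 1 ≤ (c + 1) ^ (n + 1) := Nat.one_le_pow _ _ (by omega)
      zify [h1, h2] at ih ⊢
      have : (c : ℤ) * (h + (c + 1) * offN (c + 1) h n) = c * h + (c + 1) * (c * offN (c + 1) h n) := by ring
      rw [this, ih]; ring

/-- the balanced digits, all at most `M` in absolute value -/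
def allLe (M : ℕ) : List ℤ → Bool
  | [] => true
  | a :: l => decide (a.natAbs ≤ M) && allLe M l

lemma allLe_getD (M : ℕ) (l : List ℤ) (h : allLe M l = true) (i : ℕ) : (l.getD i 0).natAbs ≤ M := by
  induction l generalizing i with
  | nil => simp
  | cons a l ih =>
    simp only [allLe, Bool.and_eq_true, decide_eq_true_eq] at h
    cases i with
    | zero => simpa using h.1
    | succ i => simpa using ih h.2 i

/-- **Main tool.** If `N * A(b) = C(b)` in `ℕ`, then the polynomial with the balanced base `b` digits of `N` is the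
quotient of `C` by `A`, provided its coefficients are small. -/
theorem quotient (h n N M : ℕ) (as cs : List ℕ) (D : ℕ)
    (hD : (2 * h - 1) * D = h * ((2 * h) ^ n - 1)) (hh : 0 < h)
    (hN : N + D < (2 * h) ^ n) (hM : allLe M (dec (2 * h) h n (N + D)) = true)
    (hb : 2 ^ as.length * M + 2 ^ cs.length < 2 * h) (hmul : N * pw (2 * h) as = pw (2 * h) cs) :
    toPoly (dec (2 * h) h n (N + D)) * bin as = bin cs := by
  have hDo : D = offN (2 * h) h n := by
    have h1 := offN_closed (2 * h) h n
    rw [← hD] at h1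
    exact (Nat.eq_of_mul_eq_mul_left (by omega) h1).symm
  refine eq_of_eval _ (M : ℤ) (fun i => ?_) as cs (2 * h) (by exact_mod_cast hb) ?_
  · rw [coeff_toPoly]
    have := allLe_getD M _ hM i
    rw [← Int.natCast_natAbs]; exact_mod_cast this
  · rw [eval_toPoly, hor_dec (2 * h) h n (N + D) hN, ← offN_eq, hDo]
    push_cast
    rw [add_sub_cancel_right]
    exact_mod_cast hmul

end Pool.Agent.Q25.Kron
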