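import Mathlib.Algebra.Polynomial.RuleOfSigns
import Mathlib.Algebra.Polynomial.Expand
import Mathlib.Algebra.Polynomial.Eval.Irreducible
import Mathlib.Data.Real.Basic
import Mathlib.Tactic

/-!
# Integer polynomials as lists of coefficients

Lists are read from the constant term upwards.
-/

namespace Pool.Agent.Q25.PolyList

open Polynomial

/-- the polynomial with the given list of coefficients, constant term first -/
noncomputable def toPoly : List ℤ → ℤ[X]
  | [] => 0
  | a :: l => C a + X * toPoly l

@[simp] lemma toPoly_nil : toPoly [] = 0 := rfl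
@[simp] lemma toPoly_cons (a : ℤ) (l : List ℤ) : toPoly (a :: l) = C a + X * toPoly l := rfl

lemma coeff_toPoly (l : List ℤ) (i : ℕ) : (toPoly l).coeff i = l.getD i 0 := by
  induction l generalizing i with
  | nil => simp
  | cons a l ih =>
    cases i with
    | zero => simp
    | succ n => rw [toPoly_cons, coeff_add, coeff_C_succ, coeff_X_mul, ih, zero_add]; rfl

/-- addition -/
def addL : List ℤ → List ℤ → List ℤ
  | [], m => m
  | l, [] => l
  | a :: l, b :: m => (a + b) :: addL l m

lemma toPoly_addL (l m : List ℤ) : toPoly (addL l m) = toPoly l + toPoly m := by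
  induction l generalizing m with
  | nil => simp [addL]
  | cons a l ih =>
    cases m with
    | nil => simp [addL]
    | cons b m => simp only [addL, toPoly_cons, ih, C_add]; ring

/-- multiplication by an integer -/
def smulL (c : ℤ) (l : List ℤ) : List ℤ := l.map (c * ·)

lemma toPoly_smulL (c : ℤ) (l : List ℤ) : toPoly (smulL c l) = C c * toPoly l := by
  induction l with
  | nil => simp [smulL]
  | cons a l ih =>
    simp only [smulL, List.map_cons, toPoly_cons, C_mul] at ih ⊢
    rw [ih]; ring

/-- multiplication -/
def mulL : List ℤ → List ℤ → List ℤ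
  | [], _ => []
  | a :: l, m => addL (smulL a m) (0 :: mulL l m)

lemma toPoly_mulL (l m : List ℤ) : toPoly (mulL l m) = toPoly l * toPoly m := by
  induction l with
  | nil => simp [mulL]
  | cons a l ih =>
    simp only [mulL, toPoly_addL, toPoly_smulL, toPoly_cons, ih, C_0]; ring

/-- substitution of `x^p` for `x` (`p ≥ 1`) -/
def expandL (p : ℕ) : List ℤ → List ℤ
  | [] => []
  | a :: l => a :: (List.replicate (p - 1) 0 ++ expandL p l)

lemma toPoly_replicate_append (n : ℕ) (l : List ℤ) : toPoly (List.replicate n 0 ++ l) = X ^ n * toPoly l := by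
  induction n with
  | zero => simp
  | succ n ih => simp only [List.replicate_succ, List.cons_append, toPoly_cons, ih, C_0, pow_succ]; ring

lemma toPoly_expandL (p : ℕ) (hp : 1 ≤ p) (l : List ℤ) : toPoly (expandL p l) = expand ℤ p (toPoly l) := by
  induction l with
  | nil => simp [expandL]
  | cons a l ih =>
    simp only [expandL, toPoly_cons, toPoly_replicate_append, ih, map_add, map_mul, expand_C, expand_X]
    obtain ⟨q, rfl⟩ : ∃ q, p = q + 1 := ⟨p - 1, by omega⟩
    simp only [Nat.add_sub_cancel, pow_succ]; ring

/-- derivative: `n` is the current exponent -/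
def derAux : ℕ → List ℤ → List ℤ
  | _, [] => []
  | n, a :: l => ((n : ℤ) * a) :: derAux (n + 1) l

def derL (l : List ℤ) : List ℤ := derAux 1 l.tail

lemma toPoly_derAux (n : ℕ) (l : List ℤ) :
    toPoly (derAux n l) = C (n : ℤ) * toPoly l + X * derivative (toPoly l) := by
  induction l generalizing n with
  | nil => simp [derAux]
  | cons a l ih =>
    simp only [derAux, toPoly_cons, ih, map_add, derivative_C, derivative_mul, derivative_X, C_mul,
      Nat.cast_add, Nat.cast_one, C_1]
    ring

lemma toPoly_derL (l : List ℤ) : toPoly (derL l) = derivative (toPoly l) := by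
  cases l with
  | nil => simp [derL, derAux]
  | cons a l => simp [derL, toPoly_derAux, derivative_mul]

/-- `f(x + 1)` from the list of `f` -/
def shiftL : List ℤ → List ℤ
  | [] => []
  | a :: l => let m := shiftL l; addL [a] (addL m (0 :: m))

lemma toPoly_shiftL (l : List ℤ) : toPoly (shiftL l) = (toPoly l).comp (X + 1) := by
  induction l with
  | nil => simp [shiftL]
  | cons a l ih =>
    simp only [shiftL, toPoly_addL, toPoly_cons, toPoly_nil, ih, add_comp, C_comp, mul_comp, X_comp, C_0]
    ring

/-- `f(-x)` -/
def negL : List ℤ → List ℤ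
  | [] => []
  | a :: l => a :: (negL l).map (fun x => -x)

lemma toPoly_map_neg (l : List ℤ) : toPoly (l.map (fun x => -x)) = -toPoly l := by
  induction l with
  | nil => simp
  | cons a l ih => simp only [List.map_cons, toPoly_cons, ih, C_neg]; ring

lemma toPoly_negL (l : List ℤ) : toPoly (negL l) = (toPoly l).comp (-X) := by
  induction l with
  | nil => simp [negL]
  | cons a l ih =>
    simp only [negL, toPoly_cons, toPoly_map_neg, ih, add_comp, C_comp, mul_comp, X_comp]
    ring

/-- a faster version of `negL` -/
def negF : Bool → List ℤ → List ℤ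
  | _, [] => []
  | false, a :: l => a :: negF true l
  | true, a :: l => (-a) :: negF false l

lemma toPoly_negF (l : List ℤ) : toPoly (negF false l) = (toPoly l).comp (-X) ∧
    toPoly (negF true l) = -(toPoly l).comp (-X) := by
  induction l with
  | nil => simp [negF]
  | cons a l ih =>
    simp only [negF, toPoly_cons, ih.1, ih.2, add_comp, C_comp, mul_comp, X_comp, C_neg]
    constructor <;> ring

lemma natDegree_toPoly (l : List ℤ) (h : l.getLastD 0 ≠ 0) : (toPoly l).natDegree + 1 = l.length := by
  have hne : l ≠ [] := by rintro rfl; simp at h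
  obtain ⟨m, a, rfl⟩ : ∃ m a, l = m ++ [a] := ⟨l.dropLast, l.getLast hne, (List.dropLast_append_getLast hne).symm⟩
  have ha : a ≠ 0 := by
    simpa using h
  have : (toPoly (m ++ [a])).natDegree = m.length := by
    apply natDegree_eq_of_le_of_coeff_ne_zero
    · rw [natDegree_le_iff_coeff_eq_zero]
      intro N hN
      rw [coeff_toPoly, List.getD_eq_getElem?_getD, List.getElem?_eq_none (by simp; omega)]
      rfl
    · rw [coeff_toPoly]
      simp [ha]
  rw [this]; simp

lemma toPoly_ne_zero (l : List ℤ) (h : l.getLastD 0 ≠ 0) : toPoly l ≠ 0 := by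
  have hne : l ≠ [] := by rintro rfl; simp at h
  obtain ⟨m, a, rfl⟩ : ∃ m a, l = m ++ [a] := ⟨l.dropLast, l.getLast hne, (List.dropLast_append_getLast hne).symm⟩
  have ha : a ≠ 0 := by simpa using h
  intro h0
  have := coeff_toPoly (m ++ [a]) m.length
  rw [h0] at this
  simp at this
  exact ha this.symm

/-- the real polynomial -/
noncomputable def toR (l : List ℤ) : ℝ[X] := (toPoly l).map (Int.castRingHom ℝ)

lemma toR_ne_zero (l : List ℤ) (h : l.getLastD 0 ≠ 0) : toR l ≠ 0 := by
  unfold toR
  rw [Ne, Polynomial.map_eq_zero_iff (by exact Int.cast_injective)]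
  exact toPoly_ne_zero l h

lemma coeffList_toR (l : List ℤ) (h : l.getLastD 0 ≠ 0) :
    coeffList (toR l) = l.reverse.map (fun z : ℤ => (z : ℝ)) := by
  have h1 : (toR l).degree.succ = l.length := by
    rw [withBotSucc_degree_eq_natDegree_add_one (toR_ne_zero l h)]
    unfold toR
    rw [natDegree_map_eq_of_injective (by exact Int.cast_injective), natDegree_toPoly l h]
  unfold coeffList
  rw [h1, List.map_reverse, List.map_reverse]
  congr 1
  apply List.ext_getElem
  · simp
  · intro i h2 h3
    simp only [List.getElem_map, List.getElem_range]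
    unfold toR
    rw [coeff_map, coeff_toPoly]
    simp at h3
    rw [List.getD_eq_getElem?_getD, List.getElem?_eq_getElem h3]
    rfl

/-- number of sign changes in a list; `s` tells whether the previous nonzero entry is positive -/
def var : Bool → List ℤ → ℕ
  | _, [] => 0
  | s, a :: l => if a = 0 then var s l else
      if decide (0 < a) = s then var s l else 1 + var (!s) l

/-- the sign attached to `s` -/
def sg (s : Bool) : SignType := if s = true then 1 else -1

lemma var_spec (l : List ℤ) (s : Bool) :
    (List.destutter' (· ≠ ·) (sg s)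
      (((l.map (fun z : ℤ => (z : ℝ))).map SignType.sign).filter (· ≠ 0))).length = var s l + 1 := by
  induction l generalizing s with
  | nil => simp [var]
  | cons a l ih =>
    simp only [List.map_cons]
    rcases eq_or_ne a 0 with h | h
    · subst h
      rw [Int.cast_zero, sign_zero, List.filter_cons_of_neg (by decide)]
      unfold var
      rw [if_pos rfl]
      exact ih s
    · have hs : SignType.sign (a : ℝ) = sg (decide (0 < a)) := by
        rcases lt_or_gt_of_ne h with h1 | h1
        · rw [sign_neg (by exact_mod_cast h1)]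
          simp [sg, h1.le]
        · rw [sign_pos (by exact_mod_cast h1)]
          simp [sg, h1]
      rw [hs, List.filter_cons_of_pos (by unfold sg; split_ifs <;> decide)]
      unfold var
      rw [if_neg h]
      by_cases h2 : decide (0 < a) = s
      · rw [if_pos h2, h2, List.destutter'_cons_neg (h := by simp)]
        exact ih s
      · have h3 : decide (0 < a) = !s := by
          cases s <;> simp_all
        rw [if_neg h2, h3, List.destutter'_cons_pos (h := by cases s <;> decide), List.length_cons, ih]
        omega

lemma signVariations_toR_le (l : List ℤ) (h : l.getLastD 0 ≠ 0) (s : Bool) :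
    (toR l).signVariations ≤ var s l.reverse := by
  unfold signVariations
  rw [coeffList_toR l h]
  have key : ∀ (m : List SignType) (s : SignType) , (m.destutter (· ≠ ·)).length ≤ (List.destutter' (· ≠ ·) s m).length := by
    intro m s
    cases m with
    | nil => simp
    | cons a m =>
      rw [List.destutter_cons']
      by_cases hs : s ≠ a
      · rw [List.destutter'_cons_pos (h := hs)]; simp
      · rw [List.destutter'_cons_neg (h := hs)]
        rw [not_not] at hs; rw [hs]
  have h1 := var_spec l.reverse s
  have := key (((l.reverse.map (fun z : ℤ => (z : ℝ))).map SignType.sign).filter (· ≠ 0)) (sg s)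
  rw [h1] at this
  exact Nat.sub_le_of_le_add this

/-! ### Counting roots in an interval -/

/-- multiset of roots of `P` in the open interval `(0,1)` is controlled by Descartes' rule for `P.reverse (X+1)` -/
lemma countP_Ioo_le (P Q : ℝ[X]) (hQ0 : Q ≠ 0)
    (hQ : ∀ (s : Multiset ℝ), (s.map (fun a => X - C a)).prod ∣ P → (∀ a ∈ s, 0 < a ∧ a < 1) →
      (s.map (fun a => X - C (a⁻¹ - 1))).prod ∣ Q) :
    P.roots.countP (fun x => 0 < x ∧ x < 1) ≤ Q.signVariations := by
  classical
  refine le_trans ?_ (roots_countP_pos_le_signVariations Q)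
  set s := P.roots.filter (fun x => 0 < x ∧ x < 1) with hs
  have h1 : (s.map (fun a => X - C a)).prod ∣ P := by
    refine dvd_trans (Multiset.prod_dvd_prod_of_le (Multiset.map_le_map (Multiset.filter_le _ _))) ?_
    exact prod_multiset_X_sub_C_dvd P
  have h2 := hQ s h1 (fun a ha => (Multiset.mem_filter.mp ha).2)
  have h3 : s.map (fun a => a⁻¹ - 1) ≤ Q.roots := by
    rw [← Multiset.prod_X_sub_C_dvd_iff_le_roots hQ0, Multiset.map_map]
    exact h2
  calc P.roots.countP (fun x => 0 < x ∧ x < 1) = Multiset.card s := by rw [Multiset.countP_eq_card_filter]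
    _ = Multiset.card (s.map (fun a => a⁻¹ - 1)) := (Multiset.card_map _ _).symm
    _ = (s.map (fun a => a⁻¹ - 1)).countP (0 < ·) := by
        symm
        rw [Multiset.countP_eq_card]
        intro a ha
        obtain ⟨b, hb, rfl⟩ := Multiset.mem_map.mp ha
        obtain ⟨h0, h1⟩ := (Multiset.mem_filter.mp hb).2
        have := one_lt_inv₀ h0 |>.mpr h1
        linarith
    _ ≤ Q.roots.countP (0 < ·) := Multiset.countP_le_of_le _ h3

lemma toPoly_reverse (l : List ℤ) : toPoly l.reverse = (toPoly l).reflect (l.length - 1) := by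
  ext i
  rw [coeff_toPoly, coeff_reflect, coeff_toPoly]
  rw [List.getD_eq_getElem?_getD, List.getD_eq_getElem?_getD]
  by_cases hi : i < l.length
  · rw [List.getElem?_reverse hi, revAt_le (by omega)]
  · rw [List.getElem?_eq_none (by simp; omega)]
    by_cases h2 : i ≤ l.length - 1
    · have : l.length = 0 := by omega
      rw [List.length_eq_zero_iff] at this
      subst this; simp
    · rw [revAt_eq_self_of_lt (by omega), List.getElem?_eq_none (by omega)]

lemma toR_reverse (l : List ℤ) (h : l.getLastD 0 ≠ 0) : toR l.reverse = (toR l).reverse := by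
  unfold toR
  rw [toPoly_reverse, Polynomial.reverse, natDegree_map_eq_of_injective (by exact Int.cast_injective)]
  have := natDegree_toPoly l h
  rw [show l.length - 1 = (toPoly l).natDegree by omega, reflect_map]

lemma toR_shiftL (l : List ℤ) : toR (shiftL l) = (toR l).comp (X + 1) := by
  unfold toR
  rw [toPoly_shiftL, Polynomial.map_comp]; simp

lemma dvd_reverse_comp (P : ℝ[X]) (s : Multiset ℝ) (h : (s.map (fun a => X - C a)).prod ∣ P)
    (hs : ∀ a ∈ s, 0 < a ∧ a < 1) :
    (s.map (fun a => X - C (a⁻¹ - 1))).prod ∣ P.reverse.comp (X + 1) := by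
  obtain ⟨R, rfl⟩ := h
  induction s using Multiset.induction_on generalizing R with
  | empty => simp
  | cons a s ih =>
    have ha := hs a (Multiset.mem_cons_self a s)
    rw [Multiset.map_cons, Multiset.prod_cons, Multiset.map_cons, Multiset.prod_cons, mul_assoc,
      reverse_mul_of_domain, mul_comp]
    refine mul_dvd_mul ?_ (ih (fun b hb => hs b (Multiset.mem_cons_of_mem hb)) R)
    have h1 : (X - C a : ℝ[X]).reverse = 1 - C a * X := by
      have : (X - C a : ℝ[X]) = X + C (-a) := by rw [C_neg]; ring
      rw [Polynomial.reverse, natDegree_X_sub_C, this, reflect_add, reflect_C]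
      have : reflect 1 (X : ℝ[X]) = 1 := by
        have := reflect_monomial (R := ℝ) 1 1
        simp only [revAt_le (le_refl 1), Nat.sub_self, pow_one, pow_zero] at this
        exact this
      rw [this, C_neg]; ring
    rw [h1]
    refine ⟨-C a, ?_⟩
    simp only [sub_comp, one_comp, mul_comp, C_comp, X_comp]
    have h2 : C a * C a⁻¹ = (1 : ℝ[X]) := by
      rw [← C_mul, mul_inv_cancel₀ ha.1.ne', C_1]
    rw [C_sub, C_1]
    linear_combination -h2

/-- `m` is a list for `f(x + 1)`, where `l` is a list for `f` -/
def IsShift (l m : List ℤ) : Prop := toPoly m = (toPoly l).comp (X + 1)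

lemma IsShift.toR {l m : List ℤ} (h : IsShift l m) : toR m = (toR l).comp (X + 1) := by
  unfold PolyList.toR
  rw [h, Polynomial.map_comp]; simp

/-- Descartes' rule for the interval `(0,1)`. -/
theorem countP_unit_le (l m : List ℤ) (hm : IsShift l.reverse m) (h : l.getLastD 0 ≠ 0)
    (h' : m.getLastD 0 ≠ 0) (s : Bool) :
    (toR l).roots.countP (fun x => 0 < x ∧ x < 1) ≤ var s m.reverse := by
  refine (countP_Ioo_le (toR l) (toR m) (toR_ne_zero _ h') ?_).trans
    (signVariations_toR_le _ h' s)
  intro t ht hts
  rw [hm.toR, toR_reverse l h]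
  exact dvd_reverse_comp _ t ht hts

lemma toR_negF (l : List ℤ) : toR (negF false l) = (toR l).comp (-X) := by
  unfold toR
  rw [(toPoly_negF l).1, Polynomial.map_comp]; simp

/-- the numerator of the value at `a / b`, with denominator `b ^ length` -/
def nval (a b : ℤ) : List ℤ → ℤ
  | [] => 0
  | c :: l => c * b ^ (l.length + 1) + a * nval a b l

lemma nval_spec (a b : ℤ) (hb : b ≠ 0) (l : List ℤ) :
    (toR l).eval ((a : ℝ) / b) * (b : ℝ) ^ l.length = (nval a b l : ℝ) := by
  have hb' : (b : ℝ) ≠ 0 := by exact_mod_cast hb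
  induction l with
  | nil => simp [toR, nval]
  | cons c l ih =>
    have : (toR (c :: l)).eval ((a : ℝ) / b) = c + (a : ℝ) / b * (toR l).eval ((a : ℝ) / b) := by
      simp [toR]
    rw [this, nval, List.length_cons, Int.cast_add, Int.cast_mul, Int.cast_mul, ← ih, pow_succ]
    push_cast
    field_simp
    ring

/-- roots counted by `countP` are moved by an affine substitution `x ↦ x + 1` -/
lemma countP_gt_one_le (l m : List ℤ) (hm : IsShift l m) (h' : m.getLastD 0 ≠ 0) (s : Bool) :
    (toR l).roots.countP (fun x => 1 < x) ≤ var s m.reverse := by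
  classical
  refine le_trans ?_ (signVariations_toR_le _ h' s)
  refine le_trans ?_ (roots_countP_pos_le_signVariations _)
  set P := toR l
  set t := P.roots.filter (fun x => 1 < x) with ht
  have h1 : (t.map (fun a => X - C a)).prod ∣ P :=
    dvd_trans (Multiset.prod_dvd_prod_of_le (Multiset.map_le_map (Multiset.filter_le _ _)))
      (prod_multiset_X_sub_C_dvd P)
  have h2 : ((t.map (fun a => a - 1)).map (fun a => X - C a)).prod ∣ toR m := by
    rw [hm.toR]
    obtain ⟨R, hR⟩ := h1
    have h4 : (toR l).comp (X + 1) = ((t.map (fun a => X - C a)).prod).comp (X + 1) * R.comp (X + 1) := by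
      rw [← mul_comp, ← hR]
    rw [h4]
    refine dvd_trans (dvd_of_eq ?_) (dvd_mul_right _ _)
    rw [Multiset.map_map, multiset_prod_comp, Multiset.map_map]
    congr 1
    apply Multiset.map_congr rfl
    intro a _
    simp; ring
  have h3 : t.map (fun a => a - 1) ≤ (toR m).roots := by
    rw [← Multiset.prod_X_sub_C_dvd_iff_le_roots (toR_ne_zero _ h')]
    exact h2
  calc P.roots.countP (fun x => 1 < x) = Multiset.card t := by rw [Multiset.countP_eq_card_filter]
    _ = Multiset.card (t.map (fun a => a - 1)) := (Multiset.card_map _ _).symm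
    _ = (t.map (fun a => a - 1)).countP (0 < ·) := by
        symm
        rw [Multiset.countP_eq_card]
        intro a ha
        obtain ⟨b, hb, rfl⟩ := Multiset.mem_map.mp ha
        have := (Multiset.mem_filter.mp hb).2
        linarith
    _ ≤ (toR m).roots.countP (0 < ·) := Multiset.countP_le_of_le _ h3

/-- number of positive roots -/
lemma countP_pos_le (l m m' : List ℤ) (hm : IsShift l m) (hm' : IsShift l.reverse m') (h : l.getLastD 0 ≠ 0)
    (h1 : m.getLastD 0 ≠ 0) (h2 : m'.getLastD 0 ≠ 0) (h3 : nval 1 1 l ≠ 0) (s t : Bool) :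
    (toR l).roots.countP (fun x => 0 < x) ≤ var s m'.reverse + var t m.reverse := by
  classical
  have e : (toR l).roots.countP (fun x => 0 < x) =
      (toR l).roots.countP (fun x => 0 < x ∧ x < 1) + (toR l).roots.countP (fun x => 1 < x) := by
    rw [Multiset.countP_eq_card_filter, Multiset.countP_eq_card_filter, Multiset.countP_eq_card_filter,
      ← Multiset.card_add]
    rw [← Multiset.filter_add_not (fun x => x < 1) (Multiset.filter (fun x => 0 < x) (toR l).roots),
      Multiset.filter_filter, Multiset.filter_filter]
    congr 1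
    congr 1
    · apply Multiset.filter_congr; intro x _; exact and_comm
    · apply Multiset.filter_congr
      intro x hx
      have hne : x ≠ 1 := by
        rintro rfl
        have h5 := nval_spec 1 1 one_ne_zero l
        have h4 : (toR l).eval 1 = 0 := (mem_roots'.mp hx).2
        apply h3
        have : ((nval 1 1 l : ℤ) : ℝ) = 0 := by
          rw [← h5]; push_cast; rw [div_one, h4, zero_mul]
        exact_mod_cast this
      constructor
      · rintro ⟨h5, _⟩
        exact lt_of_le_of_ne (not_lt.mp h5) (Ne.symm hne)
      · intro h5; exact ⟨by linarith, by linarith⟩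
  rw [e]
  exact add_le_add (countP_unit_le l m' hm' h h2 s) (countP_gt_one_le l m hm h1 t)

lemma roots_comp_neg (P : ℝ[X]) (hP : P ≠ 0) :
    P.roots.map (fun x => -x) ≤ (P.comp (-X)).roots := by
  have h0 : P.comp (-X) ≠ 0 := by
    intro h
    apply hP
    have := congrArg (fun Q => Q.comp (-X)) h
    simpa [comp_assoc] using this
  rw [← Multiset.prod_X_sub_C_dvd_iff_le_roots h0, Multiset.map_map]
  obtain ⟨R, hR⟩ := prod_multiset_X_sub_C_dvd P
  have h4 : P.comp (-X) = ((P.roots.map (fun a => X - C a)).prod).comp (-X) * R.comp (-X) := by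
    rw [← mul_comp, ← hR]
  rw [h4, multiset_prod_comp, Multiset.map_map]
  refine dvd_trans ?_ (dvd_mul_right _ _)
  have h5 : (Multiset.map ((fun x => X - C x) ∘ fun x => -x) P.roots) =
      Multiset.map (fun x => (-1 : ℝ[X]) * x) (Multiset.map ((fun p => p.comp (-X)) ∘ fun a => X - C a) P.roots) := by
    rw [Multiset.map_map]
    apply Multiset.map_congr rfl
    intro a _
    simp; ring
  rw [h5, Multiset.prod_map_mul]
  have h6 : (Multiset.map (fun _ => (-1 : ℝ[X])) (Multiset.map ((fun p => p.comp (-X)) ∘ fun a => X - C a) P.roots)).prod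
      = (-1) ^ Multiset.card P.roots := by
    rw [Multiset.map_const', Multiset.prod_replicate, Multiset.card_map]
  rw [h6]
  have h7 : IsUnit ((-1 : ℝ[X]) ^ Multiset.card P.roots) := (isUnit_one.neg).pow _
  rw [Multiset.map_id']
  exact (IsUnit.mul_left_dvd h7).mpr dvd_rfl

/-- **Upper bound for the number of real roots, with multiplicity.** -/
theorem card_roots_le (l m1 m2 m3 m4 : List ℤ) (h : l.getLastD 0 ≠ 0) (h0 : l.headD 0 ≠ 0)
    (s1 : IsShift l m1) (s2 : IsShift l.reverse m2) (s3 : IsShift (negF false l) m3)
    (s4 : IsShift (negF false l).reverse m4)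
    (h1 : m1.getLastD 0 ≠ 0) (h2 : m2.getLastD 0 ≠ 0) (h3 : nval 1 1 l ≠ 0)
    (g : (negF false l).getLastD 0 ≠ 0) (g1 : m3.getLastD 0 ≠ 0)
    (g2 : m4.getLastD 0 ≠ 0) (g3 : nval 1 1 (negF false l) ≠ 0)
    (s t s' t' : Bool) :
    Multiset.card (toR l).roots ≤
      (var s m2.reverse + var t m1.reverse) + (var s' m4.reverse + var t' m3.reverse) := by
  classical
  have e : Multiset.card (toR l).roots =
      (toR l).roots.countP (fun x => 0 < x) + (toR l).roots.countP (fun x => x < 0) := by
    rw [Multiset.countP_eq_card_filter, Multiset.countP_eq_card_filter, ← Multiset.card_add]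
    congr 1
    nth_rewrite 1 [← Multiset.filter_add_not (fun x => 0 < x) (toR l).roots]
    congr 1
    apply Multiset.filter_congr
    intro x hx
    have hne : x ≠ 0 := by
      rintro rfl
      have h4 : (toR l).eval 0 = 0 := (mem_roots'.mp hx).2
      cases l with
      | nil => simp at h0
      | cons a l =>
        simp [toR] at h4
        simp at h0
        exact h0 (by exact_mod_cast h4)
    constructor
    · intro h5; exact lt_of_le_of_ne (not_lt.mp h5) hne
    · intro h5; exact not_lt.mpr h5.le
  rw [e]
  refine add_le_add (countP_pos_le l m1 m2 s1 s2 h h1 h2 h3 s t) ?_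
  refine le_trans ?_ (countP_pos_le (negF false l) m3 m4 s3 s4 g g1 g2 g3 s' t')
  rw [toR_negF]
  refine le_trans ?_ (Multiset.countP_le_of_le _ (roots_comp_neg (toR l) (toR_ne_zero l h)))
  rw [Multiset.countP_map, Multiset.countP_eq_card_filter]
  apply le_of_eq
  congr 1
  apply Multiset.filter_congr
  intro x _
  constructor <;> intro h <;> linarith

/-- **Lower bound for the number of real roots from sign changes.** -/
theorem le_card_roots (P : ℝ[X]) (hP : P ≠ 0) (n : ℕ) (x : ℕ → ℝ) (hx : ∀ i < n, x i < x (i + 1))
    (hs : ∀ i < n, P.eval (x i) * P.eval (x (i + 1)) < 0) : n ≤ Multiset.card P.roots := by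
  classical
  have hmono : ∀ j ≤ n, ∀ i ≤ j, x i ≤ x j := by
    intro j
    induction j with
    | zero => intro _ i hi; rw [Nat.le_zero.mp hi]
    | succ j ih =>
      intro hj i hi
      rcases Nat.lt_or_ge i (j + 1) with h | h
      · exact (ih (by omega) i (by omega)).trans (hx j (by omega)).le
      · rw [Nat.le_antisymm hi h]
  have h1 : ∀ i < n, ∃ r, x i < r ∧ r < x (i + 1) ∧ P.eval r = 0 := by
    intro i hi
    have hlt : x i < x (i + 1) := hx i hi
    rcases mul_neg_iff.mp (hs i hi) with ⟨ha, hb⟩ | ⟨ha, hb⟩
    · obtain ⟨r, hr, hr0⟩ := intermediate_value_Ioo' hlt.le (P.continuous.continuousOn) (Set.mem_Ioo.mpr ⟨hb, ha⟩)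
      exact ⟨r, hr.1, hr.2, hr0⟩
    · obtain ⟨r, hr, hr0⟩ := intermediate_value_Ioo hlt.le (P.continuous.continuousOn) (Set.mem_Ioo.mpr ⟨ha, hb⟩)
      exact ⟨r, hr.1, hr.2, hr0⟩
  choose! r hr1 hr2 hr3 using h1
  have hinj : Set.InjOn r (Finset.range n : Set ℕ) := by
    intro i hi j hj hij
    simp only [Finset.coe_range, Set.mem_Iio] at hi hj
    by_contra hne
    rcases lt_or_gt_of_ne hne with h | h
    · have := hmono j hj.le (i + 1) h
      have a1 := hr2 i hi
      have a2 := hr1 j hj
      linarith [hij.le, hij.ge, this]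
    · have := hmono i hi.le (j + 1) h
      have a1 := hr2 j hj
      have a2 := hr1 i hi
      linarith [hij.le, hij.ge, this]
  calc n = (Finset.range n).card := (Finset.card_range n).symm
    _ = ((Finset.range n).image r).card := (Finset.card_image_of_injOn hinj).symm
    _ ≤ P.roots.toFinset.card := by
        apply Finset.card_le_card
        intro y hy
        obtain ⟨i, hi, rfl⟩ := Finset.mem_image.mp hy
        rw [Multiset.mem_toFinset, mem_roots hP]
        exact hr3 i (Finset.mem_range.mp hi)
    _ ≤ Multiset.card P.roots := Multiset.toFinset_card_le _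

/-- subtraction -/
def subL (l m : List ℤ) : List ℤ := addL l (smulL (-1) m)

/-- all entries are zero -/
def allZero : List ℤ → Bool
  | [] => true
  | a :: l => (a == 0) && allZero l

lemma toPoly_eq_zero (l : List ℤ) (h : allZero l = true) : toPoly l = 0 := by
  induction l with
  | nil => rfl
  | cons a l ih =>
    simp only [allZero, Bool.and_eq_true, beq_iff_eq] at h
    rw [toPoly_cons, h.1, ih h.2]; simp

lemma toPoly_eq_of_sub (l m : List ℤ) (h : allZero (subL l m) = true) : toPoly l = toPoly m := by
  have := toPoly_eq_zero _ h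
  rw [subL, toPoly_addL, toPoly_smulL, C_neg, C_1] at this
  linear_combination this

/-! ### Kronecker substitution -/

/-- value at `b` (Horner) -/
def hor (b : ℤ) : List ℤ → ℤ
  | [] => 0
  | a :: l => a + b * hor b l

lemma eval_toPoly (b : ℤ) (l : List ℤ) : (toPoly l).eval b = hor b l := by
  induction l with
  | nil => simp [hor]
  | cons a l ih => simp [hor, ih]

/-- An integer polynomial with coefficients smaller than `b` which vanishes at `b` is zero. -/
lemma eq_zero_of_eval (b : ℤ) (n : ℕ) : ∀ f : ℤ[X], f.natDegree < n → (∀ i, |f.coeff i| < b) → f.eval b = 0 →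
    f = 0 := by
  induction n with
  | zero => intro f h; omega
  | succ n ih =>
    intro f hn hf h
    have hb : 0 < b := lt_of_le_of_lt (abs_nonneg _) (hf 0)
    have h1 : f.eval b = f.divX.eval b * b + f.coeff 0 := by
      conv_lhs => rw [← divX_mul_X_add f]
      simp
    have h2 : f.coeff 0 = 0 := by
      have hd : b ∣ f.coeff 0 := ⟨-f.divX.eval b, by linear_combination h - h1⟩
      exact Int.eq_zero_of_abs_lt_dvd hd (hf 0)
    have h3 : f.divX.eval b = 0 := by
      rw [h1, h2, add_zero] at h
      exact (mul_eq_zero.mp h).resolve_right hb.ne'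
    have h4 : f.divX = 0 := by
      by_cases h0 : f.natDegree = 0
      · rw [eq_C_of_natDegree_eq_zero h0, divX_C]
      · refine ih f.divX ?_ (fun i => ?_) h3
        · rw [natDegree_divX_eq_natDegree_tsub_one]; omega
        · rw [coeff_divX]; exact hf _
    rw [← divX_mul_X_add f, h4, h2]; simp

/-- `n` balanced digits in base `b` with offset `h` -/
def dec (b h : ℕ) : ℕ → ℕ → List ℤ
  | 0, _ => []
  | n + 1, N => (((N % b : ℕ) : ℤ) - h) :: dec b h n (N / b)

/-- the total offset -/
def off (b h : ℕ) : ℕ → ℤ
  | 0 => 0
  | n + 1 => h + b * off b h n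

lemma hor_dec (b h n N : ℕ) (hN : N < b ^ n) : hor b (dec b h n N) = N - off b h n := by
  induction n generalizing N with
  | zero => simp at hN; subst hN; simp [dec, hor, off]
  | succ n ih =>
    have : N / b < b ^ n := Nat.div_lt_of_lt_mul (by rw [← pow_succ']; exact hN)
    simp only [dec, hor, off, ih _ this]
    have h2 : ((N % b : ℕ) : ℤ) + b * ((N / b : ℕ) : ℤ) = N := by exact_mod_cast Nat.mod_add_div N b
    linear_combination h2

lemma abs_dec_le (h n N : ℕ) (hh : 0 < h) (i : ℕ) : |(dec (2 * h) h n N).getD i 0| ≤ h := by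
  induction n generalizing N i with
  | zero => simp [dec]
  | succ n ih =>
    cases i with
    | zero =>
      simp only [dec, List.getD_cons_zero]
      have : N % (2 * h) < 2 * h := Nat.mod_lt _ (by omega)
      rw [abs_le]
      constructor <;> omega
    | succ i =>
      simp only [dec, List.getD_cons_succ]
      exact ih _ _

/-- a bound for the coefficients of `f(x+1)` -/
def bnd : List ℤ → ℕ
  | [] => 0
  | a :: l => a.natAbs + 2 * bnd l

lemma abs_coeff_comp_le (l : List ℤ) (i : ℕ) : |((toPoly l).comp (X + 1)).coeff i| ≤ bnd l := by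
  induction l generalizing i with
  | nil => simp [bnd]
  | cons a l ih =>
    have e : (toPoly (a :: l)).comp (X + 1) = C a + (X * (toPoly l).comp (X + 1) + (toPoly l).comp (X + 1)) := by
      simp only [toPoly_cons, add_comp, C_comp, mul_comp, X_comp]; ring
    rw [e, coeff_add, coeff_add]
    have h1 : |(C a : ℤ[X]).coeff i| ≤ (a.natAbs : ℤ) := by
      rw [coeff_C]; split_ifs
      · exact (Int.natCast_natAbs a).ge
      · simp
    have h2 : |(X * (toPoly l).comp (X + 1)).coeff i| ≤ (bnd l : ℤ) := by
      cases i with
      | zero => simp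
      | succ i => rw [coeff_X_mul]; exact ih i
    have h3 := ih i
    have e2 : ((bnd (a :: l) : ℕ) : ℤ) = (a.natAbs : ℤ) + 2 * (bnd l : ℤ) := by
      rw [bnd]; push_cast; rfl
    rw [e2]
    generalize (C a : ℤ[X]).coeff i = A at *
    generalize (X * (toPoly l).comp (X + 1)).coeff i = B at *
    generalize ((toPoly l).comp (X + 1)).coeff i = D at *
    have h4 := abs_add_le A (B + D)
    have h5 := abs_add_le B D
    linarith

/-- the list of `f(x+1)`, computed with large integers -/
def kshift (h : ℕ) (l : List ℤ) : List ℤ :=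
  dec (2 * h) h l.length (hor (2 * h + 1) l + off (2 * h) h l.length).toNat

/-- the checks needed for `kshift` -/
def kok (h : ℕ) (l : List ℤ) : Bool :=
  decide (bnd l < h) && decide (0 ≤ hor (2 * h + 1) l + off (2 * h) h l.length) &&
    decide (hor (2 * h + 1) l + off (2 * h) h l.length < (2 * h) ^ l.length)

theorem isShift_kshift (h : ℕ) (l : List ℤ) (hk : kok h l = true) : IsShift l (kshift h l) := by
  simp only [kok, Bool.and_eq_true, decide_eq_true_eq] at hk
  obtain ⟨⟨h1, h2⟩, h3⟩ := hk
  have hh : 0 < h := by omega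
  unfold IsShift
  rw [← sub_eq_zero]
  refine eq_zero_of_eval (2 * h) ((toPoly (kshift h l) - (toPoly l).comp (X + 1)).natDegree + 1) _ (Nat.lt_succ_self _)
    (fun i => ?_) ?_
  · rw [coeff_sub, coeff_toPoly]
    have a1 := abs_dec_le h l.length (hor (2 * h + 1) l + off (2 * h) h l.length).toNat hh i
    have a2 := abs_coeff_comp_le l i
    have h1' : (bnd l : ℤ) < h := by exact_mod_cast h1
    calc _ ≤ |(kshift h l).getD i 0| + |((toPoly l).comp (X + 1)).coeff i| := abs_sub _ _
      _ < 2 * h := by unfold kshift; linarith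
  · rw [eval_sub, eval_toPoly, eval_comp, eval_add, eval_X, eval_one, eval_toPoly]
    have h4 : ((hor (2 * h + 1) l + off (2 * h) h l.length).toNat : ℤ) = hor (2 * h + 1) l + off (2 * h) h l.length :=
      Int.toNat_of_nonneg h2
    have h5 := hor_dec (2 * h) h l.length (hor (2 * h + 1) l + off (2 * h) h l.length).toNat (by
      have : ((hor (2 * h + 1) l + off (2 * h) h l.length).toNat : ℤ) < ((2 * h) ^ l.length : ℕ) := by
        rw [h4]; push_cast; exact h3
      exact_mod_cast this)
    rw [h4] at h5
    unfold kshift
    push_cast at h5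
    rw [h5]; ring

end Pool.Agent.Q25.PolyList
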