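import Pool.Agent.Q21.DW.Dy

set_option autoImplicit false

/-! # Boundedly many exceptions in all intervals of power length: power savings -/

namespace Pool.Agent.Q25.PsWin

open Finset

/-- If all intervals `[N, N + N ^ c]` contain at most `M` exceptions, there are at most `C N ^ t` exceptions up to
`N`, for all `t > 1 - c`. -/
theorem ps_windows {B : ℕ → Prop} {c : ℝ} (hc : 0 < c) (hc1 : c ≤ 1) {M : ℕ}
    (h : ∀ N₀ : ℕ, 1 ≤ N₀ → ∃ E : Finset ℕ, E.card ≤ M ∧ ∀ m : ℕ, N₀ ≤ m → (m : ℝ) ≤ N₀ + (N₀ : ℝ) ^ c →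
      m ∉ E → ¬ B m) : Pool.Agent.Q21.DW.PS (1 - c) B := by
  classical
  refine Pool.Agent.Q21.DW.ps_dyadic' (by linarith) ?_
  intro t ht
  refine ⟨(M : ℝ) * 5, 2, fun N hN hN1 => ?_⟩
  have hN2 : (2 : ℝ) ≤ N := by exact_mod_cast hN
  have hN0 : (0 : ℝ) < N := by linarith
  set w : ℕ := ⌊((N : ℝ) / 2) ^ c⌋₊ with hw
  have hw1 : 1 ≤ w := by
    apply Nat.le_floor
    rw [Nat.cast_one]
    exact Real.one_le_rpow (by linarith) hc.le
  have hwN : (w : ℝ) ≤ ((N : ℝ) / 2) ^ c := Nat.floor_le (by positivity)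
  have hw2 : (N : ℝ) ^ c / 4 ≤ w := by
    have h6 : (N : ℝ) ^ c / 2 ≤ ((N : ℝ) / 2) ^ c := by
      rw [Real.div_rpow hN0.le (by norm_num)]
      apply div_le_div_of_nonneg_left (by positivity) (by positivity)
      calc (2 : ℝ) ^ c ≤ (2 : ℝ) ^ (1 : ℝ) := Real.rpow_le_rpow_of_exponent_le (by norm_num) hc1
        _ = 2 := Real.rpow_one 2
    have h7 : ((N : ℝ) / 2) ^ c < (w : ℝ) + 1 := Nat.lt_floor_add_one _
    have h8 : (1 : ℝ) ≤ w := by exact_mod_cast hw1
    linarith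
  -- the windows
  set a : ℕ → ℕ := fun k => (N + 1) / 2 + k * w with ha
  have ha1 : ∀ k, 1 ≤ a k := fun k => by
    have : 1 ≤ (N + 1) / 2 := by omega
    simp only [ha]
    exact this.trans (Nat.le_add_right _ _)
  choose! E hE hEM using fun k : ℕ => h (a k) (ha1 k)
  have haN : ∀ k, (w : ℝ) ≤ (a k : ℝ) ^ c := by
    intro k
    refine hwN.trans (Real.rpow_le_rpow (by positivity) ?_ hc.le)
    have h9 : N ≤ 2 * ((N + 1) / 2) := by omega
    have h10 : N ≤ 2 * a k := by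
      simp only [ha]
      have := Nat.zero_le (k * w)
      omega
    have h11 : (N : ℝ) ≤ 2 * a k := by exact_mod_cast h10
    linarith
  have hsub : {n : ℕ | 1 ≤ n ∧ n ≤ N ∧ N < 2 * n ∧ B n} ⊆ (((range (N / w + 1)).biUnion E : Finset ℕ) : Set ℕ) := by
    rintro n ⟨hn1, hn2, hn3, hn4⟩
    set k : ℕ := (n - (N + 1) / 2) / w with hk
    have hmn : (N + 1) / 2 ≤ n := by omega
    have h12 : k * w ≤ n - (N + 1) / 2 := Nat.div_mul_le_self _ _
    have h13 : n - (N + 1) / 2 < (k + 1) * w := by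
      have := Nat.lt_div_mul_add (a := n - (N + 1) / 2) (b := w) hw1
      calc n - (N + 1) / 2 < (n - (N + 1) / 2) / w * w + w := this
        _ = (k + 1) * w := by rw [hk]; ring
    have hkr : k < N / w + 1 := by
      have : k ≤ N / w := Nat.div_le_div_right (by omega)
      omega
    rw [mem_coe, mem_biUnion]
    refine ⟨k, mem_range.2 hkr, ?_⟩
    by_contra hcon
    refine hEM k n ?_ ?_ hcon hn4
    · simp only [ha]
      omega
    · have h14 : n ≤ a k + w := by
        simp only [ha]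
        have h15 : (k + 1) * w = k * w + w := by ring
        omega
      have h16 : (n : ℝ) ≤ a k + w := by exact_mod_cast h14
      linarith [haN k]
  have hcard : (({n : ℕ | 1 ≤ n ∧ n ≤ N ∧ N < 2 * n ∧ B n} : Set ℕ).ncard : ℝ) ≤
      (((range (N / w + 1)).biUnion E).card : ℝ) := by
    rw [← Set.ncard_coe_finset]
    exact_mod_cast Set.ncard_le_ncard hsub (Finset.finite_toSet _)
  refine hcard.trans ?_
  have h17 : ((range (N / w + 1)).biUnion E).card ≤ (N / w + 1) * M := by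
    refine card_biUnion_le.trans ((sum_le_card_nsmul _ _ M fun k _ => hE k).trans ?_)
    rw [card_range, smul_eq_mul]
  have h18 : ((N / w + 1 : ℕ) : ℝ) ≤ 5 * (N : ℝ) ^ (1 - c) := by
    have h19 : ((N / w : ℕ) : ℝ) ≤ (N : ℝ) / w := Nat.cast_div_le
    have h20 : (N : ℝ) / w ≤ 4 * (N : ℝ) ^ (1 - c) := by
      have hw0 : (0 : ℝ) < w := by exact_mod_cast hw1
      rw [div_le_iff₀ hw0]
      calc (N : ℝ) = (N : ℝ) ^ (1 - c) * (N : ℝ) ^ c := by
            rw [← Real.rpow_add hN0]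
            simp
        _ = 4 * (N : ℝ) ^ (1 - c) * ((N : ℝ) ^ c / 4) := by ring
        _ ≤ _ := mul_le_mul_of_nonneg_left hw2 (by positivity)
    have h21 : (1 : ℝ) ≤ (N : ℝ) ^ (1 - c) := Real.one_le_rpow (by linarith) (by linarith)
    push_cast
    linarith
  calc (((range (N / w + 1)).biUnion E).card : ℝ) ≤ ((N / w + 1 : ℕ) : ℝ) * M := by exact_mod_cast h17
    _ ≤ 5 * (N : ℝ) ^ (1 - c) * M := mul_le_mul_of_nonneg_right h18 (Nat.cast_nonneg _)
    _ ≤ 5 * (N : ℝ) ^ t * M := mul_le_mul_of_nonneg_right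
        (mul_le_mul_of_nonneg_left (Real.rpow_le_rpow_of_exponent_le (by linarith) ht.le) (by norm_num))
        (Nat.cast_nonneg _)
    _ = _ := by ring

end Pool.Agent.Q25.PsWin
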