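import Pool.Agent.TH872.Sq.W14

set_option autoImplicit false

/-!
# Systems of polynomials of degree one and two at integers with independent random digits

From the theorem `Pool.Agent.TH872.Sq.main_vm_w` of the starting library (with the weights `log p`) to the probability
that all the values are primes.
-/

namespace Pool.Agent.Q25.RDig

open Finset
open Pool.Agent.TH872.Sq
open Pool.Agent.H373R2.T7 (pz Vz mem_pz Vz_pos)

/-- the expectation of the product of the logarithms of the values, over the `n` for which they are all primes -/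
noncomputable def E1 (b : ℕ) (w : ℕ → ℕ → ℝ) (k : ℕ) {r : ℕ} (κ β c : Fin r → ℤ) : ℝ :=
  ∑ n ∈ range (b ^ k), P b w 0 k n * ∏ j, fx th (qv (κ j) (β j) n + c j)

/-- the probability that all the values are primes -/
noncomputable def Pr (b : ℕ) (w : ℕ → ℕ → ℝ) (k : ℕ) {r : ℕ} (κ β c : Fin r → ℤ) : ℝ :=
  ∑ n ∈ (range (b ^ k)).filter (fun n => ∀ j, (qv (κ j) (β j) n + c j).toNat.Prime), P b w 0 k n

lemma Sg_nonneg (b : ℕ) {r : ℕ} (w : ℕ → ℕ → ℝ) (η : ℝ) (hw : Dig b η w) (i k : ℕ) (κ β c : Fin r → ℤ) (z : ℕ) :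
    0 ≤ Sg b w i k κ β c z := by
  unfold Sg
  refine mul_nonneg (mul_nonneg (pow_nonneg (inv_nonneg.2 (Vz_pos z).le) _)
    (sum_nonneg fun n _ => P_nonneg hw _ _ _)) (prod_nonneg fun p hp => ?_)
  rw [mem_filter, mem_pz] at hp
  have hp0 : (0 : ℝ) < p := by exact_mod_cast hp.1.2.pos
  rw [sub_nonneg, div_le_one hp0]
  exact_mod_cast nu_le_p κ β c p

/-- the vectors with one small value -/
lemma small_count (b k : ℕ) {r : ℕ} (κ β σ : Fin r → ℤ) (hσ : ∀ j, σ j = 1 ∨ σ j = -1) (X : Fin r → ℕ) (Y : Fin r → ℝ)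
    (hY : ∀ j, 0 ≤ Y j) (t : ℝ) (hYX : ∀ j, Y j ≤ t * X j) (hb : 0 < b ^ k)
    (Q : (Fin r → ℕ) → Prop) [DecidablePred Q]
    (hQ : ∀ c ∈ Fintype.piFinset (fun j : Fin r => Icc 1 (X j)), Q c →
      (∀ j, ∀ n < b ^ k, 1 ≤ qv (κ j) (β j) n + σ j * (c j : ℤ)) ∧
      ∃ j, ∃ n < b ^ k, ((qv (κ j) (β j) n + σ j * (c j : ℤ) : ℤ) : ℝ) < Y j) :
    (((Fintype.piFinset (fun j : Fin r => Icc 1 (X j))).filter Q).card : ℝ) ≤ r * t * ∏ j, (X j : ℝ) := by
  classical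
  -- the minimum of the polynomial
  have hmin : ∀ j, ∃ n₀ < b ^ k, ∀ n < b ^ k, qv (κ j) (β j) n₀ ≤ qv (κ j) (β j) n := by
    intro j
    obtain ⟨n₀, h1, h2⟩ := exists_min_image (range (b ^ k)) (fun n => qv (κ j) (β j) n) ⟨0, mem_range.2 hb⟩
    exact ⟨n₀, mem_range.1 h1, fun n hn => h2 n (mem_range.2 hn)⟩
  choose n₀ hn₀ hmin using hmin
  obtain ⟨T, hT⟩ : ∃ T : Fin r → Finset ℕ, ∀ j, T j = (Icc 1 (X j)).filter (fun c : ℕ =>
    1 ≤ qv (κ j) (β j) (n₀ j) + σ j * (c : ℤ) ∧ ((qv (κ j) (β j) (n₀ j) + σ j * (c : ℤ) : ℤ) : ℝ) < Y j) := ⟨_, fun _ => rfl⟩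
  have hTc : ∀ j, ((T j).card : ℝ) ≤ Y j := by
    intro j
    have h1 : ((T j).card : ℕ) ≤ (Icc 1 ⌊Y j⌋₊).card := by
      apply card_le_card_of_injOn (fun c : ℕ => (qv (κ j) (β j) (n₀ j) + σ j * (c : ℤ)).toNat)
      · intro c hc
        rw [mem_coe, hT j, mem_filter] at hc
        obtain ⟨-, h2, h3⟩ := hc
        simp only [coe_Icc, Set.mem_Icc]
        refine ⟨by omega, Nat.le_floor ?_⟩
        refine le_trans ?_ h3.le
        have h4 : (((qv (κ j) (β j) (n₀ j) + σ j * (c : ℤ)).toNat : ℤ) : ℝ) =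
            ((qv (κ j) (β j) (n₀ j) + σ j * (c : ℤ) : ℤ) : ℝ) := by
          rw [Int.toNat_of_nonneg (by omega)]
        rw [← h4]
        push_cast
        exact le_rfl
      · intro c hc c' hc' h
        rw [mem_coe, hT j, mem_filter] at hc hc'
        simp only at h
        rcases hσ j with h5 | h5 <;> rw [h5] at h hc hc' <;> omega
    rw [Nat.card_Icc, Nat.add_sub_cancel] at h1
    exact (Nat.cast_le.2 h1).trans (Nat.floor_le (hY j))
  have hsub : (Fintype.piFinset (fun j : Fin r => Icc 1 (X j))).filter Q ⊆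
      univ.biUnion (fun j : Fin r => Fintype.piFinset (fun i => if i = j then T i else Icc 1 (X i))) := by
    intro c hc
    rw [mem_filter] at hc
    obtain ⟨h1, j, n, hn, h2⟩ := hQ c hc.1 hc.2
    rw [mem_biUnion]
    refine ⟨j, mem_univ _, ?_⟩
    rw [Fintype.mem_piFinset]
    intro i
    have hci := (Fintype.mem_piFinset.1 hc.1) i
    split_ifs with hij
    · subst hij
      rw [hT i, mem_filter]
      refine ⟨hci, h1 i _ (hn₀ i), lt_of_le_of_lt ?_ h2⟩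
      have := hmin i n hn
      exact_mod_cast (by omega : qv (κ i) (β i) (n₀ i) + σ i * (c i : ℤ) ≤ qv (κ i) (β i) n + σ i * (c i : ℤ))
    · exact hci
  have h1 : (((Fintype.piFinset (fun j : Fin r => Icc 1 (X j))).filter Q).card : ℝ) ≤
      ∑ j : Fin r, ((Fintype.piFinset (fun i => if i = j then T i else Icc 1 (X i))).card : ℝ) := by
    exact_mod_cast (card_le_card hsub).trans card_biUnion_le
  refine h1.trans ?_
  have h2 : ∀ j : Fin r, ((Fintype.piFinset (fun i => if i = j then T i else Icc 1 (X i))).card : ℝ) ≤ t * ∏ j, (X j : ℝ) := by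
    intro j
    rw [Fintype.card_piFinset]
    push_cast
    rw [← mul_prod_erase univ _ (mem_univ j), ← mul_prod_erase univ (fun j => (X j : ℝ)) (mem_univ j), if_pos rfl, ← mul_assoc]
    have h3 : ∏ x ∈ univ.erase j, (((if x = j then T x else Icc 1 (X x)).card : ℕ) : ℝ) = ∏ x ∈ univ.erase j, (X x : ℝ) := by
      apply prod_congr rfl
      intro x hx
      rw [if_neg (ne_of_mem_erase hx), Nat.card_Icc, Nat.add_sub_cancel]
    rw [h3]
    exact mul_le_mul_of_nonneg_right ((hTc j).trans (hYX j)) (prod_nonneg fun _ _ => Nat.cast_nonneg _)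
  refine (sum_le_sum fun j _ => h2 j).trans (le_of_eq ?_)
  rw [sum_const, card_univ, Fintype.card_fin, nsmul_eq_mul]
  ring

/-- the final inequality -/
lemma compare (A E S τ ε ρ : ℝ) (hε0 : 0 < ε) (hρ0 : 0 < ρ) (hρ1 : 3 * ρ ≤ 1) (hρε : 3 * ρ ≤ ε) (hA : 0 ≤ A) (hE : 0 ≤ E) (hS : 0 ≤ S) (hτ : 0 ≤ τ)
    (h1 : (1 - ρ) * A ≤ E) (h2 : E ≤ (1 + ρ) * A) (h3 : |E - S| ≤ τ) : |A - S| ≤ ε * S + 2 * τ := by
  have h4 : A ≤ (1 + 2 * ρ) * E := by
    have : A * (1 - ρ) * (1 + 2 * ρ) ≤ E * (1 + 2 * ρ) := mul_le_mul_of_nonneg_right (by linarith) (by linarith)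
    nlinarith [mul_nonneg hA hρ0.le, mul_nonneg (mul_nonneg hA hρ0.le) (by linarith : (0:ℝ) ≤ 1 - 3 * ρ)]
  rw [abs_le] at h3 ⊢
  have h5 : E ≤ S + τ := by linarith [h3.2]
  have h6 : S - τ ≤ E := by linarith [h3.1]
  have h7 : ρ * S ≤ ε / 3 * S := mul_le_mul_of_nonneg_right (by linarith) hS
  have h8 : ρ * τ ≤ 1 / 3 * τ := mul_le_mul_of_nonneg_right (by linarith) hτ
  constructor
  · have h9 : (1 - ρ) * E ≤ A := by
      have : (1 - ρ) * E ≤ (1 - ρ) * ((1 + ρ) * A) := mul_le_mul_of_nonneg_left h2 (by linarith)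
      nlinarith [mul_nonneg hA (sq_nonneg ρ)]
    have h10 : ρ * E ≤ ρ * (S + τ) := mul_le_mul_of_nonneg_left h5 hρ0.le
    nlinarith [mul_nonneg hε0.le hS]
  · have h10 : 2 * ρ * E ≤ 2 * ρ * (S + τ) := mul_le_mul_of_nonneg_left h5 (by linarith)
    nlinarith [mul_nonneg hε0.le hS]


/-- the product of the sizes of the logarithms of the values -/
noncomputable def LL (b k : ℕ) {r : ℕ} (κ : Fin r → ℤ) : ℝ := ∏ j, ((dg (κ j) : ℝ) * k * Real.log b)

lemma fx_th {v : ℤ} (h : v.toNat.Prime) : fx th v = Real.log (v : ℝ) := by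
  have h1 : 1 ≤ v := by
    have := h.one_lt
    omega
  unfold fx th
  rw [if_pos h1, if_pos h]
  congr 1
  have h2 : ((v.toNat : ℤ) : ℝ) = (v : ℝ) := by rw [Int.toNat_of_nonneg (by omega)]
  rw [← h2]
  push_cast
  rfl

lemma fx_th_zero {v : ℤ} (h : ¬ v.toNat.Prime) : fx th v = 0 := by
  unfold fx th
  split_ifs <;> rfl

lemma E1_eq (b : ℕ) (w : ℕ → ℕ → ℝ) (k : ℕ) {r : ℕ} (κ β c : Fin r → ℤ) :
    E1 b w k κ β c = ∑ n ∈ (range (b ^ k)).filter (fun n => ∀ j, (qv (κ j) (β j) n + c j).toNat.Prime),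
      P b w 0 k n * ∏ j, Real.log ((qv (κ j) (β j) n + c j : ℤ) : ℝ) := by
  unfold E1
  rw [sum_filter]
  apply sum_congr rfl
  intro n _
  split_ifs with h
  · congr 1
    apply prod_congr rfl
    intro j _
    exact fx_th (h j)
  · push Not at h
    obtain ⟨j, hj⟩ := h
    rw [prod_eq_zero (mem_univ j) (fx_th_zero hj), mul_zero]

/-- the product of the logarithms of the values -/
lemma bounds (b k : ℕ) {r : ℕ} {η : ℝ} (w : ℕ → ℕ → ℝ) (hw : Dig b η w) (κ β c : Fin r → ℤ) (δ ρ : ℝ) (hδ0 : 0 ≤ δ) (hδ1 : δ ≤ 1)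
    (hρ0 : 0 ≤ ρ) (hρ1 : ρ ≤ 1) (hδ : 2 * r * δ ≤ ρ) (hL : ∀ j, 0 ≤ (dg (κ j) : ℝ) * k * Real.log b)
    (h : ∀ j, ∀ n < b ^ k, (1 - δ) * ((dg (κ j) : ℝ) * k * Real.log b) ≤ Real.log ((qv (κ j) (β j) n + c j : ℤ) : ℝ) ∧
      Real.log ((qv (κ j) (β j) n + c j : ℤ) : ℝ) ≤ (1 + δ) * ((dg (κ j) : ℝ) * k * Real.log b)) :
    (1 - ρ) * (LL b k κ * Pr b w k κ β c) ≤ E1 b w k κ β c ∧ E1 b w k κ β c ≤ (1 + ρ) * (LL b k κ * Pr b w k κ β c) := by
  have hLL : 0 ≤ LL b k κ := prod_nonneg fun j _ => hL j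
  have hr : (0 : ℝ) ≤ r := Nat.cast_nonneg _
  have p1 : 1 - ρ ≤ (1 - δ) ^ r := by
    have h1 := one_add_mul_le_pow (a := -δ) (by linarith) r
    have h2 : (1 : ℝ) + r * -δ = 1 - r * δ := by ring
    rw [h2, ← sub_eq_add_neg] at h1
    nlinarith
  have p2 : (1 + δ) ^ r ≤ 1 + ρ := by
    have h1 : (1 + δ) ^ r ≤ Real.exp (r * δ) := by
      rw [Real.exp_nat_mul]
      apply pow_le_pow_left₀ (by linarith)
      have := Real.add_one_le_exp δ
      linarith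
    have h2 : Real.exp (r * δ) ≤ Real.exp (ρ / 2) := Real.exp_le_exp.2 (by linarith)
    have h3 : Real.exp (ρ / 2) ≤ 1 + ρ := by
      have h4 : 1 - ρ / 2 ≤ Real.exp (-(ρ / 2)) := by
        have := Real.add_one_le_exp (-(ρ / 2))
        linarith
      have h5 : Real.exp (ρ / 2) * Real.exp (-(ρ / 2)) = 1 := by rw [← Real.exp_add]; simp
      have h6 : 0 < Real.exp (ρ / 2) := Real.exp_pos _
      nlinarith [mul_le_mul_of_nonneg_left h4 h6.le]
    linarith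
  rw [E1_eq]
  unfold Pr
  rw [mul_sum, mul_sum, mul_sum]
  constructor
  · apply sum_le_sum
    intro n hn
    rw [mem_filter, mem_range] at hn
    have hP := P_nonneg hw 0 k n
    have h1 : (1 - δ) ^ r * LL b k κ ≤ ∏ j, Real.log ((qv (κ j) (β j) n + c j : ℤ) : ℝ) := by
      unfold LL
      have e : (1 - δ) ^ r = ∏ _j : Fin r, (1 - δ) := by rw [prod_const, card_univ, Fintype.card_fin]
      rw [e, ← prod_mul_distrib]
      exact prod_le_prod (fun j _ => mul_nonneg (by linarith) (hL j)) (fun j _ => (h j n hn.1).1)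
    have h2 : (1 - ρ) * LL b k κ ≤ ∏ j, Real.log ((qv (κ j) (β j) n + c j : ℤ) : ℝ) :=
      (mul_le_mul_of_nonneg_right p1 hLL).trans h1
    calc (1 - ρ) * (LL b k κ * P b w 0 k n) = P b w 0 k n * ((1 - ρ) * LL b k κ) := by ring
      _ ≤ _ := mul_le_mul_of_nonneg_left h2 hP
  · apply sum_le_sum
    intro n hn
    rw [mem_filter, mem_range] at hn
    have hP := P_nonneg hw 0 k n
    have h1 : ∏ j, Real.log ((qv (κ j) (β j) n + c j : ℤ) : ℝ) ≤ (1 + δ) ^ r * LL b k κ := by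
      unfold LL
      have e : (1 + δ) ^ r = ∏ _j : Fin r, (1 + δ) := by rw [prod_const, card_univ, Fintype.card_fin]
      rw [e, ← prod_mul_distrib]
      exact prod_le_prod (fun j _ => le_trans (mul_nonneg (by linarith) (hL j)) (h j n hn.1).1) (fun j _ => (h j n hn.1).2)
    have h2 : ∏ j, Real.log ((qv (κ j) (β j) n + c j : ℤ) : ℝ) ≤ (1 + ρ) * LL b k κ :=
      h1.trans (mul_le_mul_of_nonneg_right p2 hLL)
    calc P b w 0 k n * ∏ j, Real.log ((qv (κ j) (β j) n + c j : ℤ) : ℝ) ≤ P b w 0 k n * ((1 + ρ) * LL b k κ) :=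
          mul_le_mul_of_nonneg_left h2 hP
      _ = _ := by ring

lemma log_small (C : ℝ) (δ : ℝ) (hδ : 0 < δ) : ∃ K₀ : ℕ, ∀ k : ℕ, K₀ ≤ k → C * Real.log k ≤ δ * k ∧ C ≤ δ * k := by
  have h1 := (Real.isLittleO_log_id_atTop.def (c := δ / (|C| + 1)) (by positivity))
  have h2 := tendsto_natCast_atTop_atTop (R := ℝ) |>.eventually h1
  rw [Filter.eventually_atTop] at h2
  obtain ⟨N, hN⟩ := h2
  obtain ⟨M, hM⟩ := exists_nat_ge (C / δ)
  refine ⟨max (max N 1) M, fun k hk => ?_⟩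
  have hk1 : (1 : ℝ) ≤ k := by exact_mod_cast ((le_max_right _ _).trans (le_max_left _ _)).trans hk
  have h3 := hN k (((le_max_left _ _).trans (le_max_left _ _)).trans hk)
  simp only [id_eq] at h3
  rw [Real.norm_of_nonneg (Real.log_nonneg hk1), Real.norm_of_nonneg (by linarith)] at h3
  constructor
  · have h4 : C * Real.log k ≤ (|C| + 1) * Real.log k :=
      mul_le_mul_of_nonneg_right (by linarith [le_abs_self C]) (Real.log_nonneg hk1)
    refine h4.trans ?_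
    have h5 := mul_le_mul_of_nonneg_left h3 (by positivity : (0 : ℝ) ≤ |C| + 1)
    refine h5.trans (le_of_eq ?_)
    field_simp
  · have h4 : (M : ℝ) ≤ k := by exact_mod_cast (le_max_right _ _).trans hk
    rw [div_le_iff₀ hδ] at hM
    nlinarith

/-- **Systems of polynomials of degree one and two, integers with independent random digits.** -/
theorem main (b : ℕ) (hb : 2 ≤ b) (η : ℝ) (hη : 0 < η) (r : ℕ) (κ β : Fin r → ℤ) (hκ : ∀ j, ld (κ j) (β j) ≠ 0)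
    (F U : ℕ) (ε : ℝ) (hε : 0 < ε) :
    ∃ B : ℕ, ∀ E : ℕ, ∃ K₀ : ℕ, ∀ k : ℕ, K₀ ≤ k → ∀ z : ℕ, (k : ℝ) ^ B ≤ z → (z : ℝ) ≤ (k : ℝ) ^ E →
    ∀ w : ℕ → ℕ → ℝ, Dig b η w → ∀ σ : Fin r → ℤ, (∀ j, σ j = 1 ∨ σ j = -1) →
    ∀ X : Fin r → ℕ, (∀ j, b ^ (dg (κ j) * k) ≤ X j ∧ X j ≤ F * b ^ (dg (κ j) * k)) →
    ∀ Q : (Fin r → ℕ) → Prop, [DecidablePred Q] →
    (∀ c ∈ Fintype.piFinset (fun j : Fin r => Icc 1 (X j)), Q c →
      (∀ j, ∀ n < b ^ k, 1 ≤ qv (κ j) (β j) n + σ j * (c j : ℤ)) ∧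
      ¬ (|E1 b w k κ β (fun j => σ j * (c j : ℤ)) - Sg b w 0 k κ β (fun j => σ j * (c j : ℤ)) z| ≤ 1 / (k : ℝ) ^ U ∧
        |LL b k κ * Pr b w k κ β (fun j => σ j * (c j : ℤ)) - Sg b w 0 k κ β (fun j => σ j * (c j : ℤ)) z| ≤
          ε * Sg b w 0 k κ β (fun j => σ j * (c j : ℤ)) z + 1 / (k : ℝ) ^ U)) →
    (((Fintype.piFinset (fun j : Fin r => Icc 1 (X j))).filter Q).card : ℝ) ≤ (∏ j, (X j : ℝ)) / (k : ℝ) ^ U := by
  classical
  obtain ⟨B, h1⟩ := main_vm_w b hb η hη r κ β hκ (fun _ => th) (fun _ n => ⟨le_rfl, th_le n⟩) F (U + 2)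
  refine ⟨B, fun E => ?_⟩
  obtain ⟨K1, h2⟩ := h1 E
  obtain ⟨ρ, hρ⟩ : ∃ ρ : ℝ, ρ = min 1 ε / 3 := ⟨_, rfl⟩
  have hm : 0 < min 1 ε := lt_min one_pos hε
  have hρ0 : 0 < ρ := by rw [hρ]; positivity
  have hρ1 : 3 * ρ ≤ 1 := by rw [hρ]; linarith [min_le_left 1 ε]
  have hρε : 3 * ρ ≤ ε := by rw [hρ]; linarith [min_le_right 1 ε]
  obtain ⟨δ, hδ⟩ : ∃ δ : ℝ, δ = ρ / (2 * (r + 1)) := ⟨_, rfl⟩
  have hr0 : (0 : ℝ) ≤ r := Nat.cast_nonneg _
  have hδ0 : 0 < δ := by rw [hδ]; positivity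
  have hδρ : 2 * r * δ ≤ ρ := by
    rw [hδ, mul_div_assoc', div_le_iff₀ (by positivity)]
    nlinarith
  have hδ1 : δ ≤ 1 := by
    rw [hδ, div_le_one (by positivity)]
    nlinarith
  obtain ⟨C₁, hC₁⟩ : ∃ C₁ : ℕ, C₁ = 1 + F + ∑ j, ((κ j).natAbs + (β j).natAbs) := ⟨_, rfl⟩
  have hC₁1 : 1 ≤ C₁ := by omega
  have hlb : 0 < Real.log b := Real.log_pos (by exact_mod_cast (by omega : 1 < b))
  obtain ⟨K2, h3⟩ := log_small ((U + 2 : ℕ) : ℝ) (δ * Real.log b) (by positivity)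
  obtain ⟨K3, h4⟩ := log_small (Real.log C₁) (δ * Real.log b) (by positivity)
  refine ⟨K1 + K2 + K3 + r + 3, fun k hk z hz1 hz2 w hw σ hσ X hX Q _ hQ => ?_⟩
  have hk3 : (3 : ℝ) ≤ k := by exact_mod_cast (by omega : 3 ≤ k)
  have hk0 : (0 : ℝ) < k := by linarith
  have hkr : (r : ℝ) + 2 ≤ k := by exact_mod_cast (by omega : r + 2 ≤ k)
  obtain ⟨h3, -⟩ := h3 k (by omega)
  obtain ⟨-, h4⟩ := h4 k (by omega)
  have hprod : 0 ≤ ∏ j, (X j : ℝ) := prod_nonneg fun j _ => Nat.cast_nonneg _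
  have hbk : 0 < b ^ k := Nat.pos_of_ne_zero (pow_ne_zero _ (by omega))
  -- the two exceptional sets
  obtain ⟨c', hc'⟩ : ∃ c' : (Fin r → ℕ) → Fin r → ℤ, ∀ c, c' c = fun j => σ j * (c j : ℤ) := ⟨_, fun _ => rfl⟩
  obtain ⟨Q1, hQ1⟩ : ∃ Q1 : (Fin r → ℕ) → Prop, ∀ c, Q1 c ↔ (∀ j, ∀ n < b ^ k, 1 ≤ qv (κ j) (β j) n + σ j * (c j : ℤ)) ∧
    1 / (k : ℝ) ^ (U + 2) < |E1 b w k κ β (c' c) - Sg b w 0 k κ β (c' c) z| := ⟨_, fun _ => Iff.rfl⟩
  obtain ⟨Y, hY⟩ : ∃ Y : Fin r → ℝ, ∀ j, Y j = ((b ^ (dg (κ j) * k) : ℕ) : ℝ) / (k : ℝ) ^ (U + 2) := ⟨_, fun _ => rfl⟩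
  obtain ⟨Q2, hQ2⟩ : ∃ Q2 : (Fin r → ℕ) → Prop, ∀ c, Q2 c ↔ (∀ j, ∀ n < b ^ k, 1 ≤ qv (κ j) (β j) n + σ j * (c j : ℤ)) ∧
    ∃ j, ∃ n < b ^ k, ((qv (κ j) (β j) n + σ j * (c j : ℤ) : ℤ) : ℝ) < Y j := ⟨_, fun _ => Iff.rfl⟩
  have hc1 : (((Fintype.piFinset (fun j : Fin r => Icc 1 (X j))).filter Q1).card : ℝ) ≤ (∏ j, (X j : ℝ)) / (k : ℝ) ^ (U + 2) := by
    apply h2 k (by omega) z hz1 hz2 w hw 0 σ hσ X hX Q1
    intro c _ hq
    rw [hQ1, hc'] at hq
    exact hq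
  have hc2 : (((Fintype.piFinset (fun j : Fin r => Icc 1 (X j))).filter Q2).card : ℝ) ≤ r * (1 / (k : ℝ) ^ (U + 2)) * ∏ j, (X j : ℝ) := by
    apply small_count b k κ β σ hσ X Y (fun j => by rw [hY]; positivity) _ (fun j => ?_) hbk Q2 (fun c _ hq => (hQ2 c).1 hq)
    rw [hY, div_eq_inv_mul, one_div]
    exact mul_le_mul_of_nonneg_left (by exact_mod_cast (hX j).1) (by positivity)
  have hsub : (Fintype.piFinset (fun j : Fin r => Icc 1 (X j))).filter Q ⊆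
      (Fintype.piFinset (fun j : Fin r => Icc 1 (X j))).filter Q1 ∪ (Fintype.piFinset (fun j : Fin r => Icc 1 (X j))).filter Q2 := by
    intro c hc
    rw [mem_filter] at hc
    obtain ⟨hcm, hcQ⟩ := hc
    obtain ⟨hpos, hno⟩ := hQ c hcm hcQ
    rw [mem_union, mem_filter, mem_filter]
    by_contra hcon
    push Not at hcon
    obtain ⟨hn1, hn2⟩ := hcon
    replace hn1 := hn1 hcm
    replace hn2 := hn2 hcm
    rw [hQ1] at hn1
    rw [hQ2] at hn2
    push Not at hn1 hn2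
    replace hn1 := hn1 hpos
    replace hn2 := hn2 hpos
    rw [← hc' c] at hno
    apply hno
    have hkU : 1 / (k : ℝ) ^ (U + 2) ≤ 1 / (k : ℝ) ^ U / 2 := by
      rw [div_div]
      apply one_div_le_one_div_of_le (by positivity)
      rw [pow_add]
      apply mul_le_mul_of_nonneg_left _ (by positivity)
      nlinarith
    have hτ0 : 0 ≤ 1 / (k : ℝ) ^ (U + 2) := by positivity
    have hU0 : 0 ≤ 1 / (k : ℝ) ^ U := by positivity
    refine ⟨hn1.trans (by linarith), ?_⟩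
    have hL : ∀ j, 0 ≤ (dg (κ j) : ℝ) * k * Real.log b := fun j => by positivity
    have hdg : ∀ j, (1 : ℝ) ≤ dg (κ j) := by
      intro j
      unfold dg
      split_ifs <;> norm_num
    have hlog := bounds b k w hw κ β (c' c) δ ρ hδ0.le hδ1 hρ0.le (by linarith) hδρ hL (by
      intro j n hn
      have e : qv (κ j) (β j) n + c' c j = qv (κ j) (β j) n + σ j * (c j : ℤ) := by rw [hc']
      rw [e]
      obtain ⟨v, hv⟩ : ∃ v : ℤ, v = qv (κ j) (β j) n + σ j * (c j : ℤ) := ⟨_, rfl⟩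
      rw [← hv]
      have hv1 : Y j ≤ (v : ℝ) := by rw [hv]; exact hn2 j n hn
      have hv0 : (1 : ℝ) ≤ v := by exact_mod_cast (by rw [hv]; exact hpos j n hn : (1 : ℤ) ≤ v)
      have hv2 : (v : ℝ) ≤ C₁ * ((b ^ (dg (κ j) * k) : ℕ) : ℝ) := by
        have a1 := (abs_le.1 (qv_le_any (κ j) (β j) b k n hn)).2
        have a2 : (c j : ℤ) ≤ F * (b : ℤ) ^ (dg (κ j) * k) := by
          have := (mem_Icc.1 (Fintype.mem_piFinset.1 hcm j)).2.trans (hX j).2
          exact_mod_cast this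
        have a3 : σ j * (c j : ℤ) ≤ c j := by
          rcases hσ j with h | h <;> rw [h] <;> omega
        have a4 : (κ j).natAbs + (β j).natAbs ≤ ∑ j, ((κ j).natAbs + (β j).natAbs) :=
          single_le_sum (f := fun j => (κ j).natAbs + (β j).natAbs) (fun _ _ => Nat.zero_le _) (mem_univ j)
        have a5 : v ≤ (C₁ : ℤ) * (b : ℤ) ^ (dg (κ j) * k) := by
          have a6 : (((κ j).natAbs + (β j).natAbs : ℕ) : ℤ) * (b : ℤ) ^ (dg (κ j) * k) + F * (b : ℤ) ^ (dg (κ j) * k) ≤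
              (C₁ : ℤ) * (b : ℤ) ^ (dg (κ j) * k) := by
            rw [← add_mul]
            apply mul_le_mul_of_nonneg_right _ (by positivity)
            have : (κ j).natAbs + (β j).natAbs + F ≤ C₁ := by omega
            exact_mod_cast this
          push_cast at a1 a6
          rw [hv]
          linarith
        exact_mod_cast a5
      have hbp : (0 : ℝ) < ((b ^ (dg (κ j) * k) : ℕ) : ℝ) := by
        exact_mod_cast Nat.pos_of_ne_zero (pow_ne_zero _ (by omega))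
      have hlbp : Real.log ((b ^ (dg (κ j) * k) : ℕ) : ℝ) = (dg (κ j) : ℝ) * k * Real.log b := by
        push_cast
        rw [Real.log_pow]
        push_cast
        ring
      have hkl : δ * Real.log b * k ≤ δ * ((dg (κ j) : ℝ) * k * Real.log b) := by
        have : 1 * (δ * Real.log b * k) ≤ dg (κ j) * (δ * Real.log b * k) :=
          mul_le_mul_of_nonneg_right (hdg j) (by positivity)
        linarith
      constructor
      · have b1 : Real.log (Y j) ≤ Real.log v := Real.log_le_log (by rw [hY]; positivity) hv1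
        rw [hY, Real.log_div hbp.ne' (by positivity), hlbp, Real.log_pow] at b1
        linarith
      · have b1 : Real.log v ≤ Real.log (C₁ * ((b ^ (dg (κ j) * k) : ℕ) : ℝ)) := Real.log_le_log (by linarith) hv2
        rw [Real.log_mul (by exact_mod_cast (by omega : C₁ ≠ 0)) hbp.ne', hlbp] at b1
        linarith)
    have hSg := Sg_nonneg b w η hw 0 k κ β (c' c) z
    have hPr : 0 ≤ Pr b w k κ β (c' c) := sum_nonneg fun n _ => P_nonneg hw _ _ _
    have hLL : 0 ≤ LL b k κ := prod_nonneg fun j _ => hL j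
    have hA : 0 ≤ LL b k κ * Pr b w k κ β (c' c) := mul_nonneg hLL hPr
    have hE : 0 ≤ E1 b w k κ β (c' c) := (mul_nonneg (by linarith) hA).trans hlog.1
    refine (compare _ _ _ _ ε ρ hε hρ0 hρ1 hρε hA hE hSg hτ0 hlog.1 hlog.2 hn1).trans ?_
    linarith
  have h5 : (((Fintype.piFinset (fun j : Fin r => Icc 1 (X j))).filter Q).card : ℝ) ≤
      (∏ j, (X j : ℝ)) / (k : ℝ) ^ (U + 2) + r * (1 / (k : ℝ) ^ (U + 2)) * ∏ j, (X j : ℝ) := by
    refine le_trans ?_ (add_le_add hc1 hc2)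
    exact_mod_cast (card_le_card hsub).trans (card_union_le _ _)
  refine h5.trans ?_
  have e : (∏ j, (X j : ℝ)) / (k : ℝ) ^ (U + 2) + r * (1 / (k : ℝ) ^ (U + 2)) * ∏ j, (X j : ℝ) =
      (∏ j, (X j : ℝ)) / (k : ℝ) ^ U * ((r + 1) / (k : ℝ) ^ 2) := by
    rw [pow_add]
    field_simp
    ring
  rw [e]
  apply mul_le_of_le_one_right (by positivity)
  rw [div_le_one (by positivity)]
  nlinarith

end Pool.Agent.Q25.RDig
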