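import Pool.Agent.TH872.Sq.W17
import Pool.Agent.Q25.RDig

set_option autoImplicit false

/-!
# One polynomial at integers with independent random digits
-/

namespace Pool.Agent.Q25.RDig

open Finset
open Pool.Agent.TH872.Sq
open Pool.Agent.H373R2.T7 (pz Vz mem_pz Vz_pos)

/-- the number of the square roots of `D` modulo an odd prime -/
lemma sq_count (D : ℤ) (p : ℕ) (hp : p.Prime) (hp2 : p ≠ 2) :
    (((range p).filter (fun r : ℕ => (p : ℤ) ∣ (r : ℤ) ^ 2 - D)).card : ℤ) = jacobiSym D p + 1 := by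
  have : Fact p.Prime := ⟨hp⟩
  rw [← jacobiSym.legendreSym.to_jacobiSym, ← legendreSym.card_sqrts p hp2]
  have h1 : ((range p).filter (fun r : ℕ => (p : ℤ) ∣ (r : ℤ) ^ 2 - D)).card =
      #({x : ZMod p | x ^ 2 = (D : ZMod p)} : Set (ZMod p)).toFinset := by
    have key : ∀ r : ℕ, (p : ℤ) ∣ (r : ℤ) ^ 2 - D ↔ (r : ZMod p) ^ 2 = (D : ZMod p) := by
      intro r
      rw [← ZMod.intCast_zmod_eq_zero_iff_dvd]
      push_cast
      rw [sub_eq_zero]
    apply card_bij (fun (r : ℕ) _ => (r : ZMod p))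
    · intro r hr
      rw [mem_filter] at hr
      simp only [Set.mem_toFinset, Set.mem_ofPred_eq]
      exact (key r).1 hr.2
    · intro r hr s hs hrs
      rw [mem_filter, mem_range] at hr hs
      have := (ZMod.natCast_eq_natCast_iff' r s p).1 hrs
      rwa [Nat.mod_eq_of_lt hr.1, Nat.mod_eq_of_lt hs.1] at this
    · intro x hx
      simp only [Set.mem_toFinset, Set.mem_ofPred_eq] at hx
      have hval : ((x.val : ℕ) : ZMod p) = x := ZMod.natCast_zmod_val _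
      refine ⟨x.val, ?_, hval⟩
      rw [mem_filter, mem_range]
      refine ⟨ZMod.val_lt _, (key _).2 ?_⟩
      rw [hval]; exact hx
  rw [h1]

/-- the prediction with the factors of the Mertens product distributed, `r` polynomials -/
lemma Sg_split (b : ℕ) (w : ℕ → ℕ → ℝ) (k : ℕ) {r : ℕ} (κ β c : Fin r → ℤ) (z : ℕ) (hz : b ≤ z) :
    Sg b w 0 k κ β c z = (Vz b)⁻¹ ^ r *
      (∑ n ∈ (range (b ^ k)).filter (fun n : ℕ => ∀ p ∈ pz b, ¬ ∃ j, (p : ℤ) ∣ κ j * (n : ℤ) ^ 2 + β j * n + c j), P b w 0 k n) *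
      ∏ p ∈ (pz z).filter (fun p => b < p), ((1 - (nu κ β c p : ℝ) / p) / (1 - 1 / (p : ℝ)) ^ r) := by
  unfold Sg
  rw [prod_div_distrib]
  have h1 : Vz z = Vz b * ∏ p ∈ (pz z).filter (fun p => b < p), (1 - 1 / (p : ℝ)) := by
    unfold Vz
    rw [← prod_filter_mul_prod_filter_not (pz z) (fun p => b < p), mul_comm]
    congr 1
    apply prod_congr _ fun _ _ => rfl
    ext p
    rw [mem_filter, mem_pz, mem_pz]
    constructor
    · rintro ⟨⟨_, h2⟩, h3⟩; exact ⟨not_lt.1 h3, h2⟩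
    · rintro ⟨h2, h3⟩; exact ⟨⟨h2.trans hz, h3⟩, not_lt.2 h2⟩
  have h2 : (∏ p ∈ (pz z).filter (fun p => b < p), (1 - 1 / (p : ℝ))) ≠ 0 := by
    intro h3
    rw [h3, mul_zero] at h1
    exact (Vz_pos z).ne' h1
  have h3 := (Vz_pos b).ne'
  rw [h1, prod_pow, mul_inv, mul_pow]
  have h4 : (∏ p ∈ (pz z).filter (fun p => b < p), (1 - 1 / (p : ℝ))) ^ r ≠ 0 := pow_ne_zero _ h2
  have h5 : (Vz b) ^ r ≠ 0 := pow_ne_zero _ h3
  simp only [inv_pow]
  field_simp

end Pool.Agent.Q25.RDig
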