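import Pool.Agent.Q25.RDig2

set_option autoImplicit false

/-!
# Systems of polynomials of degree one and two at the elements of an arbitrary set

From the theorem `Pool.Agent.TH872.Sq.tuple_any` of the starting library.
-/

namespace Pool.Agent.Q25.RDig

open Finset
open Pool.Agent.TH872.Sq
open Pool.Agent.H373R2.T7 (pz Vz mem_pz Vz_pos lamzI lamz)
open Classical

/-- the expectation of the product of the logarithms of the values, over the `n` in `S` for which they are all primes -/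
noncomputable def ES (b : ℕ) (w : ℕ → ℕ → ℝ) (k : ℕ) (S : Set ℕ) {r : ℕ} (κ β c : Fin r → ℤ) : ℝ :=
  ∑ n ∈ (range (b ^ k)).filter (fun n => n ∈ S ∧ ∀ j, (qv (κ j) (β j) n + c j).toNat.Prime),
    P b w 0 k n * ∏ j, Real.log ((qv (κ j) (β j) n + c j : ℤ) : ℝ)

/-- the probability that `n` is in `S` and that all the values are primes -/
noncomputable def PS (b : ℕ) (w : ℕ → ℕ → ℝ) (k : ℕ) (S : Set ℕ) {r : ℕ} (κ β c : Fin r → ℤ) : ℝ :=
  ∑ n ∈ (range (b ^ k)).filter (fun n => n ∈ S ∧ ∀ j, (qv (κ j) (β j) n + c j).toNat.Prime), P b w 0 k n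

/-- the model: the probability that `n` is in `S` and that all the values are positive without prime factors up to `z`,
divided by the Mertens product -/
noncomputable def MS (b : ℕ) (w : ℕ → ℕ → ℝ) (k z : ℕ) (S : Set ℕ) {r : ℕ} (κ β c : Fin r → ℤ) : ℝ :=
  (Vz z)⁻¹ ^ r * ∑ n ∈ (range (b ^ k)).filter (fun n => n ∈ S ∧ ∀ j, 1 ≤ qv (κ j) (β j) n + c j ∧
    ∀ p ∈ pz z, ¬ p ∣ (qv (κ j) (β j) n + c j).toNat), P b w 0 k n

/-- the indicator function -/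
noncomputable def ind (S : Set ℕ) (n : ℕ) : ℝ := if n ∈ S then 1 else 0

lemma ind_abs (S : Set ℕ) (n : ℕ) : |ind S n| ≤ 1 := by
  unfold ind
  split_ifs <;> simp

lemma ES_eq (b : ℕ) (w : ℕ → ℕ → ℝ) (k : ℕ) (S : Set ℕ) {r : ℕ} (κ β c : Fin r → ℤ) :
    ∑ n ∈ range (b ^ k), P b w 0 k n * (ind S n * ∏ j, fx th (qv (κ j) (β j) n + c j)) = ES b w k S κ β c := by
  unfold ES
  rw [sum_filter]
  apply sum_congr rfl
  intro n _
  unfold ind
  by_cases hS : n ∈ S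
  · rw [if_pos hS, one_mul]
    split_ifs with h
    · congr 1
      apply prod_congr rfl
      intro j _
      exact fx_th (h.2 j)
    · have h' : ¬ ∀ j, (qv (κ j) (β j) n + c j).toNat.Prime := fun h1 => h ⟨hS, h1⟩
      push Not at h'
      obtain ⟨j, hj⟩ := h'
      rw [prod_eq_zero (mem_univ j) (fx_th_zero hj), mul_zero]
  · rw [if_neg hS, zero_mul, mul_zero, if_neg (fun h => hS h.1)]

lemma MS_eq (b : ℕ) (w : ℕ → ℕ → ℝ) (k z : ℕ) (S : Set ℕ) {r : ℕ} (κ β c : Fin r → ℤ) :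
    ∑ n ∈ range (b ^ k), P b w 0 k n * (ind S n * ∏ j, lamzI z (qv (κ j) (β j) n + c j)) = MS b w k z S κ β c := by
  unfold MS
  rw [sum_filter, mul_sum]
  apply sum_congr rfl
  intro n _
  unfold ind
  by_cases hS : n ∈ S
  · rw [if_pos hS, one_mul]
    split_ifs with h
    · rw [mul_comm]
      congr 1
      have e : (Vz z)⁻¹ ^ r = ∏ _j : Fin r, (Vz z)⁻¹ := by rw [prod_const, card_univ, Fintype.card_fin]
      rw [e]
      apply prod_congr rfl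
      intro j _
      unfold lamzI lamz
      rw [if_pos (h.2 j).1, if_pos (h.2 j).2]
    · have h' : ¬ ∀ j, 1 ≤ qv (κ j) (β j) n + c j ∧ ∀ p ∈ pz z, ¬ p ∣ (qv (κ j) (β j) n + c j).toNat := fun h1 => h ⟨hS, h1⟩
      rw [not_forall] at h'
      obtain ⟨j, hj⟩ := h'
      have h0 : lamzI z (qv (κ j) (β j) n + c j) = 0 := by
        unfold lamzI lamz
        split_ifs with h1 h2
        · exact absurd ⟨h1, h2⟩ hj
        · rfl
        · rfl
      rw [prod_eq_zero (mem_univ j) h0, mul_zero, mul_zero]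
  · rw [if_neg hS, zero_mul, mul_zero, if_neg (fun h => hS h.1), mul_zero]

/-- **The expectation, for almost all vectors, without positivity condition.** -/
theorem set_exp (b : ℕ) (hb : 2 ≤ b) (η : ℝ) (hη : 0 < η) (r : ℕ) (κ β : Fin r → ℤ) (hκ : ∀ j, ld (κ j) (β j) ≠ 0)
    (F U : ℕ) :
    ∃ B : ℕ, ∀ E : ℕ, ∃ K₀ : ℕ, ∀ k : ℕ, K₀ ≤ k → ∀ z : ℕ, (k : ℝ) ^ B ≤ z → (z : ℝ) ≤ (k : ℝ) ^ E →
    ∀ w : ℕ → ℕ → ℝ, Dig b η w → ∀ S : Set ℕ, ∀ σ : Fin r → ℤ, (∀ j, σ j = 1 ∨ σ j = -1) →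
    ∀ X : Fin r → ℕ, (∀ j, b ^ (dg (κ j) * k) ≤ X j ∧ X j ≤ F * b ^ (dg (κ j) * k)) →
    ∀ Q : (Fin r → ℕ) → Prop, [DecidablePred Q] →
    (∀ c ∈ Fintype.piFinset (fun j : Fin r => Icc 1 (X j)), Q c →
      1 / (k : ℝ) ^ U < |ES b w k S κ β (fun j => σ j * (c j : ℤ)) - MS b w k z S κ β (fun j => σ j * (c j : ℤ))|) →
    (((Fintype.piFinset (fun j : Fin r => Icc 1 (X j))).filter Q).card : ℝ) ≤ (∏ j, (X j : ℝ)) / (k : ℝ) ^ U := by
  obtain ⟨B, h1⟩ := tuple_any b hb η hη r κ β hκ ∅ (fun _ => th) (fun j hj => absurd hj (notMem_empty j))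
    (fun j _ n => ⟨le_rfl, th_le n⟩) F (2 * U)
  refine ⟨B, fun E => ?_⟩
  obtain ⟨K1, h2⟩ := h1 E
  refine ⟨K1 + 1, fun k hk z hz1 hz2 w hw S σ hσ X hX Q _ hQ => ?_⟩
  have h4 := h2 k (by omega) z hz1 hz2 w hw 0 σ hσ X hX (ind S) (ind_abs S)
  simp only [notMem_empty, if_false] at h4
  apply almost (Fintype.piFinset (fun j : Fin r => Icc 1 (X j))) _ _ k U (by omega) h4
  intro c hc hq
  refine lt_of_lt_of_eq (hQ c hc hq) ?_
  congr 1
  rw [← ES_eq, ← MS_eq, ← sum_sub_distrib]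
  apply sum_congr rfl
  intro n _
  ring

/-- the product of the logarithms of the values, with weights -/
lemma boundsS (b k : ℕ) {r : ℕ} {η : ℝ} (w : ℕ → ℕ → ℝ) (hw : Dig b η w) (S : Set ℕ) (κ β c : Fin r → ℤ) (δ ρ : ℝ) (hδ0 : 0 ≤ δ) (hδ1 : δ ≤ 1)
    (hρ0 : 0 ≤ ρ) (hρ1 : ρ ≤ 1) (hδ : 2 * r * δ ≤ ρ) (hL : ∀ j, 0 ≤ (dg (κ j) : ℝ) * k * Real.log b)
    (h : ∀ j, ∀ n < b ^ k, (1 - δ) * ((dg (κ j) : ℝ) * k * Real.log b) ≤ Real.log ((qv (κ j) (β j) n + c j : ℤ) : ℝ) ∧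
      Real.log ((qv (κ j) (β j) n + c j : ℤ) : ℝ) ≤ (1 + δ) * ((dg (κ j) : ℝ) * k * Real.log b)) :
    (1 - ρ) * (LL b k κ * PS b w k S κ β c) ≤ ES b w k S κ β c ∧ ES b w k S κ β c ≤ (1 + ρ) * (LL b k κ * PS b w k S κ β c) := by
  have hLL : 0 ≤ LL b k κ := prod_nonneg fun j _ => hL j
  have hr : (0 : ℝ) ≤ r := Nat.cast_nonneg _
  have p1 : 1 - ρ ≤ (1 - δ) ^ r := by
    have h1 := one_add_mul_le_pow (a := -δ) (by linarith) r
    have h2 : (1 : ℝ) + r * -δ = 1 - r * δ := by ring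
    rw [h2, ← sub_eq_add_neg] at h1
    nlinarith
  have p2 : (1 + δ) ^ r ≤ 1 + ρ := by
    have h1 : (1 + δ) ^ r ≤ Real.exp (r * δ) := by
      rw [Real.exp_nat_mul]
      apply pow_le_pow_left₀ (by linarith)
      have := Real.add_one_le_exp δ
      linarith
    have h2 : Real.exp (r * δ) ≤ Real.exp (ρ / 2) := Real.exp_le_exp.2 (by linarith)
    have h3 : Real.exp (ρ / 2) ≤ 1 + ρ := by
      have h4 : 1 - ρ / 2 ≤ Real.exp (-(ρ / 2)) := by
        have := Real.add_one_le_exp (-(ρ / 2))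
        linarith
      have h5 : Real.exp (ρ / 2) * Real.exp (-(ρ / 2)) = 1 := by rw [← Real.exp_add]; simp
      have h6 : 0 < Real.exp (ρ / 2) := Real.exp_pos _
      nlinarith [mul_le_mul_of_nonneg_left h4 h6.le]
    linarith
  unfold ES PS
  rw [mul_sum, mul_sum, mul_sum]
  constructor
  · apply sum_le_sum
    intro n hn
    rw [mem_filter, mem_range] at hn
    have hP := P_nonneg hw 0 k n
    have h1 : (1 - δ) ^ r * LL b k κ ≤ ∏ j, Real.log ((qv (κ j) (β j) n + c j : ℤ) : ℝ) := by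
      unfold LL
      have e : (1 - δ) ^ r = ∏ _j : Fin r, (1 - δ) := by rw [prod_const, card_univ, Fintype.card_fin]
      rw [e, ← prod_mul_distrib]
      exact prod_le_prod (fun j _ => mul_nonneg (by linarith) (hL j)) (fun j _ => (h j n hn.1).1)
    have h2 : (1 - ρ) * LL b k κ ≤ ∏ j, Real.log ((qv (κ j) (β j) n + c j : ℤ) : ℝ) :=
      (mul_le_mul_of_nonneg_right p1 hLL).trans h1
    calc (1 - ρ) * (LL b k κ * P b w 0 k n) = P b w 0 k n * ((1 - ρ) * LL b k κ) := by ring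
      _ ≤ _ := mul_le_mul_of_nonneg_left h2 hP
  · apply sum_le_sum
    intro n hn
    rw [mem_filter, mem_range] at hn
    have hP := P_nonneg hw 0 k n
    have h1 : ∏ j, Real.log ((qv (κ j) (β j) n + c j : ℤ) : ℝ) ≤ (1 + δ) ^ r * LL b k κ := by
      unfold LL
      have e : (1 + δ) ^ r = ∏ _j : Fin r, (1 + δ) := by rw [prod_const, card_univ, Fintype.card_fin]
      rw [e, ← prod_mul_distrib]
      exact prod_le_prod (fun j _ => le_trans (mul_nonneg (by linarith) (hL j)) (h j n hn.1).1) (fun j _ => (h j n hn.1).2)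
    have h2 : ∏ j, Real.log ((qv (κ j) (β j) n + c j : ℤ) : ℝ) ≤ (1 + ρ) * LL b k κ :=
      h1.trans (mul_le_mul_of_nonneg_right p2 hLL)
    calc P b w 0 k n * ∏ j, Real.log ((qv (κ j) (β j) n + c j : ℤ) : ℝ) ≤ P b w 0 k n * ((1 + ρ) * LL b k κ) :=
          mul_le_mul_of_nonneg_left h2 hP
      _ = _ := by ring

/-- **The probability, for almost all vectors.** -/
theorem set_prob (b : ℕ) (hb : 2 ≤ b) (η : ℝ) (hη : 0 < η) (r : ℕ) (κ β : Fin r → ℤ) (hκ : ∀ j, ld (κ j) (β j) ≠ 0)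
    (F U : ℕ) (ε : ℝ) (hε : 0 < ε) :
    ∃ B : ℕ, ∀ E : ℕ, ∃ K₀ : ℕ, ∀ k : ℕ, K₀ ≤ k → ∀ z : ℕ, (k : ℝ) ^ B ≤ z → (z : ℝ) ≤ (k : ℝ) ^ E →
    ∀ w : ℕ → ℕ → ℝ, Dig b η w → ∀ S : Set ℕ, ∀ σ : Fin r → ℤ, (∀ j, σ j = 1 ∨ σ j = -1) →
    ∀ X : Fin r → ℕ, (∀ j, b ^ (dg (κ j) * k) ≤ X j ∧ X j ≤ F * b ^ (dg (κ j) * k)) →
    ∀ Q : (Fin r → ℕ) → Prop, [DecidablePred Q] →
    (∀ c ∈ Fintype.piFinset (fun j : Fin r => Icc 1 (X j)), Q c →
      (∀ j, ∀ n < b ^ k, 1 ≤ qv (κ j) (β j) n + σ j * (c j : ℤ)) ∧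
      ¬ (|ES b w k S κ β (fun j => σ j * (c j : ℤ)) - MS b w k z S κ β (fun j => σ j * (c j : ℤ))| ≤ 1 / (k : ℝ) ^ U ∧
        |LL b k κ * PS b w k S κ β (fun j => σ j * (c j : ℤ)) - MS b w k z S κ β (fun j => σ j * (c j : ℤ))| ≤
          ε * MS b w k z S κ β (fun j => σ j * (c j : ℤ)) + 1 / (k : ℝ) ^ U)) →
    (((Fintype.piFinset (fun j : Fin r => Icc 1 (X j))).filter Q).card : ℝ) ≤ (∏ j, (X j : ℝ)) / (k : ℝ) ^ U := by
  obtain ⟨B, h1⟩ := set_exp b hb η hη r κ β hκ F (U + 2)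
  refine ⟨B, fun E => ?_⟩
  obtain ⟨K1, h2⟩ := h1 E
  obtain ⟨ρ, hρ⟩ : ∃ ρ : ℝ, ρ = min 1 ε / 3 := ⟨_, rfl⟩
  have hm : 0 < min 1 ε := lt_min one_pos hε
  have hρ0 : 0 < ρ := by rw [hρ]; positivity
  have hρ1 : 3 * ρ ≤ 1 := by rw [hρ]; linarith [min_le_left 1 ε]
  have hρε : 3 * ρ ≤ ε := by rw [hρ]; linarith [min_le_right 1 ε]
  obtain ⟨δ, hδ⟩ : ∃ δ : ℝ, δ = ρ / (2 * (r + 1)) := ⟨_, rfl⟩
  have hr0 : (0 : ℝ) ≤ r := Nat.cast_nonneg _
  have hδ0 : 0 < δ := by rw [hδ]; positivity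
  have hδρ : 2 * r * δ ≤ ρ := by
    rw [hδ, mul_div_assoc', div_le_iff₀ (by positivity)]
    nlinarith
  have hδ1 : δ ≤ 1 := by
    rw [hδ, div_le_one (by positivity)]
    nlinarith
  obtain ⟨C₁, hC₁⟩ : ∃ C₁ : ℕ, C₁ = 1 + F + ∑ j, ((κ j).natAbs + (β j).natAbs) := ⟨_, rfl⟩
  have hC₁1 : 1 ≤ C₁ := by omega
  have hlb : 0 < Real.log b := Real.log_pos (by exact_mod_cast (by omega : 1 < b))
  obtain ⟨K2, h3⟩ := log_small ((U + 2 : ℕ) : ℝ) (δ * Real.log b) (by positivity)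
  obtain ⟨K3, h4⟩ := log_small (Real.log C₁) (δ * Real.log b) (by positivity)
  refine ⟨K1 + K2 + K3 + r + 3, fun k hk z hz1 hz2 w hw S σ hσ X hX Q _ hQ => ?_⟩
  have hk3 : (3 : ℝ) ≤ k := by exact_mod_cast (by omega : 3 ≤ k)
  have hk0 : (0 : ℝ) < k := by linarith
  have hkr : (r : ℝ) + 2 ≤ k := by exact_mod_cast (by omega : r + 2 ≤ k)
  obtain ⟨h3, -⟩ := h3 k (by omega)
  obtain ⟨-, h4⟩ := h4 k (by omega)
  have hprod : 0 ≤ ∏ j, (X j : ℝ) := prod_nonneg fun j _ => Nat.cast_nonneg _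
  have hbk : 0 < b ^ k := Nat.pos_of_ne_zero (pow_ne_zero _ (by omega))
  -- the two exceptional sets
  obtain ⟨c', hc'⟩ : ∃ c' : (Fin r → ℕ) → Fin r → ℤ, ∀ c, c' c = fun j => σ j * (c j : ℤ) := ⟨_, fun _ => rfl⟩
  obtain ⟨Q1, hQ1⟩ : ∃ Q1 : (Fin r → ℕ) → Prop, ∀ c, Q1 c ↔
    1 / (k : ℝ) ^ (U + 2) < |ES b w k S κ β (c' c) - MS b w k z S κ β (c' c)| := ⟨_, fun _ => Iff.rfl⟩
  obtain ⟨Y, hY⟩ : ∃ Y : Fin r → ℝ, ∀ j, Y j = ((b ^ (dg (κ j) * k) : ℕ) : ℝ) / (k : ℝ) ^ (U + 2) := ⟨_, fun _ => rfl⟩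
  obtain ⟨Q2, hQ2⟩ : ∃ Q2 : (Fin r → ℕ) → Prop, ∀ c, Q2 c ↔ (∀ j, ∀ n < b ^ k, 1 ≤ qv (κ j) (β j) n + σ j * (c j : ℤ)) ∧
    ∃ j, ∃ n < b ^ k, ((qv (κ j) (β j) n + σ j * (c j : ℤ) : ℤ) : ℝ) < Y j := ⟨_, fun _ => Iff.rfl⟩
  have hc1 : (((Fintype.piFinset (fun j : Fin r => Icc 1 (X j))).filter Q1).card : ℝ) ≤ (∏ j, (X j : ℝ)) / (k : ℝ) ^ (U + 2) := by
    apply h2 k (by omega) z hz1 hz2 w hw S σ hσ X hX Q1
    intro c _ hq
    rw [hQ1, hc'] at hq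
    exact hq
  have hc2 : (((Fintype.piFinset (fun j : Fin r => Icc 1 (X j))).filter Q2).card : ℝ) ≤ r * (1 / (k : ℝ) ^ (U + 2)) * ∏ j, (X j : ℝ) := by
    apply small_count b k κ β σ hσ X Y (fun j => by rw [hY]; positivity) _ (fun j => ?_) hbk Q2 (fun c _ hq => (hQ2 c).1 hq)
    rw [hY, div_eq_inv_mul, one_div]
    exact mul_le_mul_of_nonneg_left (by exact_mod_cast (hX j).1) (by positivity)
  have hsub : (Fintype.piFinset (fun j : Fin r => Icc 1 (X j))).filter Q ⊆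
      (Fintype.piFinset (fun j : Fin r => Icc 1 (X j))).filter Q1 ∪ (Fintype.piFinset (fun j : Fin r => Icc 1 (X j))).filter Q2 := by
    intro c hc
    rw [mem_filter] at hc
    obtain ⟨hcm, hcQ⟩ := hc
    obtain ⟨hpos, hno⟩ := hQ c hcm hcQ
    rw [mem_union, mem_filter, mem_filter]
    by_contra hcon
    push Not at hcon
    obtain ⟨hn1, hn2⟩ := hcon
    replace hn1 := hn1 hcm
    replace hn2 := hn2 hcm
    rw [hQ1] at hn1
    rw [hQ2] at hn2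
    push Not at hn1 hn2
    replace hn2 := hn2 hpos
    rw [← hc' c] at hno
    apply hno
    have hkU : 1 / (k : ℝ) ^ (U + 2) ≤ 1 / (k : ℝ) ^ U / 2 := by
      rw [div_div]
      apply one_div_le_one_div_of_le (by positivity)
      rw [pow_add]
      apply mul_le_mul_of_nonneg_left _ (by positivity)
      nlinarith
    have hτ0 : 0 ≤ 1 / (k : ℝ) ^ (U + 2) := by positivity
    have hU0 : 0 ≤ 1 / (k : ℝ) ^ U := by positivity
    refine ⟨hn1.trans (by linarith), ?_⟩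
    have hL : ∀ j, 0 ≤ (dg (κ j) : ℝ) * k * Real.log b := fun j => by positivity
    have hdg : ∀ j, (1 : ℝ) ≤ dg (κ j) := by
      intro j
      unfold dg
      split_ifs <;> norm_num
    have hlog := boundsS b k w hw S κ β (c' c) δ ρ hδ0.le hδ1 hρ0.le (by linarith) hδρ hL (by
      intro j n hn
      have e : qv (κ j) (β j) n + c' c j = qv (κ j) (β j) n + σ j * (c j : ℤ) := by rw [hc']
      rw [e]
      obtain ⟨v, hv⟩ : ∃ v : ℤ, v = qv (κ j) (β j) n + σ j * (c j : ℤ) := ⟨_, rfl⟩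
      rw [← hv]
      have hv1 : Y j ≤ (v : ℝ) := by rw [hv]; exact hn2 j n hn
      have hv0 : (1 : ℝ) ≤ v := by exact_mod_cast (by rw [hv]; exact hpos j n hn : (1 : ℤ) ≤ v)
      have hv2 : (v : ℝ) ≤ C₁ * ((b ^ (dg (κ j) * k) : ℕ) : ℝ) := by
        have a1 := (abs_le.1 (qv_le_any (κ j) (β j) b k n hn)).2
        have a2 : (c j : ℤ) ≤ F * (b : ℤ) ^ (dg (κ j) * k) := by
          have := (mem_Icc.1 (Fintype.mem_piFinset.1 hcm j)).2.trans (hX j).2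
          exact_mod_cast this
        have a3 : σ j * (c j : ℤ) ≤ c j := by
          rcases hσ j with h | h <;> rw [h] <;> omega
        have a4 : (κ j).natAbs + (β j).natAbs ≤ ∑ j, ((κ j).natAbs + (β j).natAbs) :=
          single_le_sum (f := fun j => (κ j).natAbs + (β j).natAbs) (fun _ _ => Nat.zero_le _) (mem_univ j)
        have a5 : v ≤ (C₁ : ℤ) * (b : ℤ) ^ (dg (κ j) * k) := by
          have a6 : (((κ j).natAbs + (β j).natAbs : ℕ) : ℤ) * (b : ℤ) ^ (dg (κ j) * k) + F * (b : ℤ) ^ (dg (κ j) * k) ≤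
              (C₁ : ℤ) * (b : ℤ) ^ (dg (κ j) * k) := by
            rw [← add_mul]
            apply mul_le_mul_of_nonneg_right _ (by positivity)
            have : (κ j).natAbs + (β j).natAbs + F ≤ C₁ := by omega
            exact_mod_cast this
          push_cast at a1 a6
          rw [hv]
          linarith
        exact_mod_cast a5
      have hbp : (0 : ℝ) < ((b ^ (dg (κ j) * k) : ℕ) : ℝ) := by
        exact_mod_cast Nat.pos_of_ne_zero (pow_ne_zero _ (by omega))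
      have hlbp : Real.log ((b ^ (dg (κ j) * k) : ℕ) : ℝ) = (dg (κ j) : ℝ) * k * Real.log b := by
        push_cast
        rw [Real.log_pow]
        push_cast
        ring
      have hkl : δ * Real.log b * k ≤ δ * ((dg (κ j) : ℝ) * k * Real.log b) := by
        have : 1 * (δ * Real.log b * k) ≤ dg (κ j) * (δ * Real.log b * k) :=
          mul_le_mul_of_nonneg_right (hdg j) (by positivity)
        linarith
      constructor
      · have b1 : Real.log (Y j) ≤ Real.log v := Real.log_le_log (by rw [hY]; positivity) hv1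
        rw [hY, Real.log_div hbp.ne' (by positivity), hlbp, Real.log_pow] at b1
        linarith
      · have b1 : Real.log v ≤ Real.log (C₁ * ((b ^ (dg (κ j) * k) : ℕ) : ℝ)) := Real.log_le_log (by linarith) hv2
        rw [Real.log_mul (by exact_mod_cast (by omega : C₁ ≠ 0)) hbp.ne', hlbp] at b1
        linarith)
    have hSg : 0 ≤ MS b w k z S κ β (c' c) :=
      mul_nonneg (pow_nonneg (inv_nonneg.2 (Vz_pos z).le) _) (sum_nonneg fun n _ => P_nonneg hw _ _ _)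
    have hPr : 0 ≤ PS b w k S κ β (c' c) := sum_nonneg fun n _ => P_nonneg hw _ _ _
    have hLL : 0 ≤ LL b k κ := prod_nonneg fun j _ => hL j
    have hA : 0 ≤ LL b k κ * PS b w k S κ β (c' c) := mul_nonneg hLL hPr
    have hE : 0 ≤ ES b w k S κ β (c' c) := (mul_nonneg (by linarith) hA).trans hlog.1
    refine (compare _ _ _ _ ε ρ hε hρ0 hρ1 hρε hA hE hSg hτ0 hlog.1 hlog.2 hn1).trans ?_
    linarith
  have h5 : (((Fintype.piFinset (fun j : Fin r => Icc 1 (X j))).filter Q).card : ℝ) ≤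
      (∏ j, (X j : ℝ)) / (k : ℝ) ^ (U + 2) + r * (1 / (k : ℝ) ^ (U + 2)) * ∏ j, (X j : ℝ) := by
    refine le_trans ?_ (add_le_add hc1 hc2)
    exact_mod_cast (card_le_card hsub).trans (card_union_le _ _)
  refine h5.trans ?_
  have e : (∏ j, (X j : ℝ)) / (k : ℝ) ^ (U + 2) + r * (1 / (k : ℝ) ^ (U + 2)) * ∏ j, (X j : ℝ) =
      (∏ j, (X j : ℝ)) / (k : ℝ) ^ U * ((r + 1) / (k : ℝ) ^ 2) := by
    rw [pow_add]
    field_simp
    ring
  rw [e]
  apply mul_le_of_le_one_right (by positivity)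
  rw [div_le_one (by positivity)]
  nlinarith

end Pool.Agent.Q25.RDig
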