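import Pool.Agent.Q25.RSet

set_option autoImplicit false

/-!
# Quadratic polynomials at the elements of an arbitrary set, without positivity condition
-/

namespace Pool.Agent.Q25.RDig

open Finset
open Pool.Agent.TH872.Sq
open Pool.Agent.H373R2.T7 (pz Vz mem_pz Vz_pos)
open Classical

/-- quadratic polynomials with positive leading coefficients at the elements of any set: almost all vectors -/
theorem set_quad (b : ℕ) (hb : 2 ≤ b) (η : ℝ) (hη : 0 < η) (r : ℕ) (α β : Fin r → ℤ) (hα : ∀ j, 0 < α j)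
    (F U : ℕ) (ε : ℝ) (hε : 0 < ε) :
    ∃ B : ℕ, ∀ E : ℕ, ∃ K₀ : ℕ, ∀ k : ℕ, K₀ ≤ k → ∀ z : ℕ, (k : ℝ) ^ B ≤ z → (z : ℝ) ≤ (k : ℝ) ^ E →
    ∀ w : ℕ → ℕ → ℝ, Dig b η w → ∀ S : Set ℕ,
    ∀ X : Fin r → ℕ, (∀ j, b ^ (2 * k) ≤ X j ∧ X j ≤ F * b ^ (2 * k)) →
    ∀ Q : (Fin r → ℕ) → Prop, [DecidablePred Q] →
    (∀ c ∈ Fintype.piFinset (fun j : Fin r => Icc 1 (X j)), Q c → (∀ j, ∀ n : ℕ, 1 ≤ qv (α j) (β j) n + (c j : ℤ)) →
      ¬ (|ES b w k S α β (fun j => (c j : ℤ)) - MS b w k z S α β (fun j => (c j : ℤ))| ≤ 1 / (k : ℝ) ^ U ∧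
        |(2 * k * Real.log b) ^ r * PS b w k S α β (fun j => (c j : ℤ)) - MS b w k z S α β (fun j => (c j : ℤ))| ≤
          ε * MS b w k z S α β (fun j => (c j : ℤ)) + 1 / (k : ℝ) ^ U)) →
    (((Fintype.piFinset (fun j : Fin r => Icc 1 (X j))).filter Q).card : ℝ) ≤ (∏ j, (X j : ℝ)) / (k : ℝ) ^ U := by
  classical
  have hα0 : ∀ j, α j ≠ 0 := fun j => (hα j).ne'
  have hdg : ∀ j, dg (α j) = 2 := fun j => dg_ne (hα0 j)
  obtain ⟨B, h1⟩ := set_prob b hb η hη r α β (fun j => by unfold ld; rw [if_neg (hα0 j)]; exact hα0 j) F (U + 1) ε hε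
  refine ⟨B, fun E => ?_⟩
  obtain ⟨K₀, h2⟩ := h1 E
  obtain ⟨S₀, hS⟩ : ∃ S₀ : ℕ, S₀ = ∑ j, ((β j).natAbs ^ 2 + 1) := ⟨_, rfl⟩
  have hlim := isLittleO_pow_const_const_pow_of_one_lt (R := ℝ) (U + 1) (r := (2 : ℝ)) (by norm_num)
  have h3 := hlim.def (c := 1 / (S₀ + 1)) (by positivity)
  rw [Filter.eventually_atTop] at h3
  obtain ⟨K₁, hK₁⟩ := h3
  refine ⟨K₀ + K₁ + r + 2, fun k hk z hz1 hz2 w hw S X hX Q _ hQ => ?_⟩
  have hk2 : (2 : ℝ) ≤ k := by exact_mod_cast (by omega : 2 ≤ k)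
  have hkr : (r : ℝ) + 1 ≤ k := by exact_mod_cast (by omega : r + 1 ≤ k)
  have hk1 : (1 : ℝ) ≤ k := by linarith
  have hLL : LL b k α = (2 * k * Real.log b) ^ r := by
    unfold LL
    simp only [hdg]
    rw [prod_const, card_univ, Fintype.card_fin]
    norm_num
  have hSk : (S₀ : ℝ) * (k : ℝ) ^ (U + 1) ≤ ((b ^ (2 * k) : ℕ) : ℝ) := by
    have h4 := hK₁ k (by omega)
    rw [Real.norm_of_nonneg (by positivity), Real.norm_of_nonneg (by positivity), one_div, inv_mul_eq_div,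
      le_div_iff₀ (by positivity)] at h4
    have h5 : (2 : ℝ) ^ k ≤ ((b ^ (2 * k) : ℕ) : ℝ) := by
      have : 2 ^ k ≤ b ^ (2 * k) := (Nat.pow_le_pow_left hb k).trans (Nat.pow_le_pow_right (by omega) (by omega))
      exact_mod_cast this
    nlinarith [pow_pos (lt_of_lt_of_le one_pos hk1) (U + 1)]
  -- the vectors with a small coordinate
  obtain ⟨T, hT⟩ : ∃ T : Fin r → Finset ℕ, ∀ j, T j = Icc 1 ((β j).natAbs ^ 2 + 1) := ⟨_, fun _ => rfl⟩
  obtain ⟨Q1, hQ1⟩ : ∃ Q1 : (Fin r → ℕ) → Prop, ∀ c, Q1 c ↔ Q c ∧ ∀ j, (β j).natAbs ^ 2 + 1 < c j := ⟨_, fun _ => Iff.rfl⟩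
  obtain ⟨Q2, hQ2⟩ : ∃ Q2 : (Fin r → ℕ) → Prop, ∀ c, Q2 c ↔ ∃ j, c j ≤ (β j).natAbs ^ 2 + 1 := ⟨_, fun _ => Iff.rfl⟩
  have hpos : ∀ (j : Fin r) (c : ℕ), (β j).natAbs ^ 2 + 1 < c → ∀ n : ℕ, 1 ≤ qv (α j) (β j) n + (c : ℤ) := by
    intro j c hc n
    unfold qv
    have h4 : (β j) ^ 2 + 1 < (c : ℤ) := by
      have : (((β j).natAbs ^ 2 + 1 : ℕ) : ℤ) < (c : ℤ) := by exact_mod_cast hc
      push_cast at this
      rwa [sq_abs] at this
    have h5 : 1 ≤ α j := hα j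
    have h6 : (n : ℤ) ^ 2 ≤ α j * (n : ℤ) ^ 2 := le_mul_of_one_le_left (sq_nonneg _) h5
    nlinarith [sq_nonneg (2 * (n : ℤ) + β j)]
  have g1 : (((Fintype.piFinset (fun j : Fin r => Icc 1 (X j))).filter Q1).card : ℝ) ≤ (∏ j, (X j : ℝ)) / (k : ℝ) ^ (U + 1) := by
    apply h2 k (by omega) z hz1 hz2 w hw S (fun _ => 1) (fun _ => Or.inl rfl) X (fun j => by rw [hdg j]; exact hX j) Q1
    intro c hc hq
    rw [hQ1] at hq
    simp only [one_mul]
    refine ⟨fun j n _ => hpos j (c j) (hq.2 j) n, fun hg => ?_⟩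
    refine hQ c hc hq.1 (fun j n => hpos j (c j) (hq.2 j) n) ?_
    have g3 : 1 / (k : ℝ) ^ (U + 1) ≤ 1 / (k : ℝ) ^ U :=
      one_div_le_one_div_of_le (by positivity) (pow_le_pow_right₀ hk1 (Nat.le_succ U))
    rw [hLL] at hg
    exact ⟨hg.1.trans g3, hg.2.trans (by linarith)⟩
  have g2 : (((Fintype.piFinset (fun j : Fin r => Icc 1 (X j))).filter Q2).card : ℝ) ≤
      r * (1 / (k : ℝ) ^ (U + 1)) * ∏ j, (X j : ℝ) := by
    have hsub : (Fintype.piFinset (fun j : Fin r => Icc 1 (X j))).filter Q2 ⊆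
        univ.biUnion (fun j : Fin r => Fintype.piFinset (fun i => if i = j then T i else Icc 1 (X i))) := by
      intro c hc
      rw [mem_filter, hQ2] at hc
      obtain ⟨hcm, j, hj⟩ := hc
      rw [mem_biUnion]
      refine ⟨j, mem_univ _, ?_⟩
      rw [Fintype.mem_piFinset]
      intro i
      have hci := (Fintype.mem_piFinset.1 hcm) i
      split_ifs with hij
      · subst hij
        rw [hT i, mem_Icc]
        exact ⟨(mem_Icc.1 hci).1, hj⟩
      · exact hci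
    have h4 : (((Fintype.piFinset (fun j : Fin r => Icc 1 (X j))).filter Q2).card : ℝ) ≤
        ∑ j : Fin r, ((Fintype.piFinset (fun i => if i = j then T i else Icc 1 (X i))).card : ℝ) := by
      exact_mod_cast (card_le_card hsub).trans card_biUnion_le
    refine h4.trans ?_
    have h5 : ∀ j : Fin r, ((Fintype.piFinset (fun i => if i = j then T i else Icc 1 (X i))).card : ℝ) ≤
        1 / (k : ℝ) ^ (U + 1) * ∏ j, (X j : ℝ) := by
      intro j
      rw [Fintype.card_piFinset]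
      push_cast
      rw [← mul_prod_erase univ _ (mem_univ j), ← mul_prod_erase univ (fun j => (X j : ℝ)) (mem_univ j), if_pos rfl, ← mul_assoc]
      have h6 : ∏ x ∈ univ.erase j, (((if x = j then T x else Icc 1 (X x)).card : ℕ) : ℝ) = ∏ x ∈ univ.erase j, (X x : ℝ) := by
        apply prod_congr rfl
        intro x hx
        rw [if_neg (ne_of_mem_erase hx), Nat.card_Icc, Nat.add_sub_cancel]
      rw [h6]
      apply mul_le_mul_of_nonneg_right _ (prod_nonneg fun _ _ => Nat.cast_nonneg _)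
      rw [hT j, Nat.card_Icc, Nat.add_sub_cancel, one_div, inv_mul_eq_div, le_div_iff₀ (by positivity)]
      have h7 : (β j).natAbs ^ 2 + 1 ≤ S₀ := by
        rw [hS]
        exact single_le_sum (f := fun j => (β j).natAbs ^ 2 + 1) (fun _ _ => Nat.zero_le _) (mem_univ j)
      have h8 : (((β j).natAbs ^ 2 + 1 : ℕ) : ℝ) ≤ S₀ := by exact_mod_cast h7
      have h9 : ((b ^ (2 * k) : ℕ) : ℝ) ≤ X j := by exact_mod_cast (hX j).1
      calc (((β j).natAbs ^ 2 + 1 : ℕ) : ℝ) * (k : ℝ) ^ (U + 1) ≤ S₀ * (k : ℝ) ^ (U + 1) :=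
            mul_le_mul_of_nonneg_right h8 (by positivity)
        _ ≤ _ := hSk.trans h9
    refine (sum_le_sum fun j _ => h5 j).trans (le_of_eq ?_)
    rw [sum_const, card_univ, Fintype.card_fin, nsmul_eq_mul]
    ring
  have hsub : (Fintype.piFinset (fun j : Fin r => Icc 1 (X j))).filter Q ⊆
      (Fintype.piFinset (fun j : Fin r => Icc 1 (X j))).filter Q1 ∪ (Fintype.piFinset (fun j : Fin r => Icc 1 (X j))).filter Q2 := by
    intro c hc
    rw [mem_filter] at hc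
    rw [mem_union, mem_filter, mem_filter, hQ1, hQ2]
    by_cases h : ∀ j, (β j).natAbs ^ 2 + 1 < c j
    · exact Or.inl ⟨hc.1, hc.2, h⟩
    · push Not at h
      exact Or.inr ⟨hc.1, h⟩
  have h5 : (((Fintype.piFinset (fun j : Fin r => Icc 1 (X j))).filter Q).card : ℝ) ≤
      (∏ j, (X j : ℝ)) / (k : ℝ) ^ (U + 1) + r * (1 / (k : ℝ) ^ (U + 1)) * ∏ j, (X j : ℝ) := by
    refine le_trans ?_ (add_le_add g1 g2)
    exact_mod_cast (card_le_card hsub).trans (card_union_le _ _)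
  refine h5.trans ?_
  have e : (∏ j, (X j : ℝ)) / (k : ℝ) ^ (U + 1) + r * (1 / (k : ℝ) ^ (U + 1)) * ∏ j, (X j : ℝ) =
      (∏ j, (X j : ℝ)) / (k : ℝ) ^ U * ((r + 1) / k) := by
    rw [pow_succ]
    field_simp
    ring
  rw [e]
  have hprod : 0 ≤ ∏ j, (X j : ℝ) := prod_nonneg fun j _ => Nat.cast_nonneg _
  apply mul_le_of_le_one_right (by positivity)
  rw [div_le_one (by positivity)]
  exact hkr

end Pool.Agent.Q25.RDig
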