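import Pool.Agent.Q25.RSet2

set_option autoImplicit false

/-!
# Systems of polynomials of degree one and two at the elements of an arbitrary set, both signs

The theorem `set_prob` without the condition that all the values are positive.
-/

namespace Pool.Agent.Q25.RDig

open Finset
open Pool.Agent.TH872.Sq
open Pool.Agent.H373R2.T7 (pz Vz mem_pz Vz_pos lamzI lamz)
open Classical

/-- the probability that the value is positive and smaller than `Y` -/
noncomputable def psm (b : ℕ) (w : ℕ → ℕ → ℝ) (k : ℕ) (κ β c : ℤ) (Y : ℝ) : ℝ :=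
  ∑ n ∈ (range (b ^ k)).filter (fun n => 1 ≤ qv κ β n + c ∧ ((qv κ β n + c : ℤ) : ℝ) < Y), P b w 0 k n

lemma psm_nonneg (b : ℕ) {η : ℝ} (w : ℕ → ℕ → ℝ) (hw : Dig b η w) (k : ℕ) (κ β c : ℤ) (Y : ℝ) :
    0 ≤ psm b w k κ β c Y := sum_nonneg fun _ _ => P_nonneg hw _ _ _

lemma psm_sum (b k : ℕ) (hb : 0 < b) {η : ℝ} (w : ℕ → ℕ → ℝ) (hw : Dig b η w) (κ β σ : ℤ) (hσ : σ = 1 ∨ σ = -1)
    (X : ℕ) (Y : ℝ) (hY : 0 ≤ Y) :
    ∑ c ∈ Icc 1 X, psm b w k κ β (σ * (c : ℤ)) Y ≤ Y := by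
  unfold psm
  simp only [sum_filter]
  rw [sum_comm]
  calc _ ≤ ∑ n ∈ range (b ^ k), P b w 0 k n * Y := by
        apply sum_le_sum
        intro n _
        rw [← sum_filter, sum_const, nsmul_eq_mul, mul_comm]
        apply mul_le_mul_of_nonneg_left _ (P_nonneg hw 0 k n)
        have h1 : ((Icc 1 X).filter (fun c : ℕ => 1 ≤ qv κ β n + σ * (c : ℤ) ∧
            ((qv κ β n + σ * (c : ℤ) : ℤ) : ℝ) < Y)).card ≤ (Icc 1 ⌊Y⌋₊).card := by
          apply card_le_card_of_injOn (fun c : ℕ => (qv κ β n + σ * (c : ℤ)).toNat)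
          · intro c hc
            rw [mem_coe, mem_filter] at hc
            obtain ⟨-, h2, h3⟩ := hc
            simp only [coe_Icc, Set.mem_Icc]
            refine ⟨by omega, Nat.le_floor ?_⟩
            refine le_trans ?_ h3.le
            have h4 : (((qv κ β n + σ * (c : ℤ)).toNat : ℤ) : ℝ) = ((qv κ β n + σ * (c : ℤ) : ℤ) : ℝ) := by
              rw [Int.toNat_of_nonneg (by omega)]
            rw [← h4]
            push_cast
            exact le_rfl
          · intro c hc c' hc' h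
            rw [mem_coe, mem_filter] at hc hc'
            simp only at h
            rcases hσ with h5 | h5 <;> rw [h5] at h hc hc' <;> omega
        rw [Nat.card_Icc, Nat.add_sub_cancel] at h1
        exact (Nat.cast_le.2 h1).trans (Nat.floor_le hY)
    _ = Y := by rw [← sum_mul, P_sum hb hw, one_mul]

/-- the vectors with one coordinate in a small set -/
lemma coord_count {r : ℕ} (X : Fin r → ℕ) (t : ℝ) (T : Fin r → Finset ℕ)
    (hT : ∀ j, ((T j).card : ℝ) ≤ t * X j) (Q : (Fin r → ℕ) → Prop) [DecidablePred Q]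
    (hQ : ∀ c ∈ Fintype.piFinset (fun j : Fin r => Icc 1 (X j)), Q c → ∃ j, c j ∈ T j) :
    (((Fintype.piFinset (fun j : Fin r => Icc 1 (X j))).filter Q).card : ℝ) ≤ r * t * ∏ j, (X j : ℝ) := by
  classical
  have hsub : (Fintype.piFinset (fun j : Fin r => Icc 1 (X j))).filter Q ⊆
      univ.biUnion (fun j : Fin r => Fintype.piFinset (fun i => if i = j then T i else Icc 1 (X i))) := by
    intro c hc
    rw [mem_filter] at hc
    obtain ⟨j, hj⟩ := hQ c hc.1 hc.2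
    rw [mem_biUnion]
    refine ⟨j, mem_univ _, ?_⟩
    rw [Fintype.mem_piFinset]
    intro i
    have hci := (Fintype.mem_piFinset.1 hc.1) i
    split_ifs with hij
    · subst hij
      exact hj
    · exact hci
  have h1 : (((Fintype.piFinset (fun j : Fin r => Icc 1 (X j))).filter Q).card : ℝ) ≤
      ∑ j : Fin r, ((Fintype.piFinset (fun i => if i = j then T i else Icc 1 (X i))).card : ℝ) := by
    exact_mod_cast (card_le_card hsub).trans card_biUnion_le
  refine h1.trans ?_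
  have h2 : ∀ j : Fin r, ((Fintype.piFinset (fun i => if i = j then T i else Icc 1 (X i))).card : ℝ) ≤
      t * ∏ j, (X j : ℝ) := by
    intro j
    rw [Fintype.card_piFinset]
    push_cast
    rw [← mul_prod_erase univ _ (mem_univ j), ← mul_prod_erase univ (fun j => (X j : ℝ)) (mem_univ j), if_pos rfl, ← mul_assoc]
    have h3 : ∏ x ∈ univ.erase j, (((if x = j then T x else Icc 1 (X x)).card : ℕ) : ℝ) = ∏ x ∈ univ.erase j, (X x : ℝ) := by
      apply prod_congr rfl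
      intro x hx
      rw [if_neg (ne_of_mem_erase hx), Nat.card_Icc, Nat.add_sub_cancel]
    rw [h3]
    exact mul_le_mul_of_nonneg_right (hT j) (prod_nonneg fun _ _ => Nat.cast_nonneg _)
  refine (sum_le_sum fun j _ => h2 j).trans (le_of_eq ?_)
  rw [sum_const, card_univ, Fintype.card_fin, nsmul_eq_mul]
  ring

lemma pow_bounds (r : ℕ) (δ ρ : ℝ) (hδ0 : 0 ≤ δ) (hδ1 : δ ≤ 1) (hρ1 : ρ ≤ 1) (hδ : 2 * r * δ ≤ ρ) :
    1 - ρ ≤ (1 - δ) ^ r ∧ (1 + δ) ^ r ≤ 1 + ρ := by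
  have hr : (0 : ℝ) ≤ r := Nat.cast_nonneg _
  have hρ0 : 0 ≤ ρ := le_trans (by positivity) hδ
  constructor
  · have h1 := one_add_mul_le_pow (a := -δ) (by linarith) r
    have h2 : (1 : ℝ) + r * -δ = 1 - r * δ := by ring
    rw [h2, ← sub_eq_add_neg] at h1
    nlinarith
  · have h1 : (1 + δ) ^ r ≤ Real.exp (r * δ) := by
      rw [Real.exp_nat_mul]
      apply pow_le_pow_left₀ (by linarith)
      have := Real.add_one_le_exp δ
      linarith
    have h2 : Real.exp (r * δ) ≤ Real.exp (ρ / 2) := Real.exp_le_exp.2 (by linarith)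
    have h3 : Real.exp (ρ / 2) ≤ 1 + ρ := by
      have h4 : 1 - ρ / 2 ≤ Real.exp (-(ρ / 2)) := by
        have := Real.add_one_le_exp (-(ρ / 2))
        linarith
      have h5 : Real.exp (ρ / 2) * Real.exp (-(ρ / 2)) = 1 := by rw [← Real.exp_add]; simp
      have h6 : 0 < Real.exp (ρ / 2) := Real.exp_pos _
      nlinarith [mul_le_mul_of_nonneg_left h4 h6.le]
    linarith

lemma sum_bU_le {ι : Type} [Fintype ι] (H : ι → Finset ℕ) (f : ℕ → ℝ) (hf : ∀ n, 0 ≤ f n) :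
    ∑ n ∈ univ.biUnion H, f n ≤ ∑ j, ∑ n ∈ H j, f n := by
  classical
  have h1 : ∀ j, ∑ n ∈ H j, f n = ∑ n ∈ univ.biUnion H, if n ∈ H j then f n else 0 := by
    intro j
    rw [← sum_filter]
    apply sum_congr _ (fun _ _ => rfl)
    ext n
    rw [mem_filter, mem_biUnion]
    exact ⟨fun h => ⟨⟨j, mem_univ _, h⟩, h⟩, fun h => h.2⟩
  simp only [h1]
  rw [sum_comm]
  apply sum_le_sum
  intro n hn
  rw [mem_biUnion] at hn
  obtain ⟨j, -, hj⟩ := hn
  calc f n = if n ∈ H j then f n else 0 := by rw [if_pos hj]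
    _ ≤ _ := single_le_sum (f := fun j => if n ∈ H j then f n else 0) (fun i _ => by
      split_ifs
      · exact hf n
      · exact le_rfl) (mem_univ j)

/-- the product of the logarithms of the values, with weights; small values are allowed -/
lemma boundsT (b k : ℕ) {r : ℕ} {η : ℝ} (w : ℕ → ℕ → ℝ) (hw : Dig b η w) (S : Set ℕ) (κ β c : Fin r → ℤ) (Y : Fin r → ℝ)
    (δ ρ : ℝ) (hδ0 : 0 ≤ δ) (hδ1 : δ ≤ 1) (hρ1 : ρ ≤ 1) (hδ : 2 * r * δ ≤ ρ)
    (hL : ∀ j, 0 ≤ (dg (κ j) : ℝ) * k * Real.log b)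
    (h1 : ∀ j, ∀ n < b ^ k, Y j ≤ ((qv (κ j) (β j) n + c j : ℤ) : ℝ) →
      (1 - δ) * ((dg (κ j) : ℝ) * k * Real.log b) ≤ Real.log ((qv (κ j) (β j) n + c j : ℤ) : ℝ))
    (h2 : ∀ j, ∀ n < b ^ k, 1 ≤ qv (κ j) (β j) n + c j →
      Real.log ((qv (κ j) (β j) n + c j : ℤ) : ℝ) ≤ (1 + δ) * ((dg (κ j) : ℝ) * k * Real.log b)) :
    (1 - ρ) * (LL b k κ * (PS b w k S κ β c - ∑ j, psm b w k (κ j) (β j) (c j) (Y j))) ≤ ES b w k S κ β c ∧
      ES b w k S κ β c ≤ (1 + ρ) * (LL b k κ * PS b w k S κ β c) := by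
  have hLL : 0 ≤ LL b k κ := prod_nonneg fun j _ => hL j
  obtain ⟨p1, p2⟩ := pow_bounds r δ ρ hδ0 hδ1 hρ1 hδ
  have hval : ∀ (j : Fin r) (n : ℕ), (qv (κ j) (β j) n + c j).toNat.Prime → 1 ≤ qv (κ j) (β j) n + c j := by
    intro j n h
    have := h.pos
    omega
  constructor
  · obtain ⟨F, hF⟩ : ∃ F : Finset ℕ, F = (range (b ^ k)).filter (fun n => n ∈ S ∧
      ∀ j, (qv (κ j) (β j) n + c j).toNat.Prime) := ⟨_, rfl⟩
    obtain ⟨G, hG⟩ : ∃ G : Finset ℕ, G = F.filter (fun n => ∀ j, Y j ≤ ((qv (κ j) (β j) n + c j : ℤ) : ℝ)) := ⟨_, rfl⟩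
    have hE : ∑ n ∈ G, P b w 0 k n * ((1 - ρ) * LL b k κ) ≤ ES b w k S κ β c := by
      have e1 : ES b w k S κ β c = ∑ n ∈ F, P b w 0 k n * ∏ j, Real.log ((qv (κ j) (β j) n + c j : ℤ) : ℝ) := by
        unfold ES
        rw [hF]
      rw [e1]
      calc ∑ n ∈ G, P b w 0 k n * ((1 - ρ) * LL b k κ) ≤
          ∑ n ∈ G, P b w 0 k n * ∏ j, Real.log ((qv (κ j) (β j) n + c j : ℤ) : ℝ) := by
            apply sum_le_sum
            intro n hn
            rw [hG, mem_filter, hF, mem_filter, mem_range] at hn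
            apply mul_le_mul_of_nonneg_left _ (P_nonneg hw 0 k n)
            refine (mul_le_mul_of_nonneg_right p1 hLL).trans ?_
            unfold LL
            have e : (1 - δ) ^ r = ∏ _j : Fin r, (1 - δ) := by rw [prod_const, card_univ, Fintype.card_fin]
            rw [e, ← prod_mul_distrib]
            exact prod_le_prod (fun j _ => mul_nonneg (by linarith) (hL j)) (fun j _ => h1 j n hn.1.1 (hn.2 j))
        _ ≤ _ := by
            apply sum_le_sum_of_subset_of_nonneg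
            · rw [hG]
              exact filter_subset _ _
            · intro n hn _
              rw [hF, mem_filter] at hn
              apply mul_nonneg (P_nonneg hw 0 k n)
              apply prod_nonneg
              intro j _
              apply Real.log_nonneg
              exact_mod_cast hval j n (hn.2.2 j)
    have hP : PS b w k S κ β c - ∑ j, psm b w k (κ j) (β j) (c j) (Y j) ≤ ∑ n ∈ G, P b w 0 k n := by
      have e1 : PS b w k S κ β c = ∑ n ∈ F, P b w 0 k n := by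
        unfold PS
        rw [hF]
      rw [e1]
      obtain ⟨H, hH⟩ : ∃ H : Fin r → Finset ℕ, ∀ j, H j = (range (b ^ k)).filter (fun n => 1 ≤ qv (κ j) (β j) n + c j ∧
        ((qv (κ j) (β j) n + c j : ℤ) : ℝ) < Y j) := ⟨_, fun _ => rfl⟩
      have hsub : F ⊆ G ∪ univ.biUnion H := by
        intro n hn
        rw [mem_union]
        by_cases hg : ∀ j, Y j ≤ ((qv (κ j) (β j) n + c j : ℤ) : ℝ)
        · left
          rw [hG, mem_filter]
          exact ⟨hn, hg⟩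
        · right
          push Not at hg
          obtain ⟨j, hj⟩ := hg
          rw [hF, mem_filter] at hn
          rw [mem_biUnion]
          refine ⟨j, mem_univ _, ?_⟩
          rw [hH, mem_filter]
          exact ⟨hn.1, hval j n (hn.2.2 j), hj⟩
      have h3 : ∑ n ∈ F, P b w 0 k n ≤ ∑ n ∈ G, P b w 0 k n + ∑ n ∈ univ.biUnion H, P b w 0 k n := by
        refine (sum_le_sum_of_subset_of_nonneg hsub fun n _ _ => P_nonneg hw 0 k n).trans ?_
        rw [← sum_union_inter]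
        have := sum_nonneg (s := G ∩ univ.biUnion H) (f := fun n => P b w 0 k n) fun n _ => P_nonneg hw 0 k n
        linarith
      have h4 : ∑ n ∈ univ.biUnion H, P b w 0 k n ≤ ∑ j, ∑ n ∈ H j, P b w 0 k n :=
        sum_bU_le H (fun n => P b w 0 k n) (fun n => P_nonneg hw 0 k n)
      have h5 : ∑ j, ∑ n ∈ H j, P b w 0 k n = ∑ j, psm b w k (κ j) (β j) (c j) (Y j) := by
        apply sum_congr rfl
        intro j _
        unfold psm
        rw [hH]
      linarith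
    calc (1 - ρ) * (LL b k κ * (PS b w k S κ β c - ∑ j, psm b w k (κ j) (β j) (c j) (Y j)))
        ≤ (1 - ρ) * (LL b k κ * ∑ n ∈ G, P b w 0 k n) :=
          mul_le_mul_of_nonneg_left (mul_le_mul_of_nonneg_left hP hLL) (by linarith)
      _ = ∑ n ∈ G, P b w 0 k n * ((1 - ρ) * LL b k κ) := by rw [← sum_mul]; ring
      _ ≤ _ := hE
  · unfold ES PS
    rw [mul_sum, mul_sum]
    apply sum_le_sum
    intro n hn
    rw [mem_filter, mem_range] at hn
    have hP := P_nonneg hw 0 k n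
    have h3 : ∏ j, Real.log ((qv (κ j) (β j) n + c j : ℤ) : ℝ) ≤ (1 + δ) ^ r * LL b k κ := by
      unfold LL
      have e : (1 + δ) ^ r = ∏ _j : Fin r, (1 + δ) := by rw [prod_const, card_univ, Fintype.card_fin]
      rw [e, ← prod_mul_distrib]
      refine prod_le_prod (fun j _ => Real.log_nonneg ?_) (fun j _ => h2 j n hn.1 (hval j n (hn.2.2 j)))
      exact_mod_cast hval j n (hn.2.2 j)
    have h4 : ∏ j, Real.log ((qv (κ j) (β j) n + c j : ℤ) : ℝ) ≤ (1 + ρ) * LL b k κ :=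
      h3.trans (mul_le_mul_of_nonneg_right p2 hLL)
    calc P b w 0 k n * ∏ j, Real.log ((qv (κ j) (β j) n + c j : ℤ) : ℝ) ≤ P b w 0 k n * ((1 + ρ) * LL b k κ) :=
          mul_le_mul_of_nonneg_left h4 hP
      _ = _ := by ring

/-- **The probability, for almost all vectors, without positivity condition.** -/
theorem set_any (b : ℕ) (hb : 2 ≤ b) (η : ℝ) (hη : 0 < η) (r : ℕ) (κ β : Fin r → ℤ) (hκ : ∀ j, ld (κ j) (β j) ≠ 0)
    (F U : ℕ) (ε : ℝ) (hε : 0 < ε) :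
    ∃ B : ℕ, ∀ E : ℕ, ∃ K₀ : ℕ, ∀ k : ℕ, K₀ ≤ k → ∀ z : ℕ, (k : ℝ) ^ B ≤ z → (z : ℝ) ≤ (k : ℝ) ^ E →
    ∀ w : ℕ → ℕ → ℝ, Dig b η w → ∀ S : Set ℕ, ∀ σ : Fin r → ℤ, (∀ j, σ j = 1 ∨ σ j = -1) →
    ∀ X : Fin r → ℕ, (∀ j, b ^ (dg (κ j) * k) ≤ X j ∧ X j ≤ F * b ^ (dg (κ j) * k)) →
    ∀ Q : (Fin r → ℕ) → Prop, [DecidablePred Q] →
    (∀ c ∈ Fintype.piFinset (fun j : Fin r => Icc 1 (X j)), Q c →
      ¬ (|ES b w k S κ β (fun j => σ j * (c j : ℤ)) - MS b w k z S κ β (fun j => σ j * (c j : ℤ))| ≤ 1 / (k : ℝ) ^ U ∧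
        |LL b k κ * PS b w k S κ β (fun j => σ j * (c j : ℤ)) - MS b w k z S κ β (fun j => σ j * (c j : ℤ))| ≤
          ε * MS b w k z S κ β (fun j => σ j * (c j : ℤ)) + 1 / (k : ℝ) ^ U)) →
    (((Fintype.piFinset (fun j : Fin r => Icc 1 (X j))).filter Q).card : ℝ) ≤ (∏ j, (X j : ℝ)) / (k : ℝ) ^ U := by
  obtain ⟨B, h1⟩ := set_exp b hb η hη r κ β hκ F (U + 2)
  refine ⟨B, fun E => ?_⟩
  obtain ⟨K1, h2⟩ := h1 E
  obtain ⟨ρ, hρ⟩ : ∃ ρ : ℝ, ρ = min 1 ε / 3 := ⟨_, rfl⟩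
  have hm : 0 < min 1 ε := lt_min one_pos hε
  have hρ0 : 0 < ρ := by rw [hρ]; positivity
  have hρ1 : 3 * ρ ≤ 1 := by rw [hρ]; linarith [min_le_left 1 ε]
  have hρε : 3 * ρ ≤ ε := by rw [hρ]; linarith [min_le_right 1 ε]
  obtain ⟨δ, hδ⟩ : ∃ δ : ℝ, δ = ρ / (2 * (r + 1)) := ⟨_, rfl⟩
  have hr0 : (0 : ℝ) ≤ r := Nat.cast_nonneg _
  have hδ0 : 0 < δ := by rw [hδ]; positivity
  have hδρ : 2 * r * δ ≤ ρ := by
    rw [hδ, mul_div_assoc', div_le_iff₀ (by positivity)]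
    nlinarith
  have hδ1 : δ ≤ 1 := by
    rw [hδ, div_le_one (by positivity)]
    nlinarith
  obtain ⟨C₁, hC₁⟩ : ∃ C₁ : ℕ, C₁ = 1 + F + ∑ j, ((κ j).natAbs + (β j).natAbs) := ⟨_, rfl⟩
  have hC₁1 : 1 ≤ C₁ := by omega
  have hlb : 0 < Real.log b := Real.log_pos (by exact_mod_cast (by omega : 1 < b))
  obtain ⟨W, hW⟩ : ∃ W : ℕ, W = U + r + 4 := ⟨_, rfl⟩
  obtain ⟨K2, h3⟩ := log_small ((2 * W : ℕ) : ℝ) (δ * Real.log b) (by positivity)
  obtain ⟨K3, h4⟩ := log_small (Real.log C₁) (δ * Real.log b) (by positivity)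
  obtain ⟨K4, hK4⟩ := exists_nat_ge ((r : ℝ) * (2 * Real.log b) ^ r)
  refine ⟨K1 + K2 + K3 + K4 + r + 3, fun k hk z hz1 hz2 w hw S σ hσ X hX Q _ hQ => ?_⟩
  have hk3 : (3 : ℝ) ≤ k := by exact_mod_cast (by omega : 3 ≤ k)
  have hk0 : (0 : ℝ) < k := by linarith
  have hkr : (r : ℝ) + 2 ≤ k := by exact_mod_cast (by omega : r + 2 ≤ k)
  have hk4 : (r : ℝ) * (2 * Real.log b) ^ r ≤ k := hK4.trans (by exact_mod_cast (by omega : K4 ≤ k))
  obtain ⟨h3, -⟩ := h3 k (by omega)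
  obtain ⟨-, h4⟩ := h4 k (by omega)
  have hprod : 0 ≤ ∏ j, (X j : ℝ) := prod_nonneg fun j _ => Nat.cast_nonneg _
  have hL : ∀ j, 0 ≤ (dg (κ j) : ℝ) * k * Real.log b := fun j => by positivity
  have hdg : ∀ j, (1 : ℝ) ≤ dg (κ j) ∧ (dg (κ j) : ℝ) ≤ 2 := by
    intro j
    unfold dg
    split_ifs <;> norm_num
  have hLL : 0 ≤ LL b k κ := prod_nonneg fun j _ => hL j
  have hLL2 : LL b k κ ≤ (k : ℝ) ^ r * (2 * Real.log b) ^ r := by
    unfold LL
    rw [← mul_pow]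
    have e : ((k : ℝ) * (2 * Real.log b)) ^ r = ∏ _j : Fin r, ((k : ℝ) * (2 * Real.log b)) := by
      rw [prod_const, card_univ, Fintype.card_fin]
    rw [e]
    apply prod_le_prod (fun j _ => hL j)
    intro j _
    have := mul_le_mul_of_nonneg_right (hdg j).2 (by positivity : (0 : ℝ) ≤ k * Real.log b)
    linarith
  -- the two exceptional sets
  obtain ⟨c', hc'⟩ : ∃ c' : (Fin r → ℕ) → Fin r → ℤ, ∀ c, c' c = fun j => σ j * (c j : ℤ) := ⟨_, fun _ => rfl⟩
  obtain ⟨Q1, hQ1⟩ : ∃ Q1 : (Fin r → ℕ) → Prop, ∀ c, Q1 c ↔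
    1 / (k : ℝ) ^ (U + 2) < |ES b w k S κ β (c' c) - MS b w k z S κ β (c' c)| := ⟨_, fun _ => Iff.rfl⟩
  obtain ⟨Y, hY⟩ : ∃ Y : Fin r → ℝ, ∀ j, Y j = ((b ^ (dg (κ j) * k) : ℕ) : ℝ) / (k : ℝ) ^ (2 * W) := ⟨_, fun _ => rfl⟩
  have hY0 : ∀ j, 0 ≤ Y j := fun j => by rw [hY]; positivity
  obtain ⟨T, hT⟩ : ∃ T : Fin r → Finset ℕ, ∀ j, T j = (Icc 1 (X j)).filter (fun c : ℕ =>
    1 / (k : ℝ) ^ W < |psm b w k (κ j) (β j) (σ j * (c : ℤ)) (Y j)|) := ⟨_, fun _ => rfl⟩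
  obtain ⟨Q2, hQ2⟩ : ∃ Q2 : (Fin r → ℕ) → Prop, ∀ c, Q2 c ↔ ∃ j, c j ∈ T j := ⟨_, fun _ => Iff.rfl⟩
  have hc1 : (((Fintype.piFinset (fun j : Fin r => Icc 1 (X j))).filter Q1).card : ℝ) ≤ (∏ j, (X j : ℝ)) / (k : ℝ) ^ (U + 2) := by
    apply h2 k (by omega) z hz1 hz2 w hw S σ hσ X hX Q1
    intro c _ hq
    rw [hQ1, hc'] at hq
    exact hq
  have hTc : ∀ j, ((T j).card : ℝ) ≤ 1 / (k : ℝ) ^ W * X j := by
    intro j
    have h5 := psm_sum b k (by omega) w hw (κ j) (β j) (σ j) (hσ j) (X j) (Y j) (hY0 j)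
    have h6 : ∑ c ∈ Icc 1 (X j), |psm b w k (κ j) (β j) (σ j * (c : ℤ)) (Y j)| ≤ (X j : ℝ) / (k : ℝ) ^ (2 * W) := by
      rw [sum_congr rfl (fun c _ => abs_of_nonneg (psm_nonneg b w hw k (κ j) (β j) _ (Y j)))]
      refine h5.trans ?_
      rw [hY]
      apply div_le_div_of_nonneg_right _ (by positivity)
      exact_mod_cast (hX j).1
    have h7 := almost (Icc 1 (X j)) (fun c : ℕ => psm b w k (κ j) (β j) (σ j * (c : ℤ)) (Y j)) (X j : ℝ) k W (by omega) h6
      (fun c : ℕ => 1 / (k : ℝ) ^ W < |psm b w k (κ j) (β j) (σ j * (c : ℤ)) (Y j)|) (fun c _ h => h)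
    rw [hT]
    refine h7.trans (le_of_eq ?_)
    rw [div_eq_mul_one_div, mul_comm]
  have hc2 : (((Fintype.piFinset (fun j : Fin r => Icc 1 (X j))).filter Q2).card : ℝ) ≤ r * (1 / (k : ℝ) ^ W) * ∏ j, (X j : ℝ) :=
    coord_count X _ T hTc Q2 (fun c _ h => (hQ2 c).1 h)
  have hsub : (Fintype.piFinset (fun j : Fin r => Icc 1 (X j))).filter Q ⊆
      (Fintype.piFinset (fun j : Fin r => Icc 1 (X j))).filter Q1 ∪ (Fintype.piFinset (fun j : Fin r => Icc 1 (X j))).filter Q2 := by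
    intro c hc
    rw [mem_filter] at hc
    obtain ⟨hcm, hcQ⟩ := hc
    have hno := hQ c hcm hcQ
    rw [mem_union, mem_filter, mem_filter]
    by_contra hcon
    push Not at hcon
    obtain ⟨hn1, hn2⟩ := hcon
    replace hn1 := hn1 hcm
    replace hn2 := hn2 hcm
    rw [hQ1] at hn1
    rw [hQ2] at hn2
    push Not at hn1 hn2
    rw [← hc' c] at hno
    apply hno
    have hq : ∀ j, psm b w k (κ j) (β j) (c' c j) (Y j) ≤ 1 / (k : ℝ) ^ W := by
      intro j
      have h5 := hn2 j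
      rw [hT, mem_filter] at h5
      push Not at h5
      have h6 := h5 (Fintype.mem_piFinset.1 hcm j)
      rw [hc']
      exact (le_abs_self _).trans h6
    have hkU : 1 / (k : ℝ) ^ (U + 2) ≤ 1 / (k : ℝ) ^ U / 9 := by
      rw [div_div]
      apply one_div_le_one_div_of_le (by positivity)
      rw [pow_add]
      apply mul_le_mul_of_nonneg_left _ (by positivity)
      nlinarith
    have hτ0 : 0 ≤ 1 / (k : ℝ) ^ (U + 2) := by positivity
    have hU0 : 0 ≤ 1 / (k : ℝ) ^ U := by positivity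
    refine ⟨hn1.trans (by linarith), ?_⟩
    have hlbp : ∀ j, Real.log ((b ^ (dg (κ j) * k) : ℕ) : ℝ) = (dg (κ j) : ℝ) * k * Real.log b := by
      intro j
      push_cast
      rw [Real.log_pow]
      push_cast
      ring
    have hbp : ∀ j, (0 : ℝ) < ((b ^ (dg (κ j) * k) : ℕ) : ℝ) := by
      intro j
      exact_mod_cast Nat.pos_of_ne_zero (pow_ne_zero _ (by omega))
    have hkl : ∀ j, δ * Real.log b * k ≤ δ * ((dg (κ j) : ℝ) * k * Real.log b) := by
      intro j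
      have : 1 * (δ * Real.log b * k) ≤ dg (κ j) * (δ * Real.log b * k) :=
        mul_le_mul_of_nonneg_right (hdg j).1 (by positivity)
      linarith
    have hlog := boundsT b k w hw S κ β (c' c) Y δ ρ hδ0.le hδ1 (by linarith) hδρ hL (by
      intro j n hn hv1
      have b1 := Real.log_le_log (by rw [hY]; have := hbp j; positivity) hv1
      rw [hY, Real.log_div (hbp j).ne' (by positivity), hlbp, Real.log_pow] at b1
      have := hkl j
      linarith) (by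
      intro j n hn hv0
      have e : qv (κ j) (β j) n + c' c j = qv (κ j) (β j) n + σ j * (c j : ℤ) := by rw [hc']
      rw [e] at hv0 ⊢
      obtain ⟨v, hv⟩ : ∃ v : ℤ, v = qv (κ j) (β j) n + σ j * (c j : ℤ) := ⟨_, rfl⟩
      rw [← hv] at hv0 ⊢
      have hv0' : (1 : ℝ) ≤ v := by exact_mod_cast hv0
      have hv2 : (v : ℝ) ≤ C₁ * ((b ^ (dg (κ j) * k) : ℕ) : ℝ) := by
        have a1 := (abs_le.1 (qv_le_any (κ j) (β j) b k n hn)).2
        have a2 : (c j : ℤ) ≤ F * (b : ℤ) ^ (dg (κ j) * k) := by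
          have := (mem_Icc.1 (Fintype.mem_piFinset.1 hcm j)).2.trans (hX j).2
          exact_mod_cast this
        have a3 : σ j * (c j : ℤ) ≤ c j := by
          rcases hσ j with h | h <;> rw [h] <;> omega
        have a4 : (κ j).natAbs + (β j).natAbs ≤ ∑ j, ((κ j).natAbs + (β j).natAbs) :=
          single_le_sum (f := fun j => (κ j).natAbs + (β j).natAbs) (fun _ _ => Nat.zero_le _) (mem_univ j)
        have a5 : v ≤ (C₁ : ℤ) * (b : ℤ) ^ (dg (κ j) * k) := by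
          have a6 : (((κ j).natAbs + (β j).natAbs : ℕ) : ℤ) * (b : ℤ) ^ (dg (κ j) * k) + F * (b : ℤ) ^ (dg (κ j) * k) ≤
              (C₁ : ℤ) * (b : ℤ) ^ (dg (κ j) * k) := by
            rw [← add_mul]
            apply mul_le_mul_of_nonneg_right _ (by positivity)
            have : (κ j).natAbs + (β j).natAbs + F ≤ C₁ := by omega
            exact_mod_cast this
          push_cast at a1 a6
          rw [hv]
          linarith
        exact_mod_cast a5
      have b1 : Real.log v ≤ Real.log (C₁ * ((b ^ (dg (κ j) * k) : ℕ) : ℝ)) := Real.log_le_log (by linarith) hv2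
      rw [Real.log_mul (by exact_mod_cast (by omega : C₁ ≠ 0)) (hbp j).ne', hlbp] at b1
      have := hkl j
      linarith)
    obtain ⟨q, hqd⟩ : ∃ q : ℝ, q = LL b k κ * ∑ j, psm b w k (κ j) (β j) (c' c j) (Y j) := ⟨_, rfl⟩
    have hq0 : 0 ≤ q := by
      rw [hqd]
      exact mul_nonneg hLL (sum_nonneg fun j _ => psm_nonneg b w hw k (κ j) (β j) _ (Y j))
    have hq1 : q ≤ 1 / (k : ℝ) ^ (U + 2) := by
      have s1 : ∑ j, psm b w k (κ j) (β j) (c' c j) (Y j) ≤ r * (1 / (k : ℝ) ^ W) := by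
        refine (sum_le_sum fun j _ => hq j).trans (le_of_eq ?_)
        rw [sum_const, card_univ, Fintype.card_fin, nsmul_eq_mul]
      have s2 : q ≤ (k : ℝ) ^ r * (2 * Real.log b) ^ r * (r * (1 / (k : ℝ) ^ W)) := by
        rw [hqd]
        exact mul_le_mul hLL2 s1 (sum_nonneg fun j _ => psm_nonneg b w hw k (κ j) (β j) _ (Y j)) (by positivity)
      have s3 : (k : ℝ) ^ r * (2 * Real.log b) ^ r * (r * (1 / (k : ℝ) ^ W)) =
          ((r : ℝ) * (2 * Real.log b) ^ r) * (1 / (k : ℝ) ^ (U + 4)) := by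
        rw [hW, show U + r + 4 = r + (U + 4) by ring, pow_add (k : ℝ) r]
        field_simp
      rw [s3] at s2
      refine s2.trans ((mul_le_mul_of_nonneg_right hk4 (by positivity)).trans ?_)
      rw [mul_one_div, div_le_div_iff₀ (by positivity) (by positivity), one_mul, ← pow_succ']
      exact pow_le_pow_right₀ (by linarith) (by omega)
    have hSg : 0 ≤ MS b w k z S κ β (c' c) :=
      mul_nonneg (pow_nonneg (inv_nonneg.2 (Vz_pos z).le) _) (sum_nonneg fun n _ => P_nonneg hw _ _ _)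
    have hPr : 0 ≤ PS b w k S κ β (c' c) := sum_nonneg fun n _ => P_nonneg hw _ _ _
    obtain ⟨A, hA'⟩ : ∃ A : ℝ, A = LL b k κ * PS b w k S κ β (c' c) := ⟨_, rfl⟩
    obtain ⟨Ex, hEx⟩ : ∃ Ex : ℝ, Ex = ES b w k S κ β (c' c) := ⟨_, rfl⟩
    have hA : 0 ≤ A := by rw [hA']; exact mul_nonneg hLL hPr
    obtain ⟨g1, g2⟩ := hlog
    rw [mul_sub, ← hqd, ← hA', ← hEx] at g1
    rw [← hA', ← hEx] at g2
    rw [← hEx] at hn1
    rw [← hA']
    -- the modified expectation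
    have hE0 : 0 ≤ max Ex ((1 - ρ) * A) := le_trans (mul_nonneg (by linarith) hA) (le_max_right _ _)
    have hE1 : max Ex ((1 - ρ) * A) ≤ (1 + ρ) * A := max_le g2 (mul_le_mul_of_nonneg_right (by linarith) hA)
    have hE2 : |max Ex ((1 - ρ) * A) - MS b w k z S κ β (c' c)| ≤ 1 / (k : ℝ) ^ (U + 2) + q := by
      have m1 : max Ex ((1 - ρ) * A) ≤ Ex + q := by
        apply max_le (by linarith)
        have : ρ * q ≥ 0 := by positivity
        linarith
      have m2 := le_max_left Ex ((1 - ρ) * A)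
      rw [abs_le] at hn1 ⊢
      constructor <;> linarith [hn1.1, hn1.2]
    refine (compare A _ _ _ ε ρ hε hρ0 hρ1 hρε hA hE0 hSg (by positivity) (le_max_right _ _) hE1 hE2).trans ?_
    linarith
  have h5 : (((Fintype.piFinset (fun j : Fin r => Icc 1 (X j))).filter Q).card : ℝ) ≤
      (∏ j, (X j : ℝ)) / (k : ℝ) ^ (U + 2) + r * (1 / (k : ℝ) ^ W) * ∏ j, (X j : ℝ) := by
    refine le_trans ?_ (add_le_add hc1 hc2)
    exact_mod_cast (card_le_card hsub).trans (card_union_le _ _)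
  refine h5.trans ?_
  have e0 : 1 / (k : ℝ) ^ W ≤ 1 / (k : ℝ) ^ (U + 2) := by
    apply one_div_le_one_div_of_le (by positivity)
    exact pow_le_pow_right₀ (by linarith) (by omega)
  have e1 : (r : ℝ) * (1 / (k : ℝ) ^ W) * ∏ j, (X j : ℝ) ≤ r * (1 / (k : ℝ) ^ (U + 2)) * ∏ j, (X j : ℝ) :=
    mul_le_mul_of_nonneg_right (mul_le_mul_of_nonneg_left e0 hr0) hprod
  have e : (∏ j, (X j : ℝ)) / (k : ℝ) ^ (U + 2) + r * (1 / (k : ℝ) ^ (U + 2)) * ∏ j, (X j : ℝ) =
      (∏ j, (X j : ℝ)) / (k : ℝ) ^ U * ((r + 1) / (k : ℝ) ^ 2) := by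
    rw [pow_add]
    field_simp
    ring
  refine (add_le_add le_rfl e1).trans ?_
  rw [e]
  calc (∏ j, (X j : ℝ)) / (k : ℝ) ^ U * ((r + 1) / (k : ℝ) ^ 2) ≤ (∏ j, (X j : ℝ)) / (k : ℝ) ^ U * 1 := by
        apply mul_le_mul_of_nonneg_left _ (by positivity)
        rw [div_le_one (by positivity)]
        nlinarith
    _ = _ := mul_one _

end Pool.Agent.Q25.RDig
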