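import Pool.Agent.Q25.TPol2

set_option autoImplicit false

/-!
# Orbits at the times of a thin family
-/

namespace Pool.Agent.Q25.TOrb

open Finset Polynomial
open Pool.Agent.H373R2.T7 (exI ev_L')
open Pool.Agent.Q25.TFam (AllSmall)

/-- the sum along the orbit, as a sum over an initial segment -/
lemma shift_sum (f : ℕ → ℂ) (θ : ℕ → ℂ) (s M : ℕ) :
    ∑ n ∈ Icc 1 M, θ (n + s) * f n = ∑ k ∈ Icc 1 (s + M), θ k * exI f (((1 * k : ℕ) : ℤ) + -(s : ℤ)) := by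
  have h1 : ∑ k ∈ Icc 1 (s + M), θ k * exI f (((1 * k : ℕ) : ℤ) + -(s : ℤ)) =
      ∑ k ∈ Icc (s + 1) (s + M), θ k * exI f (((1 * k : ℕ) : ℤ) + -(s : ℤ)) := by
    symm
    apply sum_subset
    · intro k hk
      rw [mem_Icc] at hk ⊢
      omega
    · intro k hk hk2
      rw [mem_Icc] at hk hk2
      unfold exI
      rw [if_neg (by push_cast; omega), mul_zero]
  rw [h1]
  apply sum_nbij (fun n => n + s)
  · intro n hn
    rw [mem_Icc] at hn ⊢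
    omega
  · intro a _ b _ h
    simpa using h
  · intro k hk
    rw [coe_Icc, Set.mem_Icc] at hk
    refine ⟨k - s, ?_, ?_⟩
    · rw [coe_Icc, Set.mem_Icc]
      omega
    · simp only
      omega
  · intro n hn
    rw [mem_Icc] at hn
    unfold exI
    rw [if_pos (by push_cast; omega)]
    congr 2
    push_cast
    omega

lemma index_card (T D N : ℕ) (hlog : 3 ≤ Real.log N) (hD : (D : ℝ) ≤ Real.log N ^ T) :
    ((Fintype.card (Fin D × Fin (⌊Real.log N ^ T⌋₊ + 1) × Fin (⌊Real.log N ^ T⌋₊ + 1)) : ℕ) : ℝ) ≤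
      Real.log N ^ (3 * T + 2) := by
  have h0 : 0 < Real.log (N : ℝ) := by linarith
  have h1 : ((⌊Real.log (N : ℝ) ^ T⌋₊ : ℕ) : ℝ) ≤ Real.log N ^ T := Nat.floor_le (by positivity)
  have h2 : 1 ≤ Real.log (N : ℝ) ^ T := one_le_pow₀ (by linarith)
  simp only [Fintype.card_prod, Fintype.card_fin]
  push_cast
  have h3 : ((⌊Real.log (N : ℝ) ^ T⌋₊ : ℕ) : ℝ) + 1 ≤ Real.log N ^ (T + 1) := by
    rw [pow_succ]
    nlinarith
  calc (D : ℝ) * (((⌊Real.log (N : ℝ) ^ T⌋₊ : ℕ) + 1) * ((⌊Real.log (N : ℝ) ^ T⌋₊ : ℕ) + 1))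
      ≤ Real.log N ^ T * (Real.log N ^ (T + 1) * Real.log N ^ (T + 1)) := by gcongr
    _ = _ := by rw [← pow_add, ← pow_add]; congr 1; ring

/-- a residue in the right range, with a shift -/
lemma residue {T N : ℕ} (q r t : ℤ) (hq : 1 ≤ q) (hqN : (q : ℝ) ≤ Real.log N ^ T) :
    ∃ q' r' : Fin (⌊Real.log (N : ℝ) ^ T⌋₊ + 1), ∀ v : ℤ, v ≡ r [ZMOD q] ↔
      v + t ≡ ((r' : ℕ) : ℤ) [ZMOD ((q' : ℕ) : ℤ)] := by
  obtain ⟨n, rfl⟩ : ∃ n : ℕ, q = n := ⟨q.toNat, (Int.toNat_of_nonneg (by omega)).symm⟩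
  have h1 : n ≤ ⌊Real.log (N : ℝ) ^ T⌋₊ := Nat.le_floor (by exact_mod_cast hqN)
  obtain ⟨u, hu⟩ : ∃ u : ℕ, (u : ℤ) = (r + t) % n := ⟨((r + t) % n).toNat, Int.toNat_of_nonneg (Int.emod_nonneg _ (by omega))⟩
  have h2 : (u : ℤ) < n := by
    rw [hu]
    exact Int.emod_lt_of_pos _ (by omega)
  refine ⟨⟨n, by omega⟩, ⟨u, by omega⟩, fun v => ?_⟩
  simp only [hu]
  constructor
  · intro h
    exact (h.add_right t).trans (Int.mod_modEq (r + t) n).symm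
  · intro h
    exact Int.ModEq.add_right_cancel' t (h.trans (Int.mod_modEq (r + t) n))

/-- **Orbits.** From the theorem on all the sums over initial segments: for bounded sequences `θ l` (for instance
`θ l k = F (R ^ k y)`), the sums of `θ l (n + s m) f n` over `n ≤ M` in all progressions of small moduli. -/
theorem orbits (f : ℕ → ℂ) (B T U : ℕ) : ∃ N0 : ℕ, ∀ N : ℕ, N0 ≤ N → ∀ (x : ℕ) (s : ℕ → ℤ),
    (∀ m ∈ Icc 1 x, |s m| ≤ B * N) → AllSmall f (2 * B) (3 * T + 2) U N x (fun m => -s m) →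
    ∀ D : ℕ, (D : ℝ) ≤ Real.log N ^ T → ∀ (θ : Fin D → ℕ → ℂ), (∀ l n, ‖θ l n‖ ≤ Real.log N ^ T) →
    ∀ E : Finset ℕ, E ⊆ Icc 1 x → (∀ m ∈ E, 0 ≤ s m ∧ ∃ l, ∃ q r : ℤ, 1 ≤ q ∧ (q : ℝ) ≤ Real.log N ^ T ∧
      ∃ M : ℕ, M ≤ B * N ∧ N / Real.log N ^ U <
        ‖∑ n ∈ (Icc 1 M).filter (fun n : ℕ => (n : ℤ) ≡ r [ZMOD q]), θ l (n + (s m).toNat) * f n‖) →
      (E.card : ℝ) ≤ x / Real.log N ^ U := by
  obtain ⟨n1, h1⟩ := Pool.Agent.Q25.TPol.ev_small T U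
  refine ⟨n1, fun N hN x s hsN hs D hD θ hθ E hE hb => ?_⟩
  have hlog := (h1 N hN).1
  obtain ⟨e⟩ : Nonempty ((Fin D × Fin (⌊Real.log (N : ℝ) ^ T⌋₊ + 1) × Fin (⌊Real.log (N : ℝ) ^ T⌋₊ + 1)) ≃
    Fin (Fintype.card (Fin D × Fin (⌊Real.log (N : ℝ) ^ T⌋₊ + 1) × Fin (⌊Real.log (N : ℝ) ^ T⌋₊ + 1)))) :=
    ⟨Fintype.equivFin _⟩
  refine hs _ (index_card T D N hlog hD) (fun _ => 1)
    (fun j k => (if (k : ℤ) ≡ (((e.symm j).2.2 : ℕ) : ℤ) [ZMOD (((e.symm j).2.1 : ℕ) : ℤ)] then (1 : ℂ) else 0) *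
      θ (e.symm j).1 k) (fun _ => le_rfl) ?_ E hE ?_
  · intro j k _ _
    rw [norm_mul]
    calc _ ≤ (1 : ℝ) * Real.log N ^ T := mul_le_mul (by split_ifs <;> simp) (hθ _ _) (norm_nonneg _) (by norm_num)
      _ ≤ _ := by rw [one_mul]; exact pow_le_pow_right₀ (by linarith) (by omega)
  · intro m hm
    obtain ⟨hs0, l, q, r, hq, hqN, M, hM, hb⟩ := hb m hm
    obtain ⟨q', r', hqr⟩ := residue q r (s m) hq hqN
    obtain ⟨t, ht⟩ : ∃ t : ℕ, s m = t := ⟨(s m).toNat, (Int.toNat_of_nonneg hs0).symm⟩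
    refine ⟨e (l, q', r'), t + M, ?_, lt_of_lt_of_le hb (le_of_eq ?_)⟩
    · have h3 := (abs_le.1 (hsN m (hE hm))).2
      rw [ht] at h3
      have h4 : t ≤ B * N := by exact_mod_cast h3
      rw [one_mul]
      calc t + M ≤ B * N + B * N := by omega
        _ = _ := by ring
    · have h6 := shift_sum f
        (fun k => (if (k : ℤ) ≡ ((r' : ℕ) : ℤ) [ZMOD ((q' : ℕ) : ℤ)] then (1 : ℂ) else 0) * θ l k) t M
      simp only [e.symm_apply_apply, ht, Int.toNat_natCast]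
      rw [← h6, sum_filter]
      congr 1
      apply sum_congr rfl
      intro n _
      have h5 := hqr n
      rw [ht] at h5
      simp only [h5]
      push_cast
      split_ifs <;> simp

end Pool.Agent.Q25.TOrb
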