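import Pool.Agent.Q25.TFam3

set_option autoImplicit false

/-!
# Periodic twists of functions with small exponential sums
-/

namespace Pool.Agent.Q25.TPer

open Finset
open Pool.Agent.H373R2.T7 (exI ev_L' SupSmall)
open Pool.Agent.H807R2.Dav (ee ee_eq)

lemma ee_add (x y : ℝ) : ee (x + y) = ee x * ee y := by
  unfold ee
  rw [← Complex.exp_add]
  congr 1
  push_cast
  ring

lemma ee_norm (x : ℝ) : ‖ee x‖ = 1 := by
  rw [ee_eq, Complex.norm_exp_ofReal_mul_I]

/-- the indicator function of a residue class -/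
lemma ind (q : ℕ) (hq : 1 ≤ q) (n r : ℕ) (hr : r < q) :
    (if n % q = r then (1 : ℂ) else 0) = (1 / q : ℂ) * ∑ b ∈ range q, ee ((b : ℝ) * ((n : ℝ) - r) / q) := by
  have hq0 : (q : ℂ) ≠ 0 := by exact_mod_cast (by omega : q ≠ 0)
  have hqr : (q : ℝ) ≠ 0 := by exact_mod_cast (by omega : q ≠ 0)
  obtain ⟨z, hz⟩ : ∃ z : ℂ, z = ee (((n : ℝ) - r) / q) := ⟨_, rfl⟩
  have h1 : ∀ b : ℕ, ee ((b : ℝ) * ((n : ℝ) - r) / q) = z ^ b := by
    intro b
    rw [hz]
    unfold ee
    rw [← Complex.exp_nat_mul]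
    congr 1
    push_cast
    ring
  rw [sum_congr rfl (fun b _ => h1 b)]
  have hzq : z ^ q = 1 := by
    rw [hz]
    unfold ee
    rw [← Complex.exp_nat_mul]
    rw [Complex.exp_eq_one_iff]
    refine ⟨(n : ℤ) - r, ?_⟩
    push_cast
    field_simp
  by_cases h : n % q = r
  · rw [if_pos h]
    have hz1 : z = 1 := by
      rw [hz]
      unfold ee
      rw [Complex.exp_eq_one_iff]
      obtain ⟨w, hw⟩ : ∃ w : ℕ, w = n / q := ⟨_, rfl⟩
      refine ⟨(w : ℤ), ?_⟩
      have h2 : (n : ℝ) - r = q * (w : ℝ) := by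
        have h3 := Nat.div_add_mod n q
        rw [h, ← hw] at h3
        have h4 : (n : ℝ) = q * (w : ℝ) + r := by exact_mod_cast h3.symm
        linarith
      rw [h2, mul_div_cancel_left₀ _ hqr]
      push_cast
      ring
    rw [hz1]
    simp only [one_pow, sum_const, card_range, nsmul_eq_mul, mul_one]
    rw [one_div, inv_mul_cancel₀ hq0]
  · rw [if_neg h]
    have hz1 : z ≠ 1 := by
      intro h1
      rw [hz] at h1
      unfold ee at h1
      rw [Complex.exp_eq_one_iff] at h1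
      obtain ⟨t, ht⟩ := h1
      have h2 : (((n : ℝ) - r) / q : ℝ) = t := by
        have h3 : (2 * Real.pi * Complex.I) ≠ 0 := Complex.two_pi_I_ne_zero
        have h4 : ((((n : ℝ) - r) / q : ℝ) : ℂ) = (t : ℂ) := by
          apply mul_left_cancel₀ h3
          rw [ht]
          ring
        exact_mod_cast h4
      rw [div_eq_iff hqr] at h2
      have h3 : (n : ℤ) - r = t * q := by exact_mod_cast h2
      apply h
      have h4 : (n : ℤ) % q = r := by
        have : (n : ℤ) = r + t * q := by linarith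
        rw [this, Int.add_mul_emod_self_right]
        exact Int.emod_eq_of_lt (by omega) (by exact_mod_cast hr)
      exact_mod_cast h4
    have h2 : (z - 1) * ∑ b ∈ range q, z ^ b = 0 := by
      rw [mul_geom_sum, hzq, sub_self]
    rcases mul_eq_zero.1 h2 with h3 | h3
    · exact absurd (sub_eq_zero.1 h3) hz1
    · rw [h3, mul_zero]

/-- **Periodic twists.** -/
theorem sup_twist {f : ℕ → ℂ} (hf : SupSmall f) (q : ℕ) (hq : 1 ≤ q) (κ : ℕ → ℂ) (hκ : ∀ n, κ (n + q) = κ n)
    (hκ1 : ∀ n, ‖κ n‖ ≤ 1) : SupSmall (fun n => f n * κ n) := by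
  intro U
  obtain ⟨n1, h1⟩ := hf (U + 1)
  obtain ⟨n2, h2⟩ := ev_L' q
  refine ⟨n1 + n2 + 3, fun N hN α => ?_⟩
  have hlog := h2 N (by omega)
  have hNr : (3 : ℝ) ≤ N := by exact_mod_cast (by omega : 3 ≤ N)
  have hL0 : 0 < Real.log (N : ℝ) := Real.log_pos (by linarith)
  have hκm : ∀ n, κ n = κ (n % q) := by
    intro n
    have h3 : ∀ t : ℕ, ∀ m, κ (m + t * q) = κ m := by
      intro t
      induction t with
      | zero => intro m; simp
      | succ t ih => intro m; rw [Nat.succ_mul, ← add_assoc, hκ, ih]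
    conv_lhs => rw [← Nat.mod_add_div n q]
    rw [mul_comm]
    exact h3 _ _
  have h3 : ∀ n, κ n = ∑ r ∈ range q, κ r * ((1 / q : ℂ) * ∑ b ∈ range q, ee ((b : ℝ) * ((n : ℝ) - r) / q)) := by
    intro n
    rw [sum_congr rfl (fun r hr => by rw [← ind q hq n r (mem_range.1 hr)])]
    simp only [mul_ite, mul_one, mul_zero]
    rw [sum_ite_eq (range q) (n % q), if_pos (mem_range.2 (Nat.mod_lt _ (by omega)))]
    exact hκm n
  have h4 : ∑ n ∈ Icc 1 N, f n * κ n * ee ((n : ℝ) * α) = ∑ r ∈ range q, ∑ b ∈ range q,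
      κ r * (1 / q : ℂ) * ee (-((b : ℝ) * r / q)) * ∑ n ∈ Icc 1 N, f n * ee ((n : ℝ) * (α + b / q)) := by
    have h5 : ∀ n ∈ Icc 1 N, f n * κ n * ee ((n : ℝ) * α) = ∑ r ∈ range q, ∑ b ∈ range q,
        κ r * (1 / q : ℂ) * ee (-((b : ℝ) * r / q)) * (f n * ee ((n : ℝ) * (α + b / q))) := by
      intro n _
      rw [h3 n, mul_sum, sum_mul]
      apply sum_congr rfl
      intro r _
      rw [mul_sum, mul_sum, mul_sum, sum_mul]
      apply sum_congr rfl
      intro b _
      have e1 : ee ((b : ℝ) * ((n : ℝ) - r) / q) = ee (-((b : ℝ) * r / q)) * ee ((n : ℝ) * (b / q)) := by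
        rw [← ee_add]
        congr 1
        ring
      have e2 : ee ((n : ℝ) * (α + b / q)) = ee ((n : ℝ) * α) * ee ((n : ℝ) * (b / q)) := by
        rw [← ee_add]
        congr 1
        ring
      rw [e1, e2]
      ring
    rw [sum_congr rfl h5, sum_comm]
    apply sum_congr rfl
    intro r _
    rw [sum_comm]
    apply sum_congr rfl
    intro b _
    rw [mul_sum]
  rw [h4]
  have hq0 : (0 : ℝ) < q := by exact_mod_cast (by omega : 0 < q)
  calc ‖∑ r ∈ range q, ∑ b ∈ range q,
      κ r * (1 / q : ℂ) * ee (-((b : ℝ) * r / q)) * ∑ n ∈ Icc 1 N, f n * ee ((n : ℝ) * (α + b / q))‖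
      ≤ ∑ r ∈ range q, ∑ b ∈ range q, (1 / q : ℝ) * (N / Real.log N ^ (U + 1)) := by
        refine (norm_sum_le _ _).trans (sum_le_sum fun r _ => (norm_sum_le _ _).trans (sum_le_sum fun b _ => ?_))
        rw [norm_mul, norm_mul, norm_mul, ee_norm, mul_one]
        refine mul_le_mul ?_ (h1 N (by omega) _) (norm_nonneg _) (by positivity)
        rw [norm_div, norm_one, Complex.norm_natCast]
        calc ‖κ r‖ * (1 / q) ≤ 1 * (1 / q : ℝ) := mul_le_mul_of_nonneg_right (hκ1 r) (by positivity)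
          _ = _ := one_mul _
    _ = q * (N / Real.log N ^ (U + 1)) := by
        rw [sum_const, sum_const, card_range, nsmul_eq_mul, nsmul_eq_mul]
        field_simp
    _ ≤ Real.log N * (N / Real.log N ^ (U + 1)) := mul_le_mul_of_nonneg_right hlog (by positivity)
    _ = _ := by
        rw [pow_succ]
        field_simp

end Pool.Agent.Q25.TPer
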