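import Pool.Agent.Q25.TPol

set_option autoImplicit false

/-!
# Sums over the integers `-M, ..., M`
-/

namespace Pool.Agent.Q25.TPol

open Finset Polynomial
open Pool.Agent.H373R2.T7 (exI liR ev_L')
open Pool.Agent.Q25.TFam (even TwoSided tuple_count)

lemma sum_split (M : ℕ) (F : ℤ → ℂ) :
    ∑ v ∈ Icc (-(M : ℤ)) M, F v = F 0 + ∑ n ∈ Icc 1 M, F n + ∑ n ∈ Icc 1 M, F (-(n : ℤ)) := by
  induction M with
  | zero => simp
  | succ M ih =>
    have h1 : Icc (-((M + 1 : ℕ) : ℤ)) ((M + 1 : ℕ) : ℤ) =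
        insert (-((M + 1 : ℕ) : ℤ)) (insert (((M + 1 : ℕ) : ℤ)) (Icc (-(M : ℤ)) M)) := by
      ext v
      simp only [mem_Icc, mem_insert]
      push_cast
      omega
    rw [h1, sum_insert, sum_insert, ih, sum_Icc_succ_top (by omega), sum_Icc_succ_top (by omega)]
    · ring
    · simp only [mem_Icc, not_and, not_le]
      push_cast
      omega
    · simp only [mem_Icc, mem_insert, not_or, not_and, not_le]
      push_cast
      constructor
      · omega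
      · intro h; omega

lemma ev_small (T U : ℕ) : ∃ N0 : ℕ, ∀ N : ℕ, N0 ≤ N → 3 ≤ Real.log N ∧ 3 ≤ N ∧
    Real.log N ^ T ≤ N / Real.log N ^ (U + 1) := by
  have h2 := (isLittleO_log_rpow_atTop (r := 1 / (T + U + 2 : ℝ)) (by positivity)).pow (n := T + U + 2) (by omega)
  have h3 : Filter.Tendsto (fun x : ℝ => Real.log x ^ (T + U + 2) / x) Filter.atTop (nhds 0) := by
    have h4 := h2.tendsto_div_nhds_zero
    refine h4.congr' ?_
    filter_upwards [Filter.eventually_gt_atTop 0] with x hx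
    congr 1
    rw [← Real.rpow_natCast, ← Real.rpow_mul hx.le]
    push_cast
    rw [one_div, inv_mul_cancel₀ (by positivity), Real.rpow_one]
  have h4 : Filter.Tendsto (fun N : ℕ => Real.log (N : ℝ) ^ (T + U + 2) / (N : ℝ)) Filter.atTop (nhds 0) :=
    h3.comp tendsto_natCast_atTop_atTop
  have h5 : ∀ᶠ N : ℕ in Filter.atTop, Real.log (N : ℝ) ^ (T + U + 2) / (N : ℝ) < 1 := h4.eventually_lt_const (by norm_num)
  have h6 : ∀ᶠ N : ℕ in Filter.atTop, 3 ≤ Real.log (N : ℝ) :=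
    (Real.tendsto_log_atTop.comp tendsto_natCast_atTop_atTop).eventually_ge_atTop 3
  obtain ⟨n0, hn0⟩ := Filter.eventually_atTop.1 (h5.and (h6.and (Filter.eventually_ge_atTop 3)))
  refine ⟨n0, fun N hN => ?_⟩
  obtain ⟨a1, a2, a3⟩ := hn0 N hN
  have hNr : (3 : ℝ) ≤ N := by exact_mod_cast a3
  refine ⟨a2, a3, ?_⟩
  have hpos : 0 < Real.log (N : ℝ) := by linarith
  rw [div_lt_one (by linarith)] at a1
  rw [le_div_iff₀ (by positivity), ← pow_add]
  refine le_trans (pow_le_pow_right₀ (by linarith) (by omega)) a1.le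

/-- from the full sum to one of the two halves -/
lemma half (F : ℤ → ℂ) (M N T U : ℕ) (h : 3 ≤ Real.log N ∧ 3 ≤ N ∧ Real.log N ^ T ≤ N / Real.log N ^ (U + 1))
    (h0 : ‖F 0‖ ≤ Real.log N ^ T) (hb : N / Real.log N ^ U < ‖∑ v ∈ Icc (-(M : ℤ)) M, F v‖) :
    N / Real.log N ^ (U + 1) < ‖∑ n ∈ Icc 1 M, F n‖ ∨ N / Real.log N ^ (U + 1) < ‖∑ n ∈ Icc 1 M, F (-(n : ℤ))‖ := by
  by_contra hc
  push Not at hc
  obtain ⟨c1, c2⟩ := hc
  rw [sum_split] at hb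
  have h1 : ‖F 0 + ∑ n ∈ Icc 1 M, F n + ∑ n ∈ Icc 1 M, F (-(n : ℤ))‖ ≤ 3 * (N / Real.log N ^ (U + 1)) := by
    refine (norm_add₃_le).trans ?_
    linarith [h.2.2]
  have hpos : 0 < Real.log (N : ℝ) := by linarith [h.1]
  have hN : (0 : ℝ) < N := by
    have := h.2.1
    exact_mod_cast (by omega : 0 < N)
  have h2 : 3 * ((N : ℝ) / Real.log N ^ (U + 1)) ≤ N / Real.log N ^ U := by
    rw [pow_succ, ← div_div, mul_div_assoc', div_le_iff₀ hpos]
    have : 0 ≤ (N : ℝ) / Real.log N ^ U := by positivity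
    nlinarith [h.1]
  linarith

/-- **Sums over `-M, ..., M`.** -/
theorem full_two (f : ℕ → ℂ) (hev : ∀ z, ‖even f z‖ ≤ 1) (B T U : ℕ) : ∃ N0 : ℕ, ∀ N : ℕ, N0 ≤ N → ∀ (x : ℕ) (s : ℕ → ℤ),
    TwoSided f B T (U + 1) N x s → ∀ L : ℕ, (L : ℝ) ≤ Real.log N ^ T → ∀ (a : Fin L → ℕ) (θ : Fin L → ℤ → ℂ),
    (∀ l, 1 ≤ a l) → (∀ l n, ‖θ l n‖ ≤ Real.log N ^ T) →
    ∀ E : Finset ℕ, E ⊆ Icc 1 x → (∀ m ∈ E, ∃ l, ∃ M : ℕ, a l * M ≤ B * N ∧
      N / Real.log N ^ U < ‖∑ v ∈ Icc (-(M : ℤ)) M, θ l v * even f ((a l : ℤ) * v + s m)‖) →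
      (E.card : ℝ) ≤ x / Real.log N ^ U := by
  obtain ⟨n1, h1⟩ := ev_small T U
  refine ⟨n1, fun N hN x s hs L hL a θ ha hθ E hE hb => ?_⟩
  have h2 := h1 N hN
  have hpos : 0 < Real.log (N : ℝ) := by linarith [h2.1]
  have h3 := hs L hL a θ ha hθ E hE (by
    intro m hm
    obtain ⟨l, M, hM, hb⟩ := hb m hm
    refine ⟨l, M, hM, ?_⟩
    have h4 := half (fun v => θ l v * even f ((a l : ℤ) * v + s m)) M N T U h2 (by
      rw [norm_mul]
      calc _ ≤ Real.log N ^ T * 1 := mul_le_mul (hθ l _) (hev _) (norm_nonneg _) (by positivity)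
        _ = _ := mul_one _) hb
    simp only [mul_neg] at h4
    exact h4)
  refine h3.trans (div_le_div_of_nonneg_left (by positivity) (by positivity) (pow_le_pow_right₀ (by linarith [h2.1]) (by omega)))

open Classical in
/-- **Tuples, sums over `-M, ..., M`.** -/
theorem full_tuples (f : ℕ → ℂ) (hev : ∀ z, ‖even f z‖ ≤ 1) (k B T U : ℕ) :
    ∃ N0 : ℕ, ∀ N : ℕ, N0 ≤ N → ∀ (x : Fin (k + 1) → ℕ) (s : Fin (k + 1) → ℕ → ℤ),
      (∀ i, TwoSided f B T (U + 2) N (x i) (s i)) → ∀ L : ℕ, (L : ℝ) ≤ Real.log N ^ T →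
      ∀ (a : Fin L → Fin (k + 1) → ℕ) (θ : Fin L → ℤ → ℂ), (∀ l i, 1 ≤ a l i) → (∀ l n, ‖θ l n‖ ≤ Real.log N ^ T) →
      ∀ bad : (Fin (k + 1) → ℕ) → Prop, (∀ m, bad m → ∃ l, ∃ J : Finset (Fin (k + 1)), J.Nonempty ∧ ∃ M : ℕ,
        (∀ i, a l i * M ≤ B * N) ∧
        N / Real.log N ^ U < ‖∑ v ∈ Icc (-(M : ℤ)) M, θ l v * ∏ i ∈ J, even f ((a l i : ℤ) * v + s i (m i))‖) →
      (((Fintype.piFinset fun i => Icc 1 (x i)).filter bad).card : ℝ) ≤ (∏ i, (x i : ℝ)) / Real.log N ^ U := by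
  obtain ⟨n1, h1⟩ := ev_small T U
  obtain ⟨n3, h3⟩ := tuples_two f hev k B T (U + 1)
  refine ⟨n1 + n3, fun N hN x s hs L hL a θ ha hθ bad hb => ?_⟩
  have h2 := h1 N (by omega)
  have hpos : 0 < Real.log (N : ℝ) := by linarith [h2.1]
  have h4 := h3 N (by omega) x s hs L hL a θ ha hθ bad (by
    intro m hm
    obtain ⟨l, J, hJ, M, hM, hb⟩ := hb m hm
    refine ⟨l, J, hJ, M, hM, ?_⟩
    have h4 := half (fun v => θ l v * ∏ i ∈ J, even f ((a l i : ℤ) * v + s i (m i))) M N T U h2 (by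
      rw [norm_mul, norm_prod]
      calc _ ≤ Real.log N ^ T * 1 := mul_le_mul (hθ l _) (prod_le_one (fun _ _ => norm_nonneg _) (fun _ _ => hev _))
            (prod_nonneg fun _ _ => norm_nonneg _) (by positivity)
        _ = _ := mul_one _) hb
    simp only [mul_neg] at h4
    exact h4)
  refine h4.trans (div_le_div_of_nonneg_left (by positivity) (by positivity) (pow_le_pow_right₀ (by linarith [h2.1]) (by omega)))

end Pool.Agent.Q25.TPol
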