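import Pool.Agent.TH892.CF3

set_option autoImplicit false

/-!
# Almost all polynomials of height at most `H`, all lengths simultaneously: positive prime values

From the theorems `exc_box` and `CF_box` of the starting library (`Pool.Agent.TH892`).
-/

namespace Pool.Agent.Q25.Tri

open Finset Polynomial Filter Topology
open Pool.Agent.TH892
open Pool.Agent.H442R2.EHI (evt_log_pow evt_log_ge)
open Pool.Agent.H300R2.BH
open Pool.Agent.H300R2.FB
open Pool.Agent.W468.ConjF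

/-- the polynomials of the box with a small leading coefficient are few -/
lemma lead_small {j : ℕ} (hj : 1 ≤ j) (H : ℕ) (y : ℝ) (hy : 0 ≤ y) (P : (Fin (j + 1) → ℤ) → Prop) [DecidablePred P]
    (hP : ∀ c ∈ box j H, P c → ((c (Fin.last j)).toNat : ℝ) ≤ y) :
    (((box j H).filter P).card : ℝ) ≤ ((bx j (fun _ => H)).card : ℝ) * ((2 * H + 1 : ℕ) : ℝ) * y := by
  classical
  have h1 : (((box j H).filter P).card : ℝ) ≤ ∑ c ∈ box j H, (if ((c (Fin.last j)).toNat : ℝ) ≤ y then (1 : ℝ) else 0) := by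
    rw [card_filter]
    push_cast
    apply sum_le_sum
    intro c hc
    split_ifs with h h' h'
    · exact le_rfl
    · exact absurd (hP c hc h) h'
    · norm_num
    · exact le_rfl
  refine h1.trans ?_
  rw [sum_box hj H (fun _ d => if (d : ℝ) ≤ y then (1 : ℝ) else 0)]
  have h2 : ∑ d ∈ Ioc 0 H, (if (d : ℝ) ≤ y then (1 : ℝ) else 0) ≤ y := by
    rw [← sum_filter, sum_const, nsmul_eq_mul, mul_one]
    have h3 : (Ioc 0 H).filter (fun d : ℕ => (d : ℝ) ≤ y) ⊆ Ioc 0 ⌊y⌋₊ := by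
      intro d hd
      rw [mem_filter, mem_Ioc] at hd
      rw [mem_Ioc]
      exact ⟨hd.1.1, Nat.le_floor hd.2⟩
    have h4 := card_le_card h3
    rw [Nat.card_Ioc, Nat.sub_zero] at h4
    exact (Nat.cast_le.2 h4).trans (Nat.floor_le hy)
  calc ∑ _r ∈ bx j (fun _ => H), ∑ _a ∈ Ioc 0 (0 + (2 * H + 1)), ∑ d ∈ Ioc 0 H, (if (d : ℝ) ≤ y then (1 : ℝ) else 0)
      ≤ ∑ _r ∈ bx j (fun _ => H), ∑ _a ∈ Ioc 0 (0 + (2 * H + 1)), y := by
        refine sum_le_sum fun r _ => sum_le_sum fun a _ => h2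
    _ = _ := by
        simp only [sum_const, Nat.card_Ioc, nsmul_eq_mul]
        rw [show 0 + (2 * H + 1) - 0 = 2 * H + 1 by omega]
        ring

/-- positive prime values, all lengths `K` simultaneously -/
theorem pos_box (j : ℕ) (hj : 1 ≤ j) (ε : ℝ) (hε : 0 < ε) (U : ℕ) : ∃ E1 : ℕ, ∀ E : ℕ, E1 ≤ E →
    ∃ B H0 : ℕ, ∀ H : ℕ, H0 ≤ H → ∀ (P : (Fin (j + 1) → ℤ) → Prop) [DecidablePred P],
    (∀ c ∈ box j H, P c → (∀ p : ℕ, p.Prime → p ≤ ⌊Real.log H ^ E⌋₊ → rho (pol c) p ≠ p) ∧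
      ∃ K : ℕ, (H : ℝ) ^ ε ≤ K ∧ (K : ℝ) * Real.log H ^ B ≤ H ∧
        SS ⌊Real.log H ^ E⌋₊ (pol c) * lF (pol c) K / Real.log H ^ U <
        |pv (pol c) K - SS ⌊Real.log H ^ E⌋₊ (pol c) * lF (pol c) K|) →
    (((box j H).filter P).card : ℝ) ≤ ((box j H).card : ℝ) / Real.log H ^ U := by
  classical
  obtain ⟨E1, hE1⟩ := exc_box j hj ε hε (U + 2)
  refine ⟨E1 + 1, fun E hE => ?_⟩
  obtain ⟨B, x1, hb⟩ := hE1 E (by omega)
  obtain ⟨x2, hSS⟩ := SS_small (E - 1)
  rw [show E - 1 + 1 = E by omega] at hSS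
  obtain ⟨c, hc, hSSl⟩ := SS_lower j hj
  have hlogs : ∀ᶠ x : ℕ in atTop, (E * Real.log (Real.log x)) ^ (2 * j) * (4 * (j + 2)) ≤
      c * Real.log x := by
    have h1 : (fun t : ℝ => Real.log t ^ (2 * j)) =o[atTop] fun t : ℝ => t :=
      Real.isLittleO_pow_log_id_atTop
    have h2 := h1.bound (show (0:ℝ) < c / ((4 * (j + 2)) * (1 + E) ^ (2 * j)) by positivity)
    have h3 := (Real.tendsto_log_atTop.comp (tendsto_natCast_atTop_atTop (R := ℝ))).eventually h2
    filter_upwards [h3, evt_log_ge (Real.exp 1)] with x hx hx2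
    simp only [Function.comp] at hx
    have ht0 : 0 < Real.log x := lt_of_lt_of_le (Real.exp_pos 1) hx2
    have hl : 1 ≤ Real.log (Real.log x) := by
      rw [Real.le_log_iff_exp_le ht0]; exact hx2
    rw [Real.norm_of_nonneg (by positivity), Real.norm_of_nonneg ht0.le] at hx
    calc (E * Real.log (Real.log x)) ^ (2 * j) * (4 * (j + 2))
        ≤ ((1 + E) * Real.log (Real.log x)) ^ (2 * j) * (4 * (j + 2)) := by
          gcongr
          linarith
      _ = ((4 * (j + 2)) * (1 + E) ^ (2 * j)) * Real.log (Real.log x) ^ (2 * j) := by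
          rw [mul_pow]; ring
      _ ≤ ((4 * (j + 2)) * (1 + E) ^ (2 * j)) * (c / ((4 * (j + 2)) * (1 + E) ^ (2 * j)) *
          Real.log x) := by gcongr
      _ = c * Real.log x := by field_simp
  have hev : ∀ᶠ H : ℕ in atTop, x1 ≤ H ∧ x2 ≤ H ∧ 8 ≤ Real.log H ∧ (j : ℝ) ≤ Real.log H ∧
      Real.log H ^ (2 * U + 10) ≤ (H:ℝ) ^ ε ∧ (j + 1) ≤ H ∧ 6 * (j:ℝ) ≤ (H:ℝ) ^ ε ∧
      (E * Real.log (Real.log H)) ^ (2 * j) * (4 * (j + 2)) ≤ c * Real.log H := by
    filter_upwards [eventually_ge_atTop x1, eventually_ge_atTop x2,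
      evt_log_ge 8, evt_log_ge j, evt_log_pow (2 * U + 10) ε hε,
      evt_log_pow 1 ε hε, eventually_ge_atTop (j + 1), hlogs, evt_log_ge (6 * j)]
      with H h1 h2 h3 h4 h5 h6 h7 h8 h9
    refine ⟨h1, h2, h3, h4, h5, h7, ?_, h8⟩
    rw [pow_one] at h6
    linarith
  obtain ⟨H0, hH0⟩ := eventually_atTop.mp hev
  refine ⟨B, H0, fun H hH P _ hP => ?_⟩
  obtain ⟨hx1, hx2, hL8, hLj, hLU, hjH, hjK, hll⟩ := hH0 H hH
  obtain ⟨hz3, hSSz⟩ := hSS H hx2
  have hkey := hb H hx1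
  clear hb hH0 hE1
  set L := Real.log H with hLdef
  set z := ⌊L ^ E⌋₊ with hz
  have hL0 : 0 < L := by linarith
  have hL1 : 1 ≤ L := by linarith
  have hLp0 : ∀ n : ℕ, 0 < L ^ n := fun n => by positivity
  have hLp : ∀ n : ℕ, 1 ≤ L ^ n := fun n => one_le_pow₀ hL1
  have hH0' : (0 : ℝ) < H := by exact_mod_cast (by omega : 0 < H)
  -- small leading coefficients
  have g1 : (((box j H).filter (fun c => ((c (Fin.last j)).toNat : ℝ) ≤ H / L ^ (U + 1))).card : ℝ) ≤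
      ((box j H).card : ℝ) / L ^ (U + 1) := by
    refine (lead_small hj H (H / L ^ (U + 1)) (by positivity) _ (fun c _ h => h)).trans (le_of_eq ?_)
    rw [card_box hj H]
    ring
  -- the other ones
  have g2 : (((box j H).filter (fun c => P c ∧ ¬ ((c (Fin.last j)).toNat : ℝ) ≤ H / L ^ (U + 1))).card : ℝ) ≤
      ((box j H).card : ℝ) / L ^ (U + 2) := by
    apply hkey
    intro c0 hc0 ⟨hPc, hlead⟩
    obtain ⟨hnf, K, hK1, hK2, hK3⟩ := hP c0 hc0 hPc
    refine ⟨hnf, K, hK1, hK2, ?_⟩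
    by_contra hcon
    rw [not_lt] at hcon
    apply absurd hK3
    rw [not_lt]
    have hKH : K ≤ H := by
      have : (K:ℝ) ≤ H := by
        calc (K:ℝ) ≤ K * L ^ B := le_mul_of_one_le_right (Nat.cast_nonneg _) (hLp _)
          _ ≤ H := hK2
      exact_mod_cast this
    have h6j : 6 * j ≤ K := by
      have : 6 * (j:ℝ) ≤ K := hjK.trans hK1
      exact_mod_cast this
    have hla := la_lower j hj hjH hKH h6j hc0
    rw [← hLdef] at hla
    have hs1 := hSSl z hz3 (pol c0) (pol_natDegree_le c0) hnf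
    have hzle : (z:ℝ) ≤ L ^ E := Nat.floor_le (by positivity)
    have hzr : (3:ℝ) ≤ z := by exact_mod_cast hz3
    have hlogz : Real.log z ≤ E * Real.log L := by
      rw [← Real.log_pow]
      exact Real.log_le_log (by linarith) hzle
    have hlogz0 : 0 < Real.log z := Real.log_pos (by linarith)
    have h3 : 4 * (j + 2) / L ≤ SS z (pol c0) := by
      refine le_trans ?_ hs1
      rw [div_le_div_iff₀ hL0 (by positivity)]
      calc 4 * ((j:ℝ) + 2) * Real.log z ^ (2 * j) ≤ 4 * (j + 2) * (E * Real.log L) ^ (2 * j) := by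
            gcongr
        _ = (E * Real.log L) ^ (2 * j) * (4 * (j + 2)) := by ring
        _ ≤ c * L := hll
    have hSS0 : 0 ≤ SS z (pol c0) := le_trans (by positivity) h3
    obtain ⟨s1, s2⟩ := hSSz (pol c0)
    obtain ⟨c1, c2, c3⟩ := abs_conv (pol c0) K (j * H / (c0 (Fin.last j)).toNat)
      (fun k hk _ => eval_nonneg hj hc0 hk)
    have hcl : 0 < ((c0 (Fin.last j)).toNat : ℝ) := by
      rw [not_le] at hlead
      exact lt_of_le_of_lt (by positivity) hlead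
    have hK1 : ((j * H / (c0 (Fin.last j)).toNat : ℕ) : ℝ) ≤ L ^ (U + 2) := by
      refine (Nat.cast_div_le).trans ?_
      rw [div_le_iff₀ hcl]
      push_cast
      rw [not_le, div_lt_iff₀ (hLp0 _)] at hlead
      calc (j : ℝ) * H ≤ L * H := mul_le_mul_of_nonneg_right hLj hH0'.le
        _ ≤ L * (((c0 (Fin.last j)).toNat : ℝ) * L ^ (U + 1)) := mul_le_mul_of_nonneg_left hlead.le hL0.le
        _ = L ^ (U + 2) * ((c0 (Fin.last j)).toNat : ℝ) := by ring
    obtain ⟨K₁, hK₁⟩ : ∃ K₁ : ℝ, K₁ = ((j * H / (c0 (Fin.last j)).toNat : ℕ) : ℝ) := ⟨_, rfl⟩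
    rw [← hK₁] at c1 c3 hK1
    have hK₁0 : 0 ≤ K₁ := by rw [hK₁]; exact Nat.cast_nonneg _
    obtain ⟨S, hS⟩ : ∃ S, S = SS z (pol c0) := ⟨_, rfl⟩
    obtain ⟨A, hA⟩ : ∃ A, A = la (pol c0) K := ⟨_, rfl⟩
    obtain ⟨Fv, hFv⟩ : ∃ Fv, Fv = lF (pol c0) K := ⟨_, rfl⟩
    obtain ⟨pa', hpa⟩ : ∃ x, x = pa (pol c0) K := ⟨_, rfl⟩
    obtain ⟨pv', hpv⟩ : ∃ x, x = pv (pol c0) K := ⟨_, rfl⟩
    rw [← hS] at h3 s1 s2 hcon ⊢
    rw [← hA] at hla c2 c3 hcon
    rw [← hFv] at c2 c3 ⊢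
    rw [← hpa] at c1 hcon
    rw [← hpv] at c1 ⊢
    have hKbig : L ^ (2 * U + 10) ≤ K := hLU.trans ‹(H : ℝ) ^ ε ≤ K›
    -- the main term
    have m1 : 2 * (K : ℝ) / L ^ 2 ≤ S * A := by
      have e : 2 * (K : ℝ) / L ^ 2 = (4 * (j + 2) / L) * (K / (2 * (j + 2) * L)) := by
        field_simp
        ring
      rw [e]
      exact mul_le_mul h3 hla (by positivity) s1
    have m2 : S * A ≤ S * Fv + 2 * L * K₁ := by
      have : S * (A - Fv) ≤ L * (2 * K₁) := mul_le_mul s2 c3 c2 hL0.le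
      linarith
    have m3 : 2 * L * K₁ + (K₁ + 2 * L * K₁) * (2 * L ^ U) ≤ (K : ℝ) / L ^ 2 := by
      rw [le_div_iff₀ (by positivity)]
      have b1 : 2 * L * K₁ ≤ L ^ 2 * L ^ (U + 2) := by
        apply mul_le_mul _ hK1 hK₁0 (by positivity)
        nlinarith
      have b2 : (K₁ + 2 * L * K₁) * (2 * L ^ U) ≤ (L ^ 2 * L ^ (U + 2)) * (L * L ^ U) := by
        apply mul_le_mul _ _ (by positivity) (by positivity)
        · have : K₁ + 2 * L * K₁ = (1 + 2 * L) * K₁ := by ring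
          rw [this]
          apply mul_le_mul _ hK1 hK₁0 (by positivity)
          nlinarith
        · apply mul_le_mul_of_nonneg_right _ (hLp0 U).le
          linarith
      have b3 : L ^ 2 * L ^ (U + 2) ≤ (L ^ 2 * L ^ (U + 2)) * (L * L ^ U) := by
        apply le_mul_of_one_le_right (by positivity)
        calc (1 : ℝ) = 1 * 1 := by ring
          _ ≤ L * L ^ U := mul_le_mul hL1 (hLp U) (by norm_num) hL0.le
      calc (2 * L * K₁ + (K₁ + 2 * L * K₁) * (2 * L ^ U)) * L ^ 2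
          ≤ (2 * ((L ^ 2 * L ^ (U + 2)) * (L * L ^ U))) * L ^ 2 := by
            apply mul_le_mul_of_nonneg_right _ (by positivity)
            linarith
        _ ≤ (L * ((L ^ 2 * L ^ (U + 2)) * (L * L ^ U))) * L ^ 2 := by
            apply mul_le_mul_of_nonneg_right _ (by positivity)
            apply mul_le_mul_of_nonneg_right (by linarith) (by positivity)
        _ = L ^ (2 * U + 8) := by ring
        _ ≤ L ^ (2 * U + 10) := pow_le_pow_right₀ hL1 (by omega)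
        _ ≤ K := hKbig
    have hKK : 0 ≤ (K : ℝ) / L ^ 2 := by positivity
    have m4 : 0 ≤ (K₁ + 2 * L * K₁) * (2 * L ^ U) := by positivity
    have m5 : 0 ≤ 2 * L * K₁ := by positivity
    have e2 : 2 * (K : ℝ) / L ^ 2 = 2 * ((K : ℝ) / L ^ 2) := by ring
    rw [e2] at m1
    have m6 : (K₁ + 2 * L * K₁) * (2 * L ^ U) ≤ S * Fv := by linarith
    have m7 : 2 * L * K₁ ≤ S * Fv := by linarith
    have hM0 : 0 ≤ S * Fv := m4.trans m6
    have m8 : K₁ + 2 * L * K₁ ≤ S * Fv / L ^ U / 2 := by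
      rw [div_div, le_div_iff₀ (by positivity)]
      linarith
    have m9 : S * A / L ^ (U + 2) ≤ S * Fv / L ^ U / 2 := by
      rw [div_div, div_le_div_iff₀ (hLp0 _) (by positivity), pow_add]
      have hb3 : S * A ≤ 2 * (S * Fv) := by linarith
      calc S * A * (L ^ U * 2) ≤ 2 * (S * Fv) * (L ^ U * 2) := mul_le_mul_of_nonneg_right hb3 (by positivity)
        _ = S * Fv * (L ^ U * 4) := by ring
        _ ≤ S * Fv * (L ^ U * L ^ 2) := by
            apply mul_le_mul_of_nonneg_left _ hM0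
            apply mul_le_mul_of_nonneg_left _ (hLp0 U).le
            nlinarith
    have e3 : pv' - S * Fv = -(pa' - pv') + (pa' - S * A) + S * (A - Fv) := by ring
    have m10 : |S * (A - Fv)| ≤ 2 * L * K₁ := by
      rw [abs_of_nonneg (mul_nonneg s1 c2)]
      have : S * (A - Fv) ≤ L * (2 * K₁) := mul_le_mul s2 c3 c2 hL0.le
      linarith
    rw [e3]
    refine (abs_add_le _ _).trans ?_
    have m11 := abs_add_le (-(pa' - pv')) (pa' - S * A)
    rw [abs_neg] at m11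
    linarith
  have hsub : (box j H).filter P ⊆ (box j H).filter (fun c => ((c (Fin.last j)).toNat : ℝ) ≤ H / L ^ (U + 1)) ∪
      (box j H).filter (fun c => P c ∧ ¬ ((c (Fin.last j)).toNat : ℝ) ≤ H / L ^ (U + 1)) := by
    intro c hc
    rw [mem_filter] at hc
    rw [mem_union, mem_filter, mem_filter]
    by_cases h : ((c (Fin.last j)).toNat : ℝ) ≤ H / L ^ (U + 1)
    · exact Or.inl ⟨hc.1, h⟩
    · exact Or.inr ⟨hc.1, hc.2, h⟩
  have h5 : (((box j H).filter P).card : ℝ) ≤ ((box j H).card : ℝ) / L ^ (U + 1) + ((box j H).card : ℝ) / L ^ (U + 2) := by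
    refine le_trans ?_ (add_le_add g1 g2)
    exact_mod_cast (card_le_card hsub).trans (card_union_le _ _)
  refine h5.trans ?_
  have e : ((box j H).card : ℝ) / L ^ (U + 1) + ((box j H).card : ℝ) / L ^ (U + 2) =
      ((box j H).card : ℝ) / L ^ U * (1 / L + 1 / L ^ 2) := by
    rw [pow_add, pow_add, pow_one]
    field_simp
  rw [e]
  apply mul_le_of_le_one_right (by positivity)
  have a1 : 1 / L ≤ 1 / 8 := one_div_le_one_div_of_le (by norm_num) hL8
  have a2 : 1 / L ^ 2 ≤ 1 / 8 := one_div_le_one_div_of_le (by norm_num) (by nlinarith)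
  linarith

/-- the coefficients of `a x² + b x + c` -/
def vec (t : ℤ × ℤ × ℤ) : Fin (2 + 1) → ℤ := ![t.2.2, t.2.1, t.1]

lemma vec_inj : Function.Injective vec := by
  intro t t' h
  have h0 := congrFun h 0
  have h1 := congrFun h 1
  have h2 := congrFun h 2
  simp only [vec] at h0 h1 h2
  exact Prod.ext h2 (Prod.ext h1 h0)

lemma vec_mem {H : ℕ} {t : ℤ × ℤ × ℤ} (ht : t ∈ Tr H) : vec t ∈ box 2 H := by
  rw [mem_Tr] at ht
  unfold Pool.Agent.TH892.box
  rw [Fintype.mem_piFinset]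
  intro i
  fin_cases i
  · simp only [vec]
    rw [if_neg (by decide), mem_Icc]
    exact ht.2.2
  · simp only [vec]
    rw [if_neg (by decide), mem_Icc]
    exact ht.2.1
  · simp only [vec]
    rw [if_pos (by decide), mem_Icc]
    exact ht.1

lemma pol_vec (t : ℤ × ℤ × ℤ) : pol (vec t) = P t.1 t.2.1 t.2.2 := by
  unfold pol P vec
  rw [Fin.sum_univ_three]
  simp
  ring

lemma card_box2 (H : ℕ) : ((box 2 H).card : ℝ) ≤ ((Tr H).card : ℝ) := by
  have h : (box 2 H) ⊆ (Tr H).image vec := by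
    intro c hc
    rw [mem_image]
    unfold Pool.Agent.TH892.box at hc
    rw [Fintype.mem_piFinset] at hc
    have h0 := hc 0
    have h1 := hc 1
    have h2 := hc 2
    rw [if_neg (by decide)] at h0 h1
    rw [if_pos (by decide)] at h2
    refine ⟨(c 2, c 1, c 0), ?_, ?_⟩
    · rw [mem_Tr]
      rw [mem_Icc] at h0 h1 h2
      exact ⟨h2, h1, h0⟩
    · funext i
      fin_cases i <;> rfl
  exact_mod_cast (card_le_card h).trans card_image_le

/-- the Euler product of the library in terms of the constant of Conjecture F -/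
lemma SS_eq (a b c : ℤ) (h : Admissible a b c) (z : ℕ) (hz : 2 ≤ z) : SS z (P a b c) = 2 * CF a b c z := by
  rw [← euler_eq a b c h z hz (fun _ => P a b c) (fun _ => rfl)]
  unfold SS Pool.Agent.H373R2.BH.eulerProduct
  have hs : (range (z + 1)).filter Nat.Prime = (Icc 1 z).filter Nat.Prime := by
    ext p
    rw [mem_filter, mem_filter, mem_range, mem_Icc]
    constructor
    · rintro ⟨h1, h2⟩
      exact ⟨⟨h2.one_le, by omega⟩, h2⟩
    · rintro ⟨⟨h1, h3⟩, h2⟩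
      exact ⟨by omega, h2⟩
  rw [hs]
  apply prod_congr rfl
  intro p _
  have e : Pool.Agent.H373R2.BH.omegaP (fun _ : Fin 1 => P a b c) p = rho (P a b c) p := by
    unfold Pool.Agent.H373R2.BH.omegaP rho
    congr 1
    apply filter_congr
    intro r _
    rw [exists_const]
  rw [e, pow_one]
  rw [div_eq_mul_inv, mul_comm]

/-- an admissible triple has no fixed prime divisor -/
lemma no_fixed (a b c : ℤ) (h : Admissible a b c) (p : ℕ) (hp : p.Prime) : rho (P a b c) p ≠ p := by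
  obtain ⟨ha, hg, h2, -⟩ := h
  have e : rho (P a b c) p = nr a b c p := by
    unfold rho nr
    congr 1
    apply filter_congr
    intro r _
    rw [eval_P]
  rw [e]
  rcases Nat.lt_or_ge p 3 with h3 | h3
  · have hp2 : p = 2 := by
      have := hp.two_le
      omega
    subst hp2
    rw [nr_two a b c h2]
    split_ifs <;> norm_num
  · by_cases hpa : (p : ℤ) ∣ a
    · by_cases hpb : (p : ℤ) ∣ b
      · rw [nr_none a b c p hpa hpb]
        · omega
        · intro h5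
          have := hg _ hpa hpb h5
          rw [Int.isUnit_iff] at this
          omega
      · rw [nr_lin a b c p hp hpa hpb]
        omega
    · have h4 := nr_odd a b c p hp h3 hpa
      intro h5
      rw [h5] at h4
      have h6 : (jacobiSym (b ^ 2 - 4 * a * c) p) = (p : ℤ) - 1 := by linarith
      have h7 := jacobiSym.trichotomy (b ^ 2 - 4 * a * c) p
      rcases h7 with h8 | h8 | h8 <;> rw [h8] at h6 <;> omega

lemma lF_nonneg (F : ℤ[X]) (K : ℕ) : 0 ≤ lF F K := by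
  unfold lF
  apply sum_nonneg
  intro k hk
  rw [mem_filter] at hk
  apply div_nonneg zero_le_one
  apply Real.log_nonneg
  have : (1 : ℤ) ≤ F.eval (k : ℤ) := by linarith [hk.2]
  exact_mod_cast this

/-- **Conjecture F for almost all triples, all lengths simultaneously.** -/
theorem triples (ε : ℝ) (hε : 0 < ε) (U : ℕ) : ∃ B H₀ : ℕ, ∀ H : ℕ, H₀ ≤ H →
    ∃ Bad ⊆ Tr H, (Bad.card : ℝ) ≤ ((Tr H).card : ℝ) / Real.log H ^ U ∧
    ∀ t ∈ Tr H, t ∉ Bad → Admissible t.1 t.2.1 t.2.2 →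
      ∃ S : ℝ, 0 < S ∧ Tendsto (fun z => CF t.1 t.2.1 t.2.2 z) atTop (𝓝 S) ∧
        ∀ K : ℕ, (H : ℝ) ^ ε ≤ K → (K : ℝ) * Real.log H ^ B ≤ H →
          |(piF t.1 t.2.1 t.2.2 K : ℝ) - 2 * S * lF (P t.1 t.2.1 t.2.2) K| ≤
            2 * S * lF (P t.1 t.2.1 t.2.2) K / Real.log H ^ U := by
  classical
  obtain ⟨E1, h1⟩ := pos_box 2 (by norm_num) ε hε (U + 1)
  obtain ⟨E2, h2⟩ := CF_box (U + 1) (U + 1)
  obtain ⟨B, H1, h1⟩ := h1 (E1 + E2 + 1) (by omega)
  obtain ⟨H2, h2⟩ := h2 (E1 + E2 + 1) (by omega)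
  obtain ⟨H3, h3⟩ := eventually_atTop.mp (evt_log_ge 100)
  obtain ⟨H4, h4⟩ := eventually_atTop.mp (evt_log_pow (U + 1) 1 one_pos)
  refine ⟨B, H1 + H2 + H3 + H4 + 1, fun H hH => ?_⟩
  obtain ⟨X, hX1, hX2, hX3⟩ := h2 H (by omega)
  have hL := h3 H (by omega)
  have hLH := h4 H (by omega)
  rw [Real.rpow_one] at hLH
  replace h1 := h1 H (by omega)
  obtain ⟨L, hLdef⟩ : ∃ L, L = Real.log H := ⟨_, rfl⟩
  rw [← hLdef] at hX2 hX3 hL h1 hLH ⊢
  obtain ⟨z, hz⟩ : ∃ z, z = ⌊L ^ (E1 + E2 + 1)⌋₊ := ⟨_, rfl⟩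
  rw [← hz] at hX3 h1
  have hL0 : 0 < L := by linarith
  have hL1 : 1 ≤ L := by linarith
  have hz2 : 2 ≤ z := by
    rw [hz]
    apply Nat.le_floor
    have : L ≤ L ^ (E1 + E2 + 1) := le_self_pow₀ hL1 (by omega)
    push_cast
    linarith
  have hLp0 : ∀ n : ℕ, 0 < L ^ n := fun n => by positivity
  obtain ⟨Q, hQ⟩ : ∃ Q : (Fin (2 + 1) → ℤ) → Prop, ∀ c, Q c ↔ (∀ p : ℕ, p.Prime → p ≤ z → rho (pol c) p ≠ p) ∧
      ∃ K : ℕ, (H : ℝ) ^ ε ≤ K ∧ (K : ℝ) * L ^ B ≤ H ∧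
        SS z (pol c) * lF (pol c) K / L ^ (U + 1) < |pv (pol c) K - SS z (pol c) * lF (pol c) K| := ⟨_, fun _ => Iff.rfl⟩
  have g1 := h1 Q (fun c _ hc => (hQ c).1 hc)
  have g2 : (((Tr H).filter (fun t => Q (vec t))).card : ℝ) ≤ ((Tr H).card : ℝ) / L ^ (U + 1) := by
    have a1 : ((Tr H).filter (fun t => Q (vec t))).card ≤ ((box 2 H).filter Q).card := by
      apply card_le_card_of_injOn vec
      · intro t ht
        rw [mem_coe, mem_filter] at ht
        rw [mem_coe, mem_filter]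
        exact ⟨vec_mem ht.1, ht.2⟩
      · exact vec_inj.injOn
    refine (Nat.cast_le.2 a1).trans (g1.trans ?_)
    exact div_le_div_of_nonneg_right (card_box2 H) (hLp0 _).le
  have g3 : (((Tr H).filter (fun t => t.2.2 = 0)).card : ℝ) ≤ ((Tr H).card : ℝ) / (2 * H + 1) := by
    have a1 : (Tr H).filter (fun t => t.2.2 = 0) ⊆ Icc (1 : ℤ) H ×ˢ Icc (-(H : ℤ)) H ×ˢ {0} := by
      intro t ht
      rw [mem_filter, mem_Tr] at ht
      rw [mem_product, mem_product, mem_Icc, mem_Icc, mem_singleton]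
      exact ⟨ht.1.1, ht.1.2.1, ht.2⟩
    have a2 := card_le_card a1
    rw [card_product, card_product, Int.card_Icc, Int.card_Icc, card_singleton, mul_one] at a2
    rw [card_Tr, le_div_iff₀ (by positivity)]
    have e1 : ((H : ℤ) + 1 - 1).toNat = H := by omega
    have e2 : ((H : ℤ) + 1 - -(H : ℤ)).toNat = 2 * H + 1 := by omega
    rw [e1, e2] at a2
    have a3 : (((Tr H).filter (fun t => t.2.2 = 0)).card : ℝ) ≤ H * ((2 * H + 1 : ℕ) : ℝ) := by exact_mod_cast a2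
    calc (((Tr H).filter (fun t => t.2.2 = 0)).card : ℝ) * (2 * H + 1) ≤ (H * ((2 * H + 1 : ℕ) : ℝ)) * (2 * H + 1) :=
          mul_le_mul_of_nonneg_right a3 (by positivity)
      _ = _ := by push_cast; ring
  have hT0 : (0 : ℝ) ≤ (Tr H).card := Nat.cast_nonneg _
  refine ⟨X ∪ ((Tr H).filter (fun t => Q (vec t)) ∪ (Tr H).filter (fun t => t.2.2 = 0)), ?_, ?_, ?_⟩
  · intro t ht
    rw [mem_union, mem_union, mem_filter, mem_filter] at ht
    rcases ht with h | h | h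
    · exact hX1 h
    · exact h.1
    · exact h.1
  · have a1 := card_union_le X ((Tr H).filter (fun t => Q (vec t)) ∪ (Tr H).filter (fun t => t.2.2 = 0))
    have a2 := card_union_le ((Tr H).filter (fun t => Q (vec t))) ((Tr H).filter (fun t => t.2.2 = 0))
    have a3 : (((X ∪ ((Tr H).filter (fun t => Q (vec t)) ∪ (Tr H).filter (fun t => t.2.2 = 0))).card : ℕ) : ℝ) ≤
        (X.card : ℝ) + ((((Tr H).filter (fun t => Q (vec t))).card : ℝ) + (((Tr H).filter (fun t => t.2.2 = 0)).card : ℝ)) := by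
      exact_mod_cast a1.trans (Nat.add_le_add_left a2 _)
    refine a3.trans ?_
    have a4 : ((Tr H).card : ℝ) / (2 * H + 1) ≤ ((Tr H).card : ℝ) / L ^ (U + 1) := by
      apply div_le_div_of_nonneg_left hT0 (hLp0 _)
      have : (0 : ℝ) ≤ H := Nat.cast_nonneg _
      linarith
    have a5 : ((Tr H).card : ℝ) / L ^ (U + 1) * 3 ≤ ((Tr H).card : ℝ) / L ^ U := by
      rw [pow_succ, div_mul_eq_mul_div, div_le_div_iff₀ (by positivity) (hLp0 _)]
      have : ((Tr H).card : ℝ) * L ^ U * 3 ≤ ((Tr H).card : ℝ) * L ^ U * L :=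
        mul_le_mul_of_nonneg_left (by linarith) (by positivity)
      linarith
    linarith
  · intro t ht htB hadm
    rw [mem_union, mem_union, mem_filter, mem_filter, not_or, not_or, not_and, not_and] at htB
    obtain ⟨b1, b2, b3⟩ := htB
    replace b2 := b2 ht
    replace b3 := b3 ht
    have ha : 0 < t.1 := hadm.1
    have hD : ¬ IsSquare (t.2.1 ^ 2 - 4 * t.1 * t.2.2) := hadm.2.2.2
    obtain ⟨S, hS0, hS⟩ := CF_tendsto t.1 t.2.1 t.2.2 ha hD
    refine ⟨S, hS0, hS, fun K hK1 hK2 => ?_⟩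
    have hθ0 : 0 < 1 / L ^ (U + 1) := by positivity
    have hθ1 : 1 / L ^ (U + 1) ≤ 1 := by
      rw [div_le_one (hLp0 _)]
      exact one_le_pow₀ hL1
    have c1 := CF_limit t.1 t.2.1 t.2.2 S hS0 hS z (1 / L ^ (U + 1)) hθ1 (hX3 t ht b1 b3 hD)
    have c2 : ¬ (SS z (P t.1 t.2.1 t.2.2) * lF (P t.1 t.2.1 t.2.2) K / L ^ (U + 1) <
        |pv (P t.1 t.2.1 t.2.2) K - SS z (P t.1 t.2.1 t.2.2) * lF (P t.1 t.2.1 t.2.2) K|) := by
      intro hcon
      apply b2
      rw [hQ, pol_vec]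
      exact ⟨fun p hp _ => no_fixed _ _ _ hadm p hp, K, hK1, hK2, hcon⟩
    rw [not_lt, SS_eq _ _ _ hadm z hz2] at c2
    have hpv : pv (P t.1 t.2.1 t.2.2) K = (piF t.1 t.2.1 t.2.2 K : ℝ) := by
      unfold pv piF
      simp only [eval_P]
    rw [hpv] at c2
    obtain ⟨A, hA⟩ : ∃ A, A = lF (P t.1 t.2.1 t.2.2) K := ⟨_, rfl⟩
    have hA0 : 0 ≤ A := by rw [hA]; exact lF_nonneg _ _
    rw [← hA] at c2 ⊢
    obtain ⟨C, hC⟩ : ∃ C, C = CF t.1 t.2.1 t.2.2 z := ⟨_, rfl⟩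
    rw [← hC] at c1 c2
    obtain ⟨θ, hθ⟩ : ∃ θ, θ = 1 / L ^ (U + 1) := ⟨_, rfl⟩
    rw [← hθ] at c1 hθ0 hθ1
    have c3 := abs_le.1 c1
    have c4 : C ≤ 3 * S := by nlinarith
    have c5 : 2 * C * A / L ^ (U + 1) ≤ θ * (6 * S * A) := by
      rw [div_eq_mul_inv, ← one_div, ← hθ, mul_comm]
      apply mul_le_mul_of_nonneg_left _ hθ0.le
      nlinarith
    have c6 : |2 * C * A - 2 * S * A| ≤ θ * (4 * S * A) := by
      have e : 2 * C * A - 2 * S * A = (C - S) * (2 * A) := by ring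
      rw [e, abs_mul, abs_of_nonneg (by positivity : (0:ℝ) ≤ 2 * A)]
      calc |C - S| * (2 * A) ≤ (2 * θ * S) * (2 * A) := mul_le_mul_of_nonneg_right c1 (by positivity)
        _ = θ * (4 * S * A) := by ring
    have e4 : (piF t.1 t.2.1 t.2.2 K : ℝ) - 2 * S * A = ((piF t.1 t.2.1 t.2.2 K : ℝ) - 2 * C * A) + (2 * C * A - 2 * S * A) := by ring
    rw [e4]
    refine (abs_add_le _ _).trans ?_
    have c7 : θ * (10 * S * A) ≤ 2 * S * A / L ^ U := by
      rw [hθ, pow_succ, one_div, mul_inv, div_eq_mul_inv]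
      have hLinv : L⁻¹ ≤ 1 / 100 := by
        rw [inv_le_comm₀ hL0 (by norm_num)]
        linarith
      have hSA : 0 ≤ S * A := mul_nonneg hS0.le hA0
      have h5 : (L ^ U)⁻¹ * (L⁻¹ * (10 * S * A)) ≤ (L ^ U)⁻¹ * (2 * S * A) := by
        apply mul_le_mul_of_nonneg_left _ (inv_nonneg.2 (hLp0 _).le)
        nlinarith
      calc (L ^ U)⁻¹ * L⁻¹ * (10 * S * A) = (L ^ U)⁻¹ * (L⁻¹ * (10 * S * A)) := by ring
        _ ≤ (L ^ U)⁻¹ * (2 * S * A) := h5
        _ = 2 * S * A * (L ^ U)⁻¹ := by ring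
    calc |(piF t.1 t.2.1 t.2.2 K : ℝ) - 2 * C * A| + |2 * C * A - 2 * S * A|
        ≤ θ * (6 * S * A) + θ * (4 * S * A) := add_le_add (c2.trans c5) c6
      _ = θ * (10 * S * A) := by ring
      _ ≤ _ := c7

end Pool.Agent.Q25.Tri
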