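import Pool.Agent.TH464.PW.Quad
import Pool.Agent.TH977.PW.Inst

set_option autoImplicit false

/-!
# The system `x² + 1`, `x² + 3`
-/

namespace Pool.Agent.Q25.TwoSq

open Polynomial
open Pool.Agent.TH464.PW (quad quad_eval quad_irr quad_deg quad_lead)
open Pool.Agent.W123.RU

/-- the constant terms -/
def a (i : Fin 2) : ℤ := if i = 0 then 1 else 3

lemma a_pos (i : Fin 2) : 0 < a i := by unfold a; split_ifs <;> norm_num

lemma not_sq (c : ℤ) (hc : 0 < c) : ¬ IsSquare ((0 : ℤ) ^ 2 - 4 * 1 * c) := by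
  rintro ⟨x, hx⟩
  nlinarith [mul_self_nonneg x]

lemma sys : Poly.Sys (fun i : Fin 2 => quad 1 0 (a i)) where
  irr := fun i => quad_irr 1 0 (a i) one_ne_zero (fun p hp h => by
    have h1 := h.1
    have h2 : p ∣ 1 := by exact_mod_cast h1
    exact hp.one_lt.ne' (Nat.dvd_one.1 h2)) (not_sq (a i) (a_pos i))
  deg := fun i => by rw [quad_deg 1 0 (a i) one_ne_zero]; norm_num
  lead := fun i => by rw [quad_lead 1 0 (a i) one_ne_zero]; norm_num
  inj := fun i j h => by
    have h1 : (quad 1 0 (a i)).eval 0 = (quad 1 0 (a j)).eval 0 := by rw [show quad 1 0 (a i) = quad 1 0 (a j) from h]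
    have h2 : a i = a j := by
      have e1 := quad_eval 1 0 (a i) 0
      have e2 := quad_eval 1 0 (a j) 0
      rw [e1, e2] at h1
      linarith
    unfold a at h2
    fin_cases i <;> fin_cases j <;> simp_all
  adm := fun p hp => by
    by_cases h3 : p = 3
    · subst h3
      refine ⟨1, fun i => ?_⟩
      rw [quad_eval]
      unfold a
      split_ifs <;> norm_num
    · refine ⟨0, fun i => ?_⟩
      rw [quad_eval]
      intro h
      have h4 : (p : ℤ) ∣ a i := by
        have e : 1 * ((0 : ℕ) : ℤ) ^ 2 + 0 * ((0 : ℕ) : ℤ) + a i = a i := by push_cast; ring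
        rwa [e] at h
      unfold a at h4
      split_ifs at h4
      · have h5 : p ∣ 1 := by exact_mod_cast h4
        exact hp.one_lt.ne' (Nat.dvd_one.1 h5)
      · have h5 : p ∣ 3 := by exact_mod_cast h4
        exact h3 ((Nat.prime_dvd_prime_iff_eq hp Nat.prime_three).1 h5)

lemma ev (i : Fin 2) (m : ℕ) : (quad 1 0 (a i)).eval (m : ℤ) = ((m ^ 2 + (if i = 0 then 1 else 3) : ℕ) : ℤ) := by
  rw [quad_eval]
  unfold a
  split_ifs <;> push_cast <;> ring

/-- all prime factors of `m² + 1` and `m² + 3` are larger than `m ^ (1 / r)` -/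
lemma rough_iff (r m : ℕ) : Pool.Agent.TH977.PW.Rough (fun i : Fin 2 => quad 1 0 (a i)) r m ↔
    ∀ p : ℕ, p.Prime → (p ∣ m ^ 2 + 1 ∨ p ∣ m ^ 2 + 3) → (m : ℝ) ^ (1 / (r : ℝ)) < p := by
  unfold Pool.Agent.TH977.PW.Rough
  constructor
  · intro h p hp hd
    rcases hd with hd | hd
    · refine h 0 p hp ?_
      rw [ev]
      exact_mod_cast hd
    · refine h 1 p hp ?_
      rw [ev]
      exact_mod_cast hd
  · intro h i p hp hd
    rw [ev] at hd
    apply h p hp
    split_ifs at hd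
    · left
      exact_mod_cast hd
    · right
      exact_mod_cast hd

lemma few_iff (r m : ℕ) : Pool.Agent.TH977.PW.Few (fun i : Fin 2 => quad 1 0 (a i)) r m ↔
    (m ^ 2 + 1).primeFactorsList.length ≤ r ∧ (m ^ 2 + 3).primeFactorsList.length ≤ r := by
  unfold Pool.Agent.TH977.PW.Few
  constructor
  · intro h
    have h0 := h 0
    have h1 := h 1
    rw [ev, Int.natAbs_natCast] at h0 h1
    exact ⟨h0, h1⟩
  · rintro ⟨h0, h1⟩ i
    rw [ev, Int.natAbs_natCast]
    split_ifs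
    · exact h0
    · exact h1

lemma prime_rough (r : ℕ) (hr : 2 ≤ r) (m : ℕ) (hm : 2 ≤ m) (h1 : (m ^ 2 + 1).Prime) (h3 : (m ^ 2 + 3).Prime) :
    ∀ p : ℕ, p.Prime → (p ∣ m ^ 2 + 1 ∨ p ∣ m ^ 2 + 3) → (m : ℝ) ^ (1 / (r : ℝ)) < p := by
  intro p hp hd
  apply Pool.Agent.TH977.PW.rpow_lt_of_le r m p hr hm
  rcases hd with hd | hd
  · rw [(Nat.prime_dvd_prime_iff_eq hp h1).1 hd]
    nlinarith
  · rw [(Nat.prime_dvd_prime_iff_eq hp h3).1 hd]
    nlinarith

end Pool.Agent.Q25.TwoSq
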