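import Pool.Agent.Y879.GL.HerPoly
import Pool.Agent.Y879.GL.Linear

set_option autoImplicit false

/-!
# Regular points of arbitrary sets of sieved integers, uniformly in the systems of polynomials
-/

namespace Pool.Agent.Q25.UReg

open Polynomial Finset Filter
open Pool.Agent.Y879.GL

/-! ### Definitions -/

open Classical in
/-- the number of the elements of `A` in `(u, v]` -/
noncomputable def N (A : Set ℕ) (u v : ℕ) : ℕ := ((Ioc u v).filter (fun m => m ∈ A)).card

/-- All intervals `(m - s, m + t]` with `s, t ≤ Y` of length at least `1 / (c V)` contain the right order of elements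
of `A`, i.e. between `c V (s + t)` and `V (s + t) / c`. -/
def RightOrder (A : Set ℕ) (V c : ℝ) (Y m : ℕ) : Prop :=
  ∀ s t : ℕ, s ≤ Y → t ≤ Y → 1 / V ≤ c * (s + t) →
    c * (s + t) * V ≤ N A (m - s) (m + t) ∧ (N A (m - s) (m + t) : ℝ) ≤ (s + t) * V / c

/-- Up to `δ`, `A` has a constant density on both sides of `m` up to the distance `2 ^ j`. -/
def ConstantDensity (A : Set ℕ) (V c δ : ℝ) (m j : ℕ) : Prop :=
  ∃ lam : ℝ, c ≤ lam ∧ lam ≤ 1 / c ∧ ∀ s t : ℕ, s ≤ 2 ^ j → t ≤ 2 ^ j →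
    |(N A (m - s) (m + t) : ℝ) - lam * (s + t) * V| ≤ δ * 2 ^ j * V

open Classical in
/-- the number of the scales `1 / V ≤ 2 ^ j ≤ Y` without this property -/
noncomputable def badScales (A : Set ℕ) (V c δ : ℝ) (Y m : ℕ) : ℕ :=
  ((range (Nat.log 2 Y + 1)).filter (fun j => 1 / V ≤ (2 : ℝ) ^ j ∧ ¬ ConstantDensity A V c δ m j)).card

/-- The elements of `A` that are not regular points of `A`, relative to the density `V`. -/
def Irregular (A : Set ℕ) (V c δ : ℝ) (B Y : ℕ) : Set ℕ :=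
  {m | m ∈ A ∧ ¬ (RightOrder A V c Y m ∧ badScales A V c δ Y m ≤ B)}

/-! ### Comparison with the library -/

lemma N_eq : N = Pool.Agent.TH977.PW.N := by
  funext A u v
  unfold N Pool.Agent.TH977.PW.N
  rfl

lemma RightOrder_iff (A : Set ℕ) (V c : ℝ) (Y m : ℕ) : RightOrder A V c Y m ↔ RO A (1 / V) c Y m := by
  unfold RightOrder RO
  simp only [N_eq, one_div, div_inv_eq_mul]
  apply forall_congr'; intro s
  apply forall_congr'; intro t
  apply forall_congr'; intro _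
  apply forall_congr'; intro _
  apply forall_congr'; intro _
  have e : (s + t : ℝ) / (c * V⁻¹) = (s + t) * V / c := by
    rw [div_mul_eq_div_div, div_inv_eq_mul]
    ring
  rw [e]

lemma ConstantDensity_iff (A : Set ℕ) (V c δ : ℝ) (m j : ℕ) :
    ConstantDensity A V c δ m j ↔ CD A (1 / V) c δ m j := by
  unfold ConstantDensity CD
  simp only [N_eq, div_div_eq_mul_div, div_one]

open Classical in
lemma badScales_eq (A : Set ℕ) (V c δ : ℝ) (Y m : ℕ) : badScales A V c δ Y m = bS A (1 / V) c δ Y m := by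
  unfold badScales bS
  refine congrArg card (Finset.ext fun j => ?_)
  simp only [mem_filter, ConstantDensity_iff]

lemma Irregular_eq (A : Set ℕ) (V c δ : ℝ) (B Y : ℕ) : Irregular A V c δ B Y = Irr A (1 / V) c δ B Y := by
  unfold Irregular Irr
  simp only [RightOrder_iff, badScales_eq]

/-! ### Few translates -/

lemma shift_inj {g : ℤ[X]} (hg : g.natDegree ≠ 0) {t t' : ℕ}
    (h : g.comp (X + C (t : ℤ)) = g.comp (X + C (t' : ℤ))) : t = t' := by
  by_contra hne
  wlog hlt : t < t' generalizing t t'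
  · exact this h.symm (Ne.symm hne) (by omega)
  -- `g` has the period `s`
  obtain ⟨s, hs⟩ : ∃ s : ℤ, s = (t' : ℤ) - t := ⟨_, rfl⟩
  have hs0 : 0 < s := by omega
  have hper : ∀ x : ℤ, g.eval (x + s) = g.eval x := by
    intro x
    have h1 := congrArg (fun q => q.eval (x - t)) h
    simp only [eval_comp, eval_add, eval_X, eval_C] at h1
    rw [show x - (t : ℤ) + t = x by ring, show x - (t : ℤ) + t' = x + s by rw [hs]; ring] at h1
    exact h1.symm
  have hall : ∀ n : ℕ, g.eval ((n : ℤ) * s) = g.eval 0 := by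
    intro n
    induction n with
    | zero => simp
    | succ n ih =>
      rw [show ((n + 1 : ℕ) : ℤ) * s = (n : ℤ) * s + s by push_cast; ring, hper, ih]
  have hc : g = C (g.eval 0) := by
    apply Polynomial.eq_of_infinite_eval_eq
    have hinf : Set.Infinite (Set.range fun n : ℕ => (n : ℤ) * s) := by
      apply Set.infinite_range_of_injective
      intro a b hab
      have := mul_right_cancel₀ hs0.ne' hab
      exact_mod_cast this
    refine hinf.mono ?_
    rintro _ ⟨n, rfl⟩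
    change g.eval _ = (C (g.eval 0)).eval _
    rw [eval_C, hall]
  apply hg
  rw [hc, natDegree_C]

open Classical in
/-- there are at most `2 k ^ 2` exceptional shifts -/
lemma few_translates {k : ℕ} (f : Fin k → ℤ[X]) (hf : ∀ i, (f i).natDegree ≠ 0) (U : ℝ) :
    ∃ E0 : Finset ℕ, E0.card ≤ 2 * k ^ 2 ∧ NoAs f E0 U := by
  obtain ⟨E0, hE0⟩ : ∃ E0 : Finset ℕ, E0 = (range (⌊U⌋₊ + 1)).filter
    (fun t : ℕ => ∃ i j, Associated (f i) ((f j).comp (X + C (t : ℤ)))) := ⟨_, rfl⟩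
  refine ⟨E0, ?_, ?_⟩
  · have hmem : ∀ t ∈ E0, ∃ w : Fin k × Fin k × Bool,
        f w.1 = (if w.2.2 then (1 : ℤ[X]) else -1) * (f w.2.1).comp (X + C (t : ℤ)) := by
      intro t ht
      rw [hE0, mem_filter] at ht
      obtain ⟨i, j, hij⟩ := ht.2
      rcases assoc_cases hij with h | h
      · exact ⟨(i, j, true), by simp [h]⟩
      · exact ⟨(i, j, false), by simp [h]⟩
    choose w hw using hmem
    have hinj : ∀ a b : {t // t ∈ E0}, w a.1 a.2 = w b.1 b.2 → a = b := by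
      intro a b hab
      have h1 := hw a.1 a.2
      have h2 := hw b.1 b.2
      rw [hab] at h1
      rw [h1] at h2
      apply Subtype.ext
      by_cases hc : (w b.1 b.2).2.2 = true
      · simp only [hc, if_true, one_mul] at h2
        exact shift_inj (hf _) h2
      · simp only [hc, if_false, neg_mul, one_mul, neg_inj, Bool.false_eq_true] at h2
        exact shift_inj (hf _) h2
    calc E0.card = (univ : Finset {t // t ∈ E0}).card := by rw [card_univ, Fintype.card_coe]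
      _ ≤ (univ : Finset (Fin k × Fin k × Bool)).card :=
          card_le_card_of_injOn (fun a => w a.1 a.2) (fun _ _ => mem_coe.2 (mem_univ _))
            (fun a _ b _ h => hinj a b h)
      _ = 2 * k ^ 2 := by
          rw [card_univ, Fintype.card_prod, Fintype.card_prod, Fintype.card_fin, Fintype.card_bool]
          ring
  · intro i j t ht htU htE h
    apply htE
    rw [hE0, mem_filter, mem_range]
    refine ⟨?_, i, j, h⟩
    have := Nat.le_floor htU
    omega

/-- **Regular points, uniformly in the systems of polynomials** -/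
theorem reg (k D : ℕ) (E θ : ℝ) (hE : 0 < E) (hθ : 0 < θ) :
    ∃ r0 : ℕ, 2 ≤ r0 ∧ ∀ r : ℕ, r0 ≤ r → ∀ Cv : ℝ, 0 < Cv → ∀ ε : ℝ, 0 < ε → ∃ c : ℝ, 0 < c ∧
      ∀ δ : ℝ, 0 < δ → ∃ B : ℕ, ∀ᶠ X : ℕ in atTop, ∀ f : Fin k → ℤ[X], US k D ((X : ℝ) ^ E) 0 f →
      Pool.Agent.W123.RP.Vq (Pool.Agent.W123.RU.Poly.Q f) ⌊(X : ℝ) ^ (1 / (r : ℝ))⌋₊ ≤ Cv / Real.log X →
      ∀ u Y : ℕ, (X : ℝ) ^ θ ≤ Y → Y ≤ X → Y ≤ u →
      ∀ A : Set ℕ, (∀ m ∈ A, Pool.Agent.TH464.PO.Sf (Pool.Agent.W123.RU.Poly.Q f) ⌊(X : ℝ) ^ (1 / (r : ℝ))⌋₊ m) →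
        (N (Irregular A (Pool.Agent.W123.RP.Vq (Pool.Agent.W123.RU.Poly.Q f) ⌊(X : ℝ) ^ (1 / (r : ℝ))⌋₊) c δ B Y)
          u (u + Y) : ℝ) ≤ ε * (Y * Pool.Agent.W123.RP.Vq (Pool.Agent.W123.RU.Poly.Q f) ⌊(X : ℝ) ^ (1 / (r : ℝ))⌋₊) := by
  obtain ⟨r0, hr0, h⟩ := hered_polys k D (2 * k ^ 2) E 1 θ hE one_pos hθ
  refine ⟨r0, hr0, fun r hr Cv hCv ε hε => ?_⟩
  obtain ⟨c, hc, h1⟩ := h r hr Cv hCv ε hε
  refine ⟨c, hc, fun δ hδ => ?_⟩
  obtain ⟨B, hB⟩ := h1 δ hδ
  refine ⟨B, ?_⟩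
  filter_upwards [hB] with X hX f hf hV u Y hXY hYX hYu A hA
  obtain ⟨E0, hE0, hno⟩ := few_translates f hf.deg ((X : ℝ) ^ (1 : ℝ))
  rw [Irregular_eq, N_eq]
  exact hX f hf E0 hE0 hno hV u Y hXY hYX hYu A hA

/-! ### Linear forms -/

/-- two different forms have different roots modulo the primes not dividing `D` -/
lemma lin_V (E : ℝ) (hE : 0 < E) (r : ℕ) (hr : 2 ≤ r) : ∃ M : ℝ, 0 < M ∧ ∀ᶠ X : ℕ in atTop, ∀ (k : ℕ) (a b : Fin k → ℤ),
    (∀ i, 0 < a i) → (∀ i, (a i : ℝ) ≤ (X : ℝ) ^ E) → (∀ i, |(b i : ℝ)| ≤ (X : ℝ) ^ E) →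
    (∀ i, IsCoprime (a i) (b i)) → (∀ p : ℕ, p.Prime → ∃ m : ℕ, ∀ i, ¬ (p : ℤ) ∣ a i * m + b i) →
    (∃ i j, ¬ (a i = a j ∧ b i = b j)) →
      Pool.Agent.W123.RP.Vq (Pool.Agent.W123.RU.Poly.Q (fun i => lf (a i) (b i))) ⌊(X : ℝ) ^ (1 / (r : ℝ))⌋₊ ≤ M / Real.log X := by
  obtain ⟨M, hM, h⟩ := V2_up (4 * E + 1) (by positivity) r hr
  refine ⟨M, hM, ?_⟩
  filter_upwards [h, eventually_ge_atTop 2] with X hX hX2 k a b ha haH hbH hab hadm hex
  obtain ⟨i, j, hij⟩ := hex
  have hXr : (2 : ℝ) ≤ X := by exact_mod_cast hX2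
  have hH1 : (1 : ℝ) ≤ (X : ℝ) ^ E := Real.one_le_rpow (by linarith) hE.le
  -- the determinant
  have hdet : a i * b j - a j * b i ≠ 0 := by
    intro h0
    apply hij
    have h1 : a i * b j = a j * b i := by linarith
    have h2 : a i ∣ a j := (hab i).dvd_of_dvd_mul_right ⟨b j, by rw [← h1]⟩
    have h3 : a j ∣ a i := (hab j).dvd_of_dvd_mul_right ⟨b i, by rw [h1]⟩
    have h4 : a i = a j := Int.dvd_antisymm (ha i).le (ha j).le h2 h3
    refine ⟨h4, ?_⟩
    rw [h4] at h1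
    exact (mul_left_cancel₀ (ha j).ne' h1).symm
  have hUS : US k 1 ((X : ℝ) ^ E) 0 (fun i => lf (a i) (b i)) :=
    us_lf k a b _ 0 (fun i => (ha i).ne') hab (fun i => by
      rw [abs_of_pos (by exact_mod_cast ha i)]
      exact haH i) hbH hadm (fun i j t ht ht0 => absurd ht0 (by
        have : (1 : ℝ) ≤ t := by exact_mod_cast ht
        linarith))
  refine hX (Pool.Agent.W123.RU.Poly.Q (fun i => lf (a i) (b i)))
    (a i * a j * (a i * b j - a j * b i)).natAbs (us_adm hUS) ?_ ?_ ?_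
  · exact Nat.one_le_iff_ne_zero.2 (Int.natAbs_ne_zero.2 (mul_ne_zero (mul_ne_zero (ha i).ne' (ha j).ne') hdet))
  · have e : (((a i * a j * (a i * b j - a j * b i)).natAbs : ℕ) : ℝ) =
        |(a i : ℝ)| * |(a j : ℝ)| * |(a i : ℝ) * b j - a j * b i| := by
      rw [Nat.cast_natAbs]
      push_cast
      rw [abs_mul, abs_mul]
    rw [e]
    have h1 : |(a i : ℝ)| ≤ (X : ℝ) ^ E := by rw [abs_of_pos (by exact_mod_cast ha i)]; exact haH i
    have h2 : |(a j : ℝ)| ≤ (X : ℝ) ^ E := by rw [abs_of_pos (by exact_mod_cast ha j)]; exact haH j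
    have h3 : |(a i : ℝ) * b j - a j * b i| ≤ 2 * ((X : ℝ) ^ E * (X : ℝ) ^ E) := by
      calc |(a i : ℝ) * b j - a j * b i| ≤ |(a i : ℝ) * b j| + |(a j : ℝ) * b i| := abs_sub _ _
        _ = |(a i : ℝ)| * |(b j : ℝ)| + |(a j : ℝ)| * |(b i : ℝ)| := by rw [abs_mul, abs_mul]
        _ ≤ (X : ℝ) ^ E * (X : ℝ) ^ E + (X : ℝ) ^ E * (X : ℝ) ^ E := by
            apply add_le_add
            · exact mul_le_mul h1 (hbH j) (abs_nonneg _) (by positivity)
            · exact mul_le_mul h2 (hbH i) (abs_nonneg _) (by positivity)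
        _ = _ := by ring
    calc |(a i : ℝ)| * |(a j : ℝ)| * |(a i : ℝ) * b j - a j * b i| ≤
          (X : ℝ) ^ E * (X : ℝ) ^ E * (2 * ((X : ℝ) ^ E * (X : ℝ) ^ E)) := by
            apply mul_le_mul (mul_le_mul h1 h2 (abs_nonneg _) (by positivity)) h3 (abs_nonneg _) (by positivity)
      _ = 2 * (X : ℝ) ^ (4 * E) := by
            have : (X : ℝ) ^ (4 * E) = (X : ℝ) ^ E * (X : ℝ) ^ E * ((X : ℝ) ^ E * (X : ℝ) ^ E) := by
              rw [← Real.rpow_add (by linarith), ← Real.rpow_add (by linarith)]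
              congr 1
              ring
            rw [this]
            ring
      _ ≤ (X : ℝ) ^ (4 * E + 1) := by
            rw [Real.rpow_add (by linarith), Real.rpow_one]
            have : (0 : ℝ) < (X : ℝ) ^ (4 * E) := by positivity
            nlinarith
  · -- two different classes
    intro p hp hpD
    classical
    have hpD' : ¬ (p : ℤ) ∣ a i * a j * (a i * b j - a j * b i) := by
      rwa [Int.natCast_dvd]
    have hpi : ¬ (p : ℤ) ∣ a i := fun h => hpD' ((h.mul_right _).mul_right _)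
    have hpj : ¬ (p : ℤ) ∣ a j := fun h => hpD' ((h.mul_left _).mul_right _)
    have hpd : ¬ (p : ℤ) ∣ a i * b j - a j * b i := fun h => hpD' (h.mul_left _)
    have root : ∀ i, ¬ (p : ℤ) ∣ a i → ∃ m ∈ range p, (p : ℤ) ∣ a i * (m : ℤ) + b i := by
      intro i hi
      have : Fact p.Prime := ⟨hp⟩
      have hai : ((a i : ℤ) : ZMod p) ≠ 0 := by
        rwa [Ne, ZMod.intCast_zmod_eq_zero_iff_dvd]
      refine ⟨(-((b i : ℤ) : ZMod p) / ((a i : ℤ) : ZMod p)).val, mem_range.2 (ZMod.val_lt _), ?_⟩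
      rw [← ZMod.intCast_zmod_eq_zero_iff_dvd]
      push_cast
      rw [ZMod.natCast_zmod_val, mul_div_cancel₀ _ hai]
      ring
    obtain ⟨m, hm, hm2⟩ := root i hpi
    obtain ⟨n, hn, hn2⟩ := root j hpj
    have hmn : m ≠ n := by
      rintro rfl
      apply hpd
      have e : a i * b j - a j * b i = a i * (a j * (m : ℤ) + b j) - a j * (a i * (m : ℤ) + b i) := by ring
      rw [e]
      exact dvd_sub (hn2.mul_left _) (hm2.mul_left _)
    unfold Pool.Agent.H373R2.T7.nuB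
    have hsub : ({m, n} : Finset ℕ) ⊆ (range p).filter
        (fun r => Pool.Agent.W123.RU.Poly.Q (fun i => lf (a i) (b i)) p r) := by
      intro x hx
      rw [mem_insert, mem_singleton] at hx
      rw [mem_filter]
      rcases hx with rfl | rfl
      · exact ⟨hm, i, by rw [lf_eval]; exact hm2⟩
      · exact ⟨hn, j, by rw [lf_eval]; exact hn2⟩
    calc 2 = ({m, n} : Finset ℕ).card := (card_pair hmn).symm
      _ ≤ _ := card_le_card hsub

end Pool.Agent.Q25.UReg
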