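import Pool.Agent.Q25.UReg

set_option autoImplicit false

/-!
# Regular points of arbitrary sets, uniformly in the linear forms and in the tuples
-/

namespace Pool.Agent.Q25.UReg

open Polynomial Finset Filter
open Pool.Agent.Y879.GL

/-! ### Definitions -/

/-- No `a i * m + b i` has a prime factor `≤ X ^ (1 / r)`. -/
def Good {k : ℕ} (a b : Fin k → ℤ) (r X m : ℕ) : Prop :=
  ∀ p : ℕ, p.Prime → (p : ℝ) ≤ (X : ℝ) ^ (1 / (r : ℝ)) → ∀ i, ¬ (p : ℤ) ∣ a i * (m : ℤ) + b i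

open Classical in
/-- The density of these `m`: the product over the primes `p ≤ X ^ (1 / r)` of `1 - ν(p) / p`, where `ν(p)` is the number
of the residue classes `m` modulo `p` with `p ∣ a i * m + b i` for some `i`. -/
noncomputable def V {k : ℕ} (a b : Fin k → ℤ) (r X : ℕ) : ℝ :=
  ∏ p ∈ (Icc 1 ⌊(X : ℝ) ^ (1 / (r : ℝ))⌋₊).filter Nat.Prime,
    (1 - (((range p).filter (fun m : ℕ => ∃ i, (p : ℤ) ∣ a i * (m : ℤ) + b i)).card : ℝ) / p)

/-- No `m + h`, `h ∈ T`, has a prime factor `≤ X ^ (1 / r)`. -/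
def GoodT (T : Finset ℕ) (r X m : ℕ) : Prop :=
  ∀ p : ℕ, p.Prime → (p : ℝ) ≤ (X : ℝ) ^ (1 / (r : ℝ)) → ∀ h ∈ T, ¬ p ∣ m + h

/-- The density of these `m`: the product over the primes `p ≤ X ^ (1 / r)` of `1 - ν(p) / p`, where `ν(p)` is the number
of the residue classes modulo `p` occupied by `T`. -/
noncomputable def VT (T : Finset ℕ) (r X : ℕ) : ℝ :=
  ∏ p ∈ (Icc 1 ⌊(X : ℝ) ^ (1 / (r : ℝ))⌋₊).filter Nat.Prime, (1 - ((T.image (fun h => h % p)).card : ℝ) / p)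

/-! ### Comparison -/

lemma Q_iff {k : ℕ} (a b : Fin k → ℤ) (p m : ℕ) :
    Pool.Agent.W123.RU.Poly.Q (fun i => lf (a i) (b i)) p m ↔ ∃ i, (p : ℤ) ∣ a i * (m : ℤ) + b i := by
  unfold Pool.Agent.W123.RU.Poly.Q
  simp only [lf_eval]

lemma V_eq {k : ℕ} (a b : Fin k → ℤ) (r X : ℕ) :
    V a b r X = Pool.Agent.W123.RP.Vq (Pool.Agent.W123.RU.Poly.Q (fun i => lf (a i) (b i))) ⌊(X : ℝ) ^ (1 / (r : ℝ))⌋₊ := by
  classical
  unfold V Pool.Agent.W123.RP.Vq Pool.Agent.H373R2.T7.nuB Pool.Agent.H373R2.T7.pz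
  apply prod_congr rfl
  intro p _
  congr 3
  refine congrArg card (Finset.ext fun m => ?_)
  simp only [mem_filter, Q_iff]

lemma Good_sf {k : ℕ} (a b : Fin k → ℤ) (r X m : ℕ) (h : Good a b r X m) :
    Pool.Agent.TH464.PO.Sf (Pool.Agent.W123.RU.Poly.Q (fun i => lf (a i) (b i))) ⌊(X : ℝ) ^ (1 / (r : ℝ))⌋₊ m := by
  intro p hp hQ
  unfold Pool.Agent.H373R2.T7.pz at hp
  rw [mem_filter, mem_Icc] at hp
  rw [Q_iff] at hQ
  obtain ⟨i, hi⟩ := hQ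
  refine h p hp.2 ?_ i hi
  exact (Nat.le_floor_iff (by positivity)).1 hp.1.2

/-- **Linear forms.** -/
theorem lin_reg (k : ℕ) (E θ : ℝ) (hE : 0 < E) (hθ : 0 < θ) :
    ∃ r0 : ℕ, 2 ≤ r0 ∧ ∀ r : ℕ, r0 ≤ r → ∀ ε : ℝ, 0 < ε → ∃ c : ℝ, 0 < c ∧ ∀ δ : ℝ, 0 < δ → ∃ B : ℕ,
      ∀ᶠ X : ℕ in atTop, ∀ a b : Fin k → ℤ, (∀ i, 0 < a i) → (∀ i, (a i : ℝ) ≤ (X : ℝ) ^ E) →
        (∀ i, |(b i : ℝ)| ≤ (X : ℝ) ^ E) → (∀ p : ℕ, p.Prime → ∃ m : ℕ, ∀ i, ¬ (p : ℤ) ∣ a i * (m : ℤ) + b i) →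
        (∃ i j, ¬ (a i = a j ∧ b i = b j)) →
        ∀ u Y : ℕ, (X : ℝ) ^ θ ≤ Y → Y ≤ X → Y ≤ u → ∀ A : Set ℕ, (∀ m ∈ A, Good a b r X m) →
          (N (Irregular A (V a b r X) c δ B Y) u (u + Y) : ℝ) ≤ ε * (Y * V a b r X) := by
  obtain ⟨r0, hr0, h⟩ := reg k 1 E θ hE hθ
  refine ⟨r0, hr0, fun r hr ε hε => ?_⟩
  obtain ⟨M, hM, hV⟩ := lin_V E hE r (hr0.trans hr)
  obtain ⟨c, hc, h1⟩ := h r hr M hM ε hε
  refine ⟨c, hc, fun δ hδ => ?_⟩
  obtain ⟨B, hB⟩ := h1 δ hδ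
  refine ⟨B, ?_⟩
  filter_upwards [hB, hV] with X hX hVX a b ha haH hbH hadm hex u Y hXY hYX hYu A hA
  have hab : ∀ i, IsCoprime (a i) (b i) := by
    intro i
    rw [Int.isCoprime_iff_gcd_eq_one]
    by_contra hne
    obtain ⟨p, hp, hpd⟩ := Nat.exists_prime_and_dvd hne
    have h1 : (p : ℤ) ∣ a i := (Int.natCast_dvd_natCast.2 hpd).trans (Int.gcd_dvd_left _ _)
    have h2 : (p : ℤ) ∣ b i := (Int.natCast_dvd_natCast.2 hpd).trans (Int.gcd_dvd_right _ _)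
    obtain ⟨n, hn⟩ := hadm p hp
    exact hn i (dvd_add (h1.mul_right _) h2)
  have hUS : US k 1 ((X : ℝ) ^ E) 0 (fun i => lf (a i) (b i)) :=
    us_lf k a b _ 0 (fun i => (ha i).ne') hab (fun i => by
      rw [abs_of_pos (by exact_mod_cast ha i)]
      exact haH i) hbH hadm (fun i j t ht ht0 => absurd ht0 (by
        have : (1 : ℝ) ≤ t := by exact_mod_cast ht
        linarith))
  rw [V_eq]
  exact hX _ hUS (hVX k a b ha haH hbH hab hadm hex) u Y hXY hYX hYu A (fun m hm => Good_sf a b r X m (hA m hm))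

/-- the number of the classes -/
lemma nu_tuple (T : Finset ℕ) (p : ℕ) (hp : 0 < p) :
    ((range p).filter (fun m : ℕ => ∃ h ∈ T, p ∣ m + h)).card = (T.image (fun h => h % p)).card := by
  apply card_nbij' (fun m => (p - m) % p) (fun c => (p - c) % p)
  · intro m hm
    rw [mem_coe, mem_filter, mem_range] at hm
    obtain ⟨hm1, h, hh, hd⟩ := hm
    rw [mem_coe, mem_image]
    refine ⟨h, hh, ?_⟩
    have h1 : h ≡ p - m [MOD p] := by
      apply Nat.ModEq.add_left_cancel' m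
      rw [Nat.add_sub_cancel' hm1.le]
      exact ((Nat.modEq_zero_iff_dvd).2 hd).trans ((Nat.modEq_zero_iff_dvd).2 dvd_rfl).symm
    exact h1
  · intro c hc
    rw [mem_coe, mem_image] at hc
    obtain ⟨h, hh, rfl⟩ := hc
    rw [mem_coe, mem_filter, mem_range]
    refine ⟨Nat.mod_lt _ hp, h, hh, ?_⟩
    have h1 : (p - h % p) % p + h ≡ (p - h % p) + h % p [MOD p] := (Nat.mod_modEq _ _).add (Nat.mod_modEq _ _).symm
    rw [Nat.sub_add_cancel (Nat.mod_lt _ hp).le] at h1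
    exact (Nat.modEq_zero_iff_dvd).1 (h1.trans ((Nat.modEq_zero_iff_dvd).2 dvd_rfl))
  · intro m hm
    rw [mem_coe, mem_filter, mem_range] at hm
    have hm1 := hm.1
    change (p - (p - m) % p) % p = m
    rcases Nat.eq_zero_or_pos m with h0 | h0
    · subst h0
      simp
    · rw [Nat.mod_eq_of_lt (by omega : p - m < p), show p - (p - m) = m by omega]
      exact Nat.mod_eq_of_lt hm1
  · intro c hc
    rw [mem_coe, mem_image] at hc
    obtain ⟨h, _, rfl⟩ := hc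
    have hm1 := Nat.mod_lt h hp
    change (p - (p - h % p) % p) % p = h % p
    rcases Nat.eq_zero_or_pos (h % p) with h0 | h0
    · rw [h0]
      simp
    · rw [Nat.mod_eq_of_lt (by omega : p - h % p < p), show p - (p - h % p) = h % p by omega]
      exact Nat.mod_eq_of_lt hm1

/-- **Tuples.** -/
theorem tuple_reg (k : ℕ) (hk : 2 ≤ k) (E θ : ℝ) (hE : 0 < E) (hθ : 0 < θ) :
    ∃ r0 : ℕ, 2 ≤ r0 ∧ ∀ r : ℕ, r0 ≤ r → ∀ ε : ℝ, 0 < ε → ∃ c : ℝ, 0 < c ∧ ∀ δ : ℝ, 0 < δ → ∃ B : ℕ,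
      ∀ᶠ X : ℕ in atTop, ∀ T : Finset ℕ, T.card = k → (∀ h ∈ T, (h : ℝ) ≤ (X : ℝ) ^ E) →
        (∀ p : ℕ, p.Prime → (T.image (fun h => h % p)).card < p) →
        ∀ u Y : ℕ, (X : ℝ) ^ θ ≤ Y → Y ≤ X → Y ≤ u → ∀ A : Set ℕ, (∀ m ∈ A, GoodT T r X m) →
          (N (Irregular A (VT T r X) c δ B Y) u (u + Y) : ℝ) ≤ ε * (Y * VT T r X) := by
  classical
  obtain ⟨r0, hr0, h⟩ := lin_reg k E θ hE hθ
  refine ⟨r0, hr0, fun r hr ε hε => ?_⟩
  obtain ⟨c, hc, h1⟩ := h r hr ε hε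
  refine ⟨c, hc, fun δ hδ => ?_⟩
  obtain ⟨B, hB⟩ := h1 δ hδ
  refine ⟨B, ?_⟩
  filter_upwards [hB, eventually_ge_atTop 1] with X hX hX1 T hT hTE hadm u Y hXY hYX hYu A hA
  have hXr : (1 : ℝ) ≤ X := by exact_mod_cast hX1
  obtain ⟨b, hb⟩ : ∃ b : Fin k → ℤ, ∀ i, b i = ((T.orderIsoOfFin hT i : ℕ) : ℤ) := ⟨_, fun _ => rfl⟩
  have hmem : ∀ i, (T.orderIsoOfFin hT i : ℕ) ∈ T := fun i => (T.orderIsoOfFin hT i).2
  have hiff : ∀ p m : ℕ, (∃ i, (p : ℤ) ∣ (1 : ℤ) * (m : ℤ) + b i) ↔ ∃ h ∈ T, p ∣ m + h := by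
    intro p m
    constructor
    · rintro ⟨i, hi⟩
      refine ⟨_, hmem i, ?_⟩
      rw [one_mul, hb] at hi
      exact_mod_cast hi
    · rintro ⟨h, hh, hd⟩
      refine ⟨(T.orderIsoOfFin hT).symm ⟨h, hh⟩, ?_⟩
      rw [hb, OrderIso.apply_symm_apply, one_mul]
      exact_mod_cast hd
  have hVeq : V (fun _ : Fin k => (1 : ℤ)) b r X = VT T r X := by
    unfold V VT
    apply prod_congr rfl
    intro p hp
    rw [mem_filter] at hp
    rw [← nu_tuple T p hp.2.pos]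
    congr 3
    refine congrArg card (Finset.ext fun m => ?_)
    simp only [mem_filter, hiff]
  have hadm' : ∀ p : ℕ, p.Prime → ∃ m : ℕ, ∀ i, ¬ (p : ℤ) ∣ (1 : ℤ) * (m : ℤ) + b i := by
    intro p hp
    by_contra hcon
    push Not at hcon
    have h1 : ((range p).filter (fun m : ℕ => ∃ h ∈ T, p ∣ m + h)).card = p := by
      rw [filter_true_of_mem (fun m _ => (hiff p m).1 (hcon m)), card_range]
    rw [nu_tuple T p hp.pos] at h1
    exact (hadm p hp).ne h1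
  have h2 := hX (fun _ => 1) b (fun _ => one_pos) (fun _ => by
      push_cast
      exact Real.one_le_rpow hXr hE.le) (fun i => by
      rw [hb, Int.cast_natCast, abs_of_nonneg (Nat.cast_nonneg _)]
      exact hTE _ (hmem i)) hadm' (by
      refine ⟨⟨0, by omega⟩, ⟨1, by omega⟩, fun h => ?_⟩
      have h3 := h.2
      rw [hb, hb] at h3
      have h4 : (T.orderIsoOfFin hT ⟨0, by omega⟩ : ℕ) = (T.orderIsoOfFin hT ⟨1, by omega⟩ : ℕ) := by exact_mod_cast h3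
      have h5 := (T.orderIsoOfFin hT).injective (Subtype.ext h4)
      exact absurd (congrArg Fin.val h5) (by norm_num)) u Y hXY hYX hYu A (fun m hm p hp hpX i hd => by
      obtain ⟨h, hh, hd2⟩ := (hiff p m).1 ⟨i, hd⟩
      exact hA m hm p hp hpX h hh hd2)
  rw [hVeq] at h2
  exact h2

end Pool.Agent.Q25.UReg
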