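import Pool.Agent.Q25.UReg2
import Pool.Agent.Q26.BH.PoissonU

set_option autoImplicit false

/-!
# The Poisson law and the gap laws of linear forms, uniformly in the forms
-/

namespace Pool.Agent.Q25.UReg

open Polynomial Finset Filter
open Pool.Agent.Y879.GL

/-! ### Definitions -/

open Classical in
/-- the number of the good integers in `(n, n + T]` -/
noncomputable def count {k : ℕ} (a b : Fin k → ℤ) (r X T n : ℕ) : ℕ :=
  ((Ioc n (n + T)).filter (fun m => Good a b r X m)).card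

/-- the weights of the Poisson law -/
noncomputable def pois (x : ℝ) (j : ℕ) : ℝ := Real.exp (-x) * x ^ j / j.factorial

open Classical in
/-- The Poisson law: in `(Z, Z + Y]` the proportion of the `n` for which the number of the good integers in `(n, n + T]`
belongs to `S` is, up to `ε`, the Poisson probability with expected value `T V`; for all `T V ≤ x₀` and all `S`. -/
def PoissonLaw {k : ℕ} (a b : Fin k → ℤ) (r X Z Y : ℕ) (x₀ ε : ℝ) : Prop :=
  ∀ T : ℕ, T * V a b r X ≤ x₀ → ∀ S : Finset ℕ,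
    |(((Ioc Z (Z + Y)).filter (fun n => count a b r X T n ∈ S)).card : ℝ) -
      Y * ∑ j ∈ S, pois (T * V a b r X) j| ≤ ε * Y

open Classical in
/-- The gap laws: among the good `n ∈ (Z, Z + Y]` the proportion of those with fewer than `l` good integers in
`[n - T, n)` is, up to `ε`, the Poisson probability of a number `< l`; for all `T` and `l ≤ l₀`, and for all `l` and
`T V ≤ x₀`. -/
def GapLaw {k : ℕ} (a b : Fin k → ℤ) (r X Z Y : ℕ) (l₀ : ℕ) (x₀ ε : ℝ) : Prop :=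
  ∀ l T : ℕ, (l ≤ l₀ ∨ T * V a b r X ≤ x₀) →
    |(((Ioc Z (Z + Y)).filter (fun n => Good a b r X n ∧
        ((Ico (n - T) n).filter (fun m => Good a b r X m)).card < l)).card : ℝ) -
      Y * V a b r X * ∑ j ∈ range l, pois (T * V a b r X) j| ≤ ε * (Y * V a b r X)

/-- No form `a i x + b i` is a translate `a j (x + t) + b j` with `1 ≤ t ≤ U`. -/
def NoTranslates {k : ℕ} (a b : Fin k → ℤ) (U : ℝ) : Prop :=
  ∀ i j, ∀ t : ℕ, 1 ≤ t → (t : ℝ) ≤ U → ¬ (a i = a j ∧ b i = b j + a j * t)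

/-! ### The laws -/

lemma Good_iff {k : ℕ} (a b : Fin k → ℤ) (r X m : ℕ) : Good a b r X m ↔
    Pool.Agent.TH464.PO.Sf (Pool.Agent.W123.RU.Poly.Q (fun i => lf (a i) (b i))) ⌊(X : ℝ) ^ (1 / (r : ℝ))⌋₊ m := by
  refine ⟨Good_sf a b r X m, fun h p hp hpX i hi => ?_⟩
  refine h p ?_ ((Q_iff a b p m).2 ⟨i, hi⟩)
  unfold Pool.Agent.H373R2.T7.pz
  rw [mem_filter, mem_Icc]
  exact ⟨⟨hp.one_lt.le, Nat.le_floor hpX⟩, hp⟩

lemma copr {k : ℕ} {a b : Fin k → ℤ} (hadm : ∀ p : ℕ, p.Prime → ∃ m : ℕ, ∀ i, ¬ (p : ℤ) ∣ a i * (m : ℤ) + b i) (i : Fin k) :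
    IsCoprime (a i) (b i) := by
  rw [Int.isCoprime_iff_gcd_eq_one]
  by_contra hne
  obtain ⟨p, hp, hpd⟩ := Nat.exists_prime_and_dvd hne
  have h1 : (p : ℤ) ∣ a i := (Int.natCast_dvd_natCast.2 hpd).trans (Int.gcd_dvd_left _ _)
  have h2 : (p : ℤ) ∣ b i := (Int.natCast_dvd_natCast.2 hpd).trans (Int.gcd_dvd_right _ _)
  obtain ⟨n, hn⟩ := hadm p hp
  exact hn i (dvd_add (h1.mul_right _) h2)

/-- **The laws for linear forms.** -/
theorem lin_laws (k : ℕ) (E η θ : ℝ) (hE : 0 < E) (hη : 0 < η) (hθ : 0 < θ) (l₀ : ℕ) (x₀ ε : ℝ) (hε : 0 < ε) :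
    ∃ r0 : ℕ, 2 ≤ r0 ∧ ∀ r : ℕ, r0 ≤ r →
      ∀ᶠ X : ℕ in atTop, ∀ a b : Fin k → ℤ, (∀ i, 0 < a i) → (∀ i, (a i : ℝ) ≤ (X : ℝ) ^ E) →
        (∀ i, |(b i : ℝ)| ≤ (X : ℝ) ^ E) → (∀ p : ℕ, p.Prime → ∃ m : ℕ, ∀ i, ¬ (p : ℤ) ∣ a i * (m : ℤ) + b i) →
        (∃ i j, ¬ (a i = a j ∧ b i = b j)) → NoTranslates a b ((X : ℝ) ^ η) →
        ∀ Z Y : ℕ, (X : ℝ) ^ θ ≤ Y → PoissonLaw a b r X Z Y x₀ ε ∧ GapLaw a b r X Z Y l₀ x₀ ε := by
  classical
  obtain ⟨r1, h1⟩ := Pool.Agent.Q26.BH.poisson_polys k 1 E η θ hE hη hθ x₀ ε hε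
  obtain ⟨r2, h2⟩ := Pool.Agent.Y879.GL.gap_polys k 1 E η θ hE hη hθ l₀ x₀ ε hε
  refine ⟨max (max r1 r2) 2, le_max_right _ _, fun r hr => ?_⟩
  have hra : r1 ≤ r := ((le_max_left _ _).trans (le_max_left _ _)).trans hr
  have hrb : r2 ≤ r := ((le_max_right _ _).trans (le_max_left _ _)).trans hr
  have hrd : 2 ≤ r := (le_max_right _ _).trans hr
  obtain ⟨M, hM, hV⟩ := lin_V E hE r hrd
  filter_upwards [h1 r hra M, h2 r hrb M, hV] with X g1 g2 hVX a b ha haH hbH hadm hex htr Z Y hY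
  have hUS : US k 1 ((X : ℝ) ^ E) ((X : ℝ) ^ η) (fun i => lf (a i) (b i)) :=
    us_lf k a b _ _ (fun i => (ha i).ne') (copr hadm) (fun i => by
      rw [abs_of_pos (by exact_mod_cast ha i)]
      exact haH i) hbH hadm (fun i j t ht ht0 => ⟨htr i j t ht ht0, fun h => by
        have := ha i
        have := ha j
        omega⟩)
  have hVV := hVX k a b ha haH hbH (copr hadm) hadm hex
  constructor
  · intro T hT S
    rw [V_eq] at hT ⊢
    have g5 := g1 _ hUS hVV Z Y hY T hT S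
    have e1 : ((Ioc Z (Z + Y)).filter (fun n => count a b r X T n ∈ S)) =
        ((Ioc Z (Z + Y)).filter (fun n => Pool.Agent.TH464.PO.Wc (Pool.Agent.TH464.PO.Sf
          (Pool.Agent.W123.RU.Poly.Q (fun i => lf (a i) (b i)))
            ⌊(X : ℝ) ^ (1 / (r : ℝ))⌋₊) n T ∈ S)) := by
      apply filter_congr
      intro n _
      unfold count Pool.Agent.TH464.PO.Wc
      rw [filter_congr (fun m _ => Good_iff a b r X m)]
    rw [e1]
    exact g5
  · intro l T hT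
    rw [V_eq] at hT ⊢
    have g5 := g2 _ hUS hVV Z Y hY l T hT
    have e1 : ((Ioc Z (Z + Y)).filter (fun n => Good a b r X n ∧
            ((Ico (n - T) n).filter (fun m => Good a b r X m)).card < l)) =
        ((Ioc Z (Z + Y)).filter (fun n => Pool.Agent.TH464.PO.Sf
            (Pool.Agent.W123.RU.Poly.Q (fun i => lf (a i) (b i))) ⌊(X : ℝ) ^ (1 / (r : ℝ))⌋₊ n ∧
            ((Ico (n - T) n).filter (Pool.Agent.TH464.PO.Sf
              (Pool.Agent.W123.RU.Poly.Q (fun i => lf (a i) (b i)))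
                ⌊(X : ℝ) ^ (1 / (r : ℝ))⌋₊)).card < l)) := by
      apply filter_congr
      intro n _
      rw [Good_iff a b r X n, filter_congr (fun m _ => Good_iff a b r X m)]
    rw [e1]
    exact g5

end Pool.Agent.Q25.UReg
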