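import Pool.Agent.Q25.UReg5

set_option autoImplicit false

/-!
# Admissibility at the large primes
-/

namespace Pool.Agent.Q25.UReg

open Finset

/-- fewer than `p` linear forms -/
lemma adm_small {k : ℕ} (a b : Fin k → ℤ) (p : ℕ) (hp : p.Prime) (hk : k < p)
    (h : ∀ i, ¬ ((p : ℤ) ∣ a i ∧ (p : ℤ) ∣ b i)) : ∃ m : ℤ, ∀ i, ¬ (p : ℤ) ∣ a i * m + b i := by
  by_contra hcon
  push Not at hcon
  choose g hg using fun m : Fin p => hcon (m : ℕ)
  have hinj : Function.Injective g := by
    intro m n hmn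
    by_contra hne
    have h1 := hg m
    have h2 := hg n
    rw [← hmn] at h2
    have h3 : (p : ℤ) ∣ a (g m) * (((m : ℕ) : ℤ) - ((n : ℕ) : ℤ)) := by
      have e : a (g m) * (((m : ℕ) : ℤ) - ((n : ℕ) : ℤ)) =
          (a (g m) * ((m : ℕ) : ℤ) + b (g m)) - (a (g m) * ((n : ℕ) : ℤ) + b (g m)) := by ring
      rw [e]
      exact dvd_sub h1 h2
    have hp' : Prime (p : ℤ) := Nat.prime_iff_prime_int.1 hp
    rcases hp'.dvd_or_dvd h3 with h4 | h4
    · apply h (g m)
      refine ⟨h4, ?_⟩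
      have h5 : (p : ℤ) ∣ a (g m) * ((m : ℕ) : ℤ) := h4.mul_right _
      exact (Int.dvd_add_right h5).1 h1
    · have hm := m.isLt
      have hn := n.isLt
      have h5 : ((m : ℕ) : ℤ) - ((n : ℕ) : ℤ) = 0 := by
        apply Int.eq_zero_of_abs_lt_dvd h4
        rw [abs_lt]
        constructor <;> omega
      apply hne
      apply Fin.ext
      omega
  have h1 := Fintype.card_le_of_injective g hinj
  rw [Fintype.card_fin, Fintype.card_fin] at h1
  omega

end Pool.Agent.Q25.UReg
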